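import Pool.Agent.Helper50.JefGaussC

/-!
# `kernel_low`: lower order kernels converge in `L¹`
-/

open MeasureTheory Set Filter Topology
open scoped ENNReal

namespace Pool.Agent.Helper50.JG

open Pool.Agent.Helper42.Jef

variable {n : ℕ}

/-- the integrand -/
noncomputable def Jf (μ : ℝ) (l : List (Fin n)) (p : ST n × ℝ) : ℝ :=
  Fl l (μ * p.1.1 + p.2, p.1.2)

theorem measurable_Jf (μ : ℝ) (l : List (Fin n)) : Measurable (Jf μ l) :=
  (measurable_Fl l).comp (by fun_prop)

/-- dominating function -/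
noncomputable def Df (μ : ℝ) (l : List (Fin n)) (z : ST n) : ℝ≥0∞ :=
  ∫⁻ s in Ioc (0 : ℝ) 1, ‖Jf μ l (z, s)‖ₑ

theorem measurable_Df (μ : ℝ) (l : List (Fin n)) : Measurable (Df μ l) :=
  Measurable.lintegral_prod_right' (f := fun p : ST n × ℝ => ‖Jf μ l p‖ₑ)
    (measurable_Jf μ l).enorm

theorem rpow_bound {u : ℝ} (hu : 0 < u) {j : ℕ} (hj : j ≤ 3) :
    u ^ (-(j : ℝ) / 2) ≤ 1 + u ^ (-(3 : ℝ) / 2) := by
  have hj' : (j : ℝ) ≤ 3 := by exact_mod_cast hj
  have hj0 : (0 : ℝ) ≤ j := by positivity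
  have h0 : 0 ≤ u ^ (-(3 : ℝ) / 2) := by positivity
  rcases le_or_gt 1 u with h | h
  · have := Real.rpow_le_one_of_one_le_of_nonpos h (show -(j : ℝ) / 2 ≤ 0 by linarith)
    linarith
  · have := Real.rpow_le_rpow_of_exponent_ge hu h.le (show -(3 : ℝ) / 2 ≤ -(j : ℝ) / 2 by linarith)
    linarith

theorem rpow_split {μ r s : ℝ} (hμ : 0 < μ) (hr : 0 < r) (hs : 0 < s) :
    (μ * r + s) ^ (-(3 : ℝ) / 2) ≤ (μ * r) ^ (-(3 : ℝ) / 4) * s ^ (-(3 : ℝ) / 4) := by
  have hu : 0 < μ * r + s := by positivity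
  have h1 : (μ * r + s) ^ (-(3 : ℝ) / 2) =
      (μ * r + s) ^ (-(3 : ℝ) / 4) * (μ * r + s) ^ (-(3 : ℝ) / 4) := by
    rw [← Real.rpow_add hu]; congr 1; norm_num
  rw [h1]
  have h2 : (μ * r + s) ^ (-(3 : ℝ) / 4) ≤ (μ * r) ^ (-(3 : ℝ) / 4) :=
    Real.rpow_le_rpow_of_nonpos (by positivity) (by linarith) (by norm_num)
  have h3 : (μ * r + s) ^ (-(3 : ℝ) / 4) ≤ s ^ (-(3 : ℝ) / 4) :=
    Real.rpow_le_rpow_of_nonpos hs (by nlinarith) (by norm_num)
  exact mul_le_mul h2 h3 (by positivity) (by positivity)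

theorem lint_rpow (c : ℝ) : ∫⁻ r in Ioc (0 : ℝ) c, ENNReal.ofReal (r ^ (-(3 : ℝ) / 4)) < ∞ := by
  rcases le_or_gt c 0 with hc | hc
  · simp [Ioc_eq_empty_of_le hc]
  have h := intervalIntegral.intervalIntegrable_rpow' (a := 0) (b := c) (r := -(3 : ℝ) / 4)
    (by norm_num)
  rw [intervalIntegrable_iff_integrableOn_Ioc_of_le hc.le] at h
  have h2 := h.2
  rw [hasFiniteIntegral_iff_enorm] at h2
  refine lt_of_le_of_lt (lintegral_mono fun r => ?_) h2
  rw [Real.enorm_eq_ofReal_abs]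
  exact ENNReal.ofReal_le_ofReal (le_abs_self _)

theorem lint_Df {μ : ℝ} (hμ : 0 < μ) (l : List (Fin n)) (hl : l.length ≤ 3) (T : ℝ) :
    ∫⁻ z in Ioo (0 : ℝ) T ×ˢ (univ : Set (Eu n)), Df μ l z < ∞ := by
  obtain ⟨C, hC, h⟩ := g1 n l.length
  have hvol : (volume : Measure (ST n)).restrict (Ioo (0 : ℝ) T ×ˢ (univ : Set (Eu n))) =
      ((volume : Measure ℝ).restrict (Ioo 0 T)).prod (volume : Measure (Eu n)) := by
    have := Measure.prod_restrict (μ := (volume : Measure ℝ)) (ν := (volume : Measure (Eu n)))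
      (Ioo 0 T) univ
    rw [Measure.restrict_univ] at this
    rw [this]; rfl
  rw [hvol, lintegral_prod _ (measurable_Df μ l).aemeasurable]
  have key : ∀ r ∈ Ioo (0 : ℝ) T, ∫⁻ x : Eu n, Df μ l (r, x) ≤
      ENNReal.ofReal C * (1 + ENNReal.ofReal ((μ * r) ^ (-(3 : ℝ) / 4)) *
        ∫⁻ s in Ioc (0 : ℝ) 1, ENNReal.ofReal (s ^ (-(3 : ℝ) / 4))) := by
    intro r hr
    have hswap : ∫⁻ x : Eu n, Df μ l (r, x) =
        ∫⁻ s in Ioc (0 : ℝ) 1, ∫⁻ x : Eu n, ‖Jf μ l ((r, x), s)‖ₑ := by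
      unfold Df
      rw [lintegral_lintegral_swap]
      apply Measurable.aemeasurable
      exact ((measurable_Jf μ l).comp (by fun_prop :
        Measurable (fun p : Eu n × ℝ => (((r, p.1), p.2) : ST n × ℝ)))).enorm
    rw [hswap]
    have h1 : ∀ s ∈ Ioc (0 : ℝ) 1, ∫⁻ x : Eu n, ‖Jf μ l ((r, x), s)‖ₑ ≤
        ENNReal.ofReal C * (1 + ENNReal.ofReal ((μ * r) ^ (-(3 : ℝ) / 4)) *
          ENNReal.ofReal (s ^ (-(3 : ℝ) / 4))) := by
      intro s hs
      have hu : 0 < μ * r + s := by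
        have := mul_pos hμ hr.1
        linarith [hs.1]
      have h2 := h l rfl (μ * r + s) hu
      have h3 : ∫⁻ x : Eu n, ‖Jf μ l ((r, x), s)‖ₑ =
          ∫⁻ x : Eu n, ‖pds l (Gs (μ * r + s)) x‖ₑ := by
        congr 1; funext x
        rw [pds_Gs hu]; rfl
      rw [h3]
      refine h2.trans ?_
      have h4 : C * (μ * r + s) ^ (-(l.length : ℝ) / 2) ≤
          C * (1 + (μ * r) ^ (-(3 : ℝ) / 4) * s ^ (-(3 : ℝ) / 4)) := by
        refine mul_le_mul_of_nonneg_left ?_ hC
        exact (rpow_bound hu hl).trans (by linarith [rpow_split hμ hr.1 hs.1])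
      refine (ENNReal.ofReal_le_ofReal h4).trans (le_of_eq ?_)
      have hr0 : 0 < μ * r := mul_pos hμ hr.1
      have hs0 : 0 < s := hs.1
      rw [ENNReal.ofReal_mul hC, ENNReal.ofReal_add zero_le_one (by positivity),
        ENNReal.ofReal_mul (by positivity), ENNReal.ofReal_one]
    calc ∫⁻ s in Ioc (0 : ℝ) 1, ∫⁻ x : Eu n, ‖Jf μ l ((r, x), s)‖ₑ
        ≤ ∫⁻ s in Ioc (0 : ℝ) 1, ENNReal.ofReal C *
            (1 + ENNReal.ofReal ((μ * r) ^ (-(3 : ℝ) / 4)) *
              ENNReal.ofReal (s ^ (-(3 : ℝ) / 4))) := setLIntegral_mono' measurableSet_Ioc h1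
      _ = _ := by
          have hm : Measurable (fun s : ℝ => ENNReal.ofReal (s ^ (-(3 : ℝ) / 4))) := by fun_prop
          rw [lintegral_const_mul _ (by fun_prop), lintegral_add_left measurable_const,
            lintegral_const_mul _ hm]
          simp
  refine lt_of_le_of_lt (setLIntegral_mono' measurableSet_Ioo key) ?_
  set B : ℝ≥0∞ := ∫⁻ s in Ioc (0 : ℝ) 1, ENNReal.ofReal (s ^ (-(3 : ℝ) / 4)) with hB
  have hBf : B < ∞ := lint_rpow 1
  have hle : ∫⁻ r in Ioo (0 : ℝ) T, ENNReal.ofReal C *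
      (1 + ENNReal.ofReal ((μ * r) ^ (-(3 : ℝ) / 4)) * B) ≤
      ENNReal.ofReal C * (volume (Ioo (0 : ℝ) T) +
        (ENNReal.ofReal (μ ^ (-(3 : ℝ) / 4)) *
          ∫⁻ r in Ioc (0 : ℝ) T, ENNReal.ofReal (r ^ (-(3 : ℝ) / 4))) * B) := by
    have hm : Measurable (fun s : ℝ => ENNReal.ofReal ((μ * s) ^ (-(3 : ℝ) / 4))) := by fun_prop
    rw [lintegral_const_mul _ (by fun_prop), lintegral_add_left measurable_const,
      lintegral_mul_const _ hm]
    simp only [lintegral_const, one_mul, Measure.restrict_apply MeasurableSet.univ, univ_inter]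
    gcongr
    have e1 : ∫⁻ r in Ioo (0 : ℝ) T, ENNReal.ofReal ((μ * r) ^ (-(3 : ℝ) / 4)) =
        ∫⁻ r in Ioo (0 : ℝ) T, ENNReal.ofReal (μ ^ (-(3 : ℝ) / 4)) *
          ENNReal.ofReal (r ^ (-(3 : ℝ) / 4)) := by
      refine setLIntegral_congr_fun measurableSet_Ioo fun r hr => ?_
      have hr0 : 0 < r := hr.1
      rw [Real.mul_rpow hμ.le hr0.le, ENNReal.ofReal_mul (by positivity)]
    rw [e1, lintegral_const_mul _ (by fun_prop)]
    gcongr
    exact Ioo_subset_Ioc_self
  refine lt_of_le_of_lt hle ?_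
  refine ENNReal.mul_lt_top ENNReal.ofReal_lt_top (ENNReal.add_lt_top.2 ⟨?_, ?_⟩)
  · rw [Real.volume_Ioo]; exact ENNReal.ofReal_lt_top
  · exact ENNReal.mul_lt_top (ENNReal.mul_lt_top ENNReal.ofReal_lt_top (lint_rpow T)) hBf

theorem stronglyMeasurable_int (μ : ℝ) (l : List (Fin n)) (S : Set ℝ) :
    StronglyMeasurable (fun z : ST n => ∫ s in S, Jf μ l (z, s)) :=
  StronglyMeasurable.integral_prod_right' (f := Jf μ l) (measurable_Jf μ l).stronglyMeasurable

theorem int_Kr {μ ε : ℝ} (hμ : 0 < μ) (hε : 0 < ε) (hε1 : ε < 1) (l : List (Fin n)) (z : ST n) :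
    ∫ s in ε..1, Kr μ ε s l z = th ε z.1 * ∫ s in Ioc ε 1, Jf μ l (z, s) := by
  rw [intervalIntegral.integral_of_le hε1.le, ← integral_const_mul]
  refine setIntegral_congr_fun measurableSet_Ioc fun s hs => ?_
  show th ε z.1 * pds l (Gs (μ * z.1 + s)) z.2 = th ε z.1 * Jf μ l (z, s)
  rcases le_or_gt z.1 0 with hz | hz
  · rw [th_zero hε hz, zero_mul, zero_mul]
  · have hu : 0 < μ * z.1 + s := by
      have := mul_pos hμ hz
      linarith [hs.1]
    rw [pds_Gs hu]; rfl

theorem continuousOn_Jf {μ : ℝ} (hμ : 0 < μ) (l : List (Fin n)) {z : ST n} (hz : 0 < z.1) :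
    ContinuousOn (fun s => Jf μ l (z, s)) (Icc 0 1) := by
  intro s hs
  have hu : 0 < ((μ * z.1 + s, z.2) : ST n).1 := by
    show 0 < μ * z.1 + s
    have := mul_pos hμ hz
    linarith [hs.1]
  have h1 : ContinuousAt (fun s : ℝ => ((μ * z.1 + s, z.2) : ST n)) s := by fun_prop
  have h2 : ContinuousAt (fun s : ℝ => Fl l ((μ * z.1 + s, z.2) : ST n)) s :=
    ContinuousAt.comp (g := Fl l) (f := fun s : ℝ => ((μ * z.1 + s, z.2) : ST n))
      (Fl_smoothAt l hu).continuousAt h1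
  exact h2.continuousWithinAt

theorem enorm_int_le (μ : ℝ) (l : List (Fin n)) (z : ST n) {S : Set ℝ} (hS : S ⊆ Ioc 0 1) :
    ‖∫ s in S, Jf μ l (z, s)‖ₑ ≤ Df μ l z :=
  (enorm_integral_le_lintegral_enorm _).trans (lintegral_mono_set hS)

/-- lower order kernels (at most three derivatives) converge in `L¹((−∞,T) × ℝⁿ)` as `ε → 0` -/
theorem kernel_low (n : ℕ) {μ : ℝ} (hμ : 0 < μ) (l : List (Fin n)) (hl : l.length ≤ 3) (T : ℝ) :
    ∃ K0 : ST n → ℝ, Integrable K0 ∧ ∀ ε : ℕ → ℝ, (∀ m, 0 < ε m ∧ ε m < 1) →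
      Tendsto ε atTop (𝓝 0) →
      Tendsto (fun m => ∫⁻ z in Iio T ×ˢ (univ : Set (Eu n)),
        ‖(∫ s in (ε m)..1, Kr μ (ε m) s l z) - K0 z‖ₑ) atTop (𝓝 0) := by
  set S : Set (ST n) := Ioo (0 : ℝ) T ×ˢ (univ : Set (Eu n)) with hS
  have hSm : MeasurableSet S := measurableSet_Ioo.prod MeasurableSet.univ
  set K0 : ST n → ℝ := S.indicator (fun z => ∫ s in Ioc (0 : ℝ) 1, Jf μ l (z, s)) with hK0
  have hK0m : StronglyMeasurable K0 := (stronglyMeasurable_int μ l _).indicator hSm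
  have hDm := measurable_Df μ l
  have hDfin : ∫⁻ z, S.indicator (Df μ l) z < ∞ := by
    rw [lintegral_indicator hSm]; exact lint_Df hμ l hl T
  refine ⟨K0, ⟨hK0m.aestronglyMeasurable, ?_⟩, fun ε hε hlim => ?_⟩
  · rw [hasFiniteIntegral_iff_enorm]
    refine lt_of_le_of_lt (lintegral_mono fun z => ?_) hDfin
    by_cases hz : z ∈ S
    · simp only [hK0, indicator_of_mem hz]
      exact enorm_int_le μ l z le_rfl
    · simp [hK0, indicator_of_notMem hz]
  · have hfe : ∀ m z, (∫ s in (ε m)..1, Kr μ (ε m) s l z) =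
        th (ε m) z.1 * ∫ s in Ioc (ε m) 1, Jf μ l (z, s) :=
      fun m z => int_Kr hμ (hε m).1 (hε m).2 l z
    simp only [hfe]
    have hAm : MeasurableSet (Iio T ×ˢ (univ : Set (Eu n))) := measurableSet_Iio.prod MeasurableSet.univ
    have hz0 : Tendsto (fun m => ∫⁻ z in Iio T ×ˢ (univ : Set (Eu n)),
        ‖th (ε m) z.1 * (∫ s in Ioc (ε m) 1, Jf μ l (z, s)) - K0 z‖ₑ) atTop
        (𝓝 (∫⁻ z in Iio T ×ˢ (univ : Set (Eu n)), 0)) := by
      refine tendsto_lintegral_of_dominated_convergence (fun z => 2 * S.indicator (Df μ l) z)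
        ?_ ?_ ?_ ?_
      · intro m
        have h1 : StronglyMeasurable (fun z : ST n => th (ε m) z.1) :=
          ((th_smooth (ε m)).continuous.comp continuous_fst).stronglyMeasurable
        exact ((h1.mul (stronglyMeasurable_int μ l _)).sub hK0m).measurable.enorm
      · intro m
        refine (ae_restrict_iff' hAm).2 (Eventually.of_forall fun z hz => ?_)
        have hzT : z.1 < T := hz.1
        by_cases hzS : z ∈ S
        · simp only [hK0, indicator_of_mem hzS]
          refine (enorm_sub_le).trans ?_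
          rw [two_mul]
          refine add_le_add ?_ (enorm_int_le μ l z le_rfl)
          rw [enorm_mul]
          have h1 : ‖th (ε m) z.1‖ₑ ≤ 1 := by
            rw [Real.enorm_eq_ofReal (th_nonneg _ _)]
            exact ENNReal.ofReal_le_one.2 (th_le_one _ _)
          calc ‖th (ε m) z.1‖ₑ * ‖∫ s in Ioc (ε m) 1, Jf μ l (z, s)‖ₑ
              ≤ 1 * Df μ l z := mul_le_mul' h1
                (enorm_int_le μ l z (Ioc_subset_Ioc_left (hε m).1.le))
            _ = _ := one_mul _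
        · have hz0 : z.1 ≤ 0 := by
            by_contra hcon
            exact hzS ⟨⟨not_le.1 hcon, hzT⟩, mem_univ _⟩
          simp only [hK0, indicator_of_notMem hzS, th_zero (hε m).1 hz0]
          simp
      · rw [lintegral_const_mul _ (hDm.indicator hSm)]
        refine (ENNReal.mul_lt_top (by simp) ?_).ne
        exact lt_of_le_of_lt (lintegral_mono' Measure.restrict_le_self le_rfl) hDfin
      · refine (ae_restrict_iff' hAm).2 (Eventually.of_forall fun z hz => ?_)
        have hzT : z.1 < T := hz.1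
        by_cases hzS : z ∈ S
        · simp only [hK0, indicator_of_mem hzS]
          have hzpos : 0 < z.1 := hzS.1.1
          have hc := continuousOn_Jf hμ l hzpos
          obtain ⟨M, hM⟩ := isCompact_Icc.exists_bound_of_continuousOn hc
          have hii : ∀ a b : ℝ, a ∈ Icc (0 : ℝ) 1 → b ∈ Icc (0 : ℝ) 1 →
              IntervalIntegrable (fun s => Jf μ l (z, s)) volume a b := fun a b ha hb =>
            (hc.mono (uIcc_subset_Icc ha hb)).intervalIntegrable
          have hM0 : 0 ≤ M := (norm_nonneg _).trans (hM 0 ⟨le_rfl, zero_le_one⟩)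
          have h1 : ∀ᶠ m in atTop, ‖th (ε m) z.1 * (∫ s in Ioc (ε m) 1, Jf μ l (z, s)) -
              ∫ s in Ioc (0 : ℝ) 1, Jf μ l (z, s)‖ₑ ≤ ENNReal.ofReal (M * ε m) := by
            filter_upwards [hlim.eventually (gt_mem_nhds hzpos)] with m hm
            have hε0 := (hε m).1
            have hε1 := (hε m).2
            rw [th_one hε0 hm.le, one_mul, ← intervalIntegral.integral_of_le hε1.le,
              ← intervalIntegral.integral_of_le zero_le_one]
            have h2 : (∫ s in (0 : ℝ)..(ε m), Jf μ l (z, s)) + ∫ s in (ε m)..1, Jf μ l (z, s) =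
                ∫ s in (0 : ℝ)..1, Jf μ l (z, s) :=
              intervalIntegral.integral_add_adjacent_intervals
                (hii _ _ ⟨le_rfl, zero_le_one⟩ ⟨hε0.le, hε1.le⟩)
                (hii _ _ ⟨hε0.le, hε1.le⟩ ⟨zero_le_one, le_rfl⟩)
            rw [← h2]
            have h3 : (∫ s in (ε m)..1, Jf μ l (z, s)) -
                ((∫ s in (0 : ℝ)..(ε m), Jf μ l (z, s)) + ∫ s in (ε m)..1, Jf μ l (z, s)) =
                -∫ s in (0 : ℝ)..(ε m), Jf μ l (z, s) := by ring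
            rw [h3, enorm_neg, Real.enorm_eq_ofReal_abs]
            apply ENNReal.ofReal_le_ofReal
            have h4 := intervalIntegral.norm_integral_le_of_norm_le_const (a := 0) (b := ε m)
              (f := fun s => Jf μ l (z, s)) (C := M) (fun s hs => by
                rw [uIoc_of_le hε0.le] at hs
                exact hM s ⟨hs.1.le, hs.2.trans hε1.le⟩)
            rw [sub_zero, abs_of_pos hε0] at h4
            simpa using h4
          have h2 : Tendsto (fun m => ENNReal.ofReal (M * ε m)) atTop (𝓝 0) := by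
            have : Tendsto (fun m => M * ε m) atTop (𝓝 0) := by
              simpa using hlim.const_mul M
            simpa using ENNReal.tendsto_ofReal this
          exact tendsto_of_tendsto_of_tendsto_of_le_of_le' tendsto_const_nhds h2
            (Eventually.of_forall fun m => zero_le) h1
        · have hz0 : z.1 ≤ 0 := by
            by_contra hcon
            exact hzS ⟨⟨not_le.1 hcon, hzT⟩, mem_univ _⟩
          have : ∀ m, ‖th (ε m) z.1 * (∫ s in Ioc (ε m) 1, Jf μ l (z, s)) - K0 z‖ₑ = 0 := by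
            intro m
            simp [hK0, indicator_of_notMem hzS, th_zero (hε m).1 hz0]
          simp only [this]
          exact tendsto_const_nhds
    simpa using hz0

end Pool.Agent.Helper50.JG
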