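import Pool.Agent.Helper50.JefGaussA

/-!
# Gaussian derivatives (part B): integral estimates g1, g2, g3
-/

open MeasureTheory Set Filter Topology
open scoped ENNReal ContDiff

namespace Pool.Agent.Helper50.JG

open Pool.Agent.Helper42.Jef

variable {n : ℕ}

theorem integrable_gauss {b : ℝ} (hb : 0 < b) :
    Integrable (fun x : Eu n => Real.exp (-b * ‖x‖ ^ 2)) := by
  have h := GaussianFourier.integrable_cexp_neg_mul_sq_norm_add (V := Eu n) (b := (b : ℂ))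
    (by simpa using hb) 0 0
  have h2 := h.norm
  refine h2.congr (Eventually.of_forall fun x => ?_)
  simp only [zero_mul, add_zero]
  rw [Complex.norm_exp]
  congr 1
  simp [← Complex.ofReal_pow]

theorem weight_bound : ∃ C : ℝ, 0 ≤ C ∧ ∀ r : ℝ, 0 ≤ r →
    r ^ 4 * Real.exp (-(1 / 8) * r ^ 2) ≤ C * Real.exp (-(1 / 16) * r ^ 2) := by
  refine ⟨Nat.factorial 4 * Real.exp 4, by positivity, fun r hr => ?_⟩
  have h1 : r ^ 4 ≤ Nat.factorial 4 * Real.exp r := by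
    have := Real.pow_div_factorial_le_exp (x := r) hr 4
    rw [div_le_iff₀ (by positivity)] at this
    linarith
  have h3 : Real.exp r * Real.exp (-(1 / 8) * r ^ 2) ≤
      Real.exp 4 * Real.exp (-(1 / 16) * r ^ 2) := by
    rw [← Real.exp_add, ← Real.exp_add]
    apply Real.exp_le_exp.2
    nlinarith [sq_nonneg (r - 8)]
  calc r ^ 4 * Real.exp (-(1 / 8) * r ^ 2)
      ≤ (Nat.factorial 4 * Real.exp r) * Real.exp (-(1 / 8) * r ^ 2) := by gcongr
    _ = Nat.factorial 4 * (Real.exp r * Real.exp (-(1 / 8) * r ^ 2)) := by ring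
    _ ≤ Nat.factorial 4 * (Real.exp 4 * Real.exp (-(1 / 16) * r ^ 2)) := by gcongr
    _ = _ := by ring

theorem integrable_one (l : List (Fin n)) : Integrable (pds l (Gs 1) : Eu n → ℝ) := by
  obtain ⟨C, hC, h⟩ := pds_decay l
  refine ((integrable_gauss (n := n) (b := 1 / 8) (by norm_num)).const_mul C).mono'
    (pds_smooth (Gs_smooth 1) l).continuous.aestronglyMeasurable
    (Eventually.of_forall fun x => ?_)
  simpa using h x

theorem integrable_one_weight (l : List (Fin n)) :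
    Integrable (fun x : Eu n => ‖x‖ ^ 4 * pds l (Gs 1) x) := by
  obtain ⟨C, hC, h⟩ := pds_decay l
  obtain ⟨D, hD, hw⟩ := weight_bound
  refine ((integrable_gauss (n := n) (b := 1 / 16) (by norm_num)).const_mul (C * D)).mono'
    (((continuous_norm.pow 4).mul
      (pds_smooth (Gs_smooth 1) l).continuous).aestronglyMeasurable)
    (Eventually.of_forall fun x => ?_)
  rw [norm_mul, norm_pow, norm_norm, Real.norm_eq_abs]
  calc ‖x‖ ^ 4 * |pds l (Gs 1) x| ≤ ‖x‖ ^ 4 * (C * Real.exp (-(1 / 8) * ‖x‖ ^ 2)) := by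
        gcongr; exact h x
    _ = C * (‖x‖ ^ 4 * Real.exp (-(1 / 8) * ‖x‖ ^ 2)) := by ring
    _ ≤ C * (D * Real.exp (-(1 / 16) * ‖x‖ ^ 2)) :=
          mul_le_mul_of_nonneg_left (hw _ (norm_nonneg x)) hC
    _ = _ := by ring

theorem a_pow {s : ℝ} (hs : 0 < s) (j : ℕ) :
    (Real.sqrt s)⁻¹ ^ j = s ^ (-(j : ℝ) / 2) := by
  rw [Real.sqrt_eq_rpow, ← Real.rpow_neg hs.le, ← Real.rpow_natCast, ← Real.rpow_mul hs.le]
  congr 1; ring

/-- (g1) for one list -/
theorem g1' (l : List (Fin n)) : ∃ C : ℝ, 0 ≤ C ∧ ∀ s : ℝ, 0 < s →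
    Integrable (pds l (Gs s) : Eu n → ℝ) ∧
    ∫⁻ x : Eu n, ‖pds l (Gs s) x‖ₑ ≤ ENNReal.ofReal (C * s ^ (-(l.length : ℝ) / 2)) := by
  refine ⟨∫ x : Eu n, ‖pds l (Gs 1) x‖, integral_nonneg fun x => norm_nonneg _, fun s hs => ?_⟩
  set a : ℝ := (Real.sqrt s)⁻¹ with ha
  have ha0 : 0 < a := by have := Real.sqrt_pos.2 hs; positivity
  have h0 : (pds l (Gs s) : Eu n → ℝ) = fun x => a ^ (n + l.length) * pds l (Gs 1) (a • x) := by
    funext x; rw [pds_Gs hs]; rfl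
  have hI : Integrable (fun x : Eu n => a ^ (n + l.length) * pds l (Gs 1) (a • x)) :=
    ((integrable_one l).comp_smul ha0.ne').const_mul _
  rw [h0]
  refine ⟨hI, ?_⟩
  rw [← ofReal_integral_norm_eq_lintegral_enorm hI]
  apply ENNReal.ofReal_le_ofReal
  have h1 : ∫ x : Eu n, ‖a ^ (n + l.length) * pds l (Gs 1) (a • x)‖ =
      a ^ (n + l.length) * ∫ x : Eu n, ‖pds l (Gs 1) (a • x)‖ := by
    rw [← integral_const_mul]
    congr 1; funext x
    rw [norm_mul, Real.norm_of_nonneg (by positivity)]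
  rw [h1, Measure.integral_comp_smul volume (fun x : Eu n => ‖pds l (Gs 1) x‖) a]
  rw [finrank_euclideanSpace, Fintype.card_fin, ← a_pow hs, ← ha]
  rw [abs_of_nonneg (by positivity), smul_eq_mul, pow_add]
  apply le_of_eq
  field_simp

/-- (g2) for one list -/
theorem g2' (l : List (Fin n)) : ∃ C : ℝ, 0 ≤ C ∧ ∀ s : ℝ, 0 < s →
    ∫⁻ x : Eu n, ENNReal.ofReal (‖x‖ ^ 4) * ‖pds l (Gs s) x‖ₑ ≤
      ENNReal.ofReal (C * s ^ (2 - (l.length : ℝ) / 2)) := by
  refine ⟨∫ x : Eu n, ‖‖x‖ ^ 4 * pds l (Gs 1) x‖, integral_nonneg fun x => norm_nonneg _,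
    fun s hs => ?_⟩
  set a : ℝ := (Real.sqrt s)⁻¹ with ha
  have ha0 : 0 < a := by have := Real.sqrt_pos.2 hs; positivity
  have h0 : (fun x : Eu n => ENNReal.ofReal (‖x‖ ^ 4) * ‖pds l (Gs s) x‖ₑ) =
      fun x => ‖(a ^ (n + l.length) * (a ^ 4)⁻¹) * (‖a • x‖ ^ 4 * pds l (Gs 1) (a • x))‖ₑ := by
    funext x; rw [pds_Gs hs, Fl, ← ha]
    have e1 : ENNReal.ofReal (‖x‖ ^ 4) = ‖‖x‖ ^ 4‖ₑ := by
      rw [Real.enorm_eq_ofReal (by positivity)]
    rw [e1, ← enorm_mul]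
    congr 1
    rw [norm_smul, Real.norm_of_nonneg ha0.le, mul_pow]
    field_simp
  rw [h0]
  have hI : Integrable (fun x : Eu n => (a ^ (n + l.length) * (a ^ 4)⁻¹) *
      (‖a • x‖ ^ 4 * pds l (Gs 1) (a • x))) :=
    ((integrable_one_weight l).comp_smul ha0.ne').const_mul _
  rw [← ofReal_integral_norm_eq_lintegral_enorm hI]
  apply ENNReal.ofReal_le_ofReal
  have h1 : ∫ x : Eu n, ‖(a ^ (n + l.length) * (a ^ 4)⁻¹) *
      (‖a • x‖ ^ 4 * pds l (Gs 1) (a • x))‖ =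
      (a ^ (n + l.length) * (a ^ 4)⁻¹) *
        ∫ x : Eu n, ‖‖a • x‖ ^ 4 * pds l (Gs 1) (a • x)‖ := by
    rw [← integral_const_mul]
    congr 1; funext x
    rw [norm_mul, Real.norm_of_nonneg (by positivity)]
  rw [h1, Measure.integral_comp_smul volume (fun x : Eu n => ‖‖x‖ ^ 4 * pds l (Gs 1) x‖) a]
  have h2 : s ^ (2 - (l.length : ℝ) / 2) = a ^ l.length * (a ^ 4)⁻¹ := by
    rw [ha, a_pow hs, a_pow hs, ← Real.rpow_neg hs.le, ← Real.rpow_add hs]
    congr 1; push_cast; ring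
  rw [finrank_euclideanSpace, Fintype.card_fin, h2]
  rw [abs_of_nonneg (by positivity), smul_eq_mul, pow_add]
  apply le_of_eq
  field_simp

/-- translation estimate in `L¹` -/
theorem translate_bound {f : Eu n → ℝ} (hf : ContDiff ℝ 1 f) (y : Eu n) :
    ∫⁻ x : Eu n, ‖f (x - y) - f x‖ₑ ≤ ENNReal.ofReal ‖y‖ * ∑ i, ∫⁻ x : Eu n, ‖pd i f x‖ₑ := by
  have hc : Continuous (fderiv ℝ f) := hf.continuous_fderiv (by simp)
  have hpc : ∀ i, Continuous (pd i f) := fun i => by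
    unfold pd; exact hc.clm_apply continuous_const
  set G : Eu n → ℝ≥0∞ := fun z => ∑ i, ‖pd i f z‖ₑ with hG
  have hGm : Measurable G := by
    apply Finset.measurable_fun_sum
    intro i _
    exact (hpc i).measurable.enorm
  have hlin : ∀ z : Eu n, ‖fderiv ℝ f z (-y)‖ₑ ≤ ENNReal.ofReal ‖y‖ * G z := by
    intro z
    have hy : y = ∑ i, y i • (bv i : Eu n) := by
      ext j
      simp [bv, Pi.single_apply]
    have h1 : fderiv ℝ f z (-y) = -∑ i, y i * pd i f z := by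
      rw [map_neg]
      congr 1
      conv_lhs => rw [hy]
      rw [map_sum]
      simp [pd]
    have h2 : |fderiv ℝ f z (-y)| ≤ ‖y‖ * ∑ i, |pd i f z| := by
      rw [h1, abs_neg, Finset.mul_sum]
      refine (Finset.abs_sum_le_sum_abs _ _).trans (Finset.sum_le_sum fun i _ => ?_)
      rw [abs_mul]
      gcongr
      simpa using PiLp.norm_apply_le y i
    rw [Real.enorm_eq_ofReal_abs]
    refine (ENNReal.ofReal_le_ofReal h2).trans (le_of_eq ?_)
    rw [ENNReal.ofReal_mul (norm_nonneg _), ENNReal.ofReal_sum_of_nonneg (fun i _ => abs_nonneg _)]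
    simp [hG, Real.enorm_eq_ofReal_abs]
  have hftc : ∀ x : Eu n, ‖f (x - y) - f x‖ₑ ≤
      ∫⁻ t in Icc (0 : ℝ) 1, ENNReal.ofReal ‖y‖ * G (x - t • y) := by
    intro x
    have hd : ∀ t : ℝ, HasDerivAt (fun t : ℝ => f (x - t • y)) (fderiv ℝ f (x - t • y) (-y)) t := by
      intro t
      have h1 : HasDerivAt (fun t : ℝ => x - t • y) (-y) t := by
        simpa using ((hasDerivAt_id t).smul_const y).const_sub x
      exact HasFDerivAt.comp_hasDerivAt (l := f) (f := fun t : ℝ => x - t • y) t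
        ((hf.differentiable (by simp)) _).hasFDerivAt h1
    have hcont : Continuous (fun t : ℝ => fderiv ℝ f (x - t • y) (-y)) :=
      (hc.comp (by fun_prop)).clm_apply continuous_const
    have h2 := intervalIntegral.integral_eq_sub_of_hasDerivAt (a := 0) (b := 1)
      (fun t _ => hd t) (hcont.intervalIntegrable 0 1)
    simp only [one_smul, zero_smul, sub_zero] at h2
    rw [← h2, intervalIntegral.integral_of_le zero_le_one]
    refine (enorm_integral_le_lintegral_enorm _).trans ?_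
    refine (lintegral_mono fun t => hlin _).trans ?_
    exact lintegral_mono_set Ioc_subset_Icc_self
  calc ∫⁻ x : Eu n, ‖f (x - y) - f x‖ₑ
      ≤ ∫⁻ x : Eu n, ∫⁻ t in Icc (0 : ℝ) 1, ENNReal.ofReal ‖y‖ * G (x - t • y) :=
        lintegral_mono hftc
    _ = ∫⁻ t in Icc (0 : ℝ) 1, ∫⁻ x : Eu n, ENNReal.ofReal ‖y‖ * G (x - t • y) := by
        rw [lintegral_lintegral_swap]
        apply Measurable.aemeasurable
        exact (hGm.comp (by fun_prop)).const_mul _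
    _ = ∫⁻ t in Icc (0 : ℝ) 1, ENNReal.ofReal ‖y‖ * ∫⁻ x : Eu n, G x := by
        congr 1; funext t
        have hm : Measurable (fun x : Eu n => G (x - t • y)) := hGm.comp (by fun_prop)
        rw [lintegral_const_mul _ hm, lintegral_sub_right_eq_self (fun x => G x) (t • y)]
    _ = ENNReal.ofReal ‖y‖ * ∑ i, ∫⁻ x : Eu n, ‖pd i f x‖ₑ := by
        rw [setLIntegral_const, Real.volume_Icc]
        simp only [sub_zero, ENNReal.ofReal_one, mul_one]
        congr 1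
        rw [hG, lintegral_finsetSum]
        intro i _
        exact (hpc i).measurable.enorm

/-- (g3) for one list -/
theorem g3' (l : List (Fin n)) : ∃ C : ℝ, 0 ≤ C ∧ ∀ s : ℝ, 0 < s → ∀ y : Eu n,
    ∫⁻ x : Eu n, ‖pds l (Gs s) (x - y) - pds l (Gs s) x‖ₑ ≤
      ENNReal.ofReal (C * ‖y‖ * s ^ (-((l.length : ℝ) + 1) / 2)) := by
  choose C hC h using fun i : Fin n => g1' (i :: l)
  refine ⟨∑ i, C i, Finset.sum_nonneg fun i _ => hC i, fun s hs y => ?_⟩
  refine (translate_bound ((pds_smooth (Gs_smooth s) l).of_le (by simp)) y).trans ?_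
  have h1 : ∑ i, ∫⁻ x : Eu n, ‖pd i (pds l (Gs s)) x‖ₑ ≤
      ∑ i, ENNReal.ofReal (C i * s ^ (-((l.length : ℝ) + 1) / 2)) := by
    refine Finset.sum_le_sum fun i _ => ?_
    have := (h i s hs).2
    simp only [List.length_cons, Nat.cast_add, Nat.cast_one] at this
    exact this
  refine (mul_le_mul_right h1 _).trans (le_of_eq ?_)
  have hnn : ∀ i ∈ Finset.univ, 0 ≤ C i * s ^ (-((l.length : ℝ) + 1) / 2) :=
    fun i _ => mul_nonneg (hC i) (by positivity)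
  rw [← ENNReal.ofReal_sum_of_nonneg hnn, ← ENNReal.ofReal_mul (norm_nonneg _)]
  congr 1
  rw [← Finset.sum_mul]; ring

/-! ## uniform constants for lists of a given length -/

theorem unif {P : List (Fin n) → ℝ → Prop} (hP : ∀ l C C', C ≤ C' → P l C → P l C') (j : ℕ)
    (h : ∀ l, ∃ C : ℝ, 0 ≤ C ∧ P l C) :
    ∃ C : ℝ, 0 ≤ C ∧ ∀ l : List (Fin n), l.length = j → P l C := by
  choose C hC h using h
  have hfin : {l : List (Fin n) | l.length = j}.Finite := List.finite_length_eq (Fin n) j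
  refine ⟨∑ l ∈ hfin.toFinset, C l, Finset.sum_nonneg fun l _ => hC l, fun l hl => ?_⟩
  refine hP l (C l) _ ?_ (h l)
  exact Finset.single_le_sum (f := C) (fun l _ => hC l) (by simpa using hl)

/-- (g1) -/
theorem g1 (n j : ℕ) : ∃ C : ℝ, 0 ≤ C ∧ ∀ l : List (Fin n), l.length = j → ∀ s : ℝ, 0 < s →
    ∫⁻ x : Eu n, ‖pds l (Gs s) x‖ₑ ≤ ENNReal.ofReal (C * s ^ (-(j : ℝ) / 2)) := by
  obtain ⟨C, hC, h⟩ := unif (n := n) (P := fun l C => ∀ s : ℝ, 0 < s →
    ∫⁻ x : Eu n, ‖pds l (Gs s) x‖ₑ ≤ ENNReal.ofReal (C * s ^ (-(l.length : ℝ) / 2)))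
    (fun l C C' hCC h s hs => (h s hs).trans (ENNReal.ofReal_le_ofReal (by gcongr))) j
    (fun l => by obtain ⟨C, hC, h⟩ := g1' l; exact ⟨C, hC, fun s hs => (h s hs).2⟩)
  refine ⟨C, hC, fun l hl s hs => ?_⟩
  have := h l hl s hs
  rwa [hl] at this

/-- (g2) -/
theorem g2 (n j : ℕ) : ∃ C : ℝ, 0 ≤ C ∧ ∀ l : List (Fin n), l.length = j → ∀ s : ℝ, 0 < s →
    ∫⁻ x : Eu n, ENNReal.ofReal (‖x‖ ^ 4) * ‖pds l (Gs s) x‖ₑ ≤
      ENNReal.ofReal (C * s ^ (2 - (j : ℝ) / 2)) := by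
  obtain ⟨C, hC, h⟩ := unif (n := n) (P := fun l C => ∀ s : ℝ, 0 < s →
    ∫⁻ x : Eu n, ENNReal.ofReal (‖x‖ ^ 4) * ‖pds l (Gs s) x‖ₑ ≤
      ENNReal.ofReal (C * s ^ (2 - (l.length : ℝ) / 2)))
    (fun l C C' hCC h s hs => (h s hs).trans (ENNReal.ofReal_le_ofReal (by gcongr))) j g2'
  refine ⟨C, hC, fun l hl s hs => ?_⟩
  have := h l hl s hs
  rwa [hl] at this

/-- (g3) -/
theorem g3 (n j : ℕ) : ∃ C : ℝ, 0 ≤ C ∧ ∀ l : List (Fin n), l.length = j → ∀ s : ℝ, 0 < s →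
    ∀ y : Eu n, ∫⁻ x : Eu n, ‖pds l (Gs s) (x - y) - pds l (Gs s) x‖ₑ ≤
      ENNReal.ofReal (C * ‖y‖ * s ^ (-((j : ℝ) + 1) / 2)) := by
  obtain ⟨C, hC, h⟩ := unif (n := n) (P := fun l C => ∀ s : ℝ, 0 < s → ∀ y : Eu n,
    ∫⁻ x : Eu n, ‖pds l (Gs s) (x - y) - pds l (Gs s) x‖ₑ ≤
      ENNReal.ofReal (C * ‖y‖ * s ^ (-((l.length : ℝ) + 1) / 2)))
    (fun l C C' hCC h s hs y => (h s hs y).trans (ENNReal.ofReal_le_ofReal (by gcongr))) j g3'
  refine ⟨C, hC, fun l hl s hs y => ?_⟩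
  have := h l hl s hs y
  rwa [hl] at this

/-- (g0) joint continuity -/
theorem g0 (l : List (Fin n)) :
    ContinuousOn (fun z : ST n => pds l (Gs z.1) z.2) (Ioi 0 ×ˢ univ) := by
  have h1 : ContinuousOn (Fl l) (Ioi (0 : ℝ) ×ˢ (univ : Set (Eu n))) := fun z hz =>
    (Fl_smoothAt l hz.1).continuousAt.continuousWithinAt
  exact h1.congr fun z hz => pds_Gs hz.1 l z.2

end Pool.Agent.Helper50.JG
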