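import Pool.Agent.Helper42.Jef.Defs3
import Pool.Agent.Helper42.Jef.Vel2
import Pool.Agent.Helper42.Jef.Weak

/-! # F1: time slices -/

open MeasureTheory Set Filter Topology
open scoped ENNReal NNReal ContDiff

namespace Pool.Agent.Helper50.JS

open Pool.Agent.Helper42.Jef

variable {n : ℕ}

/-! ### lintegral and integral of squares -/

theorem lint_sq_eq {α : Type*} [MeasurableSpace α] {μ : Measure α} {E : Type*}
    [NormedAddCommGroup E] {u : α → E} (hu : MemLp u 2 μ) {S : Set α} (hS : MeasurableSet S) :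
    ∫⁻ z in S, ‖u z‖ₑ ^ 2 ∂μ = ENNReal.ofReal (∫ z, S.indicator (fun _ => (1 : ℝ)) z *
      ‖u z‖ ^ 2 ∂μ) := by
  have h1 : Integrable (fun z => ‖u z‖ ^ 2) μ := (memLp_two_iff_integrable_sq_norm hu.1).1 hu
  have h2 : ∫ z, S.indicator (fun _ => (1 : ℝ)) z * ‖u z‖ ^ 2 ∂μ = ∫ z in S, ‖u z‖ ^ 2 ∂μ := by
    rw [← integral_indicator hS]
    refine integral_congr_ae (Eventually.of_forall fun z => ?_)
    by_cases hz : z ∈ S
    · simp [hz]
    · simp [hz]
  rw [h2, ofReal_integral_eq_lintegral_ofReal h1.restrict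
    (Eventually.of_forall fun z => by positivity)]
  refine lintegral_congr fun z => ?_
  rw [ENNReal.ofReal_pow (norm_nonneg _), ofReal_norm]

/-- F1c -/
theorem bound_of_wc {E : Type*} [NormedAddCommGroup E] [InnerProductSpace ℝ E] {M : ℝ}
    {us : ℕ → ST n → E} {u : ST n → E} (h : WC volume us u) {I : Set ℝ} (hI : MeasurableSet I)
    (hb : ∀ᶠ m in atTop,
      ∫⁻ z in I ×ˢ (univ : Set (Eu n)), ‖us m z‖ₑ ^ 2 ≤ ENNReal.ofReal M) :
    ∫⁻ z in I ×ˢ (univ : Set (Eu n)), ‖u z‖ₑ ^ 2 ≤ ENNReal.ofReal M := by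
  have hS : MeasurableSet (I ×ˢ (univ : Set (Eu n))) := hI.prod MeasurableSet.univ
  have h1 : ENNReal.ofReal M = ENNReal.ofReal (max M 0) := by
    rcases le_total M 0 with h0 | h0
    · rw [max_eq_right h0, ENNReal.ofReal_of_nonpos h0, ENNReal.ofReal_zero]
    · rw [max_eq_left h0]
  rw [h1, lint_sq_eq h.memU hS]
  refine ENNReal.ofReal_le_ofReal ?_
  refine wc_lsc h _ ?_ 1 (fun x => ?_) _ ?_
  · exact (measurable_const.indicator hS).aestronglyMeasurable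
  · by_cases hx : x ∈ I ×ˢ (univ : Set (Eu n))
    · rw [indicator_of_mem hx]; norm_num
    · rw [indicator_of_notMem hx]; norm_num
  · filter_upwards [hb] with m hm
    rw [h1, lint_sq_eq (h.mem m) hS] at hm
    exact (ENNReal.ofReal_le_ofReal_iff (le_max_right _ _)).1 hm

/-- iterated form of the lintegral over a slab -/
theorem lint_slab {f : ST n → ℝ≥0∞} (hf : AEMeasurable f volume) (I : Set ℝ) :
    ∫⁻ z in I ×ˢ (univ : Set (Eu n)), f z = ∫⁻ t in I, ∫⁻ x, f (t, x) := by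
  have h1 : (volume : Measure (ST n)).restrict (I ×ˢ (univ : Set (Eu n))) =
      (volume.restrict I).prod volume := by
    rw [Measure.volume_eq_prod, ← Measure.prod_restrict, Measure.restrict_univ]
  have hf' : AEMeasurable f ((volume.restrict I).prod volume) := by
    rw [← h1]; exact hf.restrict
  rw [h1, lintegral_prod _ hf']

theorem slice_aemeasurable {f : ST n → ℝ≥0∞} (hf : AEMeasurable f volume) :
    AEMeasurable (fun t : ℝ => ∫⁻ x, f (t, x)) volume := by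
  have hf' : AEMeasurable f ((volume : Measure ℝ).prod (volume : Measure (Eu n))) := hf
  exact hf'.lintegral_prod_right'

/-- F1b -/
theorem slices_bound {E : Type*} [NormedAddCommGroup E] {T M : ℝ} {u : ST n → E}
    (hu : AEStronglyMeasurable u volume)
    (h : ∀ I : Set ℝ, MeasurableSet I → I ⊆ Ioo 0 T →
      ∫⁻ z in I ×ˢ (univ : Set (Eu n)), ‖u z‖ₑ ^ 2 ≤ ENNReal.ofReal M * volume I) :
    ∀ᵐ t : ℝ, t ∈ Ioo 0 T → ∫⁻ x, ‖u (t, x)‖ₑ ^ 2 ≤ ENNReal.ofReal M := by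
  have hf : AEMeasurable (fun z : ST n => ‖u z‖ₑ ^ 2) volume := hu.enorm.pow_const 2
  have hg := slice_aemeasurable hf
  rw [← ae_restrict_iff' measurableSet_Ioo]
  refine ae_le_of_forall_setLIntegral_le_of_sigmaFinite₀ (hg.restrict) fun s hs _ => ?_
  rw [Measure.restrict_restrict hs]
  have h1 := h (s ∩ Ioo 0 T) (hs.inter measurableSet_Ioo) inter_subset_right
  rw [lint_slab hf] at h1
  rw [setLIntegral_const]
  exact h1

theorem grad_zero (x : Eu n) : grad (0 : Eu n → Eu n) x = 0 := by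
  rw [grad_eq]
  have : fderiv ℝ (0 : Eu n → Eu n) x = 0 := by
    have h : (0 : Eu n → Eu n) = fun _ => (0 : Eu n) := rfl
    rw [h, fderiv_fun_const]; rfl
  rw [this, map_zero]

theorem vt_sum {Ω : Set (Eu n)} {N : ℕ} (s : Finset (Fin N)) (φ : Fin N → Eu n → Eu n)
    (a : Fin N → ℝ) (hφ : ∀ j, IsVT Ω (φ j)) :
    IsVT Ω (∑ j ∈ s, a j • φ j) ∧
      ∀ x, grad (∑ j ∈ s, a j • φ j) x = ∑ j ∈ s, a j • grad (φ j) x := by
  classical
  induction s using Finset.induction_on with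
  | empty =>
    rw [Finset.sum_empty]
    refine ⟨IsVT.zero, fun x => ?_⟩
    rw [grad_zero, Finset.sum_empty]
  | insert i s hi ih =>
    rw [Finset.sum_insert hi]
    refine ⟨((hφ i).smul _).add ih.1, fun x => ?_⟩
    rw [Finset.sum_insert hi, grad_add ((hφ i).smul _).diff ih.1.diff,
      grad_smul (hφ i).diff, ih.2]

/-- elementary fields: time slices -/
theorem elem_slice {Ω : Set (Eu n)} {T : ℝ} {v : ST n → Eu n} {G : ST n → Mt n}
    (h : IsElem Ω T v G) (t : ℝ) :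
    IsVT Ω (fun x => v (t, x)) ∧ ∀ x, grad (fun x => v (t, x)) x = G (t, x) := by
  obtain ⟨N, c, φ, hm, hb, h0, hφ, hv, hG⟩ := h
  have e : (fun x => v (t, x)) = ∑ j, c j t • φ j := by
    funext x
    rw [hv]
    simp
  obtain ⟨h1, h2⟩ := vt_sum Finset.univ φ (fun j => c j t) hφ
  rw [e]
  refine ⟨h1, fun x => ?_⟩
  rw [h2, hG]

theorem eLpNorm_sq {α : Type*} [MeasurableSpace α] {μ : Measure α} {E : Type*}
    [NormedAddCommGroup E] (u : α → E) : eLpNorm u 2 μ ^ 2 = ∫⁻ z, ‖u z‖ₑ ^ 2 ∂μ := by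
  have h := eLpNorm_nnreal_pow_eq_lintegral (μ := μ) (f := u) (p := 2) (by norm_num)
  have h2 : ((2 : ℝ≥0) : ℝ) = ((2 : ℕ) : ℝ) := by norm_num
  rw [h2] at h
  simp only [ENNReal.rpow_natCast] at h
  exact h

theorem lt_of_sq_lt {a b : ℝ≥0∞} (h : a ^ 2 < b ^ 2) : a < b := by
  by_contra hc
  push Not at hc
  exact absurd h (not_lt.2 (by gcongr))

theorem slice_conv {E : Type*} [NormedAddCommGroup E] {u : ST n → E} {us : ℕ → ST n → E}
    (hm : ∀ k, AEStronglyMeasurable (fun z => u z - us k z) volume)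
    (hb : ∀ k : ℕ, eLpNorm (fun z => u z - us k z) 2 volume ≤ ENNReal.ofReal ((1 / 2) ^ k)) :
    ∀ᵐ t : ℝ, Tendsto (fun k => ∫⁻ x, ‖u (t, x) - us k (t, x)‖ₑ ^ 2) atTop (𝓝 0) := by
  have hf : ∀ k, AEMeasurable (fun z : ST n => ‖u z - us k z‖ₑ ^ 2) volume := fun k =>
    (hm k).enorm.pow_const 2
  have h1 : ∀ k : ℕ, ∫⁻ t : ℝ, ∫⁻ x, ‖u (t, x) - us k (t, x)‖ₑ ^ 2 ≤ (2⁻¹ : ℝ≥0∞) ^ k := by
    intro k
    have h2 := lint_slab (hf k) univ
    rw [univ_prod_univ, Measure.restrict_univ, Measure.restrict_univ] at h2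
    rw [← h2, ← eLpNorm_sq]
    have h3 : ENNReal.ofReal ((1 / 2) ^ k) = (2⁻¹ : ℝ≥0∞) ^ k := by
      rw [ENNReal.ofReal_pow (by norm_num)]
      congr 1
      rw [one_div, ENNReal.ofReal_inv_of_pos (by norm_num)]
      norm_num
    have h4 := hb k
    rw [h3] at h4
    have h5 : (2⁻¹ : ℝ≥0∞) ^ k ≤ 1 := pow_le_one₀ (by simp) (by norm_num)
    calc eLpNorm (fun z => u z - us k z) 2 volume ^ 2 ≤ ((2⁻¹ : ℝ≥0∞) ^ k) ^ 2 := by gcongr
      _ = (2⁻¹ : ℝ≥0∞) ^ k * (2⁻¹ : ℝ≥0∞) ^ k := sq _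
      _ ≤ (2⁻¹ : ℝ≥0∞) ^ k * 1 := by gcongr
      _ = _ := mul_one _
  have h2 : ∫⁻ t : ℝ, ∑' k, ∫⁻ x, ‖u (t, x) - us k (t, x)‖ₑ ^ 2 ≠ ⊤ := by
    rw [lintegral_tsum fun k => slice_aemeasurable (hf k)]
    refine ne_top_of_le_ne_top ?_ (ENNReal.tsum_le_tsum h1)
    rw [ENNReal.tsum_geometric]
    simp
  have h3 := ae_lt_top' (AEMeasurable.tsum fun k => slice_aemeasurable (hf k)) h2
  filter_upwards [h3] with t ht
  exact ENNReal.tendsto_atTop_zero_of_tsum_ne_top ht.ne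

theorem slice_memLp {E : Type*} [NormedAddCommGroup E] {u : ST n → E} (hu : MemLp u 2 volume) :
    ∀ᵐ t : ℝ, MemLp (fun x => u (t, x)) 2 volume := by
  have hf : AEMeasurable (fun z : ST n => ‖u z‖ₑ ^ 2) volume := hu.1.enorm.pow_const 2
  have h2 := lint_slab hf univ
  rw [univ_prod_univ, Measure.restrict_univ, Measure.restrict_univ, ← eLpNorm_sq] at h2
  have h3 : ∫⁻ t : ℝ, ∫⁻ x, ‖u (t, x)‖ₑ ^ 2 ≠ ⊤ := by
    rw [← h2]
    exact ENNReal.pow_ne_top hu.2.ne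
  have hm : AEStronglyMeasurable u ((volume : Measure ℝ).prod (volume : Measure (Eu n))) := hu.1
  filter_upwards [ae_lt_top' (slice_aemeasurable hf) h3, hm.prodMk_left] with t h4 h5
  refine ⟨h5, ?_⟩
  rw [← eLpNorm_sq] at h4
  exact lt_of_sq_lt (by simpa using h4)

/-- F1 -/
theorem vel_slices {Ω : Set (Eu n)} {T : ℝ} {v : ST n → Eu n} {G : ST n → Mt n}
    (hv : IsVel Ω T v G) :
    ∀ᵐ t : ℝ, MemLp (fun x => v (t, x)) 2 volume ∧ MemLp (fun x => G (t, x)) 2 volume ∧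
      ∀ ε : ℝ, 0 < ε → ∃ φ, IsVT Ω φ ∧
        eLpNorm (fun x => v (t, x) - φ x) 2 volume ≤ ENNReal.ofReal ε ∧
        eLpNorm (fun x => G (t, x) - grad φ x) 2 volume ≤ ENNReal.ofReal ε := by
  have h1 : ∀ k : ℕ, ∃ (v' : ST n → Eu n) (G' : ST n → Mt n), IsElem Ω T v' G' ∧
      eLpNorm (v - v') 2 volume ≤ ENNReal.ofReal ((1 / 2) ^ k) ∧
      eLpNorm (G - G') 2 volume ≤ ENNReal.ofReal ((1 / 2) ^ k) :=
    fun k => hv.approx _ (by positivity)
  choose vs Gs he hvs hGs using h1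
  have h2 := slice_conv (u := v) (us := vs) (fun k => hv.memv.1.sub (he k).memLp.1.1) hvs
  have h3 := slice_conv (u := G) (us := Gs) (fun k => hv.memG.1.sub (he k).memLp.2.1) hGs
  filter_upwards [slice_memLp hv.memv, slice_memLp hv.memG, h2, h3] with t h4 h5 h6 h7
  refine ⟨h4, h5, fun ε hε => ?_⟩
  have hpos : 0 < ENNReal.ofReal ε ^ 2 := by
    have : 0 < ENNReal.ofReal ε := ENNReal.ofReal_pos.2 hε
    positivity
  obtain ⟨k, h8, h9⟩ := ((h6.eventually (gt_mem_nhds hpos)).and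
    (h7.eventually (gt_mem_nhds hpos))).exists
  obtain ⟨h10, h11⟩ := elem_slice (he k) t
  refine ⟨fun x => vs k (t, x), h10, ?_, ?_⟩
  · rw [← eLpNorm_sq] at h8
    exact (lt_of_sq_lt h8).le
  · rw [← eLpNorm_sq] at h9
    simp only [h11]
    exact (lt_of_sq_lt h9).le

end Pool.Agent.Helper50.JS
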