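import Pool.Agent.Helper42.Jef.RegK

/-! # P5: consequences of the momentum equation -/

open MeasureTheory Set Filter Topology
open scoped ENNReal NNReal ContDiff

namespace Pool.Agent.Helper50.JM

open Pool.Agent.Helper42.Jef

variable {n : ℕ}

theorem sy_grad_cont {Ω : Set (Eu n)} {φ : Eu n → Eu n} (hφ : IsVT Ω φ) :
    Continuous (fun x => sy (grad φ x)) := sy_cont hφ.grad_cont

theorem sy_grad_cpt {Ω : Set (Eu n)} {φ : Eu n → Eu n} (hφ : IsVT Ω φ) :
    HasCompactSupport (fun x => sy (grad φ x)) := by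
  refine hφ.grad_cpt.mono' fun x hx => subset_closure fun h0 => hx ?_
  have h0' : grad φ x = 0 := h0
  show sy (grad φ x) = 0
  rw [h0']; exact (syL n).map_zero

/-- splitting of the momentum functional -/
theorem mom_split {Ω : Set (Eu n)} {μ c : ℝ} {v : ST n → Eu n} {G τ : ST n → Mt n}
    (hv : MemLp v 2 volume) (hG : MemLp G 2 volume) (hτ : MemLp τ 2 volume) {s b : ℝ}
    {η : ℝ → ℝ} (hη : IsTime s b η) {φ : Eu n → Eu n} (hφ : IsVT Ω φ) :
    ∫ z : ST n, (deriv η z.1 * inner ℝ (v z) (φ z.2) +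
      η z.1 * (inner ℝ (v z) (fderiv ℝ φ z.2 (v z)) - μ * inner ℝ (G z) (grad φ z.2) -
        c * inner ℝ (τ z) (sy (grad φ z.2)))) =
    (∫ z : ST n, deriv η z.1 * inner ℝ (v z) (φ z.2)) +
      (∫ z : ST n, η z.1 * inner ℝ (v z) (fderiv ℝ φ z.2 (v z))) -
      μ * (∫ z : ST n, η z.1 * inner ℝ (G z) (grad φ z.2)) -
      c * (∫ z : ST n, η z.1 * inner ℝ (τ z) (sy (grad φ z.2))) := by
  have c1 := hη.cont
  have c2 := hη.dcont
  have k1 := hη.cpt
  have k2 : HasCompactSupport (deriv η) := hη.cpt.deriv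
  have i1 := int_lin hv c2 k2 hφ.smooth.continuous hφ.cpt
  have i2 := int_conv hv hv c1 k1 hφ.smooth hφ.cpt
  have i3 := int_lin hG c1 k1 hφ.grad_cont hφ.grad_cpt
  have i4 := int_lin hτ c1 k1 (sy_grad_cont hφ) (sy_grad_cpt hφ)
  have h := int_lc4 i1 i2 i3 i4 1 1 (-μ) (-c)
  rw [one_mul, one_mul] at h
  have e : ∫ z : ST n, (deriv η z.1 * inner ℝ (v z) (φ z.2) +
      η z.1 * (inner ℝ (v z) (fderiv ℝ φ z.2 (v z)) - μ * inner ℝ (G z) (grad φ z.2) -
        c * inner ℝ (τ z) (sy (grad φ z.2)))) =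
      ∫ z : ST n, (1 * (deriv η z.1 * inner ℝ (v z) (φ z.2)) +
        1 * (η z.1 * inner ℝ (v z) (fderiv ℝ φ z.2 (v z))) +
        (-μ) * (η z.1 * inner ℝ (G z) (grad φ z.2)) +
        (-c) * (η z.1 * inner ℝ (τ z) (sy (grad φ z.2)))) := by
    refine integral_congr_ae (Eventually.of_forall fun z => ?_)
    simp only
    ring
  rw [e, h]
  ring

/-- the momentum equation passes to the limit -/
theorem mom_limit {Ω : Set (Eu n)} {T μ a c : ℝ} (hT : 0 < T)
    {f : ℝ → (Eu n → Eu n) → ℝ} {v0 : Eu n → Eu n}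
    {τ0 : Eu n → Mt n} {Ss : ℕ → ST n → Mt n} {vs : ℕ → ST n → Eu n} {Gs τs : ℕ → ST n → Mt n}
    {v : ST n → Eu n} {G τ : ST n → Mt n}
    (h : ∀ m, IsSol Ω T μ a c f v0 τ0 (Ss m) (vs m) (Gs m) (τs m))
    (wv : WC volume vs v) (wG : WC volume Gs G) (wτ : WC volume τs τ)
    (hs : Tendsto (fun m => eLpNorm (fun z => vs m z - v z) 2 volume) atTop (𝓝 0)) :
    ∀ (η : ℝ → ℝ) (φ : Eu n → Eu n), IsTime (-1) T η → IsVT Ω φ →
    (∫ z : ST n, (deriv η z.1 * inner ℝ (v z) (φ z.2) +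
      η z.1 * (inner ℝ (v z) (fderiv ℝ φ z.2 (v z)) - μ * inner ℝ (G z) (grad φ z.2) -
        c * inner ℝ (τ z) (sy (grad φ z.2))))) + (∫ t in Ioo 0 T, η t * f t φ) +
      η 0 * ∫ x, inner ℝ (v0 x) (φ x) = 0 := by
  intro η φ hη hφ
  have c1 := hη.cont
  have c2 := hη.dcont
  have k1 := hη.cpt
  have k2 : HasCompactSupport (deriv η) := hη.cpt.deriv
  have t1 := tend_lin wv c2 k2 hφ.smooth.continuous hφ.cpt
  have t2 := tend_conv wv wv.mem wv.memU hs c1 k1 hφ.smooth hφ.cpt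
  have t3 := tend_lin wG c1 k1 hφ.grad_cont hφ.grad_cpt
  have t4 := tend_lin wτ c1 k1 (sy_grad_cont hφ) (sy_grad_cpt hφ)
  have t5 := ((((t1.add t2).sub (t3.const_mul μ)).sub (t4.const_mul c)).add
    (tendsto_const_nhds (x := ∫ t in Ioo 0 T, η t * f t φ))).add
    (tendsto_const_nhds (x := η 0 * ∫ x, inner ℝ (v0 x) (φ x)))
  have t6 : Tendsto (fun _ : ℕ => (0 : ℝ)) atTop (𝓝 0) := tendsto_const_nhds
  rw [mom_split wv.memU wG.memU wτ.memU hη hφ]
  refine tendsto_nhds_unique t5 (t6.congr fun m => ?_)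
  have h1 := (h m).mom η φ hη hφ
  rw [mom_split (wv.mem m) (wG.mem m) (wτ.mem m) hη hφ] at h1
  exact h1.symm

theorem lin_bound {E : Type*} [NormedAddCommGroup E] [InnerProductSpace ℝ E] {M : ℝ}
    (hM : 0 ≤ M) {u : ST n → E} (hu : MemLp u 2 volume)
    (hb : eLpNorm u 2 volume ≤ ENNReal.ofReal M) {η : ℝ → ℝ} (hη : Continuous η)
    (hηc : HasCompactSupport η) {φ : Eu n → E} (hφ : Continuous φ) (hφc : HasCompactSupport φ) :
    |∫ z : ST n, η z.1 * inner ℝ (u z) (φ z.2)| ≤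
      M * (Real.sqrt (∫ t, η t ^ 2) * Real.sqrt (∫ x, ‖φ x‖ ^ 2)) := by
  have hm := memLp_test hη hηc hφ hφc
  have h1 := integral_inner_le hu hm
  have e1 : ∫ z : ST n, inner ℝ (u z) (η z.1 • φ z.2) = ∫ z : ST n, η z.1 * inner ℝ (u z) (φ z.2) :=
    integral_congr_ae (Eventually.of_forall fun z => by simp only [inner_smul_right])
  rw [e1] at h1
  have h2 : (eLpNorm u 2 volume).toReal ≤ M := ENNReal.toReal_le_of_le_ofReal hM hb
  have h3 : (eLpNorm (fun z : ST n => η z.1 • φ z.2) 2 volume).toReal =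
      Real.sqrt (∫ t, η t ^ 2) * Real.sqrt (∫ x, ‖φ x‖ ^ 2) := by
    have e2 := toReal_eLpNorm_sq hm
    have e3 : ∫ z : ST n, ‖η z.1 • φ z.2‖ ^ 2 = (∫ t, η t ^ 2) * ∫ x, ‖φ x‖ ^ 2 := by
      have e4 := integral_prod_mul (μ := (volume : Measure ℝ)) (ν := (volume : Measure (Eu n)))
        (fun t => η t ^ 2) (fun x => ‖φ x‖ ^ 2)
      rw [← e4]
      refine integral_congr_ae (Eventually.of_forall fun z => ?_)
      simp only [norm_smul, mul_pow, Real.norm_eq_abs, sq_abs]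
    rw [e3] at e2
    rw [← Real.sqrt_mul (integral_nonneg fun t => by positivity), ← e2,
      Real.sqrt_sq ENNReal.toReal_nonneg]
  rw [h3] at h1
  exact h1.trans (mul_le_mul_of_nonneg_right h2 (by positivity))

theorem slab_quad {T M : ℝ} (hM : 0 ≤ M) {v : ST n → Eu n} (hv : MemLp v 2 volume)
    (hLB : LB T M v) {η : ℝ → ℝ} (hη : IsTime 0 T η) :
    ∫ z : ST n, |η z.1| * ‖v z‖ ^ 2 ≤ M * ∫ t, |η t| := by
  have hsl := Pool.Agent.Helper50.JS.slices_bound hv.1 hLB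
  have hηi : Integrable (fun t => |η t|) :=
    (hη.cont.abs).integrable_of_hasCompactSupport (hη.cpt.comp_left (g := fun x : ℝ => |x|) abs_zero)
  have hm : AEMeasurable (fun z : ST n => ‖η z.1‖ₑ * ‖v z‖ₑ ^ 2) volume :=
    ((hη.cont.comp continuous_fst).aestronglyMeasurable.enorm).mul (hv.1.enorm.pow_const 2)
  have h1 : ∫⁻ z : ST n, ‖η z.1‖ₑ * ‖v z‖ₑ ^ 2 ≤ ENNReal.ofReal (M * ∫ t, |η t|) := by
    have h2 := Pool.Agent.Helper50.JS.lint_slab hm univ
    rw [univ_prod_univ, Measure.restrict_univ, Measure.restrict_univ] at h2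
    rw [h2]
    have h3 : ∀ᵐ t : ℝ, ∫⁻ x : Eu n, ‖η t‖ₑ * ‖v (t, x)‖ₑ ^ 2 ≤ ENNReal.ofReal M *
        ENNReal.ofReal |η t| := by
      filter_upwards [hsl] with t ht
      by_cases h0 : t ∈ Ioo 0 T
      · rw [lintegral_const_mul' _ _ enorm_ne_top, ← Real.norm_eq_abs, ofReal_norm, mul_comm]
        exact mul_le_mul_left (ht h0) _
      · have h4 : η t = 0 := image_eq_zero_of_notMem_tsupport fun hc => h0 (hη.supp hc)
        simp [h4]
    refine (lintegral_mono_ae h3).trans ?_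
    rw [lintegral_const_mul' _ _ ENNReal.ofReal_ne_top, ENNReal.ofReal_mul hM,
      ofReal_integral_eq_lintegral_ofReal hηi (Eventually.of_forall fun t => abs_nonneg _)]
  have h2 : ∫⁻ z : ST n, ENNReal.ofReal (|η z.1| * ‖v z‖ ^ 2) =
      ∫⁻ z : ST n, ‖η z.1‖ₑ * ‖v z‖ₑ ^ 2 := by
    refine lintegral_congr fun z => ?_
    rw [ENNReal.ofReal_mul (abs_nonneg _), ENNReal.ofReal_pow (norm_nonneg _), ofReal_norm,
      ← Real.norm_eq_abs, ofReal_norm]
  by_cases hi : Integrable (fun z : ST n => |η z.1| * ‖v z‖ ^ 2)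
  · have h3 := ofReal_integral_eq_lintegral_ofReal hi
      (Eventually.of_forall fun z => by positivity)
    rw [h2] at h3
    rw [← h3] at h1
    exact (ENNReal.ofReal_le_ofReal_iff (by positivity)).1 h1
  · rw [integral_undef hi]
    positivity

theorem l1_le {T : ℝ} (hT : 0 < T) {η : ℝ → ℝ} (hη : IsTime 0 T η) :
    ∫ t, |η t| ≤ Real.sqrt T * Real.sqrt (∫ t, η t ^ 2) := by
  have hI : MemLp ((Ioo (0 : ℝ) T).indicator fun _ => (1 : ℝ)) 2 volume :=
    memLp_indicator_const 2 measurableSet_Ioo 1 (Or.inr (by simp))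
  have hηm : MemLp η 2 volume := hη.cont.memLp_of_hasCompactSupport hη.cpt
  have h1 := cs_norm hI hηm
  have e1 : ∫ t, ‖(Ioo (0 : ℝ) T).indicator (fun _ => (1 : ℝ)) t‖ * ‖η t‖ = ∫ t, |η t| := by
    refine integral_congr_ae (Eventually.of_forall fun t => ?_)
    simp only
    by_cases h0 : t ∈ Ioo 0 T
    · rw [indicator_of_mem h0, norm_one, one_mul, Real.norm_eq_abs]
    · have h4 : η t = 0 := image_eq_zero_of_notMem_tsupport fun hc => h0 (hη.supp hc)
      simp [h4]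
  have e2 : ∫ t, ‖(Ioo (0 : ℝ) T).indicator (fun _ => (1 : ℝ)) t‖ ^ 2 = T := by
    have : (fun t => ‖(Ioo (0 : ℝ) T).indicator (fun _ => (1 : ℝ)) t‖ ^ 2) =
        (Ioo (0 : ℝ) T).indicator fun _ => (1 : ℝ) := by
      funext t
      by_cases h0 : t ∈ Ioo 0 T
      · simp [h0]
      · simp [h0]
    rw [this, integral_indicator measurableSet_Ioo]
    simp [hT.le]
  have e3 : ∫ t, ‖η t‖ ^ 2 = ∫ t, η t ^ 2 :=
    integral_congr_ae (Eventually.of_forall fun t => by simp)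
  rw [e1, e2, e3] at h1
  exact h1

/-- equicontinuity in time -/
theorem tc_of_mom {Ω : Set (Eu n)} {T μ a c : ℝ} (hT : 0 < T)
    {f : ℝ → (Eu n → Eu n) → ℝ} {g : ℝ → ℝ} (hf : IsForce Ω f g) {v0 : Eu n → Eu n}
    {τ0 : Eu n → Mt n} {M : ℝ} (hM : 0 ≤ M) {φ : Eu n → Eu n} (hφ : IsVT Ω φ) :
    ∃ C : ℝ, ∀ (S : ST n → Mt n) (v : ST n → Eu n) (G τ : ST n → Mt n),
      IsSol Ω T μ a c f v0 τ0 S v G τ → LB T M v →
      eLpNorm G 2 volume ≤ ENNReal.ofReal M → eLpNorm τ 2 volume ≤ ENNReal.ofReal M →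
      ∀ η, IsTime 0 T η → |∫ z : ST n, deriv η z.1 * inner ℝ (v z) (φ z.2)| ≤
        C * Real.sqrt (∫ t, η t ^ 2) := by
  have hd : Continuous (fderiv ℝ φ) := hφ.smooth.continuous_fderiv (by simp)
  obtain ⟨D, hD⟩ := hd.bounded_above_of_compact_support (hφ.cpt.fderiv (𝕜 := ℝ))
  have hD0 : 0 ≤ D := (norm_nonneg _).trans (hD 0)
  set N := Real.sqrt ((∫ x, ‖φ x‖ ^ 2) + ∫ x, ‖grad φ x‖ ^ 2) with hN
  set g2 := Real.sqrt (∫ t in Ioo 0 T, g t ^ 2) with hg2
  refine ⟨D * (M * Real.sqrt T) + |μ| * (M * Real.sqrt (∫ x, ‖grad φ x‖ ^ 2)) +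
    |c| * (M * Real.sqrt (∫ x, ‖sy (grad φ x)‖ ^ 2)) + N * g2, ?_⟩
  intro S v G τ hsol hLB hGb hτb η hη
  have hη' : IsTime (-1) T η := ⟨hη.smooth, hη.cpt, hη.supp.trans
    (Ioo_subset_Ioo (by norm_num) le_rfl)⟩
  have hη0 : η 0 = 0 := image_eq_zero_of_notMem_tsupport fun hc => lt_irrefl _ (hη.supp hc).1
  have hmom := hsol.mom η φ hη' hφ
  rw [mom_split hsol.vel.memv hsol.vel.memG hsol.memτ hη' hφ, hη0, zero_mul, add_zero] at hmom
  set R := Real.sqrt (∫ t, η t ^ 2) with hR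
  have hR0 : 0 ≤ R := Real.sqrt_nonneg _
  -- convection
  have b1 : |∫ z : ST n, η z.1 * inner ℝ (v z) (fderiv ℝ φ z.2 (v z))| ≤
      D * (M * Real.sqrt T) * R := by
    have i1 : Integrable (fun z : ST n => |η z.1| * ‖v z‖ ^ 2) := by
      have h1 : Integrable (fun z => ‖v z‖ ^ 2) :=
        (memLp_two_iff_integrable_sq_norm hsol.vel.memv.1).1 hsol.vel.memv
      obtain ⟨Cη, hCη⟩ := hη.bounded.1
      exact h1.bdd_mul (c := Cη) (hη.cont.abs.comp continuous_fst).aestronglyMeasurable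
        (Eventually.of_forall fun z => by rw [Real.norm_eq_abs, abs_abs]; exact hCη _)
    have h1 : |∫ z : ST n, η z.1 * inner ℝ (v z) (fderiv ℝ φ z.2 (v z))| ≤
        ∫ z : ST n, D * (|η z.1| * ‖v z‖ ^ 2) := by
      rw [← Real.norm_eq_abs]
      refine norm_integral_le_of_norm_le (i1.const_mul D) (Eventually.of_forall fun z => ?_)
      rw [norm_mul, Real.norm_eq_abs]
      have h2 : ‖inner ℝ (v z) (fderiv ℝ φ z.2 (v z))‖ ≤ ‖v z‖ * (D * ‖v z‖) :=
        (norm_inner_le_norm _ _).trans (mul_le_mul_of_nonneg_left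
          ((ContinuousLinearMap.le_opNorm _ _).trans
            (mul_le_mul_of_nonneg_right (hD _) (norm_nonneg _))) (norm_nonneg _))
      calc |η z.1| * ‖inner ℝ (v z) (fderiv ℝ φ z.2 (v z))‖
          ≤ |η z.1| * (‖v z‖ * (D * ‖v z‖)) := mul_le_mul_of_nonneg_left h2 (abs_nonneg _)
        _ = D * (|η z.1| * ‖v z‖ ^ 2) := by ring
    rw [integral_const_mul] at h1
    have h2 := slab_quad hM hsol.vel.memv hLB hη
    have h3 := l1_le hT hη
    calc |∫ z : ST n, η z.1 * inner ℝ (v z) (fderiv ℝ φ z.2 (v z))|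
        ≤ D * (M * (Real.sqrt T * R)) :=
          h1.trans (mul_le_mul_of_nonneg_left (h2.trans (mul_le_mul_of_nonneg_left h3 hM)) hD0)
      _ = _ := by ring
  have b2 := lin_bound hM hsol.vel.memG hGb hη.cont hη.cpt hφ.grad_cont hφ.grad_cpt
  have b3 := lin_bound hM hsol.memτ hτb hη.cont hη.cpt (sy_grad_cont hφ) (sy_grad_cpt hφ)
  -- force
  have b4 : |∫ t in Ioo 0 T, η t * f t φ| ≤ N * g2 * R := by
    have hgm : MemLp g 2 (volume.restrict (Ioo 0 T)) := by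
      rw [memLp_two_iff_integrable_sq_norm hf.gmeas.restrict]
      have h5 : Integrable (fun t => g t ^ 2) (volume.restrict (Ioo 0 T)) := hf.gint T
      simpa using h5
    have hηm : MemLp η 2 (volume.restrict (Ioo 0 T)) :=
      (hη.cont.memLp_of_hasCompactSupport hη.cpt).restrict _
    have h1 := cs_norm hηm hgm
    have hint : Integrable (fun t => ‖η t‖ * ‖g t‖) (volume.restrict (Ioo 0 T)) :=
      hηm.norm.integrable_mul hgm.norm
    have h2 : |∫ t in Ioo 0 T, η t * f t φ| ≤ ∫ t in Ioo 0 T, N * (‖η t‖ * ‖g t‖) := by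
      rw [← Real.norm_eq_abs]
      refine norm_integral_le_of_norm_le (hint.const_mul N) (Eventually.of_forall fun t => ?_)
      rw [norm_mul, Real.norm_eq_abs (f t φ)]
      have h3 := hf.bound t φ hφ
      rw [Real.norm_of_nonneg (hf.gnn t)]
      calc ‖η t‖ * |f t φ| ≤ ‖η t‖ * (g t * N) := mul_le_mul_of_nonneg_left h3 (norm_nonneg _)
        _ = _ := by ring
    rw [integral_const_mul] at h2
    have e1 : ∫ t in Ioo 0 T, ‖η t‖ ^ 2 ≤ ∫ t, η t ^ 2 := by
      have hi : Integrable (fun t => ‖η t‖ ^ 2) := (memLp_two_iff_integrable_sq_norm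
        hη.cont.aestronglyMeasurable).1 (hη.cont.memLp_of_hasCompactSupport hη.cpt)
      have h3 := setIntegral_le_integral (s := Ioo 0 T) hi
        (Eventually.of_forall fun t => by positivity)
      refine h3.trans (le_of_eq ?_)
      exact integral_congr_ae (Eventually.of_forall fun t => by simp)
    have e2 : ∫ t in Ioo 0 T, ‖g t‖ ^ 2 = ∫ t in Ioo 0 T, g t ^ 2 :=
      integral_congr_ae (Eventually.of_forall fun t => by simp)
    rw [e2] at h1
    have h4 : Real.sqrt (∫ t in Ioo 0 T, ‖η t‖ ^ 2) * g2 ≤ R * g2 :=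
      mul_le_mul_of_nonneg_right (Real.sqrt_le_sqrt e1) (Real.sqrt_nonneg _)
    calc |∫ t in Ioo 0 T, η t * f t φ| ≤ N * (R * g2) :=
          h2.trans (mul_le_mul_of_nonneg_left (h1.trans h4) (Real.sqrt_nonneg _))
      _ = _ := by ring
  have e : ∫ z : ST n, deriv η z.1 * inner ℝ (v z) (φ z.2) =
      -(∫ z : ST n, η z.1 * inner ℝ (v z) (fderiv ℝ φ z.2 (v z))) +
      μ * (∫ z : ST n, η z.1 * inner ℝ (G z) (grad φ z.2)) +
      c * (∫ z : ST n, η z.1 * inner ℝ (τ z) (sy (grad φ z.2))) -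
      ∫ t in Ioo 0 T, η t * f t φ := by linarith
  rw [e]
  have b2' := mul_le_mul_of_nonneg_left b2 (abs_nonneg μ)
  have b3' := mul_le_mul_of_nonneg_left b3 (abs_nonneg c)
  rw [← abs_mul] at b2' b3'
  refine (abs_sub _ _).trans ?_
  refine (add_le_add (abs_add_three _ _ _) le_rfl).trans ?_
  rw [abs_neg]
  nlinarith

end Pool.Agent.Helper50.JM
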