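import Pool.Agent.Helper50.JefThetaD

/-! # N3: the defect vanishes (conditional on the renormalisation property) -/

open MeasureTheory Set Filter Topology
open scoped ENNReal NNReal ContDiff

namespace Pool.Agent.Helper50.JT

open Pool.Agent.Helper42.Jef Pool.Agent.Helper22.Jef

variable {n : ℕ}

theorem int_gtBdP {T T1 : ℝ} (h : T1 < T) {ψ : Eu n → ℝ} (hψ : IsTest ψ) (hψ0 : ∀ x, 0 ≤ ψ x)
    (hψ1 : ∀ x, ψ x ≤ 1) {t H : ST n → Mt n} {Q θk : ST n → ℝ} (htm : MemLp t 2 volume)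
    (hH : MemLp H 2 volume) (hQ : MemLp Q 2 volume) (hm : AEStronglyMeasurable θk volume)
    (h0 : ∀ᵐ z, 0 ≤ θk z) {ε : ℝ} (hε : 0 < ε) :
    Integrable (fun z => gt T1 ψ z * (Bd ε (θk z) * (Q z - 2 * inner ℝ (t z) (H z)))) := by
  have hg0 := gt_nonneg (T1 := T1) hψ0
  have hg1 := gt_le_one (T1 := T1) hψ0 hψ1
  have hgc := gt_continuous T1 hψ
  have hg2 : MemLp (gt T1 ψ) 2 volume :=
    memLp_prod_smul (isTime_memLp (et_time h) 2) (isTest_memLp hψ 2)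
  have h1 : Integrable (fun z => gt T1 ψ z * Q z) := hg2.integrable_mul hQ
  have h2 : Integrable (fun z => (inner ℝ (t z) (H z) : ℝ)) := by
    have h3 : Integrable (fun z => ‖t z‖ * ‖H z‖) := htm.norm.integrable_mul hH.norm
    refine h3.mono (htm.1.inner hH.1) (Eventually.of_forall fun z => ?_)
    rw [Real.norm_of_nonneg (mul_nonneg (norm_nonneg (t z)) (norm_nonneg (H z)))]
    exact norm_inner_le_norm _ _
  have h3 : Integrable (fun z => gt T1 ψ z * (inner ℝ (t z) (H z) : ℝ)) :=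
    h2.bdd_mul (c := 1) hgc.aestronglyMeasurable
      (Eventually.of_forall fun z => by rw [Real.norm_of_nonneg (hg0 z)]; exact hg1 z)
  have h4 : Integrable (fun z => gt T1 ψ z * Q z - 2 * (gt T1 ψ z * (inner ℝ (t z) (H z) : ℝ))) :=
    h1.sub (h3.const_mul 2)
  have h5 := h4.bdd_mul (c := 1 / (2 * ε)) ((Bd_continuous hε).comp_aestronglyMeasurable hm) (by
    filter_upwards [h0] with z hz
    rw [Real.norm_of_nonneg (Bd_nonneg ε hz)]
    exact Bd_le hε _)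
  refine h5.congr (Eventually.of_forall fun z => ?_)
  simp only
  ring

/-- N3 with the renormalisation property as a hypothesis -/
theorem theta_zero_of_ren {Ω : Set (Eu n)} (hΩ : IsOpen Ω) (hΩb : Bornology.IsBounded Ω) {T : ℝ}
    (hT : 0 < T) {v : ST n → Eu n} {G : ST n → Mt n} (hv : IsVel Ω T v G) (hren : Ren T v)
    {τ0 : Eu n → Mt n} (hτ0 : MemLp τ0 2 volume) {tk : ℕ → ST n → Mt n} {ta : ℕ → ST n → ℝ}
    {τ : ST n → Mt n} {A θ : ST n → ℝ} (hA : Integrable A)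
    (hb : ∀ᵐ z, ∀ k : ℕ, ‖tk k z‖ ^ 2 ≤ ta k z ∧ ta k z ≤ A z ∧ ‖tk k z‖ ≤ (k : ℝ) + 1 ∧
      ta k z ≤ ((k : ℝ) + 1) ^ 2)
    (hAc : ∀ᵐ z, Tendsto (fun k => ta k z) atTop (𝓝 (A z)))
    (htc : ∀ᵐ z, Tendsto (fun k => tk k z) atTop (𝓝 (τ z)))
    (hθ : ∀ᵐ z, θ z = A z - ‖τ z‖ ^ 2) (htm : ∀ k, MemLp (tk k) 2 volume)
    (ham : ∀ k, MemLp (ta k) 2 volume) (ht0 : ∀ k, ∀ᵐ z : ST n, z.1 ∉ Ioo 0 T → tk k z = 0)
    (ha0 : ∀ k, ∀ᵐ z : ST n, z.1 ∉ Ioo 0 T → ta k z = 0)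
    {H : ℕ → ST n → Mt n} {Q : ℕ → ST n → ℝ} (hH : ∀ k, MemLp (H k) 2 volume)
    (hQ : ∀ k, MemLp (Q k) 2 volume) (hH0 : ∀ k, ∀ᵐ z : ST n, z.1 ∉ Ioo 0 T → H k z = 0)
    (hQ0 : ∀ k, ∀ᵐ z : ST n, z.1 ∉ Ioo 0 T → Q k z = 0)
    (hTE1 : ∀ k : ℕ, TE T v (ext0 (fun x => bk ((k : ℝ) + 1) (τ0 x)) (tk k)) (H k))
    (hTE2 : ∀ k : ℕ, TE T v (ext0 (fun x => ‖bk ((k : ℝ) + 1) (τ0 x)‖ ^ 2) (ta k)) (Q k))
    {C' : ℝ} (hP : ∀ B : Set (ST n), MeasurableSet B → volume B < ⊤ →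
      ∃ e : ℕ → ℝ, Tendsto e atTop (𝓝 0) ∧ ∀ (k : ℕ) (ζ : ST n → ℝ) (L : ℝ), Measurable ζ →
        (∀ z, 0 ≤ ζ z ∧ ζ z ≤ L) → (∀ z, z ∉ B → ζ z = 0) →
        ∫ z, ζ z * (Q k z - 2 * inner ℝ (tk k z) (H k z)) ≤
          C' * (∫ z, ζ z * ((1 + ‖tk k z‖) ^ 2 * (ta k z - ‖tk k z‖ ^ 2) + θ z)) + L * e k) :
    ∀ᵐ z : ST n, z.1 ∈ Ioo 0 T → θ z = 0 := by
  obtain ⟨R0, hR0⟩ := hΩb.subset_ball (0 : Eu n)
  have hlim : ∀ᵐ z, Tendsto (fun k => ta k z - ‖tk k z‖ ^ 2) atTop (𝓝 (θ z)) := by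
    filter_upwards [hAc, htc, hθ] with z h1 h2 h3
    rw [h3]
    exact h1.sub ((h2.norm).pow 2)
  have hθA : ∀ᵐ z, 0 ≤ θ z ∧ θ z ≤ A z := by
    filter_upwards [hlim, hb, hθ] with z h1 h2 h3
    refine ⟨ge_of_tendsto' h1 fun k => by linarith [(h2 k).1], ?_⟩
    rw [h3]
    have : 0 ≤ ‖τ z‖ ^ 2 := by positivity
    linarith
  have hdm : ∀ k, AEStronglyMeasurable (fun z => ta k z - ‖tk k z‖ ^ 2) volume := fun k =>
    (ham k).1.sub ((htm k).1.norm.pow 2)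
  have hθm : AEStronglyMeasurable θ volume := aestronglyMeasurable_of_tendsto_ae atTop hdm hlim
  have hv0 : ∀ᵐ z : ST n, z.2 ∉ Ω → v z = 0 := by
    filter_upwards [(hv.zero_out hΩ.measurableSet).1] with z hz h
    exact hz (Or.inr h)
  have key : ∀ m : ℕ, ∀ᵐ z : ST n, 0 < z.1 → z.1 < T - T / ((m : ℝ) + 2) → ‖z.2‖ ≤ (m : ℝ) →
      θ z = 0 := by
    intro m
    set T1 : ℝ := T - T / ((m : ℝ) + 2) with hT1
    have h1 : T1 < T := by
      have : 0 < T / ((m : ℝ) + 2) := by positivity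
      linarith
    have hRpos : 0 < |R0| + m + 1 := by positivity
    set f : ContDiffBump (0 : Eu n) := ⟨|R0| + m + 1, |R0| + m + 2, hRpos, by linarith⟩ with hf
    set ψ : Eu n → ℝ := fun x => f x with hψdef
    have hψ : IsTest ψ := ⟨f.contDiff, f.hasCompactSupport⟩
    have hψ0 : ∀ x, 0 ≤ ψ x := fun x => f.nonneg
    have hψ1 : ∀ x, ψ x ≤ 1 := fun x => f.le_one
    have hψΩ : ∀ x ∈ Ω, fderiv ℝ ψ x = 0 := by
      intro x hx
      have h2 : x ∈ Metric.ball (0 : Eu n) f.rIn := by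
        have h3 := hR0 hx
        rw [mem_ball_zero_iff] at h3 ⊢
        change ‖x‖ < |R0| + m + 1
        have := le_abs_self R0
        have h4 : (0 : ℝ) ≤ m := Nat.cast_nonneg m
        linarith
      have h3 : ψ =ᶠ[𝓝 x] fun _ => (1 : ℝ) := f.eventuallyEq_one_of_mem_ball h2
      rw [h3.fderiv_eq]
      simp
    set B : Set (ST n) := Icc (-1 / 2) T1 ×ˢ Metric.closedBall 0 (|R0| + m + 2) with hB
    have hBm : MeasurableSet B := measurableSet_Icc.prod Metric.isClosed_closedBall.measurableSet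
    have hBv : volume B < ⊤ := by
      rw [hB, Measure.volume_eq_prod, Measure.prod_prod]
      exact ENNReal.mul_lt_top (by simp) measure_closedBall_lt_top
    have hB0 : ∀ z, z ∉ B → gt T1 ψ z = 0 := by
      intro z hz
      by_cases h2 : z.1 ∈ Icc (-1 / 2) T1
      · have h3 : z.2 ∉ Metric.closedBall 0 (|R0| + m + 2) := fun hc => hz ⟨h2, hc⟩
        have h4 : f z.2 = 0 := by
          refine f.zero_of_le_dist ?_
          rw [Metric.mem_closedBall, not_le] at h3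
          exact h3.le
        change et T1 z.1 * f z.2 = 0
        rw [h4, mul_zero]
      · have h3 : et T1 z.1 = 0 :=
          image_eq_zero_of_notMem_tsupport fun hc => h2 (et_supp T1 hc)
        change et T1 z.1 * ψ z.2 = 0
        rw [h3, zero_mul]
    obtain ⟨e, he, hPe⟩ := hP B hBm hBv
    have hbnd : ∀ ε : ℝ, 0 < ε → ∫⁻ z, ENNReal.ofReal (wt T1 ψ z * Bf ε (θ z)) ≤
        ENNReal.ofReal (|C'| * ∫ z, gt T1 ψ z * (3 + 2 * A z)) := by
      intro ε hε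
      refine limit_bound h1 hψ hψ0 hψ1 hA ?_ hlim hθA hθm (fun k => (htm k).1) (fun k => (ham k).1)
        he hPe hB0 hε ?_
      · filter_upwards [hb] with z hz k
        exact ⟨(hz k).1, (hz k).2.1⟩
      · intro k
        have hκ : (0 : ℝ) < (k : ℝ) + 1 := by positivity
        have hd0 : ∀ᵐ z, 0 ≤ ta k z - ‖tk k z‖ ^ 2 := by
          filter_upwards [hb] with z hz
          linarith [(hz k).1]
        have hTE := ren_step hv.memv hren hκ hτ0 (t := tk k) (a := ta k) (by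
          filter_upwards [hb] with z hz
          exact ⟨(hz k).1, (hz k).2.2.1, (hz k).2.2.2⟩) (htm k) (ham k) (ht0 k) (ha0 k) (hH k)
          (hQ k) (hH0 k) (hQ0 k) (hTE1 k) (hTE2 k) hε
        refine tested h1 hv0 hψ hψΩ (κ := ((k : ℝ) + 1) ^ 2) hε (hdm k) ?_ ?_ ?_ hTE
        · filter_upwards [hb] with z hz
          have : 0 ≤ ‖tk k z‖ ^ 2 := by positivity
          exact ⟨by linarith [(hz k).1], by linarith [(hz k).2.2.2]⟩
        · filter_upwards [ht0 k, ha0 k] with z h2 h3 h4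
          rw [h2 h4, h3 h4]; simp
        · exact int_gtBdP h1 hψ hψ0 hψ1 (htm k) (hH k) (hQ k) (hdm k) hd0 hε
    have hfin := fatou_log (wt_integrable h1 hψ).1.aemeasurable hθm.aemeasurable hbnd
    filter_upwards [hfin] with z hz h2 h3 h4
    refine hz (wt_pos ⟨h2, h3⟩ ?_)
    have h5 : f z.2 = 1 := by
      refine f.one_of_mem_closedBall ?_
      rw [mem_closedBall_zero_iff]
      change ‖z.2‖ ≤ |R0| + m + 1
      have := abs_nonneg R0
      linarith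
    change 0 < f z.2
    rw [h5]; norm_num
  have key' := ae_all_iff.2 key
  filter_upwards [key'] with z hz hzT
  have hgap : 0 < T - z.1 := by linarith [hzT.2]
  obtain ⟨m1, hm1⟩ := exists_nat_gt (T / (T - z.1))
  obtain ⟨m2, hm2⟩ := exists_nat_gt ‖z.2‖
  refine hz (max m1 m2) hzT.1 ?_ ?_
  · have h1 : (m1 : ℝ) ≤ ((max m1 m2 : ℕ) : ℝ) := by exact_mod_cast le_max_left m1 m2
    have h2 : T / (T - z.1) < ((max m1 m2 : ℕ) : ℝ) + 2 := by linarith
    have h3 : T / (((max m1 m2 : ℕ) : ℝ) + 2) < T - z.1 := by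
      rw [div_lt_iff₀ hgap] at h2
      rw [div_lt_iff₀ (by positivity)]
      linarith
    linarith
  · have h1 : (m2 : ℝ) ≤ ((max m1 m2 : ℕ) : ℝ) := by exact_mod_cast le_max_right m1 m2
    linarith

end Pool.Agent.Helper50.JT
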