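import Pool.Agent.Helper50.HermMono

set_option autoImplicit false

open Polynomial Filter Topology

namespace Pool.Agent.Helper50

theorem comp_prod (ε : ℝ) (hε : ε ^ 2 = 1) (s : Multiset ℝ) :
    ((s.map (fun t => X - C t)).prod).comp (C ε * X)
      = C (ε ^ (Multiset.card s)) * ((s.map (fun t => ε * t)).map (fun t => X - C t)).prod := by
  induction s using Multiset.induction_on with
  | empty => simp
  | cons t s ih =>
    simp only [Multiset.map_cons, Multiset.prod_cons, Multiset.card_cons, mul_comp, sub_comp,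
      X_comp, C_comp, ih]
    have h1 : (C ε * X - C t : ℝ[X]) = C ε * (X - C (ε * t)) := by
      rw [mul_sub, ← C_mul, ← mul_assoc, ← pow_two, hε, one_mul]
    rw [h1, pow_succ]
    simp only [map_mul, map_pow]
    ring

theorem countP_comp (p : ℝ[X]) (hp : p.Splits) (ε : ℝ) (hε : ε ^ 2 = 1) :
    (p.comp (C ε * X)).roots.countP (fun t : ℝ => |t| ≤ 1) = p.roots.countP (fun t : ℝ => |t| ≤ 1) := by
  by_cases hp0 : p = 0
  · subst hp0; simp
  have hε0 : ε ≠ 0 := by
    rintro rfl
    norm_num at hε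
  have hεabs : |ε| = 1 := by
    have : |ε| ^ 2 = 1 := by rw [sq_abs, hε]
    have h0 : 0 ≤ |ε| := abs_nonneg _
    nlinarith
  have hl : p.leadingCoeff ≠ 0 := leadingCoeff_ne_zero.2 hp0
  conv_lhs => rw [hp.eq_prod_roots]
  rw [mul_comp, C_comp, comp_prod ε hε, ← mul_assoc, ← C_mul,
    roots_C_mul _ (mul_ne_zero hl (pow_ne_zero _ hε0)), roots_multiset_prod_X_sub_C,
    Multiset.countP_map]
  rw [Multiset.countP_eq_card_filter]
  congr 1
  apply Multiset.filter_congr
  intro t _
  rw [abs_mul, hεabs, one_mul]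

theorem J_twist (γ : ℕ → ℝ) (c ε : ℝ) (s K : ℕ) :
    J (fun j => c * ε ^ (s + j) * γ (s + j)) K = C (c * ε ^ s) * (J (fun j => γ (s + j)) K).comp (C ε * X) := by
  ext n
  rw [J_coeff, coeff_C_mul, comp_C_mul_X_coeff, J_coeff]
  ring

theorem stepA (γ : ℕ → ℝ) (hMS : MS γ)
    (hsgn : ∀ k, ∃ τ : ℝ, τ ≠ 0 ∧ ∀ i, 2 * i ≤ k → 0 ≤ τ * Lf γ ((X - 1) ^ (k - i) * (X + 1) ^ i))
    (hne : ∃ n, γ n ≠ 0) :
    ∃ c ε : ℝ, c ^ 2 = 1 ∧ ε ^ 2 = 1 ∧ JS (fun n => c * ε ^ n * γ n) ∧
      (∀ n, 0 ≤ c * ε ^ n * γ n) ∧ (∀ n, c * ε ^ n * γ n ≤ c * ε ^ (n + 1) * γ (n + 1)) := by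
  classical
  have hJ := hMS.JS
  set m := Nat.find hne with hm
  have hm1 : γ m ≠ 0 := Nat.find_spec hne
  have hm2 : ∀ n, n < m → γ n = 0 := by
    intro n hn
    have := Nat.find_min hne hn
    push Not at this
    exact this
  -- no zero afterwards
  have hnz : ∀ n, m ≤ n → γ n ≠ 0 := by
    by_contra hcon
    push Not at hcon
    have hex : ∃ n, m ≤ n ∧ γ n = 0 := by
      obtain ⟨n, h1, h2⟩ := hcon
      exact ⟨n, h1, h2⟩
    set M := Nat.find hex with hM
    obtain ⟨hMm, hM0⟩ := Nat.find_spec hex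
    have hMmin : ∀ n, n < M → m ≤ n → γ n ≠ 0 := by
      intro n hn hmn h0
      exact Nat.find_min hex hn ⟨hmn, h0⟩
    have hMm' : m < M := lt_of_le_of_ne hMm (by
      intro h
      apply hm1
      rw [h]
      exact hM0)
    have hz := hMS.zero_tail (M - 1) (hMmin (M - 1) (by omega) (by omega))
      (by rw [show M - 1 + 1 = M by omega]; exact hM0)
    set K := 2 * (M + m) + 10 with hK
    obtain ⟨τ, hτ, hs⟩ := hsgn (m + K)
    have hJne : J (fun j => γ (m + j)) K ≠ 0 := by
      intro h0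
      have := congrArg (fun q => coeff q 0) h0
      simp [J_coeff] at this
      exact hm1 this
    have h1 := main_ineq γ hJ m K τ hτ hs hJne
    have h2 : (J (fun j => γ (m + j)) K).roots.countP (fun t : ℝ => |t| ≤ 1) ≤ M := by
      calc _ ≤ Multiset.card (J (fun j => γ (m + j)) K).roots := Multiset.countP_le_card _ _
        _ ≤ (J (fun j => γ (m + j)) K).natDegree := card_roots' _
        _ ≤ M := by
          rw [natDegree_le_iff_coeff_eq_zero]
          intro N hN
          rw [J_coeff]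
          have := hz (m + N - (M - 1)) (by omega)
          rw [show M - 1 + (m + N - (M - 1)) = m + N by omega] at this
          rw [this, mul_zero]
    omega
  -- signs
  set s0 : ℝ := γ m / |γ m| with hs0
  have hs0sq : s0 ^ 2 = 1 := by
    rw [hs0, div_pow, sq_abs, div_self (pow_ne_zero _ hm1)]
  obtain ⟨ε, hε, hε1⟩ : ∃ ε : ℝ, ε ^ 2 = 1 ∧ 0 < ε * (γ m * γ (m + 1)) := by
    have : γ m * γ (m + 1) ≠ 0 := mul_ne_zero hm1 (hnz _ (by omega))
    rcases lt_or_gt_of_ne this with h | h
    · exact ⟨-1, by norm_num, by linarith⟩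
    · exact ⟨1, by norm_num, by linarith⟩
  set c : ℝ := s0 * ε ^ m with hc
  have hc2 : c ^ 2 = 1 := by
    rw [hc, mul_pow, hs0sq, ← pow_mul, mul_comm m 2, pow_mul, hε, one_pow, one_mul]
  set g : ℕ → ℝ := fun n => c * ε ^ n * γ n with hg
  have hεm : ε ^ m * ε ^ m = 1 := by
    rw [← pow_add, ← two_mul, pow_mul, hε, one_pow]
  have hgm : 0 < g m := by
    simp only [hg, hc, hs0]
    have : γ m / |γ m| * ε ^ m * ε ^ m * γ m = (ε ^ m * ε ^ m) * (γ m * γ m / |γ m|) := by ring
    rw [this, hεm, one_mul]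
    have h1 : 0 < γ m * γ m := mul_self_pos.2 hm1
    have h2 : 0 < |γ m| := abs_pos.2 hm1
    positivity
  have hgm1 : 0 < g (m + 1) := by
    simp only [hg, hc, hs0]
    have : γ m / |γ m| * ε ^ m * ε ^ (m + 1) * γ (m + 1) = (ε ^ m * ε ^ m) * ((ε * (γ m * γ (m + 1))) / |γ m|) := by
      rw [pow_succ]; ring
    rw [this, hεm, one_mul]
    have h2 : 0 < |γ m| := abs_pos.2 hm1
    positivity
  have hgpos : ∀ j, 0 < g (m + j) ∧ 0 < g (m + (j + 1)) := by
    intro j
    induction j with
    | zero => exact ⟨hgm, hgm1⟩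
    | succ j ih =>
      refine ⟨ih.2, ?_⟩
      have h1 := hMS.nonneg2 (m + j)
      have h2 : g (m + j) * g (m + (j + 1 + 1)) = γ (m + j) * γ (m + j + 2) := by
        simp only [hg]
        have e1 : ε ^ (m + j) * ε ^ (m + (j + 1 + 1)) = 1 := by
          rw [← pow_add, show m + j + (m + (j + 1 + 1)) = 2 * (m + j + 1) by ring, pow_mul, hε, one_pow]
        have e2 : c * c = 1 := by rw [← pow_two, hc2]
        calc c * ε ^ (m + j) * γ (m + j) * (c * ε ^ (m + (j + 1 + 1)) * γ (m + (j + 1 + 1)))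
            = (c * c) * (ε ^ (m + j) * ε ^ (m + (j + 1 + 1))) * (γ (m + j) * γ (m + j + 2)) := by
              rw [show m + (j + 1 + 1) = m + j + 2 by ring]; ring
          _ = γ (m + j) * γ (m + j + 2) := by rw [e1, e2]; ring
      have h3 : γ (m + j) * γ (m + j + 2) ≠ 0 := mul_ne_zero (hnz _ (by omega)) (hnz _ (by omega))
      have h4 : 0 < g (m + j) * g (m + (j + 1 + 1)) := by
        rw [h2]
        exact lt_of_le_of_ne h1 (Ne.symm h3)
      exact (pos_iff_pos_of_mul_pos h4).1 ih.1
  have hJg : JS g := by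
    intro s K
    have h1 : J (fun j => g (s + j)) K = C (c * ε ^ s) * (J (fun j => γ (s + j)) K).comp (C ε * X) :=
      J_twist γ c ε s K
    rw [h1]
    apply Splits.C_mul
    apply (hJ s K).comp_of_natDegree_le_one
    exact (natDegree_C_mul_le _ _).trans natDegree_X_le
  refine ⟨c, ε, hc2, hε, hJg, ?_, ?_⟩
  · intro n
    rcases Nat.lt_or_ge n m with h | h
    · rw [hm2 n h, mul_zero]
    · have := (hgpos (n - m)).1
      rw [show m + (n - m) = n by omega] at this
      exact this.le
  · have hmono := mono_of_count (fun j => g (m + j)) (hJg.shift m) (fun j => (hgpos j).1) m ?_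
    · intro n
      rcases Nat.lt_or_ge n m with h | h
      · rw [hm2 n h, mul_zero]
        rcases Nat.lt_or_ge (n + 1) m with h' | h'
        · rw [hm2 _ h', mul_zero]
        · have := (hgpos (n + 1 - m)).1
          rw [show m + (n + 1 - m) = n + 1 by omega] at this
          exact this.le
      · have := hmono (n - m)
        rw [show m + (n - m) = n by omega, show m + (n - m + 1) = n + 1 by omega] at this
        exact this
    · intro s K
      obtain ⟨τ, hτ, hs⟩ := hsgn (m + s + K)
      have hJne : J (fun j => γ (m + s + j)) K ≠ 0 := by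
        intro h0
        have := congrArg (fun q => coeff q 0) h0
        simp [J_coeff] at this
        exact hnz (m + s) (by omega) this
      have h1 := main_ineq γ hJ (m + s) K τ hτ hs hJne
      have h2 : J (fun j => g (m + (s + j))) K
          = C (c * ε ^ (m + s)) * (J (fun j => γ (m + s + j)) K).comp (C ε * X) := by
        rw [← J_twist]
        simp only [hg, add_assoc]
      have hcε : c * ε ^ (m + s) ≠ 0 := by
        apply mul_ne_zero
        · rintro h; rw [h] at hc2; norm_num at hc2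
        · apply pow_ne_zero
          rintro h; rw [h] at hε; norm_num at hε
      rw [h2, roots_C_mul _ hcε, countP_comp _ (hJ _ _) ε hε]
      exact h1

end Pool.Agent.Helper50
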