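import Pool.Agent.Helper50.HermQ
import Pool.Agent.Helper50.HermA

set_option autoImplicit false

open Polynomial Filter Topology

namespace Pool.Agent.Helper50

/-! ### half-plane lemmas for complex polynomials -/

theorem im_sum_nonpos (s : Multiset ℂ) (v : ℂ) (h : ∀ z ∈ s, z.im ≤ v.im) :
    ((s.map (fun z => 1 / (v - z))).sum).im ≤ 0 := by
  induction s using Multiset.induction_on with
  | empty => simp
  | cons a s ih =>
    rw [Multiset.map_cons, Multiset.sum_cons, Complex.add_im]
    have h1 := ih (fun z hz => h z (Multiset.mem_cons_of_mem hz))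
    have h2 := h a (Multiset.mem_cons_self _ _)
    have h3 : (1 / (v - a)).im ≤ 0 := by
      rw [one_div, Complex.inv_im]
      apply div_nonpos_of_nonpos_of_nonneg
      · rw [Complex.sub_im]; linarith
      · exact Complex.normSq_nonneg _
    linarith

theorem im_sum_nonneg (s : Multiset ℂ) (v : ℂ) (h : ∀ z ∈ s, v.im ≤ z.im) :
    0 ≤ ((s.map (fun z => 1 / (v - z))).sum).im := by
  induction s using Multiset.induction_on with
  | empty => simp
  | cons a s ih =>
    rw [Multiset.map_cons, Multiset.sum_cons, Complex.add_im]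
    have h1 := ih (fun z hz => h z (Multiset.mem_cons_of_mem hz))
    have h2 := h a (Multiset.mem_cons_self _ _)
    have h3 : 0 ≤ (1 / (v - a)).im := by
      rw [one_div, Complex.inv_im]
      apply div_nonneg
      · rw [Complex.sub_im]; linarith
      · exact Complex.normSq_nonneg _
    linarith

/-- one step of the product formula -/
theorem upper_step (q : ℂ[X]) (hq : ∀ v : ℂ, 0 < v.im → eval v q ≠ 0) (η : ℂ) (hη : η.im < 0)
    (t : ℝ) (ht : t ≤ 0) (v : ℂ) (hv : 0 < v.im) :
    η * (v * eval v q - 1 / 2 * eval v (derivative q)) - t * eval v q ≠ 0 := by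
  have hqv := hq v hv
  have hs := (IsAlgClosed.splits q).eval_derivative_eq_eval_mul_sum hqv
  set S := (q.roots.map (fun z => 1 / (v - z))).sum with hS
  have hSim : S.im ≤ 0 := by
    apply im_sum_nonpos
    intro z hz
    by_contra hcon
    push Not at hcon
    exact hq z (by linarith) ((mem_roots'.1 hz).2)
  rw [hs]
  intro h
  have h1 : eval v q * (η * (v - 1 / 2 * S) - t) = 0 := by
    rw [← h]; ring
  rcases mul_eq_zero.1 h1 with h2 | h2
  · exact hqv h2
  · have hη0 : η ≠ 0 := by
      rintro rfl
      simp at hη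
    have h3 : v - 1 / 2 * S = t * η⁻¹ := by
      field_simp
      linear_combination 2 * h2
    have h4 := congrArg Complex.im h3
    rw [Complex.im_ofReal_mul, Complex.inv_im, Complex.sub_im] at h4
    have h5 : (1 / 2 * S).im = S.im / 2 := by
      rw [show (1 / 2 : ℂ) = ((1 / 2 : ℝ) : ℂ) by push_cast; rfl, Complex.im_ofReal_mul]
      ring
    rw [h5] at h4
    have h6 : 0 < Complex.normSq η := Complex.normSq_pos.2 hη0
    have h7 : 0 < -η.im / Complex.normSq η := div_pos (by linarith) h6
    nlinarith

/-- one step of the evaluation formula -/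
theorem lower_step (g : ℂ[X]) (hg : ∀ η : ℂ, η.im < 0 → eval η g ≠ 0) (x : ℂ) (hx : 0 < x.im)
    (r : ℝ) (η : ℂ) (hη : η.im ≤ 0) (hgη : eval η g ≠ 0) :
    eval η (derivative g + C (x - r) * g) ≠ 0 := by
  have hs := (IsAlgClosed.splits g).eval_derivative_eq_eval_mul_sum hgη
  set S := (g.roots.map (fun z => 1 / (η - z))).sum with hS
  have hSim : 0 ≤ S.im := by
    apply im_sum_nonneg
    intro z hz
    by_contra hcon
    push Not at hcon
    exact hg z (by linarith) ((mem_roots'.1 hz).2)
  rw [eval_add, eval_mul, eval_C, hs]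
  intro h
  have h1 : eval η g * (S + (x - r)) = 0 := by
    rw [← h]; ring
  rcases mul_eq_zero.1 h1 with h2 | h2
  · exact hgη h2
  · have h4 := congrArg Complex.im h2
    simp at h4
    linarith

/-! ### the pairing -/

/-- `g ↦ (g(D) p)(x)` -/
noncomputable def pr (x : ℂ) (g p : ℂ[X]) : ℂ :=
  eval x ((aeval (derivative : ℂ[X] →ₗ[ℂ] ℂ[X]) g) p)

theorem pr_X_mul (x : ℂ) (g p : ℂ[X]) : pr x (X * g) p = pr x g (derivative p) := by
  rw [pr, pr, mul_comm, map_mul, aeval_X, Module.End.mul_apply]

theorem pr_add_left (x : ℂ) (g1 g2 p : ℂ[X]) : pr x (g1 + g2) p = pr x g1 p + pr x g2 p := by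
  rw [pr, pr, pr, map_add, LinearMap.add_apply, eval_add]

theorem pr_C_mul_left (x a : ℂ) (g p : ℂ[X]) : pr x (C a * g) p = a * pr x g p := by
  rw [pr, pr, ← smul_eq_C_mul, map_smul, LinearMap.smul_apply, eval_smul, smul_eq_mul]

theorem pr_add_right (x : ℂ) (g p1 p2 : ℂ[X]) : pr x g (p1 + p2) = pr x g p1 + pr x g p2 := by
  rw [pr, pr, pr, map_add, eval_add]

theorem pr_C_mul_right (x a : ℂ) (g p : ℂ[X]) : pr x g (C a * p) = a * pr x g p := by
  rw [pr, pr, ← smul_eq_C_mul, map_smul, eval_smul, smul_eq_mul]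

theorem pr_one_right (x : ℂ) (g : ℂ[X]) : pr x g 1 = eval 0 g := by
  induction g using Polynomial.induction_on' with
  | add g1 g2 h1 h2 => rw [pr_add_left, h1, h2, eval_add]
  | monomial n a =>
    rw [← C_mul_X_pow_eq_monomial, pr_C_mul_left]
    cases n with
    | zero =>
      simp [pr]
    | succ n =>
      rw [pow_succ', pr_X_mul]
      simp [pr]

theorem pr_one_left (x : ℂ) (p : ℂ[X]) : pr x 1 p = eval x p := by
  simp [pr]

theorem pr_mul_X_right (x : ℂ) (g p : ℂ[X]) :
    pr x g (X * p) = pr x (derivative g + C x * g) p := by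
  induction g using Polynomial.induction_on' generalizing p with
  | add g1 g2 h1 h2 =>
    rw [pr_add_left, h1, h2, ← pr_add_left]
    congr 1
    rw [derivative_add]
    ring
  | monomial n a =>
    induction n generalizing p with
    | zero =>
      rw [monomial_zero_left, derivative_C, zero_add, ← mul_one (C a), pr_C_mul_left, pr_one_left,
        pr_C_mul_left, pr_C_mul_left, pr_one_left]
      simp
      ring
    | succ n ih =>
      have h1 : (monomial (n + 1) a : ℂ[X]) = X * monomial n a := by
        rw [X_mul_monomial]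
      have h2 : derivative (X * p) = p + X * derivative p := by
        rw [derivative_mul, derivative_X, one_mul]
      rw [h1, pr_X_mul, h2, pr_add_right, ih, ← pr_X_mul, ← pr_add_left]
      congr 1
      rw [derivative_mul, derivative_X]
      ring

theorem pr_mul_X_sub_C_right (x : ℂ) (g p : ℂ[X]) (r : ℂ) :
    pr x g ((X - C r) * p) = pr x (derivative g + C (x - r) * g) p := by
  have h1 : (X - C r) * p = X * p + C (-r) * p := by
    rw [C_neg]; ring
  rw [h1, pr_add_right, pr_C_mul_right, pr_mul_X_right, ← pr_C_mul_left, ← pr_add_left]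
  congr 1
  rw [C_neg, C_sub]
  ring

/-- complex raising operator on polynomials in the dual variable -/
noncomputable def Uop (x : ℂ) : ℂ[X] → ℂ[X] := fun g => (C x - C (1 / 2) * X) * g + derivative g

theorem pr_B (x : ℂ) (g p : ℂ[X]) :
    pr x g (X * p - C (1 / 2) * derivative p) = pr x (Uop x g) p := by
  have h1 : X * p - C (1 / 2) * derivative p = X * p + C (-(1 / 2)) * derivative p := by
    rw [C_neg]; ring
  rw [h1, pr_add_right, pr_C_mul_right, pr_mul_X_right, ← pr_X_mul, ← pr_C_mul_left, ← pr_add_left]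
  congr 1
  rw [Uop, C_neg]
  ring

/-- complexification of `hp` -/
noncomputable def hpc (n : ℕ) : ℂ[X] := (hp n).map (algebraMap ℝ ℂ)

theorem hpc_succ (n : ℕ) : hpc (n + 1) = X * hpc n - C (1 / 2) * derivative (hpc n) := by
  rw [hpc, hpc, hp, Polynomial.map_sub, Polynomial.map_mul, Polynomial.map_mul, map_X, map_C,
    derivative_map]
  congr 3
  simp

theorem Uop_hpc (x : ℂ) (n : ℕ) :
    Uop x ((hpc n).comp (C x - C (1 / 2) * X)) = (hpc (n + 1)).comp (C x - C (1 / 2) * X) := by
  rw [Uop, hpc_succ, sub_comp, mul_comp, mul_comp, X_comp, C_comp, derivative_comp]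
  simp only [derivative_sub, derivative_C, derivative_mul, derivative_X, zero_mul, zero_add, mul_one,
    zero_sub]
  ring

theorem pr_W (x : ℂ) (m : ℕ) (p : ℝ[X]) :
    eval x ((W m p).map (algebraMap ℝ ℂ)) =
      pr x (X ^ m * (hpc m).comp (C x - C (1 / 2) * X)) (p.map (algebraMap ℝ ℂ)) := by
  have hX : ∀ (n : ℕ) (g q : ℂ[X]), pr x (X ^ n * g) q = pr x g ((⇑derivative)^[n] q) := by
    intro n
    induction n with
    | zero => intro g q; simp
    | succ n ih =>
      intro g q
      rw [pow_succ', mul_assoc, pr_X_mul, ih, Function.iterate_succ_apply]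
  have hB : ∀ (n k : ℕ) (q : ℝ[X]), pr x ((hpc k).comp (C x - C (1 / 2) * X)) (((Bop ^ n) q).map (algebraMap ℝ ℂ))
      = pr x ((hpc (k + n)).comp (C x - C (1 / 2) * X)) (q.map (algebraMap ℝ ℂ)) := by
    intro n
    induction n with
    | zero => intro k q; simp
    | succ n ih =>
      intro k q
      rw [pow_succ', Module.End.mul_apply, Bop_apply, Polynomial.map_sub, Polynomial.map_mul,
        Polynomial.map_mul, map_X, map_C, ← derivative_map]
      have : (algebraMap ℝ ℂ) (1 / 2) = 1 / 2 := by simp
      rw [this, pr_B, Uop_hpc, ih, show k + 1 + n = k + (n + 1) by ring]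
  rw [hX, W_apply]
  have h0 := hB m 0 ((⇑derivative)^[m] p)
  have h1 : (hpc 0).comp (C x - C (1 / 2) * X) = 1 := by
    simp [hpc, hp]
  rw [h1, pr_one_left, zero_add] at h0
  rw [h0, iterate_derivative_map]

end Pool.Agent.Helper50
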