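import Pool.Agent.Helper50.HermB

set_option autoImplicit false

open Polynomial Filter Topology

namespace Pool.Agent.Helper50

/-- `Φ η (X^m) = η^m hpc m` -/
noncomputable def Phi (η : ℂ) : ℝ[X] →ₗ[ℝ] ℂ[X] :=
  Polynomial.lsum (fun m => LinearMap.toSpanSingleton ℝ ℂ[X] (C (η ^ m) * hpc m))

theorem Phi_monomial (η : ℂ) (m : ℕ) (a : ℝ) :
    Phi η (monomial m a) = C ((a : ℂ) * η ^ m) * hpc m := by
  rw [Phi, Polynomial.lsum_apply, Polynomial.sum_monomial_index]
  · rw [LinearMap.toSpanSingleton_apply, C_mul, mul_assoc]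
    rw [Algebra.smul_def]
    rfl
  · simp

theorem Phi_C_mul (η : ℂ) (a : ℝ) (F : ℝ[X]) : Phi η (C a * F) = C (a : ℂ) * Phi η F := by
  rw [C_mul', map_smul, Algebra.smul_def]
  rfl

theorem Phi_X_mul (η : ℂ) (F : ℝ[X]) :
    Phi η (X * F) = C η * (X * Phi η F - C (1 / 2) * derivative (Phi η F)) := by
  induction F using Polynomial.induction_on' with
  | add F1 F2 h1 h2 =>
    rw [mul_add, map_add, h1, h2, map_add, derivative_add]
    ring
  | monomial n a =>
    rw [X_mul_monomial, Phi_monomial, Phi_monomial, hpc_succ, derivative_C_mul, pow_succ]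
    simp only [map_mul]
    ring

theorem Phi_prod (η : ℂ) (hη : η.im < 0) (s : Multiset ℝ) (hs : ∀ t ∈ s, t ≤ 0) :
    ∀ v : ℂ, 0 < v.im → eval v (Phi η ((s.map (fun t => X - C t)).prod)) ≠ 0 := by
  induction s using Multiset.induction_on with
  | empty =>
    intro v hv
    rw [Multiset.map_zero, Multiset.prod_zero, ← monomial_zero_one, Phi_monomial]
    simp [hpc, hp]
  | cons t s ih =>
    have ih' := ih (fun x hx => hs x (Multiset.mem_cons_of_mem hx))
    intro v hv
    rw [Multiset.map_cons, Multiset.prod_cons, sub_mul, map_sub, Phi_X_mul, Phi_C_mul]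
    simp only [eval_sub, eval_mul, eval_C, eval_X]
    exact upper_step _ ih' η hη t (hs t (Multiset.mem_cons_self _ _)) v hv

theorem Phi_ne_zero (η : ℂ) (hη : η.im < 0) (F : ℝ[X]) (hF : F.Splits) (hF0 : F ≠ 0)
    (hr : ∀ t ∈ F.roots, t ≤ 0) (v : ℂ) (hv : 0 < v.im) : eval v (Phi η F) ≠ 0 := by
  rw [hF.eq_prod_roots, Phi_C_mul, eval_mul, eval_C]
  apply mul_ne_zero
  · exact_mod_cast leadingCoeff_ne_zero.2 hF0
  · exact Phi_prod η hη _ hr v hv

/-- the symbol -/
noncomputable def Gs (x : ℂ) (N : ℕ) (F : ℝ[X]) : ℂ[X] :=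
  ∑ m ∈ Finset.range (N + 1), C ((F.coeff m : ℝ) : ℂ) * (X ^ m * (hpc m).comp (C x - C (1 / 2) * X))

theorem Gs_eval (x : ℂ) (N : ℕ) (F : ℝ[X]) (hN : F.natDegree ≤ N) (η : ℂ) :
    eval η (Gs x N F) = eval (x - 1 / 2 * η) (Phi η F) := by
  have h1 : F = ∑ m ∈ Finset.range (N + 1), monomial m (F.coeff m) := as_sum_range' F (N + 1) (by omega)
  conv_rhs => rw [h1]
  rw [map_sum, eval_finsetSum, Gs, eval_finsetSum]
  apply Finset.sum_congr rfl
  intro m _
  rw [Phi_monomial]
  simp only [eval_mul, eval_C, eval_pow, eval_X, eval_comp, eval_sub]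
  ring

noncomputable def TF (N : ℕ) (F p : ℝ[X]) : ℝ[X] :=
  ∑ m ∈ Finset.range (N + 1), (F.coeff m) • W m p

theorem TF_eval (x : ℂ) (N : ℕ) (F p : ℝ[X]) :
    aeval x (TF N F p) = pr x (Gs x N F) (p.map (algebraMap ℝ ℂ)) := by
  have hsum : ∀ (s : Finset ℕ) (f : ℕ → ℂ[X]) (q : ℂ[X]), pr x (∑ m ∈ s, f m) q = ∑ m ∈ s, pr x (f m) q := by
    intro s f q
    rw [pr, map_sum, LinearMap.sum_apply, eval_finsetSum]
    rfl
  rw [Gs, hsum, TF, map_sum]
  apply Finset.sum_congr rfl
  intro m _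
  rw [pr_C_mul_left, ← pr_W, map_smul, ← eval_map_algebraMap, Algebra.smul_def]
  rfl

def Good (g : ℂ[X]) : Prop := (∀ η : ℂ, η.im < 0 → eval η g ≠ 0) ∧ eval 0 g ≠ 0

theorem Good.step {g : ℂ[X]} (hg : Good g) (x : ℂ) (hx : 0 < x.im) (r : ℝ) :
    Good (derivative g + C (x - r) * g) := by
  constructor
  · intro η hη
    exact lower_step g hg.1 x hx r η hη.le (hg.1 η hη)
  · exact lower_step g hg.1 x hx r 0 (by simp) hg.2

theorem Good.pr {g : ℂ[X]} (hg : Good g) (x : ℂ) (hx : 0 < x.im) (s : Multiset ℝ) :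
    pr x g ((s.map (fun r : ℝ => X - C (r : ℂ))).prod) ≠ 0 := by
  induction s using Multiset.induction_on generalizing g with
  | empty =>
    rw [Multiset.map_zero, Multiset.prod_zero, pr_one_right]
    exact hg.2
  | cons r s ih =>
    rw [Multiset.map_cons, Multiset.prod_cons, pr_mul_X_sub_C_right]
    exact ih (hg.step x hx r)

theorem splits_of_upper (q : ℝ[X]) (h : ∀ x : ℂ, 0 < x.im → aeval x q ≠ 0) : q.Splits := by
  rw [← rr_iff_splits]
  right
  intro z hz
  by_contra him
  rcases lt_or_gt_of_ne him with h1 | h1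
  · apply h ((starRingEnd ℂ) z) (by simpa using h1)
    rw [aeval_conj, hz, map_zero]
  · exact h z h1 hz

theorem TF_splits_strict (N : ℕ) (F : ℝ[X]) (hN : F.natDegree ≤ N) (hF : F.Splits) (hF0 : F ≠ 0)
    (hr : ∀ t ∈ F.roots, t < 0) (p : ℝ[X]) (hp : p.Splits) : (TF N F p).Splits := by
  by_cases hp0 : p = 0
  · have : TF N F p = 0 := by
      rw [TF, hp0]; simp
    rw [this]; exact Splits.zero
  apply splits_of_upper
  intro x hx
  rw [TF_eval]
  have hgood : Good (Gs x N F) := by
    constructor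
    · intro η hη
      rw [Gs_eval x N F hN]
      apply Phi_ne_zero η hη F hF hF0 (fun t ht => (hr t ht).le)
      rw [Complex.sub_im, show (1 / 2 : ℂ) = ((1 / 2 : ℝ) : ℂ) by push_cast; rfl, Complex.im_ofReal_mul]
      linarith
    · rw [Gs, eval_finsetSum, Finset.sum_range_succ']
      simp [hpc, Helper50.hp]
      have : F.eval 0 ≠ 0 := by
        intro h0
        have hmem : (0 : ℝ) ∈ F.roots := by
          rw [mem_roots']
          exact ⟨hF0, h0⟩
        exact absurd (hr 0 hmem) (lt_irrefl _)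
      rwa [← coeff_zero_eq_eval_zero] at this
  have hpm : p.map (algebraMap ℝ ℂ) = C (p.leadingCoeff : ℂ) * (p.roots.map (fun r : ℝ => X - C (r : ℂ))).prod := by
    conv_lhs => rw [hp.eq_prod_roots]
    rw [Polynomial.map_mul, map_C, Polynomial.map_multiset_prod, Multiset.map_map]
    congr 2
    apply Multiset.map_congr rfl
    intro r _
    simp
  rw [hpm, pr_C_mul_right]
  apply mul_ne_zero
  · exact_mod_cast leadingCoeff_ne_zero.2 hp0
  · exact hgood.pr x hx _

theorem TF_natDegree (N : ℕ) (p : ℝ[X]) : ∃ d : ℕ, ∀ F : ℝ[X], (TF N F p).natDegree ≤ d := by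
  refine ⟨∑ m ∈ Finset.range (N + 1), (W m p).natDegree, fun F => ?_⟩
  rw [TF]
  apply natDegree_sum_le_of_forall_le
  intro m hm
  refine (natDegree_smul_le _ _).trans ?_
  exact Finset.single_le_sum (f := fun m => (W m p).natDegree) (fun _ _ => Nat.zero_le _) hm

theorem TF_tendsto (N : ℕ) (p : ℝ[X]) (F : ℕ → ℝ[X]) (c : ℕ → ℝ)
    (h : ∀ m, m ≤ N → Tendsto (fun n => (F n).coeff m) atTop (𝓝 (c m))) (z : ℂ) :
    Tendsto (fun n => aeval z (TF N (F n) p)) atTop (𝓝 (aeval z (∑ m ∈ Finset.range (N + 1), c m • W m p))) := by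
  have h1 : ∀ n, aeval z (TF N (F n) p) = ∑ m ∈ Finset.range (N + 1), (((F n).coeff m : ℝ) : ℂ) * aeval z (W m p) := by
    intro n
    rw [TF, map_sum]
    apply Finset.sum_congr rfl
    intro m _
    rw [map_smul, Algebra.smul_def]
    rfl
  have h2 : aeval z (∑ m ∈ Finset.range (N + 1), c m • W m p) = ∑ m ∈ Finset.range (N + 1), ((c m : ℝ) : ℂ) * aeval z (W m p) := by
    rw [map_sum]
    apply Finset.sum_congr rfl
    intro m _
    rw [map_smul, Algebra.smul_def]
    rfl
  rw [h2]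
  simp only [h1]
  apply tendsto_finsetSum
  intro m hm
  rw [Finset.mem_range] at hm
  apply Tendsto.mul_const
  exact (Complex.continuous_ofReal.tendsto _).comp (h m (by omega))

theorem TF_splits (N : ℕ) (F : ℝ[X]) (hN : F.natDegree ≤ N) (hF : F.Splits) (hF0 : F ≠ 0)
    (hr : ∀ t ∈ F.roots, t ≤ 0) (p : ℝ[X]) (hp : p.Splits) : (TF N F p).Splits := by
  obtain ⟨d, hd⟩ := TF_natDegree N p
  set Fn : ℕ → ℝ[X] := fun n => taylor (1 / ((n : ℝ) + 1)) F with hFn
  apply splits_of_tendsto (fun n => TF N (Fn n) p) (TF N F p) d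
  · intro n
    have hn : (0 : ℝ) < 1 / ((n : ℝ) + 1) := by positivity
    apply TF_splits_strict N (Fn n) _ (hF.taylor _) _ _ p hp
    · simp only [hFn]
      rw [natDegree_taylor]; exact hN
    · simp only [hFn]
      intro h0
      exact hF0 ((taylor_injective _) (by rw [h0, map_zero]))
    · intro t ht
      have h1 := (mem_roots'.1 ht).2
      simp only [hFn] at h1
      rw [IsRoot.def, taylor_eval] at h1
      have : (t + 1 / ((n : ℝ) + 1)) ∈ F.roots := by
        rw [mem_roots']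
        exact ⟨hF0, h1⟩
      have := hr _ this
      linarith
  · intro n; exact hd _
  · intro z
    have := TF_tendsto N p Fn (fun m => F.coeff m) (by
      intro m _
      simp only [hFn, taylor_coeff]
      have h1 : F.coeff m = eval 0 (hasseDeriv m F) := by
        rw [← coeff_zero_eq_eval_zero, hasseDeriv_coeff]
        simp
      rw [h1]
      have h2 : Tendsto (fun n : ℕ => 1 / ((n : ℝ) + 1)) atTop (𝓝 0) := tendsto_one_div_add_atTop_nhds_zero_nat
      exact ((hasseDeriv m F).continuous.tendsto 0).comp h2) z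
    exact this

/-- iterated differences -/
noncomputable def Df (g : ℕ → ℝ) : ℕ → ℕ → ℝ
  | 0 => g
  | (m + 1) => fun j => Df g m (j + 1) - Df g m j

theorem Df_Lf (g : ℕ → ℝ) (m : ℕ) : ∀ j, Df g m j = Lf g (X ^ j * (X - 1) ^ m) := by
  induction m with
  | zero =>
    intro j
    have := Lf_C_mul_X_pow g 1 j
    simp only [Df]
    simpa using this.symm
  | succ m ih =>
    intro j
    simp only [Df]
    rw [ih, ih, ← map_sub]
    congr 1
    ring

theorem Df_props (g : ℕ → ℝ) (hJ : JS g) (h0 : ∀ n, 0 ≤ g n) (hm : ∀ n, g n ≤ g (n + 1)) (m : ℕ) :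
    JS (Df g m) ∧ (∀ n, 0 ≤ Df g m n) ∧ (∀ n, Df g m n ≤ Df g m (n + 1)) := by
  induction m with
  | zero => exact ⟨hJ, h0, hm⟩
  | succ m ih =>
    obtain ⟨i1, i2, i3⟩ := ih
    refine ⟨i1.diff, fun n => ?_, fun n => ?_⟩
    · simp only [Df]; linarith [i3 n]
    · simp only [Df]
      exact i1.convex i2 i3 n

theorem dl_nonneg (g : ℕ → ℝ) (hJ : JS g) (h0 : ∀ n, 0 ≤ g n) (hm : ∀ n, g n ≤ g (n + 1)) (m : ℕ) :
    0 ≤ dl g m := by
  have h1 := (Df_props g hJ h0 hm m).2.1 0
  rw [Df_Lf] at h1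
  simpa [dl] using h1

theorem J_dl (g : ℕ → ℝ) (M : ℕ) :
    J (dl g) M = ∑ j ∈ Finset.range (M + 1), C ((J g M).coeff j) * X ^ j * (1 - X) ^ (M - j) := by
  apply Polynomial.funext
  intro t
  have e1 : eval t (J (dl g) M) = Lf g ((C t * (X - 1) + 1) ^ M) := by
    rw [J, eval_finsetSum, add_pow, map_sum]
    apply Finset.sum_congr rfl
    intro m _
    have : (C t * (X - 1)) ^ m * 1 ^ (M - m) * ((M.choose m : ℕ) : ℝ[X])
        = C ((M.choose m : ℝ) * t ^ m) * (X - 1) ^ m := by
      rw [mul_pow]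
      simp only [map_mul, map_pow, map_natCast]
      ring
    rw [this, Lf_C_mul]
    simp only [eval_mul, eval_C, eval_pow, eval_X, dl]
    ring
  have e2 : eval t (∑ j ∈ Finset.range (M + 1), C ((J g M).coeff j) * X ^ j * (1 - X) ^ (M - j))
      = Lf g ((C t * (X - 1) + 1) ^ M) := by
    have : (C t * (X - 1) + 1 : ℝ[X]) = C t * X + C (1 - t) := by
      rw [C_sub, C_1]; ring
    rw [this, eval_finsetSum, add_pow, map_sum]
    apply Finset.sum_congr rfl
    intro j _
    have : (C t * X) ^ j * C (1 - t) ^ (M - j) * ((M.choose j : ℕ) : ℝ[X])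
        = C ((M.choose j : ℝ) * t ^ j * (1 - t) ^ (M - j)) * X ^ j := by
      rw [mul_pow]
      simp only [map_mul, map_pow, map_natCast]
      ring
    rw [this, Lf_C_mul_X_pow, J_coeff]
    simp only [eval_mul, eval_C, eval_pow, eval_X, eval_sub, eval_one]
    ring
  rw [e1, e2]

theorem J_dl_splits (g : ℕ → ℝ) (hJ : JS g) (M : ℕ) : (J (dl g) M).Splits := by
  have hsp : (J g M).Splits := by simpa using hJ 0 M
  rw [J_dl, hom_splits X (1 - X) _ hsp M (J_natDegree_le _ _)]
  have h1X : (1 - X : ℝ[X]).Splits := Splits.of_natDegree_le_one (by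
      rw [← neg_sub, natDegree_neg, ← C_1]; exact natDegree_X_sub_C _ |>.le)
  apply Splits.mul
  · exact (h1X.pow _).C_mul _
  · apply Splits.multisetProd
    intro f hf
    obtain ⟨t, _, rfl⟩ := Multiset.mem_map.1 hf
    apply Splits.of_natDegree_le_one
    refine (natDegree_sub_le _ _).trans (max_le natDegree_X_le ?_)
    refine (natDegree_C_mul_le _ _).trans ?_
    rw [← neg_sub, natDegree_neg, ← C_1]; exact natDegree_X_sub_C _ |>.le

theorem W_zero_of_deg (m : ℕ) (p : ℝ[X]) (h : p.natDegree < m) : W m p = 0 := by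
  rw [W_apply, iterate_derivative_eq_zero h, map_zero]

/-- the main stability theorem -/
theorem stab (g : ℕ → ℝ) (hJ : JS g) (h0 : ∀ n, 0 ≤ g n) (hm : ∀ n, g n ≤ g (n + 1))
    (p : ℝ[X]) (hp : p.Splits) (N : ℕ) (hN : p.natDegree ≤ N) :
    (∑ m ∈ Finset.range (N + 1), (dl g m / (m.factorial : ℝ)) • W m p).Splits := by
  obtain ⟨d, hd⟩ := TF_natDegree N p
  set FM : ℕ → ℝ[X] := fun M => (J (dl g) (M + N + 1)).comp (C (1 / ((M + N + 1 : ℕ) : ℝ)) * X) with hFM
  have hcoef : ∀ M m, (FM M).coeff m = ((M + N + 1).choose m : ℝ) * dl g m * (1 / ((M + N + 1 : ℕ) : ℝ)) ^ m := by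
    intro M m
    simp only [hFM]
    rw [comp_C_mul_X_coeff, J_coeff]
  have hsplit : ∀ M, (TF N (FM M) p).Splits := by
    intro M
    have e1 : TF N (FM M) p = TF (M + N + 1) (FM M) p := by
      rw [TF, TF]
      apply Finset.sum_subset
      · intro m hm
        rw [Finset.mem_range] at hm ⊢
        omega
      · intro m _ hm
        rw [Finset.mem_range, not_lt] at hm
        rw [W_zero_of_deg m p (by omega), smul_zero]
    rw [e1]
    by_cases hF0 : FM M = 0
    · have : TF (M + N + 1) (FM M) p = 0 := by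
        rw [TF, hF0]; simp
      rw [this]; exact Splits.zero
    apply TF_splits (M + N + 1) (FM M) _ _ hF0 _ p hp
    · rw [natDegree_le_iff_coeff_eq_zero]
      intro m hm
      rw [hcoef, Nat.choose_eq_zero_of_lt hm]
      simp
    · simp only [hFM]
      apply (J_dl_splits g hJ _).comp_of_natDegree_le_one
      exact (natDegree_C_mul_le _ _).trans natDegree_X_le
    · intro t ht
      by_contra hcon
      push Not at hcon
      have h1 := (mem_roots'.1 ht).2
      rw [IsRoot.def, eval_eq_sum_range] at h1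
      have hnn : ∀ m, 0 ≤ (FM M).coeff m := by
        intro m
        rw [hcoef]
        have := dl_nonneg g hJ h0 hm m
        positivity
      have hlead : 0 < (FM M).leadingCoeff :=
        lt_of_le_of_ne (hnn _) (leadingCoeff_ne_zero.2 hF0).symm
      have h2 : 0 < ∑ i ∈ Finset.range ((FM M).natDegree + 1), (FM M).coeff i * t ^ i := by
        apply Finset.sum_pos'
        · intro i _
          exact mul_nonneg (hnn i) (by positivity)
        · refine ⟨(FM M).natDegree, by simp, ?_⟩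
          exact mul_pos hlead (by positivity)
      linarith
  apply splits_of_tendsto (fun M => TF N (FM M) p) _ d hsplit (fun M => hd _)
  intro z
  apply TF_tendsto N p FM (fun m => dl g m / (m.factorial : ℝ))
  intro m _
  simp only [hcoef]
  have h1 : Tendsto (fun n : ℕ => (n : ℝ) * (1 / (n : ℝ))) atTop (𝓝 1) := by
    apply tendsto_const_nhds.congr'
    filter_upwards [eventually_ge_atTop 1] with n hn
    have : (n : ℝ) ≠ 0 := by positivity
    field_simp
  have h2 := ProbabilityTheory.tendsto_choose_mul_pow_atTop m h1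
  rw [one_pow] at h2
  have h3 := h2.comp (tendsto_add_atTop_nat (N + 1))
  have h4 := h3.mul_const (dl g m)
  have h5 : dl g m / (m.factorial : ℝ) = 1 / (m.factorial : ℝ) * dl g m := by ring
  rw [h5]
  refine h4.congr (fun M => ?_)
  simp only [Function.comp]
  rw [show M + (N + 1) = M + N + 1 by ring]
  ring

end Pool.Agent.Helper50
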