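import Mathlib

set_option autoImplicit false

open Polynomial Filter Topology

namespace Pool.Agent.Helper50

theorem rr_iff_splits (p : ℝ[X]) :
    (p = 0 ∨ ∀ z : ℂ, aeval z p = 0 → z.im = 0) ↔ p.Splits := by
  constructor
  · rintro (h | h)
    · subst h; exact Splits.zero
    · refine Splits.of_splits_map (algebraMap ℝ ℂ) (IsAlgClosed.splits _) ?_
      intro a ha
      have h1 : aeval a p = 0 := by
        have := (mem_roots'.1 ha).2
        rwa [IsRoot.def, eval_map_algebraMap] at this
      have h2 := h a h1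
      exact ⟨a.re, by apply Complex.ext <;> simp [h2]⟩
  · intro h
    by_cases hp : p = 0
    · exact Or.inl hp
    · right
      intro z hz
      have : (p.map (algebraMap ℝ ℂ)).IsRoot z := by
        rw [IsRoot.def, eval_map_algebraMap]; exact hz
      obtain ⟨x, hx⟩ := h.mem_range_of_isRoot hp this
      rw [← hx]
      simp

theorem splits_eval (p : ℝ[X]) (hp : p.Splits) (z : ℂ) :
    aeval z p = (p.leadingCoeff : ℂ) * (p.roots.map (fun r : ℝ => z - (r : ℂ))).prod := by
  conv_lhs => rw [hp.eq_prod_roots]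
  rw [map_mul, aeval_C, map_multiset_prod, Multiset.map_map]
  simp

/-- comparison of values of a real-rooted polynomial at two points -/
theorem splits_bound (p : ℝ[X]) (hp : p.Splits) (d : ℕ) (hd : p.natDegree ≤ d) (z w : ℂ)
    (hz : z.im ≠ 0) :
    ‖aeval w p‖ ≤ (1 + ‖w - z‖ / |z.im|) ^ d * ‖aeval z p‖ := by
  have hC : 1 ≤ 1 + ‖w - z‖ / |z.im| := by
    have : 0 ≤ ‖w - z‖ / |z.im| := by positivity
    linarith
  set C := 1 + ‖w - z‖ / |z.im| with hCdef
  have key : ∀ r : ℝ, ‖w - (r : ℂ)‖ ≤ C * ‖z - (r : ℂ)‖ := by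
    intro r
    have h1 : |z.im| ≤ ‖z - (r : ℂ)‖ := by
      have := Complex.abs_im_le_norm (z - (r : ℂ))
      simpa using this
    have h2 : ‖w - (r : ℂ)‖ ≤ ‖w - z‖ + ‖z - (r : ℂ)‖ := by
      have := norm_add_le (w - z) (z - (r : ℂ))
      simpa using this
    have h3 : 0 < |z.im| := abs_pos.2 hz
    have h4 : ‖w - z‖ ≤ ‖w - z‖ / |z.im| * ‖z - (r : ℂ)‖ := by
      calc ‖w - z‖ = ‖w - z‖ / |z.im| * |z.im| := by field_simp
        _ ≤ ‖w - z‖ / |z.im| * ‖z - (r : ℂ)‖ := by gcongr
    rw [hCdef]
    linarith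
  have hprod : ∀ s : Multiset ℝ, ‖(s.map (fun r : ℝ => w - (r : ℂ))).prod‖ ≤
      C ^ (Multiset.card s) * ‖(s.map (fun r : ℝ => z - (r : ℂ))).prod‖ := by
    intro s
    induction s using Multiset.induction_on with
    | empty => simp
    | cons a s ih =>
      simp only [Multiset.map_cons, Multiset.prod_cons, norm_mul, Multiset.card_cons]
      calc ‖w - (a : ℂ)‖ * ‖(s.map (fun r : ℝ => w - (r : ℂ))).prod‖
          ≤ (C * ‖z - (a : ℂ)‖) * (C ^ (Multiset.card s) * ‖(s.map (fun r : ℝ => z - (r : ℂ))).prod‖) := by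
            gcongr
            exact key a
        _ = _ := by ring
  rw [splits_eval p hp, splits_eval p hp, norm_mul, norm_mul]
  have hcard : Multiset.card p.roots ≤ d := by
    rw [← hp.natDegree_eq_card_roots]; exact hd
  calc ‖(p.leadingCoeff : ℂ)‖ * ‖(p.roots.map (fun r : ℝ => w - (r : ℂ))).prod‖
      ≤ ‖(p.leadingCoeff : ℂ)‖ * (C ^ (Multiset.card p.roots) * ‖(p.roots.map (fun r : ℝ => z - (r : ℂ))).prod‖) := by
        gcongr
        exact hprod _
    _ ≤ ‖(p.leadingCoeff : ℂ)‖ * (C ^ d * ‖(p.roots.map (fun r : ℝ => z - (r : ℂ))).prod‖) := by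
        gcongr
    _ = _ := by ring

theorem splits_of_tendsto (p : ℕ → ℝ[X]) (q : ℝ[X]) (d : ℕ) (hp : ∀ n, (p n).Splits)
    (hd : ∀ n, (p n).natDegree ≤ d)
    (hlim : ∀ z : ℂ, Tendsto (fun n => aeval z (p n)) atTop (𝓝 (aeval z q))) : q.Splits := by
  rw [← rr_iff_splits]
  by_contra hcon
  push Not at hcon
  obtain ⟨hq, z, hz, hzim⟩ := hcon
  have hall : ∀ w : ℂ, aeval w q = 0 := by
    intro w
    have h1 : ‖aeval w q‖ ≤ (1 + ‖w - z‖ / |z.im|) ^ d * ‖aeval z q‖ := by
      refine le_of_tendsto_of_tendsto (hlim w).norm ((hlim z).norm.const_mul _) ?_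
      exact Eventually.of_forall (fun n => splits_bound (p n) (hp n) d (hd n) z w hzim)
    rw [hz] at h1
    simpa using h1
  apply hq
  have : q.map (algebraMap ℝ ℂ) = 0 := by
    apply Polynomial.funext
    intro w
    rw [eval_map_algebraMap, hall w, eval_zero]
  exact (Polynomial.map_eq_zero _).1 this

/-- Jensen polynomial of a sequence -/
noncomputable def J (a : ℕ → ℝ) (n : ℕ) : ℝ[X] :=
  ∑ j ∈ Finset.range (n + 1), C ((n.choose j : ℝ) * a j) * X ^ j

theorem J_coeff (a : ℕ → ℝ) (n j : ℕ) : (J a n).coeff j = (n.choose j : ℝ) * a j := by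
  rw [J, finsetSum_coeff]
  simp only [coeff_C_mul_X_pow]
  rw [Finset.sum_eq_single j]
  · simp
  · intro b _ hb
    rw [if_neg (Ne.symm hb)]
  · intro hj
    simp only [Finset.mem_range, not_lt] at hj
    rw [Nat.choose_eq_zero_of_lt (by omega)]
    simp

theorem J_natDegree_le (a : ℕ → ℝ) (n : ℕ) : (J a n).natDegree ≤ n := by
  rw [natDegree_le_iff_coeff_eq_zero]
  intro N hN
  rw [J_coeff, Nat.choose_eq_zero_of_lt hN]
  simp

/-- all Jensen polynomials of all shifts are real-rooted -/
def JS (a : ℕ → ℝ) : Prop := ∀ s n : ℕ, (J (fun j => a (s + j)) n).Splits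

theorem JS.shift {a : ℕ → ℝ} (h : JS a) (s : ℕ) : JS (fun j => a (s + j)) := by
  intro t n
  have := h (s + t) n
  simpa [add_assoc] using this

/-- polar derivative identity -/
theorem J_polar (a : ℕ → ℝ) (n : ℕ) :
    (1 + X) * derivative (J a (n + 1)) - C ((n + 1 : ℕ) : ℝ) * J a (n + 1)
      = C ((n + 1 : ℕ) : ℝ) * J (fun j => a (j + 1) - a j) n := by
  ext j
  rw [coeff_sub, add_mul, one_mul, coeff_add, coeff_C_mul, coeff_C_mul, J_coeff, J_coeff,
    coeff_derivative, J_coeff]
  have hX : (X * derivative (J a (n + 1))).coeff j = (j : ℝ) * (((n + 1).choose j : ℝ) * a j) := by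
    cases j with
    | zero => simp
    | succ k =>
      rw [coeff_X_mul, coeff_derivative, J_coeff]
      push_cast
      ring
  rw [hX]
  have h1 : ((n + 1).choose (j + 1) : ℝ) * (j + 1) = (n + 1) * (n.choose j : ℝ) := by
    have h2 : ((n + 1 : ℕ) : ℝ) * (n.choose j : ℝ) = ((n + 1).choose (j + 1) : ℝ) * ((j + 1 : ℕ) : ℝ) := by
      exact_mod_cast Nat.add_one_mul_choose_eq n j
    push_cast at h2
    linarith
  by_cases hj : j ≤ n + 1
  · have h3 : ((n + 1 : ℝ) - j) * ((n + 1).choose j : ℝ) = (n + 1) * (n.choose j : ℝ) := by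
      have h5 : (n.choose j : ℝ) * ((n + 1 : ℕ) : ℝ) = ((n + 1).choose j : ℝ) * ((n + 1 - j : ℕ) : ℝ) := by
        exact_mod_cast Nat.choose_mul_succ_eq n j
      rw [Nat.cast_sub hj] at h5
      push_cast at h5
      linarith
    push_cast
    linear_combination (a (j + 1)) * h1 - (a j) * h3
  · push Not at hj
    rw [Nat.choose_eq_zero_of_lt (by omega : n + 1 < j + 1), Nat.choose_eq_zero_of_lt hj,
      Nat.choose_eq_zero_of_lt (by omega : n < j)]
    simp

theorem root_sum_identity (z ζ : ℂ) (hz : z.im ≠ 0) (s : Multiset ℝ) :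
    (s.map (fun t : ℝ => Complex.normSq (1 / (z - (t : ℂ)) - ζ))).sum =
      - ((s.map (fun t : ℝ => 1 / (z - (t : ℂ)))).sum).im / z.im
      + (Multiset.card s) * Complex.normSq ζ
      - 2 * ((s.map (fun t : ℝ => 1 / (z - (t : ℂ)))).sum * (starRingEnd ℂ) ζ).re := by
  induction s using Multiset.induction_on with
  | empty => simp
  | cons a s ih =>
    simp only [Multiset.map_cons, Multiset.sum_cons, Multiset.card_cons]
    rw [ih]
    have hne : z - (a : ℂ) ≠ 0 := by
      intro h
      apply hz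
      have := congrArg Complex.im h
      simpa using this
    have hns : Complex.normSq (z - (a : ℂ)) ≠ 0 := by
      rwa [ne_eq, Complex.normSq_eq_zero]
    have h1 : (1 / (z - (a : ℂ))).im / z.im = - Complex.normSq (1 / (z - (a : ℂ))) := by
      rw [one_div, Complex.inv_im, Complex.normSq_inv]
      have : (z - (a : ℂ)).im = z.im := by simp
      rw [this]
      field_simp
    rw [Complex.normSq_sub, Complex.add_im, add_mul, Complex.add_re]
    have h2 : -((1 / (z - (a : ℂ))).im + ((s.map (fun t : ℝ => 1 / (z - (t : ℂ)))).sum).im) / z.im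
        = Complex.normSq (1 / (z - (a : ℂ))) - ((s.map (fun t : ℝ => 1 / (z - (t : ℂ)))).sum).im / z.im := by
      rw [neg_add, add_div, neg_div, h1]
      ring
    rw [h2]
    push_cast
    ring

theorem splits_polar (G : ℝ[X]) (n : ℕ) (hG : G.Splits) (hn : G.natDegree ≤ n) :
    ((1 + X) * derivative G - C (n : ℝ) * G).Splits := by
  rw [← rr_iff_splits]
  by_contra hcon
  push Not at hcon
  obtain ⟨hP, z, hz, hzim⟩ := hcon
  have hG0 : G ≠ 0 := by
    rintro rfl
    simp at hP
  have hGz : (G.map (algebraMap ℝ ℂ)).eval z ≠ 0 := by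
    intro h
    rw [eval_map_algebraMap] at h
    rcases (rr_iff_splits G).2 hG with h1 | h1
    · exact hG0 h1
    · exact hzim (h1 z h)
  have hsp : (G.map (algebraMap ℝ ℂ)).Splits := hG.map _
  have hroots : (G.map (algebraMap ℝ ℂ)).roots = G.roots.map (algebraMap ℝ ℂ) := hG.roots_map _
  have hder := hsp.eval_derivative_eq_eval_mul_sum hGz
  rw [hroots, Multiset.map_map] at hder
  set S := (G.roots.map (fun t : ℝ => 1 / (z - (t : ℂ)))).sum with hS
  have hder' : aeval z (derivative G) = aeval z G * S := by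
    rw [← eval_map_algebraMap, ← eval_map_algebraMap, ← derivative_map, hder]
    rfl
  rw [eval_map_algebraMap] at hGz
  have h1z : (1 : ℂ) + z ≠ 0 := by
    intro h
    apply hzim
    have := congrArg Complex.im h
    simpa using this
  have hSn : (1 + z) * S = n := by
    have h2 : aeval z G * ((1 + z) * S - n) = 0 := by
      have h3 : aeval z ((1 + X) * derivative G - C (n : ℝ) * G) = aeval z G * ((1 + z) * S - n) := by
        rw [map_sub, map_mul, map_mul, hder', aeval_C, map_add, map_one, aeval_X]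
        simp
        ring
      rw [← h3, hz]
    rcases mul_eq_zero.1 h2 with h4 | h4
    · exact absurd h4 hGz
    · exact sub_eq_zero.1 h4
  set ζ : ℂ := 1 / (1 + z) with hζ
  have hζ0 : ζ ≠ 0 := by rw [hζ]; exact one_div_ne_zero h1z
  have hSζ : S = n * ζ := by
    rw [hζ, ← hSn]
    field_simp
  have hid := root_sum_identity z ζ hzim G.roots
  rw [← hS, hSζ] at hid
  have hζim : ζ.im / z.im = - Complex.normSq ζ := by
    have hns : Complex.normSq (1 + z) ≠ 0 := by rwa [ne_eq, Complex.normSq_eq_zero]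
    rw [hζ, one_div, Complex.inv_im, Complex.normSq_inv]
    have : (1 + z).im = z.im := by simp
    rw [this]
    field_simp
  have h5 : -((n : ℂ) * ζ).im / z.im = n * Complex.normSq ζ := by
    have : ((n : ℂ) * ζ).im = n * ζ.im := by simp
    rw [this, neg_div, mul_div_assoc, hζim]
    ring
  have h6 : ((n : ℂ) * ζ * (starRingEnd ℂ) ζ).re = n * Complex.normSq ζ := by
    rw [mul_assoc, Complex.mul_conj]
    simp
  rw [h5, h6] at hid
  have hcard : (Multiset.card G.roots : ℝ) ≤ n := by
    rw [← hG.natDegree_eq_card_roots]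
    exact_mod_cast hn
  have hnsq : 0 < Complex.normSq ζ := Complex.normSq_pos.2 hζ0
  have hsum : (G.roots.map (fun t : ℝ => Complex.normSq (1 / (z - (t : ℂ)) - ζ))).sum
      = ((Multiset.card G.roots : ℝ) - n) * Complex.normSq ζ := by
    rw [hid]; ring
  have hnonneg : ∀ x ∈ G.roots.map (fun t : ℝ => Complex.normSq (1 / (z - (t : ℂ)) - ζ)), 0 ≤ x := by
    intro x hx
    obtain ⟨t, _, rfl⟩ := Multiset.mem_map.1 hx
    exact Complex.normSq_nonneg _
  have hsum0 : 0 ≤ (G.roots.map (fun t : ℝ => Complex.normSq (1 / (z - (t : ℂ)) - ζ))).sum :=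
    Multiset.sum_nonneg hnonneg
  have hcardeq : (Multiset.card G.roots : ℝ) = n := by
    by_contra hne
    have hlt : (Multiset.card G.roots : ℝ) - n < 0 := by
      rcases lt_or_eq_of_le hcard with h | h
      · linarith
      · exact absurd h hne
    have := mul_neg_of_neg_of_pos hlt hnsq
    linarith
  have hall : ∀ t ∈ G.roots, t = -1 := by
    intro t ht
    have h7 : Complex.normSq (1 / (z - (t : ℂ)) - ζ) ≤
        (G.roots.map (fun t : ℝ => Complex.normSq (1 / (z - (t : ℂ)) - ζ))).sum :=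
      Multiset.single_le_sum hnonneg _ (Multiset.mem_map_of_mem _ ht)
    rw [hsum, hcardeq, sub_self, zero_mul] at h7
    have h8 : 1 / (z - (t : ℂ)) - ζ = 0 := by
      rw [← Complex.normSq_eq_zero]
      exact le_antisymm h7 (Complex.normSq_nonneg _)
    rw [hζ, sub_eq_zero] at h8
    have hne : z - (t : ℂ) ≠ 0 := by
      intro h
      apply hzim
      have := congrArg Complex.im h
      simpa using this
    have h9 : z - (t : ℂ) = 1 + z := by
      field_simp at h8
      exact h8.symm
    have h10 := congrArg Complex.re h9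
    simp at h10
    linarith
  have hcardn : Multiset.card G.roots = n := by exact_mod_cast hcardeq
  have hrep : G.roots = Multiset.replicate n (-1) := by
    rw [Multiset.eq_replicate]
    exact ⟨hcardn, hall⟩
  apply hP
  have hGeq := hG.eq_prod_roots
  rw [hrep] at hGeq
  simp only [Multiset.map_replicate, Multiset.prod_replicate] at hGeq
  have hX1 : (X - C (-1) : ℝ[X]) = 1 + X := by
    rw [map_neg, map_one]; ring
  rw [hX1] at hGeq
  rw [hGeq]
  cases n with
  | zero => simp
  | succ m =>
    rw [derivative_C_mul, derivative_pow, derivative_add, derivative_one, derivative_X]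
    simp only [Nat.add_sub_cancel, Nat.cast_add, Nat.cast_one, map_add, map_one, map_natCast]
    ring

theorem JS.diff {a : ℕ → ℝ} (h : JS a) : JS (fun j => a (j + 1) - a j) := by
  intro s n
  have h1 := splits_polar _ (n + 1) (h s (n + 1)) (J_natDegree_le _ _)
  rw [J_polar] at h1
  have hne : (C (((n + 1 : ℕ) : ℝ)) : ℝ[X]) ≠ 0 := by
    rw [ne_eq, C_eq_zero]
    exact_mod_cast Nat.succ_ne_zero n
  by_cases h0 : J (fun j => a (s + (j + 1)) - a (s + j)) n = 0
  · have : J (fun j => a (s + j + 1) - a (s + j)) n = 0 := by simpa [add_assoc] using h0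
    rw [this]
    exact Splits.zero
  · have h2 := (splits_mul hne h0).1 h1
    have := h2.2
    simpa [add_assoc] using this

end Pool.Agent.Helper50
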