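import Pool.Agent.Helper50.HermB2

set_option autoImplicit false

open Polynomial Filter Topology

namespace Pool.Agent.Helper50

theorem hp_comp (ε : ℝ) (hε : ε ^ 2 = 1) (n : ℕ) : (hp n).comp (C ε * X) = C (ε ^ n) * hp n := by
  have hε0 : ε ≠ 0 := by
    rintro rfl
    norm_num at hε
  induction n with
  | zero => simp [hp]
  | succ n ih =>
    have hd : (derivative (hp n)).comp (C ε * X) = C (ε * ε ^ n) * derivative (hp n) := by
      have h3 := congrArg derivative ih
      rw [derivative_comp, derivative_C_mul, derivative_C_mul, derivative_X, mul_one] at h3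
      have h4 : C ε * (derivative (hp n)).comp (C ε * X) = C ε * (C (ε * ε ^ n) * derivative (hp n)) := by
        rw [h3, ← mul_assoc, ← C_mul, ← mul_assoc, ← pow_two, hε, one_mul]
      exact mul_left_cancel₀ (by rw [ne_eq, C_eq_zero]; exact hε0) h4
    rw [hp, sub_comp, mul_comp, mul_comp, X_comp, C_comp, ih, hd, pow_succ]
    simp only [map_mul]
    ring

theorem main_theorem (T : ℝ[X] →ₗ[ℝ] ℝ[X]) (γ : ℕ → ℝ) (Q : ℕ → ℝ[X])
    (hT : ∀ n, T (hp n) = C (γ n) * hp n) (hMS : MS γ)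
    (hQ : ∀ p : ℝ[X], T p = ∑ k ∈ Finset.range (p.natDegree + 1), Q k * (⇑derivative)^[k] p)
    (hrr : ∀ k, (Q k).Splits) (p : ℝ[X]) (hps : p.Splits) : (T p).Splits := by
  by_cases hne : ∃ n, γ n ≠ 0
  · obtain ⟨c, ε, hc, hε, hJ, h0, hm⟩ := stepA γ hMS (sign_property T γ Q hT hQ hrr) hne
    set g : ℕ → ℝ := fun n => c * ε ^ n * γ n with hg
    set T' : ℝ[X] →ₗ[ℝ] ℝ[X] := c • (T ∘ₗ (aeval (C ε * X : ℝ[X]) : ℝ[X] →ₐ[ℝ] ℝ[X]).toLinearMap) with hT'
    have hT'a : ∀ q, T' q = c • T (q.comp (C ε * X)) := by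
      intro q
      rw [hT', LinearMap.smul_apply, LinearMap.comp_apply]
      rfl
    have hT'h : ∀ n, T' (hp n) = C (g n) * hp n := by
      intro n
      rw [hT'a, hp_comp ε hε, ← smul_eq_C_mul, map_smul, hT, smul_eq_C_mul, smul_eq_C_mul]
      simp only [hg, map_mul]
      ring
    have hpc : (p.comp (C ε * X)).Splits := by
      apply hps.comp_of_natDegree_le_one
      exact (natDegree_C_mul_le _ _).trans natDegree_X_le
    have h1 := stab g hJ h0 hm (p.comp (C ε * X)) hpc (p.comp (C ε * X)).natDegree le_rfl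
    rw [← T_eq T' g hT'h _ (p.comp (C ε * X)) le_rfl, hT'a] at h1
    have h2 : (p.comp (C ε * X)).comp (C ε * X) = p := by
      rw [comp_assoc, mul_comp, C_comp, X_comp, ← mul_assoc, ← C_mul, ← pow_two, hε, C_1, one_mul, comp_X]
    rw [h2, smul_eq_C_mul] at h1
    have h3 : T p = C c * (C c * T p) := by
      rw [← mul_assoc, ← C_mul, ← pow_two, hc, C_1, one_mul]
    rw [h3]
    exact h1.C_mul c
  · push Not at hne
    have h1 : T p = (0 : ℝ[X] →ₗ[ℝ] ℝ[X]) p := by
      apply agree T 0 p.natDegree _ p le_rfl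
      intro n _
      rw [hT, hne n]
      simp
    rw [h1]
    simp

end Pool.Agent.Helper50
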