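import Pool.Agent.Helper50.HermStepA

set_option autoImplicit false

open Polynomial Filter Topology

namespace Pool.Agent.Helper50

/-- classical multiplier sequence, phrased with `Splits` -/
def MS (γ : ℕ → ℝ) : Prop := ∀ p : ℝ[X], p.Splits →
  (∑ n ∈ Finset.range (p.natDegree + 1), C (γ n * p.coeff n) * X ^ n).Splits

theorem MS_coeff (γ : ℕ → ℝ) (p : ℝ[X]) (m : ℕ) :
    (∑ n ∈ Finset.range (p.natDegree + 1), C (γ n * p.coeff n) * X ^ n).coeff m = γ m * p.coeff m := by
  rw [finsetSum_coeff]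
  simp only [coeff_C_mul_X_pow]
  rw [Finset.sum_eq_single m]
  · simp
  · intro b _ hb
    rw [if_neg (Ne.symm hb)]
  · intro hm
    rw [Finset.mem_range, not_lt] at hm
    rw [if_pos rfl, coeff_eq_zero_of_natDegree_lt (by omega), mul_zero]

theorem MS.JS {γ : ℕ → ℝ} (h : MS γ) : JS γ := by
  intro s n
  have hsp : (X ^ s * (X + 1) ^ n : ℝ[X]).Splits := by
    have h1 : (X + 1 : ℝ[X]).Splits := Splits.of_natDegree_le_one (by
      rw [← C_1]; exact natDegree_X_add_C _ |>.le)
    exact (Splits.X_pow s).mul (h1.pow n)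
  have h1 := h _ hsp
  have heq : (∑ m ∈ Finset.range ((X ^ s * (X + 1) ^ n : ℝ[X]).natDegree + 1),
      C (γ m * (X ^ s * (X + 1) ^ n : ℝ[X]).coeff m) * X ^ m) = X ^ s * J (fun j => γ (s + j)) n := by
    ext m
    rw [MS_coeff, coeff_X_pow_mul', coeff_X_pow_mul']
    split_ifs with hsm
    · rw [coeff_X_add_one_pow, J_coeff, show s + (m - s) = m by omega]
      ring
    · simp
  rw [heq] at h1
  by_cases hJ0 : J (fun j => γ (s + j)) n = 0
  · rw [hJ0]; exact Splits.zero
  · exact ((splits_mul (pow_ne_zero _ X_ne_zero) hJ0).1 h1).2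

theorem MS.nonneg2 {γ : ℕ → ℝ} (h : MS γ) (n : ℕ) : 0 ≤ γ n * γ (n + 2) := by
  by_cases h2 : γ (n + 2) = 0
  · rw [h2, mul_zero]
  have hsp : (X ^ n * ((1 - X) * (1 + X)) : ℝ[X]).Splits := by
    have h1 : (1 + X : ℝ[X]).Splits := Splits.of_natDegree_le_one (by
      rw [add_comm, ← C_1]; exact natDegree_X_add_C _ |>.le)
    have h2 : (1 - X : ℝ[X]).Splits := Splits.of_natDegree_le_one (by
      rw [← neg_sub, natDegree_neg, ← C_1]; exact natDegree_X_sub_C _ |>.le)
    exact (Splits.X_pow n).mul (h2.mul h1)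
  have h1 := h _ hsp
  have heq : (∑ m ∈ Finset.range ((X ^ n * ((1 - X) * (1 + X)) : ℝ[X]).natDegree + 1),
      C (γ m * (X ^ n * ((1 - X) * (1 + X)) : ℝ[X]).coeff m) * X ^ m)
      = X ^ n * (C (γ n) - C (γ (n + 2)) * X ^ 2) := by
    ext m
    rw [MS_coeff, coeff_X_pow_mul', coeff_X_pow_mul']
    split_ifs with hsm
    · obtain ⟨j, rfl⟩ : ∃ j, m = n + j := ⟨m - n, by omega⟩
      rw [show n + j - n = j by omega, show ((1 - X) * (1 + X) : ℝ[X]) = 1 - X ^ 2 by ring,
        coeff_sub, coeff_sub, coeff_C_mul, coeff_X_pow, coeff_one, coeff_C]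
      rcases Nat.eq_zero_or_pos j with hj | hj
      · subst hj; simp
      · by_cases hj2 : j = 2
        · subst hj2; simp
        · simp [hj.ne', hj2]
    · simp
  rw [heq] at h1
  have hq0 : (C (γ n) - C (γ (n + 2)) * X ^ 2 : ℝ[X]) ≠ 0 := by
    intro h0
    have := congrArg (fun q => coeff q 2) h0
    simp at this
    exact h2 this
  have h3 := ((splits_mul (pow_ne_zero _ X_ne_zero) hq0).1 h1).2
  have hdeg : (C (γ n) - C (γ (n + 2)) * X ^ 2 : ℝ[X]).degree ≠ 0 := by
    intro hd
    have h3 : (C (γ n) - C (γ (n + 2)) * X ^ 2 : ℝ[X]).coeff 2 ≠ 0 := by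
      simp [h2]
    have h4 := coeff_eq_zero_of_degree_lt (p := (C (γ n) - C (γ (n + 2)) * X ^ 2 : ℝ[X])) (n := 2)
      (by rw [hd]; norm_num)
    exact h3 h4
  obtain ⟨x, hx⟩ := h3.exists_eval_eq_zero hdeg
  simp only [eval_sub, eval_C, eval_mul, eval_pow, eval_X] at hx
  have : γ n = γ (n + 2) * x ^ 2 := by linarith
  rw [this]
  have : γ (n + 2) * x ^ 2 * γ (n + 2) = (γ (n + 2) * x) ^ 2 := by ring
  rw [this]
  positivity

theorem coeff_zero_of_gap (p : ℝ[X]) (hp : p.Splits) (i : ℕ) (hi : 3 ≤ i) (hd : p.natDegree = i)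
    (h1 : p.coeff (i - 1) = 0) (h2 : p.coeff (i - 2) = 0) : p.coeff 0 = 0 := by
  have hp0 : p ≠ 0 := by rintro rfl; simp at hd; omega
  have hl : p.leadingCoeff ≠ 0 := leadingCoeff_ne_zero.2 hp0
  have e1 := coeff_eq_esymm_roots_of_splits hp (k := i - 1) (by omega)
  have e2 := coeff_eq_esymm_roots_of_splits hp (k := i - 2) (by omega)
  rw [h1, hd, show i - (i - 1) = 1 by omega, esymm_one'] at e1
  rw [h2, hd, show i - (i - 2) = 2 by omega] at e2
  have hs : p.roots.sum = 0 := by
    have : p.leadingCoeff * (-1) ^ 1 ≠ 0 := mul_ne_zero hl (by norm_num)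
    rcases mul_eq_zero.1 e1.symm with h | h
    · exact absurd h this
    · exact h
  have hs2 : p.roots.esymm 2 = 0 := by
    have : p.leadingCoeff * (-1) ^ 2 ≠ 0 := mul_ne_zero hl (by norm_num)
    rcases mul_eq_zero.1 e2.symm with h | h
    · exact absurd h this
    · exact h
  have hsq := sum_sq p.roots
  rw [hs, hs2] at hsq
  have hcard : Multiset.card p.roots = i := by rw [← hp.natDegree_eq_card_roots, hd]
  obtain ⟨t, ht⟩ : ∃ t, t ∈ p.roots := Multiset.card_pos_iff_exists_mem.1 (by omega)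
  have hnn : ∀ x ∈ p.roots.map (fun t => t ^ 2), 0 ≤ x := by
    intro x hx
    obtain ⟨t, _, rfl⟩ := Multiset.mem_map.1 hx
    positivity
  have h7 : t ^ 2 ≤ (p.roots.map (fun t => t ^ 2)).sum :=
    Multiset.single_le_sum hnn _ (Multiset.mem_map_of_mem _ ht)
  rw [hsq] at h7
  have ht0 : t = 0 := by
    have : t ^ 2 ≤ 0 := by linarith
    exact pow_eq_zero_iff (two_ne_zero) |>.1 (le_antisymm this (sq_nonneg t))
  rw [ht0] at ht
  have := (mem_roots'.1 ht).2
  rwa [IsRoot.def, ← coeff_zero_eq_eval_zero] at this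

theorem MS.zero_tail {γ : ℕ → ℝ} (h : MS γ) (n : ℕ) (h0 : γ n ≠ 0)
    (h1 : γ (n + 1) = 0) : ∀ i, 1 ≤ i → γ (n + i) = 0 := by
  intro i
  induction i using Nat.strong_induction_on with
  | _ i ih =>
    intro hi
    rcases Nat.lt_or_ge i 3 with h2 | h2
    · interval_cases i
      · exact h1
      · have ht := h.JS.turan n
        rw [h1] at ht
        have hn := h.nonneg2 n
        have : γ n * γ (n + 2) = 0 := le_antisymm (by simpa using ht) hn
        rcases mul_eq_zero.1 this with h3 | h3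
        · exact absurd h3 h0
        · exact h3
    · by_contra hne
      have hdeg : (J (fun j => γ (n + j)) i).natDegree = i := by
        apply le_antisymm (J_natDegree_le _ _)
        apply le_natDegree_of_ne_zero
        rw [J_coeff]
        simpa using hne
      have := coeff_zero_of_gap _ (h.JS n i) i h2 hdeg
        (by rw [J_coeff, ih (i - 1) (by omega) (by omega), mul_zero])
        (by
          rw [J_coeff, ih (i - 2) (by omega) (by omega), mul_zero])
      rw [J_coeff] at this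
      simp at this
      exact h0 this

/-! ### the concentration argument -/

theorem root_term_bound (σ : ℝ) (hσ0 : 0 ≤ σ) (hσ1 : σ < 1) (s : Multiset ℝ) (hs : ∀ t ∈ s, t < 0) :
    (1 - σ) ^ 2 * (s.countP (fun t : ℝ => |t| ≤ 1) : ℝ) ≤
      (s.map (fun t => 1 / (0 - t))).sum - 2 * σ * Multiset.card s - σ ^ 2 * s.sum := by
  induction s using Multiset.induction_on with
  | empty => simp
  | cons t s ih =>
    have ht : t < 0 := hs t (Multiset.mem_cons_self _ _)
    have ih' := ih (fun x hx => hs x (Multiset.mem_cons_of_mem hx))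
    rw [Multiset.countP_cons, Multiset.map_cons, Multiset.sum_cons, Multiset.sum_cons, Multiset.card_cons]
    have key : (1 - σ) ^ 2 * ((if |t| ≤ 1 then 1 else 0 : ℕ) : ℝ) ≤ 1 / (0 - t) - 2 * σ - σ ^ 2 * t := by
      have e1 : 1 / (0 - t) - 2 * σ - σ ^ 2 * t = (1 + σ * t) ^ 2 / (-t) := by
        have : t ≠ 0 := ht.ne
        field_simp
        ring
      rw [e1]
      split_ifs with h1
      · rw [le_div_iff₀ (by linarith)]
        rw [abs_of_neg ht] at h1
        have h2 : 0 ≤ (1 + t) * (1 + σ ^ 2 * t) := by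
          apply mul_nonneg (by linarith)
          have h3 : σ ^ 2 ≤ 1 := by nlinarith
          nlinarith
        have h4 : (1 + σ * t) ^ 2 - (1 - σ) ^ 2 * ((1 : ℕ) : ℝ) * -t = (1 + t) * (1 + σ ^ 2 * t) := by
          push_cast; ring
        linarith
      · simp
        apply div_nonneg (sq_nonneg _) (by linarith)
    push_cast at ih' key ⊢
    nlinarith

theorem mono_of_count (a : ℕ → ℝ) (h : JS a) (hpos : ∀ j, 0 < a j) (S : ℕ)
    (hcount : ∀ s K, (S + s + K) / 2 - (S + s) ≤
      (J (fun j => a (s + j)) K).roots.countP (fun t : ℝ => |t| ≤ 1)) :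
    ∀ j, a j ≤ a (j + 1) := by
  by_contra hcon
  push Not at hcon
  obtain ⟨j0, hj0⟩ := hcon
  set q : ℕ → ℝ := fun j => a (j + 1) / a j with hq
  have hqpos : ∀ j, 0 < q j := fun j => div_pos (hpos _) (hpos _)
  have hanti : Antitone q := by
    apply antitone_nat_of_succ_le
    intro j
    simp only [hq]
    rw [div_le_div_iff₀ (hpos _) (hpos _)]
    have := h.turan j
    nlinarith
  have hbdd : BddBelow (Set.range q) := ⟨0, by rintro x ⟨j, rfl⟩; exact (hqpos j).le⟩
  set σ := ⨅ j, q j with hσ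
  have hσle : ∀ j, σ ≤ q j := fun j => ciInf_le hbdd j
  have hσ0 : 0 ≤ σ := le_ciInf (fun j => (hqpos j).le)
  have hσ1 : σ < 1 := by
    refine lt_of_le_of_lt (hσle j0) ?_
    simp only [hq]
    rw [div_lt_one (hpos _)]
    exact hj0
  obtain ⟨s, hs⟩ : ∃ s, q s < σ + (1 - σ) ^ 2 / 4 := by
    apply exists_lt_of_ciInf_lt
    rw [← hσ]
    have : 0 < (1 - σ) ^ 2 := by
      apply pow_pos; linarith
    linarith
  set K := 4 * (S + s) + 8 with hK
  have hK1 : 1 ≤ K := by omega
  set G := J (fun j => a (s + j)) K with hG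
  have hGs : G.Splits := h s K
  have hdeg : G.natDegree = K := by
    apply le_antisymm (J_natDegree_le _ _)
    apply le_natDegree_of_ne_zero
    rw [J_coeff]
    simpa using (hpos (s + K)).ne'
  have hlead : G.leadingCoeff = a (s + K) := by
    rw [leadingCoeff, hdeg, hG, J_coeff]; simp
  have hcard : Multiset.card G.roots = K := by
    rw [← hGs.natDegree_eq_card_roots, hdeg]
  have hevpos : ∀ t : ℝ, 0 ≤ t → 0 < G.eval t := by
    intro t ht
    rw [hG, J, eval_finsetSum, Finset.sum_range_succ']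
    simp only [eval_mul, eval_C, eval_pow, eval_X]
    have : 0 ≤ ∑ i ∈ Finset.range K, (K.choose (i + 1) : ℝ) * a (s + (i + 1)) * t ^ (i + 1) := by
      apply Finset.sum_nonneg
      intro i _
      have := (hpos (s + (i + 1))).le
      positivity
    have h0 := hpos (s + 0)
    simp only [pow_zero, mul_one, Nat.choose_zero_right, Nat.cast_one, one_mul]
    linarith
  have hneg : ∀ t ∈ G.roots, t < 0 := by
    intro t ht
    by_contra hcon
    push Not at hcon
    have h1 := hevpos t hcon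
    have h2 := (mem_roots'.1 ht).2
    rw [IsRoot.def] at h2
    linarith
  have hb := root_term_bound σ hσ0 hσ1 G.roots hneg
  have hev0 : G.eval 0 = a s := by
    rw [← coeff_zero_eq_eval_zero, hG, J_coeff]; simp
  have hdev0 : (derivative G).eval 0 = K * a (s + 1) := by
    rw [← coeff_zero_eq_eval_zero, coeff_derivative, hG, J_coeff]
    simp
  have hder := hGs.eval_derivative_eq_eval_mul_sum (x := 0) (hevpos 0 le_rfl).ne'
  rw [hev0, hdev0] at hder
  have hsum1 : (G.roots.map (fun t => 1 / (0 - t))).sum = K * q s := by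
    simp only [hq]
    have := (hpos s).ne'
    field_simp
    linarith
  have hsum2 : G.roots.sum = - (K * (a (s + K - 1) / a (s + K))) := by
    have e1 := coeff_eq_esymm_roots_of_splits hGs (k := K - 1) (by omega)
    rw [hdeg, show K - (K - 1) = 1 by omega, esymm_one', hlead, hG, J_coeff,
      show s + (K - 1) = s + K - 1 by omega] at e1
    have hc : (K.choose (K - 1) : ℝ) = K := by
      rw [← Nat.choose_symm (by omega : K - 1 ≤ K), show K - (K - 1) = 1 by omega, Nat.choose_one_right]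
    rw [hc] at e1
    have := (hpos (s + K)).ne'
    field_simp
    linarith
  rw [hsum1, hsum2, hcard] at hb
  have hq2 : a (s + K - 1) / a (s + K) = 1 / q (s + K - 1) := by
    simp only [hq]
    rw [show s + K - 1 + 1 = s + K by omega]
    rw [one_div_div]
  have hσq : σ ^ 2 * (a (s + K - 1) / a (s + K)) ≤ σ := by
    rw [hq2]
    have h1 := hσle (s + K - 1)
    have h2 := hqpos (s + K - 1)
    rw [mul_one_div, div_le_iff₀ h2]
    nlinarith
  have hKpos : (0 : ℝ) < K := by exact_mod_cast hK1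
  have hb2 : (1 - σ) ^ 2 * (G.roots.countP (fun t : ℝ => |t| ≤ 1) : ℝ) < (1 - σ) ^ 2 * (K / 4) := by
    have h1 : K * q s - 2 * σ * K - σ ^ 2 * (-(K * (a (s + K - 1) / a (s + K))))
      = K * (q s - 2 * σ + σ ^ 2 * (a (s + K - 1) / a (s + K))) := by ring
    rw [h1] at hb
    have h2 : q s - 2 * σ + σ ^ 2 * (a (s + K - 1) / a (s + K)) < (1 - σ) ^ 2 / 4 := by linarith
    have h3 := mul_lt_mul_of_pos_left h2 hKpos
    nlinarith
  have hsq : 0 < (1 - σ) ^ 2 := by apply pow_pos; linarith
  have hb3 : (G.roots.countP (fun t : ℝ => |t| ≤ 1) : ℝ) < K / 4 := lt_of_mul_lt_mul_left hb2 hsq.le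
  have hb4 : 4 * G.roots.countP (fun t : ℝ => |t| ≤ 1) < K := by
    have : (4 : ℝ) * (G.roots.countP (fun t : ℝ => |t| ≤ 1) : ℝ) < K := by linarith
    exact_mod_cast this
  have hc := hcount s K
  rw [← hG] at hc
  omega

end Pool.Agent.Helper50
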