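import Pool.Agent.Helper50.HermStepA

set_option autoImplicit false

open Polynomial Filter Topology

namespace Pool.Agent.Helper50

/-- monic Hermite polynomials (weight exp(-x^2)) -/
noncomputable def hp : ℕ → ℝ[X]
  | 0 => 1
  | (n + 1) => X * hp n - C (1 / 2) * derivative (hp n)

/-- raising operator -/
noncomputable def Bop : ℝ[X] →ₗ[ℝ] ℝ[X] :=
  LinearMap.mulLeft ℝ X - (1 / 2 : ℝ) • (derivative : ℝ[X] →ₗ[ℝ] ℝ[X])

theorem Bop_apply (q : ℝ[X]) : Bop q = X * q - C (1 / 2) * derivative q := by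
  simp only [Bop, LinearMap.sub_apply, LinearMap.mulLeft_apply, LinearMap.smul_apply]
  rw [smul_eq_C_mul]

theorem Bop_hp (n : ℕ) : Bop (hp n) = hp (n + 1) := by
  rw [Bop_apply]; rfl

theorem hp_hermite (n : ℕ) :
    ((hermite n).map (Int.castRingHom ℝ)).comp (C (Real.sqrt 2) * X)
      = C ((Real.sqrt 2) ^ n) * hp n := by
  have h2 : Real.sqrt 2 * Real.sqrt 2 = 2 := Real.mul_self_sqrt (by norm_num)
  have h2' : Real.sqrt 2 ≠ 0 := by positivity
  induction n with
  | zero => simp [hp]
  | succ n ih =>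
    have hd : (derivative ((hermite n).map (Int.castRingHom ℝ))).comp (C (Real.sqrt 2) * X)
        = C ((Real.sqrt 2) ^ n / Real.sqrt 2) * derivative (hp n) := by
      have h3 := congrArg derivative ih
      rw [derivative_comp, derivative_C_mul, derivative_C_mul, derivative_X, mul_one] at h3
      have h4 : C (Real.sqrt 2) * (derivative ((hermite n).map (Int.castRingHom ℝ))).comp (C (Real.sqrt 2) * X)
          = C (Real.sqrt 2) * (C ((Real.sqrt 2) ^ n / Real.sqrt 2) * derivative (hp n)) := by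
        rw [h3, ← mul_assoc, ← C_mul]
        congr 2
        field_simp
      exact mul_left_cancel₀ (by rw [ne_eq, C_eq_zero]; exact h2') h4
    rw [hermite_succ, Polynomial.map_sub, Polynomial.map_mul, map_X, sub_comp, mul_comp, X_comp, ih,
      ← derivative_map, hd, hp]
    have h5 : (Real.sqrt 2) ^ n / Real.sqrt 2 = (Real.sqrt 2) ^ (n + 1) * (1 / 2) := by
      rw [pow_succ]
      field_simp
      nlinarith [pow_pos (show 0 < Real.sqrt 2 by positivity) n]
    rw [h5, mul_sub, pow_succ]
    simp only [map_mul]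
    ring

theorem hp_natDegree_le (n : ℕ) : (hp n).natDegree ≤ n := by
  induction n with
  | zero => simp [hp]
  | succ n ih =>
    rw [hp]
    refine (natDegree_sub_le _ _).trans (max_le ?_ ?_)
    · refine (natDegree_mul_le).trans ?_
      have := natDegree_X_le (R := ℝ)
      omega
    · refine (natDegree_C_mul_le _ _).trans ?_
      refine (natDegree_derivative_le _).trans ?_
      omega

theorem hp_coeff_top (n : ℕ) : (hp n).coeff n = 1 := by
  induction n with
  | zero => simp [hp]
  | succ n ih =>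
    rw [hp, coeff_sub, coeff_X_mul, ih, coeff_C_mul, coeff_derivative,
      coeff_eq_zero_of_natDegree_lt (by have := hp_natDegree_le n; omega)]
    simp

theorem agree (S T : ℝ[X] →ₗ[ℝ] ℝ[X]) (N : ℕ) (h : ∀ n, n ≤ N → S (hp n) = T (hp n)) :
    ∀ p : ℝ[X], p.natDegree ≤ N → S p = T p := by
  induction N with
  | zero =>
    intro p hp'
    have hc : p = (p.coeff 0) • hp 0 := by
      rw [hp]
      conv_lhs => rw [eq_C_of_natDegree_le_zero hp']
      rw [smul_eq_C_mul, mul_one]
    rw [hc, map_smul, map_smul, h 0 le_rfl]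
  | succ N ih =>
    intro p hp'
    set r := p - (p.coeff (N + 1)) • hp (N + 1) with hr
    have hrd : r.natDegree ≤ N := by
      rw [natDegree_le_iff_coeff_eq_zero]
      intro m hm
      rw [hr, coeff_sub, coeff_smul, smul_eq_mul]
      rcases Nat.lt_or_ge (N + 1) m with h1 | h1
      · have e1 : p.coeff m = 0 := coeff_eq_zero_of_natDegree_lt (by omega)
        have e2 : (hp (N + 1)).coeff m = 0 := coeff_eq_zero_of_natDegree_lt
          (by have := hp_natDegree_le (N + 1); omega)
        rw [e1, e2]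
        simp
      · have : m = N + 1 := by omega
        rw [this, hp_coeff_top]
        simp
    have hpr : p = r + (p.coeff (N + 1)) • hp (N + 1) := by rw [hr]; ring
    rw [hpr, map_add, map_add, map_smul, map_smul, h (N + 1) le_rfl, ih (fun n hn => h n (by omega)) r hrd]

theorem derivative_hp (n : ℕ) : derivative (hp (n + 1)) = C ((n : ℝ) + 1) * hp n := by
  induction n with
  | zero =>
    simp [hp]
  | succ n ih =>
    rw [hp, derivative_sub, derivative_mul, derivative_X, derivative_C_mul, ih, derivative_C_mul]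
    conv_rhs => rw [hp]
    conv_lhs => rw [show hp (n + 1) = X * hp n - C (1 / 2) * derivative (hp n) from rfl]
    push_cast
    simp only [map_add, map_one, map_natCast]
    ring

theorem iterate_derivative_hp (m n : ℕ) :
    (⇑derivative)^[m] (hp n) = if m ≤ n then C ((n.descFactorial m : ℕ) : ℝ) * hp (n - m) else 0 := by
  induction m generalizing n with
  | zero => simp
  | succ m ih =>
    rw [Function.iterate_succ_apply]
    cases n with
    | zero =>
      simp [hp]
    | succ n =>
      rw [derivative_hp, iterate_derivative_C_mul, ih]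
      by_cases h : m ≤ n
      · rw [if_pos h, if_pos (by omega), Nat.succ_descFactorial_succ, show n + 1 - (m + 1) = n - m by omega]
        push_cast
        simp only [map_mul, map_add, map_one]
        ring
      · rw [if_neg h, if_neg (by omega), mul_zero]

theorem Bop_pow_hp (m n : ℕ) : (Bop ^ m) (hp n) = hp (n + m) := by
  induction m with
  | zero => simp
  | succ m ih =>
    rw [pow_succ', Module.End.mul_apply, ih, Bop_hp]
    rfl

/-- normally ordered number-operator powers -/
noncomputable def W (m : ℕ) : ℝ[X] →ₗ[ℝ] ℝ[X] := (Bop ^ m) ∘ₗ ((derivative : ℝ[X] →ₗ[ℝ] ℝ[X]) ^ m)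

theorem W_apply (m : ℕ) (p : ℝ[X]) : W m p = (Bop ^ m) ((⇑derivative)^[m] p) := by
  rw [W, LinearMap.comp_apply, Module.End.pow_apply (derivative : ℝ[X] →ₗ[ℝ] ℝ[X])]

theorem W_hp (m n : ℕ) : W m (hp n) = C ((n.descFactorial m : ℕ) : ℝ) * hp n := by
  rw [W_apply, iterate_derivative_hp]
  split_ifs with h
  · rw [← smul_eq_C_mul, map_smul, Bop_pow_hp, show n - m + m = n by omega, smul_eq_C_mul]
  · rw [Nat.descFactorial_of_lt (by omega)]
    simp

/-- forward differences at zero -/
noncomputable def dl (γ : ℕ → ℝ) (m : ℕ) : ℝ := Lf γ ((X - 1) ^ m)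

theorem newton_forward (γ : ℕ → ℝ) (n : ℕ) :
    γ n = ∑ m ∈ Finset.range (n + 1), dl γ m * (n.choose m : ℝ) := by
  have h1 : (X ^ n : ℝ[X]) = ((X - 1) + 1) ^ n := by ring
  have h2 : Lf γ (X ^ n) = γ n := by
    have := Lf_C_mul_X_pow γ 1 n
    simpa using this
  rw [← h2, h1, add_pow, map_sum]
  apply Finset.sum_congr rfl
  intro m _
  have : (X - 1) ^ m * 1 ^ (n - m) * ((n.choose m : ℕ) : ℝ[X]) = C (n.choose m : ℝ) * (X - 1) ^ m := by
    rw [map_natCast]; ring
  rw [this, Lf_C_mul, dl, mul_comm]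

theorem T_eq (T : ℝ[X] →ₗ[ℝ] ℝ[X]) (γ : ℕ → ℝ) (hT : ∀ n, T (hp n) = C (γ n) * hp n) (N : ℕ)
    (p : ℝ[X]) (hpN : p.natDegree ≤ N) :
    T p = ∑ m ∈ Finset.range (N + 1), (dl γ m / (m.factorial : ℝ)) • W m p := by
  have h1 : T p = (∑ m ∈ Finset.range (N + 1), (dl γ m / (m.factorial : ℝ)) • W m) p := by
    apply agree _ _ N _ p hpN
    intro n hn
    rw [hT, LinearMap.sum_apply]
    simp only [LinearMap.smul_apply, W_hp]
    have h2 : ∑ m ∈ Finset.range (N + 1), (dl γ m / (m.factorial : ℝ)) • (C ((n.descFactorial m : ℕ) : ℝ) * hp n)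
        = C (∑ m ∈ Finset.range (N + 1), dl γ m * (n.choose m : ℝ)) * hp n := by
      rw [map_sum, Finset.sum_mul]
      apply Finset.sum_congr rfl
      intro m _
      rw [smul_eq_C_mul, ← mul_assoc, ← C_mul]
      congr 2
      rw [Nat.descFactorial_eq_factorial_mul_choose]
      push_cast
      have : (m.factorial : ℝ) ≠ 0 := by exact_mod_cast m.factorial_ne_zero
      field_simp
    rw [h2]
    congr 2
    rw [newton_forward γ n]
    apply Finset.sum_subset
    · intro m hm
      rw [Finset.mem_range] at hm ⊢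
      omega
    · intro m _ hm
      rw [Finset.mem_range, not_lt] at hm
      rw [Nat.choose_eq_zero_of_lt (by omega)]
      simp
  rw [h1, LinearMap.sum_apply]
  simp only [LinearMap.smul_apply]

/-- expansion of powers of the raising operator -/
theorem Bop_pow_apply (m : ℕ) (q : ℝ[X]) :
    (Bop ^ m) q = ∑ ij ∈ Finset.HasAntidiagonal.antidiagonal m,
      (((m.choose ij.1 : ℕ) : ℝ[X])) * (C ((-1 / 2) ^ ij.1) * hp ij.2 * (⇑derivative)^[ij.1] q) := by
  induction m with
  | zero => simp [hp]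
  | succ m ih =>
    rw [pow_succ', Module.End.mul_apply, ih, map_sum,
      Finset.sum_antidiagonal_choose_succ_mul
        (fun i j => C ((-1 / 2 : ℝ) ^ i) * hp j * (⇑derivative)^[i] q) m, ← Finset.sum_add_distrib]
    apply Finset.sum_congr rfl
    intro ij hij
    rw [Finset.HasAntidiagonal.mem_antidiagonal] at hij
    have hch : m.choose ij.2 = m.choose ij.1 := by
      rw [← hij]; exact (Nat.choose_symm_add).symm
    rw [hch, Bop_apply]
    have hd : derivative (((m.choose ij.1 : ℕ) : ℝ[X]) * (C ((-1 / 2) ^ ij.1) * hp ij.2 * (⇑derivative)^[ij.1] q))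
        = ((m.choose ij.1 : ℕ) : ℝ[X]) * (C ((-1 / 2) ^ ij.1) * (derivative (hp ij.2) * (⇑derivative)^[ij.1] q
          + hp ij.2 * (⇑derivative)^[ij.1 + 1] q)) := by
      rw [derivative_natCast_mul, mul_assoc, derivative_C_mul, derivative_mul,
        Function.iterate_succ_apply']
    rw [hd, show hp (ij.2 + 1) = X * hp ij.2 - C (1 / 2) * derivative (hp ij.2) from rfl, pow_succ, C_mul]
    have : (C (-1 / 2 : ℝ)) = - C (1 / 2 : ℝ) := by rw [← C_neg]; congr 1; norm_num
    rw [this]
    ring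

/-- explicit coefficients of `hp` -/
theorem hp_coeff (n : ℕ) : (∀ l j, 2 * l + j = n → (hp n).coeff j =
      (-1 / 4) ^ l * (n.factorial : ℝ) / ((l.factorial : ℝ) * (j.factorial : ℝ)))
    ∧ (∀ j, (n + j) % 2 = 1 → (hp n).coeff j = 0) := by
  induction n with
  | zero =>
    constructor
    · intro l j hlj
      have hl : l = 0 := by omega
      have hj : j = 0 := by omega
      subst hl; subst hj
      simp [hp]
    · intro j hj
      have : j ≠ 0 := by omega
      simp [hp, coeff_one, this]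
  | succ n ih =>
    obtain ⟨ih1, ih2⟩ := ih
    have hrec0 : (hp (n + 1)).coeff 0 = - (1 / 2) * (hp n).coeff 1 := by
      rw [hp, coeff_sub, coeff_C_mul, coeff_derivative]
      simp
    have hrec : ∀ j, (hp (n + 1)).coeff (j + 1) = (hp n).coeff j - (1 / 2) * ((hp n).coeff (j + 2) * (j + 2)) := by
      intro j
      rw [hp, coeff_sub, coeff_C_mul, coeff_derivative, coeff_X_mul]
      push_cast
      ring
    constructor
    · intro l j hlj
      cases j with
      | zero =>
        rw [hrec0]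
        obtain ⟨l', rfl⟩ : ∃ l', l = l' + 1 := ⟨l - 1, by omega⟩
        rw [ih1 l' 1 (by omega)]
        have hn : n = 2 * l' + 1 := by omega
        rw [Nat.factorial_succ n, Nat.factorial_succ l', pow_succ, hn]
        have : (l'.factorial : ℝ) ≠ 0 := by exact_mod_cast l'.factorial_ne_zero
        have h2 : ((2 * l' + 1).factorial : ℝ) ≠ 0 := by exact_mod_cast Nat.factorial_ne_zero _
        push_cast
        simp only [Nat.factorial_zero, Nat.factorial_one, Nat.cast_one, mul_one]
        field_simp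
        ring
      | succ j =>
        rw [hrec]
        cases l with
        | zero =>
          have hj : j = n := by omega
          subst hj
          rw [ih1 0 j (by omega), coeff_eq_zero_of_natDegree_lt (by have := hp_natDegree_le j; omega)]
          have h2 : (j.factorial : ℝ) ≠ 0 := by exact_mod_cast Nat.factorial_ne_zero _
          have h3 : ((j + 1).factorial : ℝ) ≠ 0 := by exact_mod_cast Nat.factorial_ne_zero _
          simp
          field_simp
        | succ l =>
          rw [ih1 (l + 1) j (by omega), ih1 l (j + 2) (by omega)]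
          have hn : (n : ℝ) = 2 * (l + 1) + j := by
            have : n = 2 * (l + 1) + j := by omega
            rw [this]; push_cast; ring
          rw [Nat.factorial_succ n, Nat.factorial_succ l, Nat.factorial_succ (j + 1), Nat.factorial_succ j, pow_succ]
          have h1 : (l.factorial : ℝ) ≠ 0 := by exact_mod_cast Nat.factorial_ne_zero _
          have h2 : (j.factorial : ℝ) ≠ 0 := by exact_mod_cast Nat.factorial_ne_zero _
          have h3 : (n.factorial : ℝ) ≠ 0 := by exact_mod_cast Nat.factorial_ne_zero _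
          push_cast
          rw [hn]
          have h4 : (l : ℝ) + 1 ≠ 0 := by positivity
          have h5 : (j : ℝ) + 1 ≠ 0 := by positivity
          have h6 : (j : ℝ) + 1 + 1 ≠ 0 := by positivity
          field_simp
          ring
    · intro j hj
      cases j with
      | zero =>
        rw [hrec0, ih2 1 (by omega), mul_zero]
      | succ j =>
        rw [hrec, ih2 j (by omega), ih2 (j + 2) (by omega)]
        simp

/-- coefficient polynomials -/
noncomputable def Qh (γ : ℕ → ℝ) (k : ℕ) : ℝ[X] :=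
  ∑ ij ∈ Finset.HasAntidiagonal.antidiagonal k,
    C (dl γ ij.1 / (ij.1.factorial : ℝ) * (ij.1.choose ij.2 : ℝ) * (-1 / 2) ^ ij.2) * hp (ij.1 - ij.2)

theorem sum_triangle (N : ℕ) (f : ℕ → ℕ → ℝ[X]) (hf : ∀ m j, N < m + j → f m j = 0) :
    ∑ k ∈ Finset.range (N + 1), ∑ ij ∈ Finset.HasAntidiagonal.antidiagonal k, f ij.1 ij.2
      = ∑ m ∈ Finset.range (N + 1), ∑ j ∈ Finset.range (N + 1), f m j := by
  have h1 : ∀ k ∈ Finset.range (N + 1), ∑ ij ∈ Finset.HasAntidiagonal.antidiagonal k, f ij.1 ij.2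
      = ∑ m ∈ Finset.range (N + 1), ∑ j ∈ Finset.range (N + 1), if m + j = k then f m j else 0 := by
    intro k hk
    rw [Finset.mem_range] at hk
    rw [← Finset.sum_product', ← Finset.sum_filter]
    apply Finset.sum_congr
    · ext ij
      simp only [Finset.HasAntidiagonal.mem_antidiagonal, Finset.mem_filter, Finset.mem_product,
        Finset.mem_range]
      constructor
      · intro h
        exact ⟨⟨by omega, by omega⟩, h⟩
      · intro h
        exact h.2
    · intro _ _
      rfl
  rw [Finset.sum_congr rfl h1, Finset.sum_comm]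
  apply Finset.sum_congr rfl
  intro m _
  rw [Finset.sum_comm]
  apply Finset.sum_congr rfl
  intro j _
  by_cases hmj : m + j ≤ N
  · rw [Finset.sum_eq_single (m + j)]
    · simp
    · intro b _ hb
      rw [if_neg (Ne.symm hb)]
    · intro h
      rw [Finset.mem_range] at h
      omega
  · rw [hf m j (by omega)]
    simp

theorem T_eq_Qh (T : ℝ[X] →ₗ[ℝ] ℝ[X]) (γ : ℕ → ℝ) (hT : ∀ n, T (hp n) = C (γ n) * hp n) (N : ℕ)
    (p : ℝ[X]) (hpN : p.natDegree ≤ N) :
    T p = ∑ k ∈ Finset.range (N + 1), Qh γ k * (⇑derivative)^[k] p := by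
  rw [T_eq T γ hT N p hpN]
  set f : ℕ → ℕ → ℝ[X] := fun m j =>
    C (dl γ m / (m.factorial : ℝ) * (m.choose j : ℝ) * (-1 / 2) ^ j) * hp (m - j) * (⇑derivative)^[m + j] p with hf
  have hf0 : ∀ m j, N < m + j → f m j = 0 := by
    intro m j hmj
    simp only [hf]
    rw [iterate_derivative_eq_zero (by omega), mul_zero]
  have h1 : ∑ k ∈ Finset.range (N + 1), Qh γ k * (⇑derivative)^[k] p
      = ∑ k ∈ Finset.range (N + 1), ∑ ij ∈ Finset.HasAntidiagonal.antidiagonal k, f ij.1 ij.2 := by
    apply Finset.sum_congr rfl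
    intro k _
    rw [Qh, Finset.sum_mul]
    apply Finset.sum_congr rfl
    intro ij hij
    rw [Finset.HasAntidiagonal.mem_antidiagonal] at hij
    simp only [hf]
    rw [hij]
  rw [h1, sum_triangle N f hf0]
  apply Finset.sum_congr rfl
  intro m hm
  rw [Finset.mem_range] at hm
  rw [W_apply, Bop_pow_apply, Finset.Nat.sum_antidiagonal_eq_sum_range_succ_mk, Finset.smul_sum]
  have h2 : ∑ j ∈ Finset.range (N + 1), f m j = ∑ j ∈ Finset.range (m + 1), f m j := by
    symm
    apply Finset.sum_subset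
    · intro j hj
      rw [Finset.mem_range] at hj ⊢
      omega
    · intro j _ hj
      rw [Finset.mem_range, not_lt] at hj
      simp only [hf]
      rw [Nat.choose_eq_zero_of_lt (by omega)]
      simp
  rw [h2]
  apply Finset.sum_congr rfl
  intro j _
  simp only [hf]
  rw [smul_eq_C_mul, ← Function.iterate_add_apply, add_comm j m]
  simp only [map_mul, map_natCast]
  ring

theorem Q_unique (A B : ℕ → ℝ[X])
    (h : ∀ p : ℝ[X], ∑ k ∈ Finset.range (p.natDegree + 1), A k * (⇑derivative)^[k] p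
      = ∑ k ∈ Finset.range (p.natDegree + 1), B k * (⇑derivative)^[k] p) (n : ℕ) : A n = B n := by
  induction n using Nat.strong_induction_on with
  | _ n ih =>
    have h1 := h (X ^ n)
    rw [natDegree_X_pow, Finset.sum_range_succ, Finset.sum_range_succ] at h1
    have h2 : ∑ k ∈ Finset.range n, A k * (⇑derivative)^[k] (X ^ n : ℝ[X])
        = ∑ k ∈ Finset.range n, B k * (⇑derivative)^[k] (X ^ n : ℝ[X]) := by
      apply Finset.sum_congr rfl
      intro k hk
      rw [Finset.mem_range] at hk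
      rw [ih k hk]
    rw [h2] at h1
    have h3 := add_left_cancel h1
    have h4 : (⇑derivative)^[n] (X ^ n : ℝ[X]) = C ((n.factorial : ℕ) : ℝ) := by
      rw [iterate_derivative_X_pow_eq_C_mul, Nat.sub_self, pow_zero, mul_one, Nat.descFactorial_self]
    rw [h4] at h3
    have h5 : (C ((n.factorial : ℕ) : ℝ) : ℝ[X]) ≠ 0 := by
      rw [ne_eq, C_eq_zero]
      exact_mod_cast n.factorial_ne_zero
    exact mul_right_cancel₀ h5 h3

theorem Qh_coeff (γ : ℕ → ℝ) (k i : ℕ) (hi : 2 * i ≤ k) :
    (Qh γ k).coeff (k - 2 * i) =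
      (-1 / 4) ^ i / ((i.factorial : ℝ) * ((k - 2 * i).factorial : ℝ)) * Lf γ ((X - 1) ^ (k - i) * (X + 1) ^ i) := by
  rw [Qh, Finset.Nat.sum_antidiagonal_eq_sum_range_succ_mk, ← Finset.sum_range_reflect, finsetSum_coeff]
  simp only [coeff_C_mul]
  have h1 : ∑ j ∈ Finset.range (k + 1), dl γ (k + 1 - 1 - j) / ((k + 1 - 1 - j).factorial : ℝ) *
        ((k + 1 - 1 - j).choose (k - (k + 1 - 1 - j)) : ℝ) * (-1 / 2) ^ (k - (k + 1 - 1 - j)) *
        (hp (k + 1 - 1 - j - (k - (k + 1 - 1 - j)))).coeff (k - 2 * i)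
      = ∑ j ∈ Finset.range (i + 1), dl γ (k - j) / ((k - j).factorial : ℝ) *
        ((k - j).choose j : ℝ) * (-1 / 2) ^ j * (hp (k - j - j)).coeff (k - 2 * i) := by
    symm
    have h0 : ∀ j ∈ Finset.range (k + 1), dl γ (k + 1 - 1 - j) / ((k + 1 - 1 - j).factorial : ℝ) *
        ((k + 1 - 1 - j).choose (k - (k + 1 - 1 - j)) : ℝ) * (-1 / 2) ^ (k - (k + 1 - 1 - j)) *
        (hp (k + 1 - 1 - j - (k - (k + 1 - 1 - j)))).coeff (k - 2 * i)
        = dl γ (k - j) / ((k - j).factorial : ℝ) *
        ((k - j).choose j : ℝ) * (-1 / 2) ^ j * (hp (k - j - j)).coeff (k - 2 * i) := by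
      intro j hj
      rw [Finset.mem_range] at hj
      rw [show k + 1 - 1 - j = k - j by omega, show k - (k - j) = j by omega]
    rw [Finset.sum_congr rfl h0]
    apply Finset.sum_subset
    · intro j hj
      rw [Finset.mem_range] at hj ⊢
      omega
    · intro j hj hj'
      rw [Finset.mem_range, not_lt] at hj'
      rw [Finset.mem_range] at hj
      by_cases h2 : 2 * j ≤ k
      · have : (hp (k - j - j)).coeff (k - 2 * i) = 0 := by
          apply coeff_eq_zero_of_natDegree_lt
          have := hp_natDegree_le (k - j - j)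
          omega
        rw [this, mul_zero]
      · rw [Nat.choose_eq_zero_of_lt (by omega)]
        simp
  rw [h1]
  have h2 : Lf γ ((X - 1) ^ (k - i) * (X + 1) ^ i) = ∑ j ∈ Finset.range (i + 1),
      (i.choose j : ℝ) * 2 ^ j * dl γ (k - j) := by
    have e1 : (X + 1 : ℝ[X]) = C 2 + (X - 1) := by
      rw [show (C (2 : ℝ) : ℝ[X]) = 2 from rfl]; ring
    rw [e1, add_pow, Finset.mul_sum, map_sum]
    apply Finset.sum_congr rfl
    intro j hj
    rw [Finset.mem_range] at hj
    have e2 : (X - 1 : ℝ[X]) ^ (k - i) * (C 2 ^ j * (X - 1) ^ (i - j) * ((i.choose j : ℕ) : ℝ[X]))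
        = C ((i.choose j : ℝ) * 2 ^ j) * (X - 1) ^ (k - j) := by
      rw [show k - j = (k - i) + (i - j) by omega, pow_add]
      simp only [map_mul, map_pow, map_natCast]
      ring
    rw [e2, Lf_C_mul, dl]
  rw [h2, Finset.mul_sum]
  apply Finset.sum_congr rfl
  intro j hj
  rw [Finset.mem_range] at hj
  have e3 : (hp (k - j - j)).coeff (k - 2 * i) =
      (-1 / 4) ^ (i - j) * ((k - j - j).factorial : ℝ) / (((i - j).factorial : ℝ) * ((k - 2 * i).factorial : ℝ)) :=
    (hp_coeff (k - j - j)).1 (i - j) (k - 2 * i) (by omega)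
  rw [e3]
  have e4 : (((k - j).choose j : ℕ) : ℝ) = ((k - j).factorial : ℝ) / ((j.factorial : ℝ) * ((k - j - j).factorial : ℝ)) := by
    rw [Nat.cast_choose ℝ (by omega : j ≤ k - j)]
  have e5 : ((i.choose j : ℕ) : ℝ) = (i.factorial : ℝ) / ((j.factorial : ℝ) * ((i - j).factorial : ℝ)) := by
    rw [Nat.cast_choose ℝ (by omega : j ≤ i)]
  rw [e4, e5]
  have f1 : ((k - j).factorial : ℝ) ≠ 0 := by exact_mod_cast Nat.factorial_ne_zero _
  have f2 : ((k - j - j).factorial : ℝ) ≠ 0 := by exact_mod_cast Nat.factorial_ne_zero _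
  have f3 : (j.factorial : ℝ) ≠ 0 := by exact_mod_cast Nat.factorial_ne_zero _
  have f4 : ((i - j).factorial : ℝ) ≠ 0 := by exact_mod_cast Nat.factorial_ne_zero _
  have f5 : ((k - 2 * i).factorial : ℝ) ≠ 0 := by exact_mod_cast Nat.factorial_ne_zero _
  have f6 : (i.factorial : ℝ) ≠ 0 := by exact_mod_cast Nat.factorial_ne_zero _
  have e6 : (-1 / 4 : ℝ) ^ i * 2 ^ j = (-1 / 2) ^ j * (-1 / 4) ^ (i - j) := by
    have : (-1 / 4 : ℝ) ^ i = (-1 / 4) ^ j * (-1 / 4) ^ (i - j) := by
      rw [← pow_add]; congr 1; omega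
    rw [this]
    have : (-1 / 2 : ℝ) ^ j = (-1 / 4) ^ j * 2 ^ j := by
      rw [← mul_pow]; norm_num
    rw [this]; ring
  field_simp
  linear_combination (-(dl γ (k - j))) * e6

theorem Qh_coeff_zero (γ : ℕ → ℝ) (k c : ℕ) (hc : k < c ∨ c % 2 ≠ k % 2) : (Qh γ k).coeff c = 0 := by
  rw [Qh, finsetSum_coeff]
  apply Finset.sum_eq_zero
  intro ij hij
  rw [Finset.HasAntidiagonal.mem_antidiagonal] at hij
  rw [coeff_C_mul]
  by_cases h : ij.2 ≤ ij.1
  · rcases hc with h1 | h1
    · rw [coeff_eq_zero_of_natDegree_lt (by have := hp_natDegree_le (ij.1 - ij.2); omega), mul_zero]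
    · rw [(hp_coeff (ij.1 - ij.2)).2 c (by omega), mul_zero]
  · rw [Nat.choose_eq_zero_of_lt (by omega)]
    simp

/-- the sign property extracted from the hypothesis on the coefficient polynomials -/
theorem sign_property (T : ℝ[X] →ₗ[ℝ] ℝ[X]) (γ : ℕ → ℝ) (Q : ℕ → ℝ[X])
    (hT : ∀ n, T (hp n) = C (γ n) * hp n)
    (hQ : ∀ p : ℝ[X], T p = ∑ k ∈ Finset.range (p.natDegree + 1), Q k * (⇑derivative)^[k] p)
    (hrr : ∀ k, (Q k).Splits) :
    ∀ k, ∃ τ : ℝ, τ ≠ 0 ∧ ∀ i, 2 * i ≤ k → 0 ≤ τ * Lf γ ((X - 1) ^ (k - i) * (X + 1) ^ i) := by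
  intro k
  have hQk : Q k = Qh γ k := by
    apply Q_unique
    intro p
    rw [← hQ p, T_eq_Qh T γ hT p.natDegree p le_rfl]
  obtain ⟨τ, hτ, h1⟩ := alternate (Q k) (hrr k) k (by
    intro j hj
    rw [hQk]
    exact Qh_coeff_zero γ k j hj)
  refine ⟨τ, hτ, fun i hi => ?_⟩
  have h2 := h1 i hi
  rw [hQk, Qh_coeff γ k i hi] at h2
  have f5 : (0 : ℝ) < ((k - 2 * i).factorial : ℝ) := by exact_mod_cast Nat.factorial_pos _
  have f6 : (0 : ℝ) < (i.factorial : ℝ) := by exact_mod_cast Nat.factorial_pos _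
  have h3 : τ * ((-1) ^ i * ((-1 / 4) ^ i / ((i.factorial : ℝ) * ((k - 2 * i).factorial : ℝ)) * Lf γ ((X - 1) ^ (k - i) * (X + 1) ^ i)))
      = ((1 / 4) ^ i / ((i.factorial : ℝ) * ((k - 2 * i).factorial : ℝ))) * (τ * Lf γ ((X - 1) ^ (k - i) * (X + 1) ^ i)) := by
    have : (-1 : ℝ) ^ i * (-1 / 4) ^ i = (1 / 4) ^ i := by
      rw [← mul_pow]; norm_num
    rw [← this]
    ring
  rw [h3] at h2
  have h4 : (0 : ℝ) < (1 / 4) ^ i / ((i.factorial : ℝ) * ((k - 2 * i).factorial : ℝ)) := by positivity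
  exact nonneg_of_mul_nonneg_right h2 h4

end Pool.Agent.Helper50
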