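import Pool.Agent.Helper50.HermBasic

set_option autoImplicit false

open Polynomial Filter Topology

namespace Pool.Agent.Helper50

theorem esymm_one' (s : Multiset ℝ) : s.esymm 1 = s.sum := by
  simp [Multiset.esymm, Multiset.powersetCard_one]

theorem esymm_two_cons (a : ℝ) (s : Multiset ℝ) :
    (a ::ₘ s).esymm 2 = s.esymm 2 + a * s.sum := by
  rw [← esymm_one', Multiset.esymm, Multiset.powersetCard_cons, Multiset.map_add, Multiset.sum_add,
    Multiset.map_map, Multiset.esymm, Multiset.esymm]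
  congr 1
  rw [← Multiset.sum_map_mul_left]
  simp

theorem sum_sq (s : Multiset ℝ) : (s.map (fun t => t ^ 2)).sum = s.sum ^ 2 - 2 * s.esymm 2 := by
  induction s using Multiset.induction_on with
  | empty =>
    simp [Multiset.esymm, show Multiset.powersetCard 2 (0 : Multiset ℝ) = 0 from rfl]
  | cons a s ih =>
    rw [esymm_two_cons, Multiset.map_cons, Multiset.sum_cons, ih, Multiset.sum_cons]
    ring

theorem sum_add_one_sq (s : Multiset ℝ) : (s.map (fun t => (t + 1) ^ 2)).sum
    = s.sum ^ 2 - 2 * s.esymm 2 + 2 * s.sum + Multiset.card s := by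
  rw [← sum_sq]
  induction s using Multiset.induction_on with
  | empty => simp
  | cons a s ih =>
    simp only [Multiset.map_cons, Multiset.sum_cons, ih, Multiset.card_cons]
    push_cast
    ring

/-- log-concavity -/
theorem JS.turan {b : ℕ → ℝ} (h : JS b) (j : ℕ) : b j * b (j + 2) ≤ b (j + 1) ^ 2 := by
  by_cases h2 : b (j + 2) = 0
  · rw [h2, mul_zero]; positivity
  · have hs := h j 2
    have hdeg : (J (fun i => b (j + i)) 2).degree ≠ 0 := by
      intro hd
      have h3 : (J (fun i => b (j + i)) 2).coeff 2 ≠ 0 := by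
        rw [J_coeff]; simpa using h2
      have h4 := coeff_eq_zero_of_degree_lt (p := J (fun i => b (j + i)) 2) (n := 2)
        (by rw [hd]; norm_num)
      exact h3 h4
    obtain ⟨x, hx⟩ := hs.exists_eval_eq_zero hdeg
    rw [J, eval_finsetSum] at hx
    simp only [Finset.sum_range_succ, Finset.sum_range_zero, eval_mul, eval_C, eval_pow, eval_X] at hx
    norm_num at hx
    have h5 : (b (j + 2) * x + b (j + 1)) ^ 2 = b (j + 1) ^ 2 - b j * b (j + 2) := by
      linear_combination b (j + 2) * hx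
    nlinarith [sq_nonneg (b (j + 2) * x + b (j + 1))]

theorem nonreal_root (p : ℝ[X]) (hp : p.Splits) (c d : ℝ) (hc : 0 < c) (hd : 0 < d) (i : ℕ)
    (hi : 2 ≤ i) (h : p = C c + C d * X ^ i) : False := by
  have hi0 : (i : ℝ) ≠ 0 := by positivity
  set ρ : ℝ := (c / d) ^ ((1 : ℝ) / i) with hρ
  have hρ0 : 0 < ρ := Real.rpow_pos_of_pos (by positivity) _
  set z : ℂ := (ρ : ℂ) * Complex.exp ((Real.pi / i : ℝ) * Complex.I) with hz
  have hzi : z ^ i = -((c / d : ℝ) : ℂ) := by
    rw [hz, mul_pow, ← Complex.exp_nat_mul]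
    have h1 : (ρ : ℂ) ^ i = ((c / d : ℝ) : ℂ) := by
      rw [← Complex.ofReal_pow, hρ, ← Real.rpow_natCast, ← Real.rpow_mul (by positivity)]
      rw [one_div, inv_mul_cancel₀ hi0, Real.rpow_one]
    have h2 : (i : ℂ) * (((Real.pi / i : ℝ) : ℂ) * Complex.I) = Real.pi * Complex.I := by
      push_cast
      have : (i : ℂ) ≠ 0 := by exact_mod_cast hi0
      field_simp
    rw [h1, h2, Complex.exp_pi_mul_I]
    ring
  have hzero : aeval z p = 0 := by
    rw [h, map_add, map_mul, map_pow, aeval_C, aeval_C, aeval_X, hzi]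
    simp only [Complex.coe_algebraMap]
    push_cast
    have : (d : ℂ) ≠ 0 := by exact_mod_cast hd.ne'
    field_simp
    ring
  have him : z.im ≠ 0 := by
    rw [hz]
    have : ((ρ : ℂ) * Complex.exp ((Real.pi / i : ℝ) * Complex.I)).im = ρ * Real.sin (Real.pi / i) := by
      rw [Complex.im_ofReal_mul, Complex.exp_ofReal_mul_I_im]
    rw [this]
    apply mul_ne_zero hρ0.ne'
    apply ne_of_gt
    apply Real.sin_pos_of_pos_of_lt_pi
    · positivity
    · rw [div_lt_iff₀ (by positivity)]
      have : (2 : ℝ) ≤ i := by exact_mod_cast hi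
      nlinarith [Real.pi_pos]
  have hp0 : p ≠ 0 := by
    intro h0
    have := congrArg (fun q => coeff q 0) h0
    rw [h] at this
    simp at this
    have h3 : (0 : ℕ) ≠ i := by omega
    simp [h3] at this
    exact hc.ne' this
  rcases (rr_iff_splits p).2 hp with h1 | h1
  · exact hp0 h1
  · exact him (h1 z hzero)

theorem JS.zero_tail {b : ℕ → ℝ} (h : JS b) (hb : ∀ j, 0 ≤ b j) (n : ℕ) (h0 : 0 < b n)
    (h1 : b (n + 1) = 0) : ∀ i, 1 ≤ i → b (n + i) = 0 := by
  intro i
  induction i using Nat.strong_induction_on with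
  | _ i ih =>
    intro hi
    rcases Nat.lt_or_ge i 2 with h2 | h2
    · have : i = 1 := by omega
      rw [this]; exact h1
    · by_contra hne
      have hpos : 0 < b (n + i) := lt_of_le_of_ne (hb _) (Ne.symm hne)
      refine nonreal_root _ (h n i) (b n) (b (n + i)) h0 hpos i h2 ?_
      ext j
      rw [J_coeff, coeff_add, coeff_C, coeff_C_mul, coeff_X_pow]
      rcases Nat.eq_zero_or_pos j with hj | hj
      · subst hj
        have : (0 : ℕ) ≠ i := by omega
        simp [this]
      · rcases lt_trichotomy j i with h3 | h3 | h3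
        · rw [ih j h3 hj]
          simp [hj.ne', h3.ne]
        · subst h3
          simp [hj.ne']
        · rw [Nat.choose_eq_zero_of_lt h3]
          simp [hj.ne', h3.ne']

theorem JS.geom {b : ℕ → ℝ} (h : JS b) (hb : ∀ j, 0 ≤ b j) (h0 : 0 < b 0) (r : ℝ)
    (hr : b 1 ≤ r * b 0) : ∀ j, b (j + 1) ≤ r * b j := by
  have hr0 : 0 ≤ r := by
    by_contra hneg
    push Not at hneg
    have := mul_neg_of_neg_of_pos hneg h0
    linarith [hb 1]
  have hz : ∀ j, b j = 0 → b (j + 1) = 0 := by
    intro j hj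
    have hex : ∃ n, b n = 0 := ⟨j, hj⟩
    classical
    have hfind := Nat.find_spec hex
    have hmin := fun m hm => Nat.find_min hex (m := m) hm
    set n := Nat.find hex with hn
    have hn0 : n ≠ 0 := by
      intro h0'
      rw [h0'] at hfind
      exact h0.ne' hfind
    obtain ⟨m, hm⟩ := Nat.exists_eq_succ_of_ne_zero hn0
    have hm1 : b m ≠ 0 := hmin m (by omega)
    have hm2 : 0 < b m := lt_of_le_of_ne (hb _) (Ne.symm hm1)
    have hm3 : b (m + 1) = 0 := by rw [hm] at hfind; exact hfind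
    have hle : n ≤ j := Nat.find_min' hex hj
    have := h.zero_tail hb m hm2 hm3 (j + 1 - m) (by omega)
    rwa [show m + (j + 1 - m) = j + 1 by omega] at this
  intro j
  induction j with
  | zero => exact hr
  | succ k ih =>
    by_cases hk : b k = 0
    · rw [hz _ (hz k hk), hz k hk]; simp
    · have hkpos : 0 < b k := lt_of_le_of_ne (hb _) (Ne.symm hk)
      have ht := h.turan k
      have h2 : b (k + 1) ^ 2 ≤ b (k + 1) * (r * b k) := by
        rw [pow_two]
        exact mul_le_mul_of_nonneg_left ih (hb _)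
      have h3 : b k * b (k + 2) ≤ b k * (r * b (k + 1)) := by nlinarith
      exact le_of_mul_le_mul_left h3 hkpos

theorem JS.geom' {b : ℕ → ℝ} (h : JS b) (hb : ∀ j, 0 ≤ b j) (h0 : 0 < b 0) (r : ℝ)
    (hr : b 1 ≤ r * b 0) (hr0 : 0 ≤ r) : ∀ j, b j ≤ b 0 * r ^ j := by
  intro j
  induction j with
  | zero => simp
  | succ k ih =>
    have := h.geom hb h0 r hr k
    calc b (k + 1) ≤ r * b k := this
      _ ≤ r * (b 0 * r ^ k) := by gcongr
      _ = b 0 * r ^ (k + 1) := by ring

/-- second moment of the roots of the Jensen polynomial around -1 -/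
theorem J_second_moment (a : ℕ → ℝ) (K : ℕ) (hs : (J a (K + 2)).Splits) (hA : a (K + 2) ≠ 0) :
    ((J a (K + 2)).roots.map (fun t => (t + 1) ^ 2)).sum =
      ((K : ℝ) + 2) * (K + 1) * ((a (K + 1) - a K) - (a (K + 2) - a (K + 1))) / a (K + 2)
      + ((K : ℝ) + 2) ^ 2 * ((a (K + 2) - a (K + 1)) / a (K + 2)) ^ 2 := by
  have hdeg : (J a (K + 2)).natDegree = K + 2 := by
    apply le_antisymm (J_natDegree_le _ _)
    apply le_natDegree_of_ne_zero
    rw [J_coeff]
    simpa using hA
  have hlead : (J a (K + 2)).leadingCoeff = a (K + 2) := by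
    rw [leadingCoeff, hdeg, J_coeff]; simp
  have hcard : Multiset.card (J a (K + 2)).roots = K + 2 := by
    rw [← hs.natDegree_eq_card_roots, hdeg]
  have h1 := coeff_eq_esymm_roots_of_splits hs (k := K + 1) (by rw [hdeg]; omega)
  have h2 := coeff_eq_esymm_roots_of_splits hs (k := K) (by rw [hdeg]; omega)
  rw [J_coeff, hdeg, hlead, show K + 2 - (K + 1) = 1 by omega, esymm_one'] at h1
  rw [J_coeff, hdeg, hlead, show K + 2 - K = 2 by omega] at h2
  have hc1 : ((K + 2).choose (K + 1) : ℝ) = K + 2 := by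
    rw [Nat.choose_succ_self_right]; push_cast; ring
  have hc2 : ((K + 2).choose K : ℝ) = (K + 2) * (K + 1) / 2 := by
    rw [← Nat.choose_symm (by omega : K ≤ K + 2), show K + 2 - K = 2 by omega, Nat.cast_choose_two]
    push_cast
    ring
  rw [hc1] at h1
  rw [hc2] at h2
  rw [sum_add_one_sq, hcard]
  set e1 := (J a (K + 2)).roots.sum
  set e2 := (J a (K + 2)).roots.esymm 2
  have he1 : e1 = - ((K : ℝ) + 2) * a (K + 1) / a (K + 2) := by
    field_simp
    linarith
  have he2 : e2 = ((K : ℝ) + 2) * (K + 1) / 2 * a K / a (K + 2) := by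
    field_simp
    linarith
  rw [he1, he2]
  push_cast
  field_simp
  ring

/-- A nonnegative nondecreasing sequence all of whose Jensen polynomials are real-rooted is convex. -/
theorem JS.convex_aux {a : ℕ → ℝ} (h : JS a) (ha : ∀ j, 0 ≤ a j) (hmono : ∀ j, a j ≤ a (j + 1))
    (hlt : a 2 - a 1 < a 1 - a 0) : False := by
  set b : ℕ → ℝ := fun j => a (j + 1) - a j with hb
  have hJb : JS b := h.diff
  have hbnn : ∀ j, 0 ≤ b j := fun j => by simp only [hb]; linarith [hmono j]
  have hb0 : 0 < b 0 := by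
    have h1 := hbnn 1
    simp only [hb] at h1 ⊢
    linarith
  set r := b 1 / b 0 with hr
  have hr0 : 0 ≤ r := div_nonneg (hbnn 1) hb0.le
  have hr1 : r < 1 := by
    rw [hr, div_lt_one hb0]
    simpa [hb] using hlt
  have hgeo := hJb.geom' hbnn hb0 r (by rw [hr]; field_simp; rfl) hr0
  have hmono' : Monotone a := monotone_nat_of_le_succ hmono
  have ha1 : 0 < a 1 := by
    have := ha 0
    simp only [hb] at hb0
    linarith
  have hb0a : b 0 ≤ a 1 := by
    simp only [hb]; linarith [ha 0]
  -- bound on the second moment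
  have hM : ∀ K : ℕ, ((J a (K + 2)).roots.map (fun t => (t + 1) ^ 2)).sum ≤
      2 * ((K : ℝ) + 2) ^ 2 * r ^ K := by
    intro K
    have hA : a 1 ≤ a (K + 2) := hmono' (by omega)
    have hA0 : 0 < a (K + 2) := lt_of_lt_of_le ha1 hA
    have hsp : (J a (K + 2)).Splits := by simpa using h 0 (K + 2)
    rw [J_second_moment a K hsp hA0.ne']
    have e1 : (a (K + 1) - a K) / a (K + 2) ≤ r ^ K := by
      rw [div_le_iff₀ hA0]
      have := hgeo K
      simp only [hb] at this
      have h2 : (a (0 + 1) - a 0) * r ^ K ≤ r ^ K * a (K + 2) := by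
        rw [mul_comm]
        apply mul_le_mul_of_nonneg_left _ (by positivity)
        simp only [zero_add]
        linarith [ha 0]
      linarith
    have e2 : (a (K + 2) - a (K + 1)) / a (K + 2) ≤ r ^ (K + 1) := by
      rw [div_le_iff₀ hA0]
      have := hgeo (K + 1)
      simp only [hb] at this
      have h2 : (a (0 + 1) - a 0) * r ^ (K + 1) ≤ r ^ (K + 1) * a (K + 2) := by
        rw [mul_comm]
        apply mul_le_mul_of_nonneg_left _ (by positivity)
        simp only [zero_add]
        linarith [ha 0]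
      have h3 : a (K + 1 + 1) = a (K + 2) := rfl
      linarith
    have e2' : 0 ≤ (a (K + 2) - a (K + 1)) / a (K + 2) := by
      apply div_nonneg _ hA0.le
      have := hmono (K + 1)
      linarith
    have e1' : 0 ≤ (a (K + 1) - a K) / a (K + 2) := by
      apply div_nonneg _ hA0.le
      have := hmono K
      linarith
    have hrK : r ^ (K + 1) ≤ r ^ K := pow_le_pow_of_le_one hr0 hr1.le (by omega)
    have hrK1 : r ^ (K + 1) ≤ 1 := pow_le_one₀ hr0 hr1.le
    have hrKnn : 0 ≤ r ^ K := by positivity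
    have hK : (0 : ℝ) ≤ K := by positivity
    have t1 : ((K : ℝ) + 2) * (K + 1) * ((a (K + 1) - a K) - (a (K + 2) - a (K + 1))) / a (K + 2)
        ≤ ((K : ℝ) + 2) ^ 2 * r ^ K := by
      have : ((K : ℝ) + 2) * (K + 1) * ((a (K + 1) - a K) - (a (K + 2) - a (K + 1))) / a (K + 2)
          = ((K : ℝ) + 2) * (K + 1) * ((a (K + 1) - a K) / a (K + 2) - (a (K + 2) - a (K + 1)) / a (K + 2)) := by
        field_simp
      rw [this]
      have s1 : (a (K + 1) - a K) / a (K + 2) - (a (K + 2) - a (K + 1)) / a (K + 2) ≤ r ^ K := by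
        linarith
      calc ((K : ℝ) + 2) * (K + 1) * ((a (K + 1) - a K) / a (K + 2) - (a (K + 2) - a (K + 1)) / a (K + 2))
          ≤ ((K : ℝ) + 2) * (K + 1) * r ^ K := by
            apply mul_le_mul_of_nonneg_left s1; positivity
        _ ≤ ((K : ℝ) + 2) ^ 2 * r ^ K := by
            apply mul_le_mul_of_nonneg_right _ hrKnn
            nlinarith
    have t2 : ((K : ℝ) + 2) ^ 2 * ((a (K + 2) - a (K + 1)) / a (K + 2)) ^ 2
        ≤ ((K : ℝ) + 2) ^ 2 * r ^ K := by
      apply mul_le_mul_of_nonneg_left _ (by positivity)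
      calc ((a (K + 2) - a (K + 1)) / a (K + 2)) ^ 2 ≤ (r ^ (K + 1)) ^ 2 := by gcongr
        _ = r ^ (K + 1) * r ^ (K + 1) := by ring
        _ ≤ r ^ K * 1 := by gcongr
        _ = r ^ K := by ring
    linarith
  have hlim : Tendsto (fun K : ℕ => 2 * ((K : ℝ) + 2) ^ 2 * r ^ K) atTop (𝓝 0) := by
    have habs : |r| < 1 := by rw [abs_of_nonneg hr0]; exact hr1
    have l2 := tendsto_pow_const_mul_const_pow_of_abs_lt_one 2 habs
    have l1 := tendsto_pow_const_mul_const_pow_of_abs_lt_one 1 habs
    have l0 := tendsto_pow_const_mul_const_pow_of_abs_lt_one 0 habs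
    have := ((l2.const_mul 2).add (l1.const_mul 8)).add (l0.const_mul 8)
    simp only [mul_zero, add_zero] at this
    refine this.congr (fun K => ?_)
    ring
  -- choose small eta
  set η : ℝ := min (1 / 2) (b 0 / (2 * a 1)) with hη
  have hη0 : 0 < η := lt_min (by norm_num) (by positivity)
  obtain ⟨K, hK⟩ := (hlim.eventually (gt_mem_nhds (show (0 : ℝ) < η ^ 2 by positivity))).exists
  have hsum := hM K
  have hsp : (J a (K + 2)).Splits := by simpa using h 0 (K + 2)
  have hA : a 1 ≤ a (K + 2) := hmono' (by omega)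
  have hA0 : 0 < a (K + 2) := lt_of_lt_of_le ha1 hA
  have hdeg : (J a (K + 2)).natDegree = K + 2 := by
    apply le_antisymm (J_natDegree_le _ _)
    apply le_natDegree_of_ne_zero
    rw [J_coeff]
    simpa using hA0.ne'
  have hcard : Multiset.card (J a (K + 2)).roots = K + 2 := by
    rw [← hsp.natDegree_eq_card_roots, hdeg]
  have hroot : ∀ t ∈ (J a (K + 2)).roots, |t + 1| < η := by
    intro t ht
    have hnn : ∀ x ∈ (J a (K + 2)).roots.map (fun t => (t + 1) ^ 2), 0 ≤ x := by
      intro x hx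
      obtain ⟨t, _, rfl⟩ := Multiset.mem_map.1 hx
      positivity
    have h7 : (t + 1) ^ 2 ≤ ((J a (K + 2)).roots.map (fun t => (t + 1) ^ 2)).sum :=
      Multiset.single_le_sum hnn _ (Multiset.mem_map_of_mem _ ht)
    have h8 : (t + 1) ^ 2 < η ^ 2 := lt_of_le_of_lt (h7.trans hsum) hK
    exact abs_lt_of_sq_lt_sq h8 hη0.le
  have hη2 : η ≤ 1 / 2 := min_le_left _ _
  have hroot0 : (J a (K + 2)).eval 0 ≠ 0 := by
    intro h0
    have hmem : (0 : ℝ) ∈ (J a (K + 2)).roots := by
      rw [mem_roots']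
      exact ⟨by intro h; rw [h] at hdeg; simp at hdeg, h0⟩
    have := hroot 0 hmem
    norm_num at this
    linarith
  have hev0 : (J a (K + 2)).eval 0 = a 0 := by
    rw [← coeff_zero_eq_eval_zero, J_coeff]; simp
  have hdev0 : (derivative (J a (K + 2))).eval 0 = (K + 2) * a 1 := by
    rw [← coeff_zero_eq_eval_zero, coeff_derivative, J_coeff]
    simp
  have hder := hsp.eval_derivative_eq_eval_mul_sum hroot0
  rw [hev0, hdev0] at hder
  have hbound : ((J a (K + 2)).roots.map (fun z => 1 / (0 - z))).sum ≤ (K + 2) * (1 / (1 - η)) := by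
    have : ((J a (K + 2)).roots.map (fun z => 1 / (0 - z))).sum ≤
        Multiset.card ((J a (K + 2)).roots.map (fun z => 1 / (0 - z))) • (1 / (1 - η)) := by
      apply Multiset.sum_le_card_nsmul
      intro x hx
      obtain ⟨t, ht, rfl⟩ := Multiset.mem_map.1 hx
      have h9 := hroot t ht
      rw [abs_lt] at h9
      apply one_div_le_one_div_of_le
      · linarith
      · linarith [h9.2]
    rw [Multiset.card_map, hcard] at this
    rw [nsmul_eq_mul] at this
    push_cast at this
    exact this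
  have ha0 : 0 ≤ a 0 := ha 0
  have hfin : (K + 2 : ℝ) * a 1 ≤ a 0 * ((K + 2) * (1 / (1 - η))) := by
    rw [hder]
    exact mul_le_mul_of_nonneg_left hbound ha0
  have h1η : 0 < 1 - η := by linarith
  have hfin2 : a 1 * (1 - η) ≤ a 0 := by
    have hK2 : (0 : ℝ) < K + 2 := by positivity
    have : (K + 2 : ℝ) * (a 1 * (1 - η)) ≤ (K + 2) * a 0 := by
      calc (K + 2 : ℝ) * (a 1 * (1 - η)) = ((K + 2) * a 1) * (1 - η) := by ring
        _ ≤ (a 0 * ((K + 2) * (1 / (1 - η)))) * (1 - η) := by gcongr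
        _ = (K + 2) * a 0 := by field_simp
    exact le_of_mul_le_mul_left this hK2
  have hη3 : η ≤ b 0 / (2 * a 1) := min_le_right _ _
  have hη4 : η * a 1 ≤ b 0 / 2 := by
    calc η * a 1 ≤ b 0 / (2 * a 1) * a 1 := by gcongr
      _ = b 0 / 2 := by field_simp
  have hb0' : b 0 = a 1 - a 0 := rfl
  nlinarith

theorem JS.convex {a : ℕ → ℝ} (h : JS a) (ha : ∀ j, 0 ≤ a j) (hmono : ∀ j, a j ≤ a (j + 1)) :
    ∀ j, a (j + 1) - a j ≤ a (j + 2) - a (j + 1) := by
  intro j
  by_contra hcon
  push Not at hcon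
  refine JS.convex_aux (h.shift j) (fun i => ha _) (fun i => hmono _) ?_
  simpa using hcon

end Pool.Agent.Helper50
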