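import Pool.Agent.Helper50.HermSeq

set_option autoImplicit false

open Polynomial Filter Topology

namespace Pool.Agent.Helper50

/-! ### sign variations -/

theorem signVar_le_natDegree (P : ℝ[X]) : P.signVariations ≤ P.natDegree := by
  induction hn : P.natDegree using Nat.strong_induction_on generalizing P with
  | _ n ih =>
    by_cases hP : P = 0
    · subst hP; simp
    · rcases Nat.eq_zero_or_pos n with h0 | h0
      · subst h0
        obtain ⟨c, hc⟩ := natDegree_eq_zero.1 hn
        have h1 := signVariations_monomial (R := ℝ) 0 c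
        rw [monomial_zero_left] at h1
        rw [← hc, h1]
      · have h1 : P.eraseLead.natDegree < P.natDegree := by
          have := eraseLead_natDegree_le P
          omega
        have h2 := ih _ (by omega) P.eraseLead rfl
        have h3 := P.signVariations_le_eraseLead_succ
        omega

theorem signVar_le (P : ℝ[X]) (N : ℕ) (h : ∀ i, N ≤ i → 0 ≤ P.coeff i) :
    P.signVariations ≤ N := by
  induction hn : P.natDegree using Nat.strong_induction_on generalizing P with
  | _ n ih =>
    by_cases hnN : n ≤ N
    · have := signVar_le_natDegree P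
      omega
    · push Not at hnN
      have hP : P ≠ 0 := by
        rintro rfl
        simp at hn
        omega
      have hlead : 0 < P.leadingCoeff := by
        have h1 := h n hnN.le
        rw [leadingCoeff, hn]
        refine lt_of_le_of_ne h1 ?_
        rw [← hn]
        exact (leadingCoeff_ne_zero.2 hP).symm
      have h1 : P.eraseLead.natDegree < P.natDegree := by
        have := eraseLead_natDegree_le P
        omega
      have hcoef : ∀ i, N ≤ i → 0 ≤ P.eraseLead.coeff i := by
        intro i hi
        rw [eraseLead_coeff]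
        split_ifs
        · exact le_refl _
        · exact h i hi
      have h2 := ih _ (by omega) P.eraseLead hcoef rfl
      rw [signVariations_eq_eraseLead_add_ite hP]
      split_ifs with hsign
      · -- leading coefficient of eraseLead negative, so its degree is < N
        have h3 : P.eraseLead.leadingCoeff < 0 := by
          rw [sign_pos hlead] at hsign
          have h4 : SignType.sign P.eraseLead.leadingCoeff = -1 := by
            rw [hsign, neg_neg]
          exact sign_eq_neg_one_iff.1 h4
        have h5 : P.eraseLead.natDegree < N := by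
          by_contra h6
          push Not at h6
          have := hcoef _ h6
          rw [← leadingCoeff] at this
          linarith
        have := signVar_le_natDegree P.eraseLead
        omega
      · simpa using h2

theorem signVar_le' (P : ℝ[X]) (N : ℕ) (τ : ℝ) (hτ : τ ≠ 0) (h : ∀ i, N ≤ i → 0 ≤ τ * P.coeff i) :
    P.signVariations ≤ N := by
  rw [← signVariations_C_mul (η := τ) P hτ]
  apply signVar_le
  intro i hi
  rw [coeff_C_mul]
  exact h i hi

/-! ### homogenization -/

theorem hom_mul (a b : ℝ[X]) (G : ℝ[X]) (K : ℕ) (hG : G.natDegree ≤ K) (t : ℝ) :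
    ∑ j ∈ Finset.range (K + 1 + 1), C (((X - C t) * G).coeff j) * a ^ j * b ^ (K + 1 - j)
      = (a - C t * b) * ∑ j ∈ Finset.range (K + 1), C (G.coeff j) * a ^ j * b ^ (K - j) := by
  have h1 : ∑ j ∈ Finset.range (K + 1 + 1), C ((X * G).coeff j) * a ^ j * b ^ (K + 1 - j)
      = a * ∑ j ∈ Finset.range (K + 1), C (G.coeff j) * a ^ j * b ^ (K - j) := by
    rw [Finset.sum_range_succ', Finset.mul_sum]
    simp only [coeff_X_mul, mul_coeff_zero, coeff_X_zero, zero_mul, map_zero, add_zero]
    apply Finset.sum_congr rfl
    intro j _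
    rw [show K + 1 - (j + 1) = K - j by omega]
    ring
  have h2 : ∑ j ∈ Finset.range (K + 1 + 1), C (G.coeff j) * a ^ j * b ^ (K + 1 - j)
      = b * ∑ j ∈ Finset.range (K + 1), C (G.coeff j) * a ^ j * b ^ (K - j) := by
    rw [Finset.sum_range_succ, Finset.mul_sum, coeff_eq_zero_of_natDegree_lt (by omega : G.natDegree < K + 1)]
    simp only [map_zero, zero_mul, add_zero]
    apply Finset.sum_congr rfl
    intro j hj
    rw [Finset.mem_range] at hj
    rw [show K + 1 - j = (K - j) + 1 by omega]
    ring
  have h3 : ∑ j ∈ Finset.range (K + 1 + 1), C (((X - C t) * G).coeff j) * a ^ j * b ^ (K + 1 - j)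
      = ∑ j ∈ Finset.range (K + 1 + 1), C ((X * G).coeff j) * a ^ j * b ^ (K + 1 - j)
        - C t * ∑ j ∈ Finset.range (K + 1 + 1), C (G.coeff j) * a ^ j * b ^ (K + 1 - j) := by
    rw [Finset.mul_sum, ← Finset.sum_sub_distrib]
    apply Finset.sum_congr rfl
    intro j _
    rw [sub_mul, coeff_sub, coeff_C_mul, map_sub, map_mul]
    ring
  rw [h3, h1, h2]
  ring

theorem hom_prod (a b : ℝ[X]) (s : Multiset ℝ) : ∀ (K : ℕ), Multiset.card s ≤ K →
    ∑ j ∈ Finset.range (K + 1), C (((s.map (fun t => X - C t)).prod).coeff j) * a ^ j * b ^ (K - j)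
      = b ^ (K - Multiset.card s) * (s.map (fun t => a - C t * b)).prod := by
  induction s using Multiset.induction_on with
  | empty =>
    intro K _
    rw [Finset.sum_range_succ']
    simp [coeff_one]
  | cons t s ih =>
    intro K hK
    rw [Multiset.card_cons] at hK
    obtain ⟨K', rfl⟩ : ∃ K', K = K' + 1 := ⟨K - 1, by omega⟩
    rw [Multiset.map_cons, Multiset.prod_cons, hom_mul a b _ K' _ t, ih K' (by omega),
      Multiset.map_cons, Multiset.prod_cons, Multiset.card_cons,
      show K' + 1 - (Multiset.card s + 1) = K' - Multiset.card s by omega]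
    · ring
    · rw [natDegree_multiset_prod_X_sub_C_eq_card]; omega

theorem hom_splits (a b : ℝ[X]) (G : ℝ[X]) (hG : G.Splits) (K : ℕ) (hK : G.natDegree ≤ K) :
    ∑ j ∈ Finset.range (K + 1), C (G.coeff j) * a ^ j * b ^ (K - j)
      = C G.leadingCoeff * b ^ (K - G.natDegree) * (G.roots.map (fun t => a - C t * b)).prod := by
  have h1 := hom_prod a b G.roots K (by rw [← hG.natDegree_eq_card_roots]; exact hK)
  rw [← hG.natDegree_eq_card_roots] at h1
  rw [mul_assoc, ← h1, Finset.mul_sum]
  apply Finset.sum_congr rfl
  intro j _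
  conv_lhs => rw [hG.eq_prod_roots]
  rw [coeff_C_mul, map_mul]
  ring

theorem countP_roots_prod (s : Multiset ℝ) :
    Multiset.countP (fun t : ℝ => 1 < |t|) s ≤
      ((s.map (fun t => (1 + X : ℝ[X]) - C t * (1 - X))).prod).roots.countP (fun x => 0 < x) := by
  induction s using Multiset.induction_on with
  | empty => simp
  | cons t s ih =>
    have hne : ∀ t : ℝ, (1 + X : ℝ[X]) - C t * (1 - X) ≠ 0 := by
      intro t h
      have h0 := congrArg (fun q => coeff q 0) h
      have h1 := congrArg (fun q => coeff q 1) h
      simp [coeff_one, coeff_X, mul_sub] at h0 h1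
      linarith
    have hprod : (s.map (fun t => (1 + X : ℝ[X]) - C t * (1 - X))).prod ≠ 0 := by
      apply Multiset.prod_ne_zero
      intro h
      obtain ⟨t, _, ht⟩ := Multiset.mem_map.1 h
      exact hne t ht
    rw [Multiset.map_cons, Multiset.prod_cons, roots_mul (mul_ne_zero (hne t) hprod),
      Multiset.countP_add, Multiset.countP_cons]
    have h1 : (if 1 < |t| then 1 else 0) ≤
        Multiset.countP (fun x : ℝ => 0 < x) ((1 + X : ℝ[X]) - C t * (1 - X)).roots := by
      split_ifs with ht
      · rw [Nat.succ_le_iff, Multiset.countP_pos]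
        have ht1 : (1 + t) ≠ 0 := by
          intro h
          have : t = -1 := by linarith
          rw [this] at ht
          norm_num at ht
        refine ⟨(t - 1) / (1 + t), ?_, ?_⟩
        · rw [mem_roots']
          refine ⟨hne t, ?_⟩
          simp only [IsRoot.def, eval_sub, eval_add, eval_one, eval_X, eval_mul, eval_C]
          field_simp
          ring
        · have : (t - 1) / (1 + t) = (t ^ 2 - 1) / (1 + t) ^ 2 := by
            field_simp
            ring
          rw [this]
          apply div_pos
          · have : 1 < t ^ 2 := by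
              rw [← sq_abs]
              nlinarith
            linarith
          · positivity
      · exact Nat.zero_le _
    omega

theorem countP_pos_hom (G : ℝ[X]) (hG0 : G ≠ 0) (hG : G.Splits) (K : ℕ) (hK : G.natDegree ≤ K) :
    K - G.roots.countP (fun t : ℝ => |t| ≤ 1) ≤
      (∑ j ∈ Finset.range (K + 1), C (G.coeff j) * (1 + X) ^ j * (1 - X) ^ (K - j)).roots.countP
        (fun x : ℝ => 0 < x) := by
  rw [hom_splits _ _ G hG K hK]
  have hl : (C G.leadingCoeff : ℝ[X]) ≠ 0 := by
    rw [ne_eq, C_eq_zero]; exact leadingCoeff_ne_zero.2 hG0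
  have h1X : (1 - X : ℝ[X]) ≠ 0 := by
    intro h
    have h0 := congrArg (fun q => coeff q 0) h
    simp at h0
  have hne : ∀ t : ℝ, (1 + X : ℝ[X]) - C t * (1 - X) ≠ 0 := by
    intro t h
    have h0 := congrArg (fun q => coeff q 0) h
    have h1 := congrArg (fun q => coeff q 1) h
    simp [coeff_one, coeff_X, mul_sub] at h0 h1
    linarith
  have hprod : (G.roots.map (fun t => (1 + X : ℝ[X]) - C t * (1 - X))).prod ≠ 0 := by
    apply Multiset.prod_ne_zero
    intro h
    obtain ⟨t, _, ht⟩ := Multiset.mem_map.1 h
    exact hne t ht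
  have hpow : (1 - X : ℝ[X]) ^ (K - G.natDegree) ≠ 0 := pow_ne_zero _ h1X
  rw [mul_assoc, roots_C_mul _ (by simpa using hl), roots_mul (mul_ne_zero hpow hprod),
    Multiset.countP_add, roots_pow]
  have h1 : K - G.natDegree ≤ Multiset.countP (fun x : ℝ => 0 < x)
      ((K - G.natDegree) • (1 - X : ℝ[X]).roots) := by
    have : (1 - X : ℝ[X]).roots = {1} := by
      have : (1 - X : ℝ[X]) = C (-1) * (X - C 1) := by
        simp
      rw [this, roots_C_mul _ (by norm_num), roots_X_sub_C]
    rw [this, Multiset.countP_nsmul]
    have h1 : Multiset.countP (fun x : ℝ => 0 < x) {1} = 1 := by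
      rw [← Multiset.cons_zero, Multiset.countP_cons_of_pos _ (by norm_num)]
      simp
    rw [h1]
    simp
  have h2 := countP_roots_prod G.roots
  have h3 : Multiset.countP (fun t : ℝ => |t| ≤ 1) G.roots + Multiset.countP (fun t : ℝ => 1 < |t|) G.roots
      = G.natDegree := by
    rw [hG.natDegree_eq_card_roots, Multiset.card_eq_countP_add_countP (fun t : ℝ => |t| ≤ 1) G.roots]
    simp
  omega

end Pool.Agent.Helper50
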