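import Pool.Agent.Helper50.HermSign

set_option autoImplicit false

open Polynomial Filter Topology

namespace Pool.Agent.Helper50

/-- the functional `X ^ n ↦ γ n` -/
noncomputable def Lf (γ : ℕ → ℝ) : ℝ[X] →ₗ[ℝ] ℝ :=
  Polynomial.lsum (fun n => LinearMap.mulRight ℝ (γ n))

theorem Lf_C_mul_X_pow (γ : ℕ → ℝ) (a : ℝ) (n : ℕ) : Lf γ (C a * X ^ n) = a * γ n := by
  rw [C_mul_X_pow_eq_monomial, Lf, Polynomial.lsum_apply, Polynomial.sum_monomial_index]
  · simp
  · simp

theorem Lf_C_mul (γ : ℕ → ℝ) (a : ℝ) (p : ℝ[X]) : Lf γ (C a * p) = a * Lf γ p := by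
  rw [C_mul', map_smul, smul_eq_mul]

theorem Lf_hom (γ : ℕ → ℝ) (s K : ℕ) (w : ℝ) :
    eval w (∑ j ∈ Finset.range (K + 1), C ((J (fun j => γ (s + j)) K).coeff j) * (1 + X) ^ j * (1 - X) ^ (K - j))
      = Lf γ (X ^ s * (C (1 + w) * X + C (1 - w)) ^ K) := by
  rw [add_pow, Finset.mul_sum, map_sum, eval_finsetSum]
  apply Finset.sum_congr rfl
  intro j _
  have : X ^ s * ((C (1 + w) * X) ^ j * C (1 - w) ^ (K - j) * (K.choose j : ℝ[X]))
      = C ((K.choose j : ℝ) * (1 + w) ^ j * (1 - w) ^ (K - j)) * X ^ (s + j) := by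
    rw [mul_pow, pow_add]
    simp only [map_mul, map_pow, map_natCast]
    ring
  rw [this, Lf_C_mul_X_pow, J_coeff]
  simp
  ring

theorem Lf_coef (γ : ℕ → ℝ) (s K : ℕ) (w : ℝ) :
    eval w (∑ i ∈ Finset.range (K + 1),
      C ((K.choose i : ℝ) * Lf γ (X ^ s * (X - 1) ^ (K - i) * (X + 1) ^ i)) * X ^ (K - i))
      = Lf γ (X ^ s * (C (1 + w) * X + C (1 - w)) ^ K) := by
  have h1 : (C (1 + w) * X + C (1 - w) : ℝ[X]) = (X + 1) + C w * (X - 1) := by
    simp only [map_add, map_sub, map_one]; ring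
  rw [h1, add_pow, Finset.mul_sum, map_sum, eval_finsetSum]
  apply Finset.sum_congr rfl
  intro i _
  have : X ^ s * ((X + 1) ^ i * (C w * (X - 1)) ^ (K - i) * (K.choose i : ℝ[X]))
      = C ((K.choose i : ℝ) * w ^ (K - i)) * (X ^ s * (X - 1) ^ (K - i) * (X + 1) ^ i) := by
    rw [mul_pow]
    simp only [map_mul, map_pow, map_natCast]
    ring
  rw [this, Lf_C_mul]
  simp
  ring

theorem R_eq (γ : ℕ → ℝ) (s K : ℕ) :
    ∑ j ∈ Finset.range (K + 1), C ((J (fun j => γ (s + j)) K).coeff j) * (1 + X) ^ j * (1 - X) ^ (K - j)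
    = ∑ i ∈ Finset.range (K + 1),
      C ((K.choose i : ℝ) * Lf γ (X ^ s * (X - 1) ^ (K - i) * (X + 1) ^ i)) * X ^ (K - i) := by
  apply Polynomial.funext
  intro w
  rw [Lf_hom, Lf_coef]

theorem R_coeff (γ : ℕ → ℝ) (s K i : ℕ) (hi : i ≤ K) :
    (∑ j ∈ Finset.range (K + 1), C ((J (fun j => γ (s + j)) K).coeff j) * (1 + X) ^ j * (1 - X) ^ (K - j)).coeff (K - i)
    = (K.choose i : ℝ) * Lf γ (X ^ s * (X - 1) ^ (K - i) * (X + 1) ^ i) := by
  rw [R_eq, finsetSum_coeff, Finset.sum_eq_single i]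
  · rw [coeff_C_mul_X_pow, if_pos rfl]
  · intro b hb hbi
    rw [coeff_C_mul_X_pow, if_neg]
    rw [Finset.mem_range] at hb
    omega
  · intro h
    rw [Finset.mem_range] at h
    omega

theorem R_coeff_big (γ : ℕ → ℝ) (s K n : ℕ) (hn : K < n) :
    (∑ j ∈ Finset.range (K + 1), C ((J (fun j => γ (s + j)) K).coeff j) * (1 + X) ^ j * (1 - X) ^ (K - j)).coeff n
    = 0 := by
  rw [R_eq, finsetSum_coeff]
  apply Finset.sum_eq_zero
  intro b hb
  rw [coeff_C_mul_X_pow, if_neg]
  omega

/-- expansion of `X ^ s` -/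
theorem Lf_shift (γ : ℕ → ℝ) (s A B : ℕ) :
    (2 : ℝ) ^ s * Lf γ (X ^ s * (X - 1) ^ A * (X + 1) ^ B) =
      ∑ l ∈ Finset.range (s + 1), (s.choose l : ℝ) * Lf γ ((X - 1) ^ (A + (s - l)) * (X + 1) ^ (B + l)) := by
  have h1 : (C ((2 : ℝ) ^ s) * X ^ s : ℝ[X]) = ((X + 1) + (X - 1)) ^ s := by
    rw [map_pow, ← mul_pow]
    congr 1
    rw [show (C (2 : ℝ) : ℝ[X]) = 2 from rfl]
    ring
  rw [← Lf_C_mul, show (C ((2 : ℝ) ^ s) * (X ^ s * (X - 1) ^ A * (X + 1) ^ B) : ℝ[X])
    = (C ((2 : ℝ) ^ s) * X ^ s) * ((X - 1) ^ A * (X + 1) ^ B) by ring, h1, add_pow, Finset.sum_mul, map_sum]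
  apply Finset.sum_congr rfl
  intro l _
  rw [← Lf_C_mul]
  congr 1
  rw [map_natCast]
  ring

theorem main_ineq (γ : ℕ → ℝ) (hJ : JS γ) (s K : ℕ) (τ : ℝ) (hτ : τ ≠ 0)
    (hsgn : ∀ i, 2 * i ≤ s + K → 0 ≤ τ * Lf γ ((X - 1) ^ (s + K - i) * (X + 1) ^ i))
    (hne : J (fun j => γ (s + j)) K ≠ 0) :
    (s + K) / 2 - s ≤ (J (fun j => γ (s + j)) K).roots.countP (fun t : ℝ => |t| ≤ 1) := by
  set R := ∑ j ∈ Finset.range (K + 1), C ((J (fun j => γ (s + j)) K).coeff j) * (1 + X) ^ j * (1 - X) ^ (K - j) with hR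
  have h1 := countP_pos_hom _ hne (hJ s K) K (J_natDegree_le _ _)
  rw [← hR] at h1
  have h2 := R.roots_countP_pos_le_signVariations
  by_cases hs : (s + K) / 2 ≤ s
  · omega
  push Not at hs
  have h3 : R.signVariations ≤ K - ((s + K) / 2 - s) := by
    apply signVar_le' R _ τ hτ
    intro n hn
    rcases Nat.lt_or_ge K n with hKn | hKn
    · rw [hR, R_coeff_big γ s K n hKn, mul_zero]
    · obtain ⟨i, rfl⟩ : ∃ i, n = K - i := ⟨K - n, by omega⟩
      rcases Nat.lt_or_ge K i with hiK | hiK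
      · -- then K - i = 0 and K ≤ (s+K)/2 - s
        have hK0 : K - i = K - K := by omega
        rw [hK0, hR, R_coeff γ s K K le_rfl]
        have hn' : K ≤ (s + K) / 2 - s := by omega
        have h4 := Lf_shift γ s (K - K) K
        have h5 : 0 ≤ τ * Lf γ (X ^ s * (X - 1) ^ (K - K) * (X + 1) ^ K) := by
          have h6 : 0 ≤ τ * ((2 : ℝ) ^ s * Lf γ (X ^ s * (X - 1) ^ (K - K) * (X + 1) ^ K)) := by
            rw [h4, Finset.mul_sum]
            apply Finset.sum_nonneg
            intro l hl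
            rw [Finset.mem_range] at hl
            have h7 := hsgn (K + l) (by omega)
            rw [show s + K - (K + l) = (K - K) + (s - l) by omega] at h7
            have : τ * ((s.choose l : ℝ) * Lf γ ((X - 1) ^ ((K - K) + (s - l)) * (X + 1) ^ (K + l)))
              = (s.choose l : ℝ) * (τ * Lf γ ((X - 1) ^ ((K - K) + (s - l)) * (X + 1) ^ (K + l))) := by ring
            rw [this]
            positivity
          have h8 : (0 : ℝ) < 2 ^ s := by positivity
          by_contra hneg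
          push Not at hneg
          nlinarith
        have : τ * (((K.choose K : ℕ) : ℝ) * Lf γ (X ^ s * (X - 1) ^ (K - K) * (X + 1) ^ K))
          = ((K.choose K : ℕ) : ℝ) * (τ * Lf γ (X ^ s * (X - 1) ^ (K - K) * (X + 1) ^ K)) := by ring
        rw [this]
        positivity
      · rw [hR, R_coeff γ s K i hiK]
        have hn' : i ≤ (s + K) / 2 - s := by omega
        have h4 := Lf_shift γ s (K - i) i
        have h5 : 0 ≤ τ * Lf γ (X ^ s * (X - 1) ^ (K - i) * (X + 1) ^ i) := by
          have h6 : 0 ≤ τ * ((2 : ℝ) ^ s * Lf γ (X ^ s * (X - 1) ^ (K - i) * (X + 1) ^ i)) := by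
            rw [h4, Finset.mul_sum]
            apply Finset.sum_nonneg
            intro l hl
            rw [Finset.mem_range] at hl
            have h7 := hsgn (i + l) (by omega)
            rw [show s + K - (i + l) = (K - i) + (s - l) by omega] at h7
            have : τ * ((s.choose l : ℝ) * Lf γ ((X - 1) ^ ((K - i) + (s - l)) * (X + 1) ^ (i + l)))
              = (s.choose l : ℝ) * (τ * Lf γ ((X - 1) ^ ((K - i) + (s - l)) * (X + 1) ^ (i + l))) := by ring
            rw [this]
            positivity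
          have h8 : (0 : ℝ) < 2 ^ s := by positivity
          by_contra hneg
          push Not at hneg
          nlinarith
        have : τ * ((K.choose i : ℝ) * Lf γ (X ^ s * (X - 1) ^ (K - i) * (X + 1) ^ i))
          = (K.choose i : ℝ) * (τ * Lf γ (X ^ s * (X - 1) ^ (K - i) * (X + 1) ^ i)) := by ring
        rw [this]
        positivity
  have h4 : (J (fun j => γ (s + j)) K).roots.countP (fun t : ℝ => |t| ≤ 1) ≤ K := by
    calc _ ≤ Multiset.card (J (fun j => γ (s + j)) K).roots := Multiset.countP_le_card _ _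
      _ ≤ (J (fun j => γ (s + j)) K).natDegree := card_roots' _
      _ ≤ K := J_natDegree_le _ _
  omega

/-- real-rooted polynomials with parity: coefficients alternate weakly -/
theorem alternate (q : ℝ[X]) (hq : q.Splits) (k : ℕ)
    (hpar : ∀ j, (k < j ∨ (j % 2 ≠ k % 2)) → q.coeff j = 0) :
    ∃ τ : ℝ, τ ≠ 0 ∧ ∀ i, 2 * i ≤ k → 0 ≤ τ * ((-1) ^ i * q.coeff (k - 2 * i)) := by
  by_cases hq0 : q = 0
  · exact ⟨1, one_ne_zero, fun i _ => by rw [hq0]; simp⟩
  set ε := k % 2 with hε
  set h := k / 2 with hh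
  have hk : k = 2 * h + ε := (Nat.div_add_mod k 2).symm
  have hε2 : ε < 2 := Nat.mod_lt _ (by norm_num)
  set R : ℝ[X] := ∑ j ∈ Finset.range (h + 1), C (q.coeff (2 * j + ε)) * X ^ j with hR
  have hRc : ∀ j, j ≤ h → R.coeff j = q.coeff (2 * j + ε) := by
    intro j hj
    rw [hR, finsetSum_coeff, Finset.sum_eq_single j]
    · rw [coeff_C_mul_X_pow, if_pos rfl]
    · intro b _ hb
      rw [coeff_C_mul_X_pow, if_neg (Ne.symm hb)]
    · intro hj'
      rw [Finset.mem_range] at hj'
      omega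
  have hRc' : ∀ j, h < j → R.coeff j = 0 := by
    intro j hj
    rw [hR, finsetSum_coeff]
    apply Finset.sum_eq_zero
    intro b hb
    rw [Finset.mem_range] at hb
    rw [coeff_C_mul_X_pow, if_neg (by omega)]
  have hqR : q = X ^ ε * expand ℝ 2 R := by
    ext n
    rw [coeff_X_pow_mul']
    split_ifs with hn
    · rw [coeff_expand (by norm_num)]
      split_ifs with h2
      · obtain ⟨m, hm⟩ := h2
        rw [hm, Nat.mul_div_cancel_left _ (by norm_num)]
        by_cases hmh : m ≤ h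
        · rw [hRc m hmh]
          congr 1
          omega
        · rw [hRc' m (by omega)]
          apply hpar
          left
          omega
      · apply hpar
        right
        omega
    · apply hpar
      right
      omega
  have hR0 : R ≠ 0 := by
    rintro h0
    apply hq0
    rw [hqR, h0]
    simp
  have hevalR : ∀ z : ℂ, aeval z q = z ^ ε * aeval (z ^ 2) R := by
    intro z
    conv_lhs => rw [hqR]
    rw [map_mul, map_pow, aeval_X, expand_aeval]
  have hqrr : ∀ z : ℂ, aeval z q = 0 → z.im = 0 := by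
    rcases (rr_iff_splits q).2 hq with h1 | h1
    · exact absurd h1 hq0
    · exact h1
  have hRroot : ∀ w : ℂ, aeval w R = 0 → w.im = 0 ∧ 0 ≤ w.re := by
    intro w hw
    obtain ⟨z, hz⟩ := IsAlgClosed.exists_pow_nat_eq w (n := 2) (by norm_num)
    have : aeval z q = 0 := by rw [hevalR, hz, hw, mul_zero]
    have him := hqrr z this
    rw [← hz, pow_two]
    constructor
    · simp [him]
    · simp [him]
      exact mul_self_nonneg _
  have hRs : R.Splits := by
    rw [← rr_iff_splits]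
    right
    intro z hz
    exact (hRroot z hz).1
  have hRnn : ∀ t ∈ R.roots, 0 ≤ t := by
    intro t ht
    have h1 : aeval (t : ℂ) R = 0 := by
      have h2 := (mem_roots'.1 ht).2
      rw [IsRoot.def] at h2
      have h3 := aeval_algebraMap_apply ℂ t R
      rw [Complex.coe_algebraMap] at h3
      rw [h3, coe_aeval_eq_eval, h2]
      simp
    simpa using (hRroot _ h1).2
  have hes : ∀ n, 0 ≤ R.roots.esymm n := by
    intro n
    rw [Multiset.esymm]
    apply Multiset.sum_nonneg
    intro x hx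
    obtain ⟨s, hs, rfl⟩ := Multiset.mem_map.1 hx
    rw [Multiset.mem_powersetCard] at hs
    apply Multiset.prod_nonneg
    intro t ht
    exact hRnn t (Multiset.mem_of_le hs.1 ht)
  refine ⟨R.leadingCoeff * (-1) ^ (R.natDegree + h), ?_, ?_⟩
  · apply mul_ne_zero (leadingCoeff_ne_zero.2 hR0)
    exact pow_ne_zero _ (by norm_num)
  · intro i hi
    have hih : i ≤ h := by omega
    have h1 : q.coeff (k - 2 * i) = R.coeff (h - i) := by
      rw [hRc (h - i) (by omega)]
      congr 1
      omega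
    rw [h1]
    by_cases hd : h - i ≤ R.natDegree
    · have h2 := coeff_eq_esymm_roots_of_splits hRs hd
      rw [h2]
      have h3 : R.leadingCoeff * (-1) ^ (R.natDegree + h) * ((-1) ^ i * (R.leadingCoeff * (-1) ^ (R.natDegree - (h - i)) *
          R.roots.esymm (R.natDegree - (h - i))))
          = (R.leadingCoeff) ^ 2 * ((-1) ^ ((R.natDegree + h) + i + (R.natDegree - (h - i)))) * R.roots.esymm (R.natDegree - (h - i)) := by
        rw [pow_add, pow_add]; ring
      rw [h3, show (R.natDegree + h) + i + (R.natDegree - (h - i)) = 2 * (R.natDegree + i) by omega, pow_mul]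
      have := hes (R.natDegree - (h - i))
      simp
      positivity
    · rw [coeff_eq_zero_of_natDegree_lt (by omega)]
      simp

end Pool.Agent.Helper50
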