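import Pool.Agent.Helper42.Jef.Defs2

/-!
# Gaussian derivatives (part A): polynomial factors, decay, scaling, smoothness, heat equation
-/

open MeasureTheory Set Filter Topology
open scoped ENNReal ContDiff

namespace Pool.Agent.Helper50.JG

open Pool.Agent.Helper42.Jef

variable {n : ℕ}

/-! ## polynomials -/

/-- polynomial functions on `ℝⁿ` -/
inductive IsPoly : (Eu n → ℝ) → Prop
  | const (c : ℝ) : IsPoly (fun _ => c)
  | coord (i : Fin n) : IsPoly (fun x => x i)
  | add {f g : Eu n → ℝ} : IsPoly f → IsPoly g → IsPoly (fun x => f x + g x)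
  | mul {f g : Eu n → ℝ} : IsPoly f → IsPoly g → IsPoly (fun x => f x * g x)

theorem contDiff_coord (i : Fin n) : ContDiff ℝ ∞ (fun x : Eu n => x i) :=
  (EuclideanSpace.proj (𝕜 := ℝ) i).contDiff

theorem IsPoly.contDiff {f : Eu n → ℝ} (h : IsPoly f) : ContDiff ℝ ∞ f := by
  induction h with
  | const c => exact contDiff_const
  | coord i => exact contDiff_coord i
  | add _ _ hf hg => exact hf.add hg
  | mul _ _ hf hg => exact hf.mul hg

theorem pd_coord (i j : Fin n) (x : Eu n) : pd i (fun x : Eu n => x j) x = if j = i then 1 else 0 := by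
  have h : HasFDerivAt (fun x : Eu n => x j) (EuclideanSpace.proj (𝕜 := ℝ) j) x :=
    (EuclideanSpace.proj (𝕜 := ℝ) j).hasFDerivAt
  rw [pd, h.fderiv, bv]
  simp [PiLp.single_apply]

theorem pd_add {f g : Eu n → ℝ} {x : Eu n} (i : Fin n) (hf : DifferentiableAt ℝ f x)
    (hg : DifferentiableAt ℝ g x) : pd i (fun x => f x + g x) x = pd i f x + pd i g x := by
  unfold pd
  rw [fderiv_fun_add hf hg]; rfl

theorem pd_mul {f g : Eu n → ℝ} {x : Eu n} (i : Fin n) (hf : DifferentiableAt ℝ f x)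
    (hg : DifferentiableAt ℝ g x) :
    pd i (fun x => f x * g x) x = pd i f x * g x + f x * pd i g x := by
  unfold pd
  rw [fderiv_fun_mul hf hg]
  simp
  ring

theorem IsPoly.diff {f : Eu n → ℝ} (h : IsPoly f) : Differentiable ℝ f :=
  h.contDiff.differentiable (by simp)

theorem IsPoly.pd {f : Eu n → ℝ} (h : IsPoly f) (i : Fin n) : IsPoly (Helper42.Jef.pd i f) := by
  induction h with
  | const c =>
    have : Helper42.Jef.pd i (fun _ : Eu n => c) = fun _ => 0 := by
      funext x; unfold Helper42.Jef.pd; simp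
    rw [this]; exact .const 0
  | coord j =>
    have : Helper42.Jef.pd i (fun x : Eu n => x j) = fun _ => if j = i then (1 : ℝ) else 0 := by
      funext x; exact pd_coord i j x
    rw [this]; exact .const _
  | @add f g hf hg h1 h2 =>
    have : Helper42.Jef.pd i (fun x => f x + g x) = fun x => Helper42.Jef.pd i f x + Helper42.Jef.pd i g x := by
      funext x; exact pd_add i (hf.diff x) (hg.diff x)
    rw [this]; exact .add h1 h2
  | @mul f g hf hg h1 h2 =>
    have : Helper42.Jef.pd i (fun x => f x * g x) =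
        fun x => Helper42.Jef.pd i f x * g x + f x * Helper42.Jef.pd i g x := by
      funext x; exact pd_mul i (hf.diff x) (hg.diff x)
    rw [this]; exact .add (.mul h1 hg) (.mul hf h2)

theorem IsPoly.growth {f : Eu n → ℝ} (h : IsPoly f) :
    ∃ (C : ℝ) (k : ℕ), 0 ≤ C ∧ ∀ x, |f x| ≤ C * (1 + ‖x‖) ^ k := by
  induction h with
  | const c => exact ⟨|c|, 0, abs_nonneg _, fun x => by simp⟩
  | coord i =>
    refine ⟨1, 1, zero_le_one, fun x => ?_⟩
    have : |x i| ≤ ‖x‖ := by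
      simpa using PiLp.norm_apply_le x i
    simpa using this.trans (by linarith)
  | @add f g _ _ h1 h2 =>
    obtain ⟨C1, k1, hC1, h1⟩ := h1
    obtain ⟨C2, k2, hC2, h2⟩ := h2
    refine ⟨C1 + C2, k1 + k2, by positivity, fun x => ?_⟩
    have hx : (1 : ℝ) ≤ 1 + ‖x‖ := by linarith [norm_nonneg x]
    calc |f x + g x| ≤ |f x| + |g x| := abs_add_le _ _
      _ ≤ C1 * (1 + ‖x‖) ^ k1 + C2 * (1 + ‖x‖) ^ k2 := add_le_add (h1 x) (h2 x)
      _ ≤ C1 * (1 + ‖x‖) ^ (k1 + k2) + C2 * (1 + ‖x‖) ^ (k1 + k2) := by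
          gcongr <;> first | exact hx | omega
      _ = (C1 + C2) * (1 + ‖x‖) ^ (k1 + k2) := by ring
  | @mul f g _ _ h1 h2 =>
    obtain ⟨C1, k1, hC1, h1⟩ := h1
    obtain ⟨C2, k2, hC2, h2⟩ := h2
    refine ⟨C1 * C2, k1 + k2, by positivity, fun x => ?_⟩
    rw [abs_mul]
    calc |f x| * |g x| ≤ (C1 * (1 + ‖x‖) ^ k1) * (C2 * (1 + ‖x‖) ^ k2) :=
          mul_le_mul (h1 x) (h2 x) (abs_nonneg _) (by positivity)
      _ = C1 * C2 * (1 + ‖x‖) ^ (k1 + k2) := by ring

/-! ## the Gaussian -/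

theorem Gs_smooth (s : ℝ) : ContDiff ℝ ∞ (Gs s : Eu n → ℝ) := by
  unfold Gs
  exact contDiff_const.mul (Real.contDiff_exp.comp (((contDiff_norm_sq ℝ).neg).div_const _))

theorem pd_smooth {f : Eu n → ℝ} (hf : ContDiff ℝ ∞ f) (i : Fin n) : ContDiff ℝ ∞ (pd i f) := by
  unfold pd
  exact (hf.fderiv_right (m := ∞) (by simp)).clm_apply contDiff_const

theorem pds_smooth {f : Eu n → ℝ} (hf : ContDiff ℝ ∞ f) (l : List (Fin n)) :
    ContDiff ℝ ∞ (pds l f) := by
  induction l with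
  | nil => exact hf
  | cons i l ih => exact pd_smooth ih i

theorem hasFDerivAt_Gs (s : ℝ) (x : Eu n) :
    HasFDerivAt (Gs s : Eu n → ℝ) ((-(1 / (2 * s)) * Gs s x) • innerSL ℝ x) x := by
  have h1 : HasFDerivAt (fun x : Eu n => ‖x‖ ^ 2) (2 • innerSL ℝ x) x :=
    (hasStrictFDerivAt_norm_sq x).hasFDerivAt
  have h1' : HasFDerivAt (fun x : Eu n => -‖x‖ ^ 2) (-(2 • innerSL ℝ x)) x := h1.neg
  have h2 := (h1'.mul_const ((4 * s)⁻¹)).exp.const_mul
    ((4 * Real.pi * s) ^ (-(n : ℝ) / 2))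
  have h3 : (Gs s : Eu n → ℝ) = fun x => (4 * Real.pi * s) ^ (-(n : ℝ) / 2) *
      Real.exp (-‖x‖ ^ 2 * (4 * s)⁻¹) := by
    funext y; unfold Gs; rw [div_eq_mul_inv (-‖y‖ ^ 2)]
  rw [h3]
  refine h2.congr_fderiv ?_
  ext y
  simp only [_root_.smul_apply, _root_.neg_apply,
    smul_eq_mul, innerSL_apply_apply, nsmul_eq_mul]
  rcases eq_or_ne s 0 with hs | hs
  · subst hs; simp
  · field_simp
    ring

theorem pd_Gs (s : ℝ) (i : Fin n) (x : Eu n) :
    pd i (Gs s) x = -(x i / (2 * s)) * Gs s x := by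
  rw [pd, (hasFDerivAt_Gs s x).fderiv, bv]
  simp only [_root_.smul_apply, innerSL_apply_apply, smul_eq_mul,
    EuclideanSpace.inner_single_right]
  simp
  ring

/-- derivatives of the unit Gaussian are polynomials times the Gaussian -/
theorem pds_Gs_one (l : List (Fin n)) :
    ∃ P : Eu n → ℝ, IsPoly P ∧ pds l (Gs 1) = fun x => P x * Gs 1 x := by
  induction l with
  | nil => exact ⟨fun _ => 1, .const 1, by funext x; simp [pds]⟩
  | cons i l ih =>
    obtain ⟨P, hP, hl⟩ := ih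
    refine ⟨fun x => Helper42.Jef.pd i P x + P x * (-(1 / 2) * x i),
      .add (hP.pd i) (.mul hP (.mul (.const _) (.coord i))), ?_⟩
    funext x
    have : pds (i :: l) (Gs 1) x = Helper42.Jef.pd i (pds l (Gs 1)) x := rfl
    rw [this, hl, pd_mul i (hP.diff x) ((Gs_smooth 1).differentiable (by simp) x), pd_Gs]
    ring

theorem Gs_one_nonneg (x : Eu n) : 0 ≤ Gs 1 x := by
  unfold Gs; positivity

/-- Gaussian decay of all derivatives -/
theorem pds_decay (l : List (Fin n)) :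
    ∃ C : ℝ, 0 ≤ C ∧ ∀ x : Eu n, |pds l (Gs 1) x| ≤ C * Real.exp (-(1 / 8) * ‖x‖ ^ 2) := by
  obtain ⟨P, hP, hl⟩ := pds_Gs_one l
  obtain ⟨C, k, hC, hg⟩ := hP.growth
  set A : ℝ := (4 * Real.pi * 1) ^ (-(n : ℝ) / 2) with hA
  have hA0 : 0 ≤ A := by positivity
  refine ⟨C * (k.factorial * Real.exp 3) * A, by positivity, fun x => ?_⟩
  rw [hl, abs_mul, abs_of_nonneg (Gs_one_nonneg x)]
  have h1 : (1 + ‖x‖) ^ k ≤ k.factorial * Real.exp (1 + ‖x‖) := by
    have := Real.pow_div_factorial_le_exp (x := 1 + ‖x‖) (by positivity) k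
    rw [div_le_iff₀ (by positivity)] at this
    linarith
  have h2 : Gs 1 x = A * Real.exp (-(1 / 4) * ‖x‖ ^ 2) := by
    unfold Gs; congr 2; ring
  rw [h2]
  have h3 : Real.exp (1 + ‖x‖) * Real.exp (-(1 / 4) * ‖x‖ ^ 2) ≤
      Real.exp 3 * Real.exp (-(1 / 8) * ‖x‖ ^ 2) := by
    rw [← Real.exp_add, ← Real.exp_add]
    apply Real.exp_le_exp.2
    nlinarith [sq_nonneg (‖x‖ - 4)]
  calc |P x| * (A * Real.exp (-(1 / 4) * ‖x‖ ^ 2))
      ≤ (C * (k.factorial * Real.exp (1 + ‖x‖))) * (A * Real.exp (-(1 / 4) * ‖x‖ ^ 2)) := by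
        refine mul_le_mul_of_nonneg_right ((hg x).trans ?_) (by positivity)
        gcongr
    _ = C * k.factorial * A * (Real.exp (1 + ‖x‖) * Real.exp (-(1 / 4) * ‖x‖ ^ 2)) := by ring
    _ ≤ C * k.factorial * A * (Real.exp 3 * Real.exp (-(1 / 8) * ‖x‖ ^ 2)) := by gcongr
    _ = _ := by ring

/-! ## scaling -/

theorem pd_scale (f : Eu n → ℝ) (c a : ℝ) (i : Fin n) (x : Eu n) :
    pd i (fun x => c * f (a • x)) x = c * a * pd i f (a • x) := by
  unfold pd
  have h1 : fderiv ℝ (fun x => c * f (a • x)) x = c • fderiv ℝ (fun x => f (a • x)) x := by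
    have := congrFun (fderiv_const_smul_field (𝕜 := ℝ) (f := fun x : Eu n => f (a • x)) c) x
    exact this
  have h2 : fderiv ℝ (fun x => f (a • x)) x = a • fderiv ℝ f (a • x) := by
    exact fderiv_comp_smul (f := f) (x := x) a
  rw [h1, h2]
  simp [smul_eq_mul]; ring

theorem pds_scale (f : Eu n → ℝ) (a : ℝ) (c : ℝ) (l : List (Fin n)) (x : Eu n) :
    pds l (fun x => c * f (a • x)) x = c * a ^ l.length * pds l f (a • x) := by
  induction l generalizing x with
  | nil => simp [pds]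
  | cons i l ih =>
    have h1 : pds l (fun x => c * f (a • x)) = fun x => (c * a ^ l.length) * pds l f (a • x) := by
      funext y; exact ih y
    change pd i (pds l (fun x => c * f (a • x))) x = _
    rw [h1, pd_scale]
    change _ = c * a ^ (l.length + 1) * pd i (pds l f) (a • x)
    ring

/-- the scaled derivative, a globally measurable function of `(s, x)` -/
noncomputable def Fl (l : List (Fin n)) (z : ST n) : ℝ :=
  (Real.sqrt z.1)⁻¹ ^ (n + l.length) * pds l (Gs 1) ((Real.sqrt z.1)⁻¹ • z.2)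

theorem Gs_scale {s : ℝ} (hs : 0 < s) (x : Eu n) :
    Gs s x = (Real.sqrt s)⁻¹ ^ n * Gs 1 ((Real.sqrt s)⁻¹ • x) := by
  unfold Gs
  have h1 : (4 * Real.pi * s) ^ (-(n : ℝ) / 2) =
      (Real.sqrt s)⁻¹ ^ n * (4 * Real.pi * 1) ^ (-(n : ℝ) / 2) := by
    rw [Real.mul_rpow (by positivity) hs.le, mul_one, mul_comm]
    congr 1
    rw [Real.sqrt_eq_rpow, ← Real.rpow_neg hs.le, ← Real.rpow_natCast, ← Real.rpow_mul hs.le]
    congr 1; ring
  rw [h1, mul_assoc]
  congr 3
  rw [norm_smul, mul_pow, Real.norm_eq_abs, sq_abs, inv_pow, Real.sq_sqrt hs.le]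
  field_simp

theorem pds_Gs {s : ℝ} (hs : 0 < s) (l : List (Fin n)) (x : Eu n) :
    pds l (Gs s) x = Fl l (s, x) := by
  have h0 : (Gs s : Eu n → ℝ) = fun x => (Real.sqrt s)⁻¹ ^ n * Gs 1 ((Real.sqrt s)⁻¹ • x) := by
    funext y; exact Gs_scale hs y
  rw [h0, pds_scale, Fl, ← pow_add]

theorem Fl_smoothAt (l : List (Fin n)) {z : ST n} (hz : 0 < z.1) : ContDiffAt ℝ ∞ (Fl l) z := by
  have h1 : ContDiffAt ℝ ∞ (fun z : ST n => (Real.sqrt z.1)⁻¹) z := by
    have h2 : ContDiffAt ℝ ∞ Real.sqrt z.1 := Real.contDiffAt_sqrt hz.ne'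
    have h3 : ContDiffAt ℝ ∞ (fun z : ST n => z.1) z := contDiffAt_fst
    have h4 : ContDiffAt ℝ ∞ (fun z : ST n => Real.sqrt z.1) z := h2.comp z h3
    exact h4.inv (Real.sqrt_pos.2 hz).ne'
  unfold Fl
  refine (h1.pow _).mul ?_
  exact (pds_smooth (Gs_smooth 1) l).contDiffAt.comp z (h1.smul contDiffAt_snd)

theorem measurable_Fl (l : List (Fin n)) : Measurable (Fl l) := by
  unfold Fl
  have h1 : Measurable (fun z : ST n => (Real.sqrt z.1)⁻¹) :=
    (Real.continuous_sqrt.measurable.comp measurable_fst).inv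
  refine (h1.pow_const _).mul ?_
  exact (pds_smooth (Gs_smooth 1) l).continuous.measurable.comp (h1.smul measurable_snd)

/-! ## permutations -/

theorem pd_comm {f : Eu n → ℝ} (hf : ContDiff ℝ ∞ f) (i j : Fin n) (x : Eu n) :
    pd i (pd j f) x = pd j (pd i f) x := by
  have hsym : IsSymmSndFDerivAt ℝ f x :=
    (hf.contDiffAt (x := x)).isSymmSndFDerivAt (by rw [minSmoothness_of_isRCLikeNormedField]; decide)
  have hd : Differentiable ℝ (fderiv ℝ f) :=
    (hf.fderiv_right (m := ∞) (by simp)).differentiable (by simp)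
  have key : ∀ i j : Fin n, pd i (pd j f) x = fderiv ℝ (fderiv ℝ f) x (bv i) (bv j) := by
    intro i j
    unfold pd
    have := fderiv_clm_apply (hd x) (differentiableAt_const (bv j : Eu n))
    have h2 : (fun y => fderiv ℝ f y (bv j)) = fun y => (fderiv ℝ f y) ((fun _ => (bv j : Eu n)) y) := rfl
    rw [h2, this]
    simp
  rw [key, key]
  exact hsym _ _

theorem pds_perm {f : Eu n → ℝ} (hf : ContDiff ℝ ∞ f) {l l' : List (Fin n)} (h : l.Perm l') :
    pds l f = pds l' f := by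
  induction h with
  | nil => rfl
  | cons i _ ih => change pd i (pds _ f) = pd i (pds _ f); rw [ih]
  | swap i j l =>
    funext x
    exact pd_comm (pds_smooth hf l) _ _ x
  | trans _ _ h1 h2 => exact h1.trans h2

/-! ## heat equation -/

theorem pd_pd_Gs {s : ℝ} (hs : 0 < s) (i : Fin n) (x : Eu n) :
    pd i (pd i (Gs s)) x = (-(1 / (2 * s)) + (x i) ^ 2 / (4 * s ^ 2)) * Gs s x := by
  have h1 : pd i (Gs s) = fun x : Eu n => (-(1 / (2 * s)) * x i) * Gs s x := by
    funext y; rw [pd_Gs]; ring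
  have hc : IsPoly (fun x : Eu n => -(1 / (2 * s)) * x i) := .mul (.const _) (.coord i)
  rw [h1, pd_mul i (hc.diff x) ((Gs_smooth s).differentiable (by simp) x), pd_Gs,
    pd_mul i ((IsPoly.const _).diff x) ((IsPoly.coord i).diff x), pd_coord]
  have : pd i (fun _ : Eu n => -(1 / (2 * s))) x = 0 := by unfold pd; simp
  rw [this]
  simp only [if_true]
  field_simp
  ring

theorem heat_base {s : ℝ} (hs : 0 < s) (x : Eu n) :
    HasDerivAt (fun s => Gs s x) (∑ i, pd i (pd i (Gs s)) x) s := by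
  have h1 : HasDerivAt (fun s : ℝ => (4 * Real.pi * s) ^ (-(n : ℝ) / 2))
      ((4 * Real.pi) * (-(n : ℝ) / 2) * (4 * Real.pi * s) ^ (-(n : ℝ) / 2 - 1)) s := by
    have h0 : HasDerivAt (fun s : ℝ => 4 * Real.pi * s) (4 * Real.pi) s := by
      simpa using (hasDerivAt_id s).const_mul (4 * Real.pi)
    exact h0.rpow_const (Or.inl (by positivity))
  have h2 : HasDerivAt (fun s : ℝ => Real.exp (-‖x‖ ^ 2 / (4 * s)))
      (Real.exp (-‖x‖ ^ 2 / (4 * s)) * (‖x‖ ^ 2 / (4 * s ^ 2))) s := by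
    have h0 : HasDerivAt (fun s : ℝ => -‖x‖ ^ 2 / (4 * s)) (‖x‖ ^ 2 / (4 * s ^ 2)) s := by
      have h00 : HasDerivAt (fun s : ℝ => 4 * s) 4 s := by
        simpa using (hasDerivAt_id s).const_mul (4 : ℝ)
      have := (hasDerivAt_const s (-‖x‖ ^ 2)).div h00 (by positivity)
      refine this.congr_deriv ?_
      field_simp
      ring
    exact h0.exp
  have h3 := h1.mul h2
  refine h3.congr_deriv ?_
  simp_rw [pd_pd_Gs hs]
  rw [← Finset.sum_mul, Finset.sum_add_distrib, ← Finset.sum_div]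
  have h4 : ∑ i : Fin n, (x i) ^ 2 = ‖x‖ ^ 2 := by
    rw [EuclideanSpace.norm_sq_eq]; simp
  rw [h4]
  simp only [Finset.sum_const, Finset.card_univ, Fintype.card_fin, nsmul_eq_mul]
  unfold Gs
  have h5 : (4 * Real.pi * s) ^ (-(n : ℝ) / 2 - 1) = (4 * Real.pi * s) ^ (-(n : ℝ) / 2) / (4 * Real.pi * s) := by
    rw [Real.rpow_sub_one (by positivity)]
  rw [h5]
  have hpi := Real.pi_pos
  field_simp

theorem pds_eq_fderiv {s : ℝ} (hs : 0 < s) (l : List (Fin n)) (i : Fin n) (x : Eu n) :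
    pds (i :: l) (Gs s) x = fderiv ℝ (Fl l) (s, x) (0, bv i) := by
  have h1 : pds l (Gs s) = fun x : Eu n => Fl l (s, x) := by funext y; exact pds_Gs hs l y
  change pd i (pds l (Gs s)) x = _
  rw [h1]
  unfold pd
  have hd : DifferentiableAt ℝ (Fl l) (s, x) := (Fl_smoothAt l hs).differentiableAt (by simp)
  have h2 : HasFDerivAt (fun y : Eu n => ((s, y) : ST n)) (ContinuousLinearMap.inr ℝ ℝ (Eu n)) x :=
    hasFDerivAt_prodMk_right s x
  have h3 := hd.hasFDerivAt.comp x h2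
  have h4 : fderiv ℝ (fun y : Eu n => Fl l (s, y)) x =
      (fderiv ℝ (Fl l) (s, x)).comp (ContinuousLinearMap.inr ℝ ℝ (Eu n)) := h3.fderiv
  rw [h4]; simp

/-- the heat equation for all derivatives -/
theorem heat_pds {s : ℝ} (hs : 0 < s) (l : List (Fin n)) (x : Eu n) :
    HasDerivAt (fun s => pds l (Gs s) x) (∑ i, pds (i :: i :: l) (Gs s) x) s := by
  induction l generalizing s x with
  | nil => exact heat_base hs x
  | cons k l ih =>
    have hopen : IsOpen {z : ST n | 0 < z.1} := isOpen_lt continuous_const continuous_fst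
    have hF : ContDiffAt ℝ ∞ (Fl l) (s, x) := Fl_smoothAt l hs
    have hsym : IsSymmSndFDerivAt ℝ (Fl l) (s, x) :=
      hF.isSymmSndFDerivAt (by rw [minSmoothness_of_isRCLikeNormedField]; decide)
    have hdd : DifferentiableAt ℝ (fderiv ℝ (Fl l)) (s, x) :=
      (hF.fderiv_right (m := ∞) (by simp)).differentiableAt (by simp)
    -- derivative in s
    have h1 : HasDerivAt (fun s => fderiv ℝ (Fl l) (s, x) (0, bv k))
        (fderiv ℝ (fderiv ℝ (Fl l)) (s, x) (1, 0) (0, bv k)) s := by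
      have hline : HasDerivAt (fun s : ℝ => ((s, x) : ST n)) (1, 0) s :=
        (hasDerivAt_id s).prodMk (hasDerivAt_const s x)
      have h0 : HasDerivAt (fun s : ℝ => fderiv ℝ (Fl l) (s, x))
          (fderiv ℝ (fderiv ℝ (Fl l)) (s, x) (1, 0)) s :=
        (HasFDerivAt.comp_hasDerivAt (l := fderiv ℝ (Fl l)) (f := fun s : ℝ => ((s, x) : ST n)) s
          hdd.hasFDerivAt hline)
      simpa using h0.clm_apply (hasDerivAt_const s ((0, bv k) : ST n))
    have h2 : (fun s => pds (k :: l) (Gs s) x) =ᶠ[𝓝 s]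
        fun s => fderiv ℝ (Fl l) (s, x) (0, bv k) := by
      filter_upwards [lt_mem_nhds hs] with s' hs'
      exact pds_eq_fderiv hs' l k x
    have h3 := h1.congr_of_eventuallyEq h2
    refine h3.congr_deriv ?_
    rw [hsym]
    -- derivative in x of the time derivative
    have h4 : ∀ y : Eu n, fderiv ℝ (Fl l) (s, y) (1, 0) = ∑ i, pds (i :: i :: l) (Gs s) y := by
      intro y
      have hd : DifferentiableAt ℝ (Fl l) (s, y) := (Fl_smoothAt l hs).differentiableAt (by simp)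
      have hline : HasDerivAt (fun s : ℝ => ((s, y) : ST n)) (1, 0) s :=
        (hasDerivAt_id s).prodMk (hasDerivAt_const s y)
      have h5 : HasDerivAt (fun s => Fl l (s, y)) (fderiv ℝ (Fl l) (s, y) (1, 0)) s :=
        (HasFDerivAt.comp_hasDerivAt (l := Fl l) (f := fun s : ℝ => ((s, y) : ST n)) s
          hd.hasFDerivAt hline)
      have h6 : (fun s => pds l (Gs s) y) =ᶠ[𝓝 s] fun s => Fl l (s, y) := by
        filter_upwards [lt_mem_nhds hs] with s' hs'
        exact pds_Gs hs' l y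
      exact (h5.congr_of_eventuallyEq h6).unique (ih hs y)
    have h7 : HasFDerivAt (fun y : Eu n => fderiv ℝ (Fl l) (s, y) (1, 0))
        (((fderiv ℝ (fderiv ℝ (Fl l)) (s, x)).comp (ContinuousLinearMap.inr ℝ ℝ (Eu n))).flip
          (1, 0)) x := by
      have h2' : HasFDerivAt (fun y : Eu n => ((s, y) : ST n)) (ContinuousLinearMap.inr ℝ ℝ (Eu n)) x :=
        hasFDerivAt_prodMk_right s x
      have := hdd.hasFDerivAt.comp x h2'
      have h8 := this.clm_apply (hasFDerivAt_const ((1, 0) : ST n) x)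
      refine h8.congr_fderiv ?_
      ext y; simp
    have h9 : pd k (fun y : Eu n => fderiv ℝ (Fl l) (s, y) (1, 0)) x =
        fderiv ℝ (fderiv ℝ (Fl l)) (s, x) (0, bv k) (1, 0) := by
      unfold pd; rw [h7.fderiv]; simp
    rw [← h9]
    have h10 : (fun y : Eu n => fderiv ℝ (Fl l) (s, y) (1, 0)) =
        fun y => ∑ i, pds (i :: i :: l) (Gs s) y := by funext y; exact h4 y
    rw [h10]
    have h11 : pd k (fun y : Eu n => ∑ i, pds (i :: i :: l) (Gs s) y) x =
        ∑ i, pd k (pds (i :: i :: l) (Gs s)) x := by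
      unfold pd
      rw [fderiv_fun_sum (fun i _ => (pds_smooth (Gs_smooth s) _).differentiable (by simp) x)]
      simp
    rw [h11]
    refine Finset.sum_congr rfl fun i _ => ?_
    change pds (k :: i :: i :: l) (Gs s) x = pds (i :: i :: k :: l) (Gs s) x
    have hp : (k :: i :: i :: l).Perm (i :: i :: k :: l) :=
      (List.Perm.swap i k (i :: l)).trans (List.Perm.cons i (List.Perm.swap i k l))
    rw [pds_perm (Gs_smooth s) hp]

end Pool.Agent.Helper50.JG
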