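import Pool.Agent.Helper50.JefGaussB

/-!
# Space-time kernels `Kr`, `Kp`: smoothness, derivatives, permutation
-/

open MeasureTheory Set Filter Topology
open scoped ENNReal ContDiff

namespace Pool.Agent.Helper50.JG

open Pool.Agent.Helper42.Jef

variable {n : ℕ}

/-- the cut-off in time -/
noncomputable def th (ε r : ℝ) : ℝ := Real.smoothTransition (r / ε)

theorem th_smooth (ε : ℝ) : ContDiff ℝ ∞ (th ε) :=
  Real.smoothTransition.contDiff.comp (contDiff_id.div_const ε)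

theorem th_zero {ε r : ℝ} (hε : 0 < ε) (hr : r ≤ 0) : th ε r = 0 :=
  Real.smoothTransition.zero_of_nonpos (div_nonpos_of_nonpos_of_nonneg hr hε.le)

theorem th_one {ε r : ℝ} (hε : 0 < ε) (hr : ε ≤ r) : th ε r = 1 :=
  Real.smoothTransition.one_of_one_le (by rwa [one_le_div hε])

theorem th_nonneg (ε r : ℝ) : 0 ≤ th ε r := Real.smoothTransition.nonneg _

theorem th_le_one (ε r : ℝ) : th ε r ≤ 1 := Real.smoothTransition.le_one _

theorem dth_smooth (ε : ℝ) : ContDiff ℝ ∞ (deriv (th ε)) :=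
  ((contDiff_infty_iff_deriv (f := th ε)).1 (th_smooth ε)).2

theorem dth_zero {ε r : ℝ} (hε : 0 < ε) (hr : r < 0) : deriv (th ε) r = 0 := by
  have h1 : th ε =ᶠ[𝓝 r] fun _ => 0 := by
    filter_upwards [gt_mem_nhds hr] with r' hr'
    exact th_zero hε hr'.le
  rw [h1.deriv_eq]; simp

/-- general kernel `θ(r) ∂^α G_{μ r + s}(x)` -/
noncomputable def Kg (θ : ℝ → ℝ) (μ s : ℝ) (l : List (Fin n)) (z : ST n) : ℝ :=
  θ z.1 * pds l (Gs (μ * z.1 + s)) z.2

theorem Kr_eq (μ ε s : ℝ) (l : List (Fin n)) : Kr μ ε s l = Kg (th ε) μ s l := rfl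

theorem Kp_eq (μ ε s : ℝ) (l : List (Fin n)) : Kp μ ε s l = Kg (deriv (th ε)) μ s l := rfl

theorem Kg_eventually {θ : ℝ → ℝ} {μ s : ℝ} (hμ : 0 < μ) (hs : 0 < s) (l : List (Fin n))
    {z : ST n} (hz : 0 ≤ z.1) :
    Kg θ μ s l =ᶠ[𝓝 z] fun z => θ z.1 * Fl l (μ * z.1 + s, z.2) := by
  have h1 : ∀ᶠ z' : ST n in 𝓝 z, 0 < μ * z'.1 + s := by
    have hc : Continuous (fun z' : ST n => μ * z'.1 + s) := by fun_prop
    exact hc.continuousAt.eventually (lt_mem_nhds (by positivity))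
  filter_upwards [h1] with z' hz'
  unfold Kg
  rw [pds_Gs hz']

theorem Kg_smooth {θ : ℝ → ℝ} (hθ : ContDiff ℝ ∞ θ) (hθ0 : ∀ r < 0, θ r = 0) {μ s : ℝ}
    (hμ : 0 < μ) (hs : 0 < s) (l : List (Fin n)) : ContDiff ℝ ∞ (Kg θ μ s l) := by
  rw [contDiff_iff_contDiffAt]
  intro z
  rcases lt_or_ge z.1 0 with hz | hz
  · have h1 : Kg θ μ s l =ᶠ[𝓝 z] fun _ => 0 := by
      have : ∀ᶠ z' : ST n in 𝓝 z, z'.1 < 0 := continuous_fst.continuousAt.eventually (gt_mem_nhds hz)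
      filter_upwards [this] with z' hz'
      unfold Kg; rw [hθ0 _ hz', zero_mul]
    exact contDiffAt_const.congr_of_eventuallyEq h1
  · refine ContDiffAt.congr_of_eventuallyEq ?_ (Kg_eventually hμ hs l hz)
    refine (hθ.contDiffAt.comp z contDiffAt_fst).mul ?_
    have hp : 0 < ((μ * z.1 + s, z.2) : ST n).1 := by
      show 0 < μ * z.1 + s
      positivity
    have h2 : ContDiffAt ℝ ∞ (fun z : ST n => ((μ * z.1 + s, z.2) : ST n)) z := by fun_prop
    exact (Fl_smoothAt l hp).comp z h2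

theorem Kr_smooth {μ ε s : ℝ} (hμ : 0 < μ) (hε : 0 < ε) (hs : 0 < s) (l : List (Fin n)) :
    ContDiff ℝ ∞ (Kr μ ε s l) := by
  rw [Kr_eq]
  exact Kg_smooth (th_smooth ε) (fun r hr => th_zero hε hr.le) hμ hs l

theorem Kp_smooth {μ ε s : ℝ} (hμ : 0 < μ) (hε : 0 < ε) (hs : 0 < s) (l : List (Fin n)) :
    ContDiff ℝ ∞ (Kp μ ε s l) := by
  rw [Kp_eq]
  exact Kg_smooth (dth_smooth ε) (fun r hr => dth_zero hε hr) hμ hs l

theorem Kg_deriv_x {θ : ℝ → ℝ} (hθ : ContDiff ℝ ∞ θ) (hθ0 : ∀ r < 0, θ r = 0) {μ s : ℝ}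
    (hμ : 0 < μ) (hs : 0 < s) (l : List (Fin n)) (i : Fin n) (z : ST n) :
    fderiv ℝ (Kg θ μ s l) z (0, bv i) = Kg θ μ s (i :: l) z := by
  have hd : DifferentiableAt ℝ (Kg θ μ s l) z :=
    (Kg_smooth hθ hθ0 hμ hs l).differentiable (by simp) z
  have h2 : HasFDerivAt (fun y : Eu n => ((z.1, y) : ST n)) (ContinuousLinearMap.inr ℝ ℝ (Eu n)) z.2 :=
    hasFDerivAt_prodMk_right z.1 z.2
  have h3 : HasFDerivAt (fun y : Eu n => Kg θ μ s l (z.1, y))
      ((fderiv ℝ (Kg θ μ s l) z).comp (ContinuousLinearMap.inr ℝ ℝ (Eu n))) z.2 :=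
    HasFDerivAt.comp (g := Kg θ μ s l) (f := fun y : Eu n => ((z.1, y) : ST n)) z.2
      (by exact hd.hasFDerivAt) h2
  have h4 : fderiv ℝ (fun y : Eu n => Kg θ μ s l (z.1, y)) z.2 (bv i) =
      fderiv ℝ (Kg θ μ s l) z (0, bv i) := by
    rw [h3.fderiv]; simp
  rw [← h4]
  have h5 : (fun y : Eu n => Kg θ μ s l (z.1, y)) =
      fun y => θ z.1 * pds l (Gs (μ * z.1 + s)) y := rfl
  rw [h5, fderiv_const_mul ((pds_smooth (Gs_smooth _) l).differentiable (by simp) _)]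
  rfl

/-- space derivatives of the kernels -/
theorem Kr_deriv_x {μ ε s : ℝ} (hμ : 0 < μ) (hε : 0 < ε) (hs : 0 < s) (l : List (Fin n))
    (i : Fin n) (z : ST n) :
    fderiv ℝ (Kr μ ε s l) z (0, bv i) = Kr μ ε s (i :: l) z := by
  rw [Kr_eq, Kr_eq]
  exact Kg_deriv_x (th_smooth ε) (fun r hr => th_zero hε hr.le) hμ hs l i z

/-- space derivatives of the `Kp` kernels -/
theorem Kp_deriv_x {μ ε s : ℝ} (hμ : 0 < μ) (hε : 0 < ε) (hs : 0 < s) (l : List (Fin n))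
    (i : Fin n) (z : ST n) :
    fderiv ℝ (Kp μ ε s l) z (0, bv i) = Kp μ ε s (i :: l) z := by
  rw [Kp_eq, Kp_eq]
  exact Kg_deriv_x (dth_smooth ε) (fun r hr => dth_zero hε hr) hμ hs l i z

/-- heat equation `∂_r Kr = Kp + μ Δ Kr` -/
theorem Kr_deriv_t {μ ε s : ℝ} (hμ : 0 < μ) (hε : 0 < ε) (hs : 0 < s) (l : List (Fin n))
    (z : ST n) :
    fderiv ℝ (Kr μ ε s l) z (1, 0) = Kp μ ε s l z + μ * ∑ i, Kr μ ε s (i :: i :: l) z := by
  have hd : DifferentiableAt ℝ (Kr μ ε s l) z :=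
    (Kr_smooth hμ hε hs l).differentiable (by simp) z
  have hline : HasDerivAt (fun r : ℝ => ((r, z.2) : ST n)) (1, 0) z.1 :=
    (hasDerivAt_id z.1).prodMk (hasDerivAt_const z.1 z.2)
  have h1 : HasDerivAt (fun r => Kr μ ε s l (r, z.2)) (fderiv ℝ (Kr μ ε s l) z (1, 0)) z.1 :=
    HasFDerivAt.comp_hasDerivAt (l := Kr μ ε s l) (f := fun r : ℝ => ((r, z.2) : ST n)) z.1
      (by exact hd.hasFDerivAt) hline
  refine h1.unique ?_
  rcases lt_or_ge z.1 0 with hz | hz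
  · have e1 : (fun r => Kr μ ε s l (r, z.2)) =ᶠ[𝓝 z.1] fun _ => 0 := by
      filter_upwards [gt_mem_nhds hz] with r hr
      show th ε r * _ = 0
      rw [th_zero hε hr.le, zero_mul]
    have e2 : Kp μ ε s l z + μ * ∑ i, Kr μ ε s (i :: i :: l) z = 0 := by
      have h3 : ∀ l' : List (Fin n), Kr μ ε s l' z = 0 := fun l' => by
        show th ε z.1 * _ = 0
        rw [th_zero hε hz.le, zero_mul]
      have h4 : Kp μ ε s l z = 0 := by
        show deriv (th ε) z.1 * _ = 0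
        rw [dth_zero hε hz, zero_mul]
      simp [h3, h4]
    rw [e2]
    exact (hasDerivAt_const z.1 (0 : ℝ)).congr_of_eventuallyEq e1
  · have hp : 0 < μ * z.1 + s := by positivity
    have h5 : HasDerivAt (fun r : ℝ => μ * r + s) μ z.1 := by
      simpa using ((hasDerivAt_id z.1).const_mul μ).add_const s
    have h6 : HasDerivAt (fun r => pds l (Gs (μ * r + s)) z.2)
        ((∑ i, pds (i :: i :: l) (Gs (μ * z.1 + s)) z.2) * μ) z.1 :=
      HasDerivAt.comp (h₂ := fun s => pds l (Gs s) z.2) (h := fun r : ℝ => μ * r + s) z.1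
        (heat_pds hp l z.2) h5
    have h7 : HasDerivAt (th ε) (deriv (th ε) z.1) z.1 :=
      ((th_smooth ε).differentiable (by simp) z.1).hasDerivAt
    have h8 := h7.mul h6
    refine h8.congr_deriv ?_
    show _ = deriv (th ε) z.1 * _ + μ * ∑ i, th ε z.1 * _
    rw [← Finset.mul_sum]
    ring

/-- `∂_s Kp = Δ Kp` -/
theorem Kp_deriv_s {μ ε s : ℝ} (hμ : 0 < μ) (hε : 0 < ε) (hs : 0 < s) (l : List (Fin n))
    (z : ST n) :
    HasDerivAt (fun s => Kp μ ε s l z) (∑ i, Kp μ ε s (i :: i :: l) z) s := by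
  rcases lt_or_ge z.1 0 with hz | hz
  · have h4 : ∀ (s' : ℝ) (l' : List (Fin n)), Kp μ ε s' l' z = 0 := fun s' l' => by
      show deriv (th ε) z.1 * _ = 0
      rw [dth_zero hε hz, zero_mul]
    simp only [h4, Finset.sum_const_zero]
    exact hasDerivAt_const s (0 : ℝ)
  · have hp : 0 < μ * z.1 + s := by positivity
    have h5 : HasDerivAt (fun s : ℝ => μ * z.1 + s) 1 s := by
      simpa using (hasDerivAt_id s).const_add (μ * z.1)
    have h6 : HasDerivAt (fun s => pds l (Gs (μ * z.1 + s)) z.2)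
        ((∑ i, pds (i :: i :: l) (Gs (μ * z.1 + s)) z.2) * 1) s :=
      HasDerivAt.comp (h₂ := fun s => pds l (Gs s) z.2) (h := fun s : ℝ => μ * z.1 + s) s
        (heat_pds hp l z.2) h5
    have h7 := h6.const_mul (deriv (th ε) z.1)
    refine h7.congr_deriv ?_
    show _ = ∑ i, deriv (th ε) z.1 * _
    rw [← Finset.mul_sum, mul_one]

/-- the derivatives commute -/
theorem Kr_perm {μ ε s : ℝ} (_hμ : 0 < μ) (_hε : 0 < ε) (_hs : 0 < s) {l l' : List (Fin n)}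
    (h : l.Perm l') (z : ST n) : Kr μ ε s l z = Kr μ ε s l' z := by
  unfold Kr
  rw [pds_perm (Gs_smooth _) h]

theorem Kp_perm {μ ε s : ℝ} {l l' : List (Fin n)}
    (h : l.Perm l') (z : ST n) : Kp μ ε s l z = Kp μ ε s l' z := by
  unfold Kp
  rw [pds_perm (Gs_smooth _) h]

end Pool.Agent.Helper50.JG
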