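import Pool.Agent.Helper42.Jef.Defs3
import Pool.Agent.Helper42.Jef.Vel2
import Pool.Agent.Helper22.JefBk

/-! # The renormalising function `B(s) = log (1 + s²/ε²) / 2` -/

open MeasureTheory Set Filter Topology
open scoped ENNReal ContDiff

namespace Pool.Agent.Helper50.JT

open Pool.Agent.Helper42.Jef Pool.Agent.Helper22.Jef

/-- the renormalising function -/
noncomputable def Bf (ε s : ℝ) : ℝ := 1 / 2 * Real.log (1 + s ^ 2 / ε ^ 2)

/-- its derivative -/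
noncomputable def Bd (ε s : ℝ) : ℝ := s / (ε ^ 2 + s ^ 2)

variable {ε : ℝ}

theorem Bf_zero (ε : ℝ) : Bf ε 0 = 0 := by simp [Bf]

theorem Bd_zero (ε : ℝ) : Bd ε 0 = 0 := by simp [Bd]

theorem Bf_nonneg (ε s : ℝ) : 0 ≤ Bf ε s := by
  unfold Bf
  have : 0 ≤ s ^ 2 / ε ^ 2 := by positivity
  have h2 := Real.log_nonneg (by linarith : (1 : ℝ) ≤ 1 + s ^ 2 / ε ^ 2)
  linarith

theorem Bf_hasDeriv (hε : 0 < ε) (s : ℝ) : HasDerivAt (Bf ε) (Bd ε s) s := by
  have h1 : HasDerivAt (fun s : ℝ => 1 + s ^ 2 / ε ^ 2) (2 * s / ε ^ 2) s := by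
    have := ((hasDerivAt_pow 2 s).div_const (ε ^ 2)).const_add 1
    simpa using this
  have h2 : (1 + s ^ 2 / ε ^ 2) ≠ 0 := by positivity
  have h3 := (h1.log h2).const_mul (1 / 2 : ℝ)
  have h4 : 1 / 2 * (2 * s / ε ^ 2 / (1 + s ^ 2 / ε ^ 2)) = Bd ε s := by
    unfold Bd
    have : ε ^ 2 + s ^ 2 ≠ 0 := by positivity
    field_simp
  rw [h4] at h3
  exact h3

theorem Bd_continuous (hε : 0 < ε) : Continuous (Bd ε) := by
  unfold Bd
  refine Continuous.div continuous_id (by fun_prop) fun s => ?_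
  positivity

theorem Bf_contDiff (hε : 0 < ε) : ContDiff ℝ 1 (Bf ε) := by
  rw [contDiff_one_iff_deriv]
  refine ⟨fun s => (Bf_hasDeriv hε s).differentiableAt, ?_⟩
  have : deriv (Bf ε) = Bd ε := funext fun s => (Bf_hasDeriv hε s).deriv
  rw [this]
  exact Bd_continuous hε

theorem Bf_continuous (hε : 0 < ε) : Continuous (Bf ε) := (Bf_contDiff hε).continuous

theorem Bd_nonneg (ε : ℝ) {s : ℝ} (hs : 0 ≤ s) : 0 ≤ Bd ε s := by
  unfold Bd; positivity

theorem Bd_le (hε : 0 < ε) (s : ℝ) : Bd ε s ≤ 1 / (2 * ε) := by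
  unfold Bd
  have h : 0 < ε ^ 2 + s ^ 2 := by positivity
  rw [div_le_div_iff₀ h (by positivity)]
  nlinarith [sq_nonneg (ε - s)]

theorem Bd_mul_le (hε : 0 < ε) (s : ℝ) : Bd ε s * s ≤ 1 := by
  unfold Bd
  have h : 0 < ε ^ 2 + s ^ 2 := by positivity
  rw [div_mul_eq_mul_div, div_le_one h]
  nlinarith [sq_nonneg ε]

/-- the sequence `1/(j+1)` -/
theorem Bf_tendsto {s : ℝ} (hs : s ≠ 0) :
    Tendsto (fun j : ℕ => Bf (1 / ((j : ℝ) + 1)) s) atTop atTop := by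
  unfold Bf
  have h1 : Tendsto (fun j : ℕ => 1 + s ^ 2 / (1 / ((j : ℝ) + 1)) ^ 2) atTop atTop := by
    refine tendsto_atTop_add_const_left _ _ ?_
    have h2 : (fun j : ℕ => s ^ 2 / (1 / ((j : ℝ) + 1)) ^ 2) =
        fun j : ℕ => s ^ 2 * ((j : ℝ) + 1) ^ 2 := by
      funext j
      have : ((j : ℝ) + 1) ≠ 0 := by positivity
      field_simp
    rw [h2]
    refine Tendsto.const_mul_atTop (by positivity) ?_
    refine (tendsto_pow_atTop (by norm_num)).comp ?_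
    exact tendsto_atTop_add_const_right _ _ tendsto_natCast_atTop_atTop
  exact (Real.tendsto_log_atTop.comp h1).const_mul_atTop (by norm_num)

/-! ### the function `β (x, r) = B (r - ‖x‖²)` -/

section beta
variable {E : Type*} [NormedAddCommGroup E] [InnerProductSpace ℝ E]

/-- the renormalising function on pairs -/
noncomputable def bet (ε : ℝ) (p : E × ℝ) : ℝ := Bf ε (p.2 - ‖p.1‖ ^ 2)

theorem bet_contDiff (hε : 0 < ε) : ContDiff ℝ 1 (bet ε : E × ℝ → ℝ) := by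
  unfold bet
  exact (Bf_contDiff hε).comp (contDiff_snd.sub (contDiff_fst.norm_sq ℝ))

theorem bet_fderiv (hε : 0 < ε) (p h : E × ℝ) :
    fderiv ℝ (bet ε) p h = Bd ε (p.2 - ‖p.1‖ ^ 2) * (h.2 - 2 * inner ℝ p.1 h.1) := by
  have h1 : HasFDerivAt (fun p : E × ℝ => p.2 - ‖p.1‖ ^ 2)
      (ContinuousLinearMap.snd ℝ E ℝ - (2 : ℕ) • (innerSL ℝ p.1).comp
        (ContinuousLinearMap.fst ℝ E ℝ)) p := by
    have h2 : HasFDerivAt (fun p : E × ℝ => p.1) (ContinuousLinearMap.fst ℝ E ℝ) p :=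
      hasFDerivAt_fst
    exact hasFDerivAt_snd.sub h2.norm_sq
  have h3 := (Bf_hasDeriv hε (p.2 - ‖p.1‖ ^ 2)).comp_hasFDerivAt p h1
  have h4 : (Bf ε ∘ fun p : E × ℝ => p.2 - ‖p.1‖ ^ 2) = bet ε := rfl
  rw [h4] at h3
  rw [h3.fderiv]
  simp [two_mul]

end beta

end Pool.Agent.Helper50.JT
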