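import Pool.Agent.Helper50.JefThetaA

/-! # Test functions, combination of transport equations -/

open MeasureTheory Set Filter Topology
open scoped ENNReal NNReal ContDiff

namespace Pool.Agent.Helper50.JT

open Pool.Agent.Helper42.Jef Pool.Agent.Helper22.Jef

variable {n : ℕ}

/-! ### the time weight -/

theorem expGlue_deriv_pos {x : ℝ} (hx : 0 < x) : 0 < deriv expNegInvGlue x := by
  have h1 : HasDerivAt (fun y : ℝ => Real.exp (-y⁻¹)) (Real.exp (-x⁻¹) * (-(-(x ^ 2)⁻¹))) x :=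
    ((hasDerivAt_inv hx.ne').neg).exp
  have h2 : expNegInvGlue =ᶠ[𝓝 x] fun y : ℝ => Real.exp (-y⁻¹) := by
    filter_upwards [Ioi_mem_nhds hx] with y hy
    have hy' : ¬ y ≤ 0 := not_le.2 hy
    simp [expNegInvGlue, hy']
  rw [h2.deriv_eq, h1.deriv, neg_neg]
  positivity

theorem expGlue_le_one (x : ℝ) : expNegInvGlue x ≤ 1 := by
  rcases le_or_gt x 0 with h | h
  · rw [expNegInvGlue.zero_of_nonpos h]; norm_num
  · have hy' : ¬ x ≤ 0 := not_le.2 h
    simp only [expNegInvGlue, hy', if_false]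
    refine Real.exp_le_one_iff.2 ?_
    have : 0 < x⁻¹ := by positivity
    linarith

/-- the time weight -/
noncomputable def et (T1 t : ℝ) : ℝ := Real.smoothTransition (2 * t + 1) * expNegInvGlue (T1 - t)

theorem et_contDiff (T1 : ℝ) : ContDiff ℝ ∞ (et T1) := by
  unfold et
  refine ContDiff.mul ?_ ?_
  · exact Real.smoothTransition.contDiff.comp (by fun_prop)
  · exact expNegInvGlue.contDiff.comp (by fun_prop)

theorem et_nonneg (T1 t : ℝ) : 0 ≤ et T1 t :=
  mul_nonneg (Real.smoothTransition.nonneg _) (expNegInvGlue.nonneg _)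

theorem et_le_one (T1 t : ℝ) : et T1 t ≤ 1 :=
  mul_le_one₀ (Real.smoothTransition.le_one _) (expNegInvGlue.nonneg _) (expGlue_le_one _)

theorem et_supp (T1 : ℝ) : tsupport (et T1) ⊆ Icc (-1 / 2) T1 := by
  refine closure_minimal ?_ isClosed_Icc
  intro t ht
  rw [Function.mem_support] at ht
  unfold et at ht
  constructor
  · by_contra hc
    push Not at hc
    exact ht (by rw [Real.smoothTransition.zero_of_nonpos (by linarith), zero_mul])
  · by_contra hc
    push Not at hc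
    exact ht (by rw [expNegInvGlue.zero_of_nonpos (by linarith), mul_zero])

theorem et_time {T T1 : ℝ} (h : T1 < T) : IsTime (-1) T (et T1) where
  smooth := et_contDiff T1
  cpt := HasCompactSupport.of_support_subset_isCompact (isCompact_Icc (a := (-1 / 2 : ℝ)) (b := T1))
    ((subset_tsupport _).trans (et_supp T1))
  supp := (et_supp T1).trans fun t ht => ⟨by linarith [ht.1], lt_of_le_of_lt ht.2 h⟩

theorem et_deriv {T1 t : ℝ} (ht : 0 < t) : deriv (et T1) t = - deriv expNegInvGlue (T1 - t) := by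
  have h1 : et T1 =ᶠ[𝓝 t] fun s => expNegInvGlue (T1 - s) := by
    filter_upwards [Ioi_mem_nhds ht] with s hs
    have hs' : (0 : ℝ) < s := hs
    unfold et
    rw [Real.smoothTransition.one_of_one_le (by linarith), one_mul]
  rw [h1.deriv_eq, deriv_comp_const_sub]

theorem et_deriv_nonpos {T1 t : ℝ} (ht : 0 < t) : deriv (et T1) t ≤ 0 := by
  rw [et_deriv ht]
  have := expNegInvGlue.monotone.deriv_nonneg (x := T1 - t)
  linarith

theorem et_deriv_neg {T1 t : ℝ} (ht : 0 < t) (ht1 : t < T1) : deriv (et T1) t < 0 := by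
  rw [et_deriv ht]
  have := expGlue_deriv_pos (x := T1 - t) (by linarith)
  linarith

/-! ### `L²` facts for test functions -/

theorem isTime_deriv_memLp {a b : ℝ} {η : ℝ → ℝ} (hη : IsTime a b η) (p : ℝ≥0∞) :
    MemLp (deriv η) p volume :=
  (hη.smooth.continuous_deriv (by simp)).memLp_of_hasCompactSupport hη.cpt.deriv

theorem isTime_memLp {a b : ℝ} {η : ℝ → ℝ} (hη : IsTime a b η) (p : ℝ≥0∞) :
    MemLp η p volume :=
  hη.smooth.continuous.memLp_of_hasCompactSupport hη.cpt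

theorem isTest_memLp {ψ : Eu n → ℝ} (hψ : IsTest ψ) (p : ℝ≥0∞) : MemLp ψ p volume :=
  hψ.smooth.continuous.memLp_of_hasCompactSupport hψ.cpt

/-- bounds for time test functions -/
theorem isTime_bound {a b : ℝ} {η : ℝ → ℝ} (hη : IsTime a b η) : ∃ C : ℝ, ∀ t, ‖η t‖ ≤ C :=
  hη.cpt.exists_bound_of_continuous hη.smooth.continuous

theorem te_coef_memLp {v : ST n → Eu n} (hv : MemLp v 2 volume) {a b : ℝ} {η : ℝ → ℝ}
    {ψ : Eu n → ℝ} (hη : IsTime a b η) (hψ : IsTest ψ) :
    MemLp (fun z : ST n => deriv η z.1 * ψ z.2 + η z.1 * fderiv ℝ ψ z.2 (v z)) 2 volume := by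
  refine MemLp.add ?_ ?_
  · exact memLp_prod_smul (isTime_deriv_memLp hη 2) (isTest_memLp hψ 2)
  · obtain ⟨C, hC⟩ := isTime_bound hη
    obtain ⟨D, hD⟩ := (hψ.cpt.fderiv (𝕜 := ℝ)).exists_bound_of_continuous
      (hψ.smooth.continuous_fderiv (by simp))
    have hm : AEStronglyMeasurable (fun z : ST n => η z.1 * fderiv ℝ ψ z.2 (v z)) volume := by
      refine AEStronglyMeasurable.mul ?_ ?_
      · exact (hη.smooth.continuous.comp continuous_fst).aestronglyMeasurable
      · have h1 : AEStronglyMeasurable (fun z : ST n => fderiv ℝ ψ z.2) volume :=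
          ((hψ.smooth.continuous_fderiv (by simp)).comp continuous_snd).aestronglyMeasurable
        exact isBoundedBilinearMap_apply.continuous.comp_aestronglyMeasurable (h1.prodMk hv.1)
    refine (hv.const_smul (C * D)).mono hm (Eventually.of_forall fun z => ?_)
    rw [norm_mul, Pi.smul_apply, norm_smul]
    have h2 : ‖fderiv ℝ ψ z.2 (v z)‖ ≤ D * ‖v z‖ :=
      ((fderiv ℝ ψ z.2).le_opNorm _).trans (mul_le_mul_of_nonneg_right (hD _) (norm_nonneg _))
    have hC0 : 0 ≤ C := (norm_nonneg _).trans (hC 0)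
    calc ‖η z.1‖ * ‖fderiv ℝ ψ z.2 (v z)‖ ≤ C * (D * ‖v z‖) :=
          mul_le_mul (hC _) h2 (norm_nonneg _) hC0
      _ = (C * D) * ‖v z‖ := by ring
      _ ≤ ‖C * D‖ * ‖v z‖ := mul_le_mul_of_nonneg_right (le_abs_self _) (norm_nonneg _)

theorem te_int {E : Type*} [NormedAddCommGroup E] [NormedSpace ℝ E] {v : ST n → Eu n}
    (hv : MemLp v 2 volume) {u F : ST n → E} (hu : MemLp u 2 volume) (hF : MemLp F 2 volume)
    {a b : ℝ} {η : ℝ → ℝ} {ψ : Eu n → ℝ} (hη : IsTime a b η) (hψ : IsTest ψ) :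
    Integrable (fun z : ST n => (deriv η z.1 * ψ z.2 + η z.1 * fderiv ℝ ψ z.2 (v z)) • u z +
      (η z.1 * ψ z.2) • F z) := by
  have h1 : Integrable (fun z : ST n =>
      (deriv η z.1 * ψ z.2 + η z.1 * fderiv ℝ ψ z.2 (v z)) • u z) := by
    rw [← memLp_one_iff_integrable]
    exact hu.smul (te_coef_memLp hv hη hψ)
  have h2 : Integrable (fun z : ST n => (η z.1 * ψ z.2) • F z) := by
    rw [← memLp_one_iff_integrable]
    exact hF.smul (memLp_prod_smul (isTime_memLp hη 2) (isTest_memLp hψ 2))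
  exact h1.add h2

theorem memLp_pair {α : Type*} [MeasurableSpace α] {μ : Measure α} {E E' : Type*}
    [NormedAddCommGroup E] [NormedAddCommGroup E'] {u : α → E} {u' : α → E'}
    (hu : MemLp u 2 μ) (hu' : MemLp u' 2 μ) : MemLp (fun z => (u z, u' z)) 2 μ := by
  have h1 : MemLp (fun z => ‖u z‖ + ‖u' z‖) 2 μ := hu.norm.add hu'.norm
  refine h1.mono (hu.1.prodMk hu'.1) (Eventually.of_forall fun z => ?_)
  rw [Prod.norm_mk, Real.norm_of_nonneg (by positivity)]
  exact max_le (le_add_of_nonneg_right (norm_nonneg _)) (le_add_of_nonneg_left (norm_nonneg _))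

theorem TE_pair {E E' : Type*} [NormedAddCommGroup E] [NormedSpace ℝ E] [CompleteSpace E]
    [NormedAddCommGroup E'] [NormedSpace ℝ E'] [CompleteSpace E'] {T : ℝ} {v : ST n → Eu n}
    (hv : MemLp v 2 volume) {u F : ST n → E} (hu : MemLp u 2 volume) (hF : MemLp F 2 volume)
    {u' F' : ST n → E'} (hu' : MemLp u' 2 volume) (hF' : MemLp F' 2 volume)
    (h : TE T v u F) (h' : TE T v u' F') :
    TE T v (fun z => (u z, u' z)) (fun z => (F z, F' z)) := by
  intro η ψ hη hψ
  have h1 := te_int hv hu hF hη hψ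
  have h2 := te_int hv hu' hF' hη hψ
  have h3 := integral_pair h1 h2
  rw [h η ψ hη hψ, h' η ψ hη hψ] at h3
  rw [← Prod.mk_zero_zero, ← h3]
  rfl

/-! ### the extension by the initial value -/

theorem ext0_memLp {E : Type*} [NormedAddCommGroup E] [NormedSpace ℝ E] {u0 : Eu n → E}
    {u : ST n → E} (h0 : MemLp u0 2 volume) (hu : MemLp u 2 volume) :
    MemLp (ext0 u0 u) 2 volume := by
  have hI : MemLp ((Ioo (-1 : ℝ) 0).indicator fun _ => (1 : ℝ)) 2 volume :=
    memLp_indicator_const 2 measurableSet_Ioo 1 (Or.inr (by simp))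
  have h1 := memLp_prod_smul hI h0
  have hS : MeasurableSet {z : ST n | z.1 ∈ Ioo (-1 : ℝ) 0} := measurable_fst measurableSet_Ioo
  have h2 : MemLp ({z : ST n | z.1 ∈ Ioo (-1 : ℝ) 0}ᶜ.indicator u) 2 volume :=
    hu.indicator hS.compl
  have h3 := h1.add h2
  refine h3.ae_eq (Eventually.of_forall fun z => ?_)
  by_cases hz : z.1 ∈ Ioo (-1 : ℝ) 0
  · have hz' : z ∉ {z : ST n | z.1 ∈ Ioo (-1 : ℝ) 0}ᶜ := fun hc => hc hz
    simp only [Pi.add_apply]
    rw [indicator_of_mem hz, one_smul, indicator_of_notMem hz', add_zero]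
    simp only [ext0, if_pos hz]
  · have hz' : z ∈ {z : ST n | z.1 ∈ Ioo (-1 : ℝ) 0}ᶜ := hz
    simp only [Pi.add_apply]
    rw [indicator_of_notMem hz, zero_smul, indicator_of_mem hz', zero_add]
    simp only [ext0, if_neg hz]

theorem ext0_of_mem {E : Type*} {u0 : Eu n → E} {u : ST n → E} {z : ST n}
    (hz : z.1 ∈ Ioo (-1 : ℝ) 0) : ext0 u0 u z = u0 z.2 := by
  simp only [ext0, if_pos hz]

theorem ext0_of_notMem {E : Type*} {u0 : Eu n → E} {u : ST n → E} {z : ST n}
    (hz : z.1 ∉ Ioo (-1 : ℝ) 0) : ext0 u0 u z = u z := by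
  simp only [ext0, if_neg hz]

/-- fields vanishing outside `(0,T)` are locally integrable in the sense used by `renorm_loc` -/
theorem integrableOn_slab {E : Type*} [NormedAddCommGroup E] {T : ℝ} {F : ST n → E}
    (hF : MemLp F 2 volume) (h0 : ∀ᵐ z : ST n, z.1 ∉ Ioo 0 T → F z = 0) (R : ℝ) :
    IntegrableOn F {z : ST n | ‖z.2‖ ≤ R} volume := by
  have hS : MeasurableSet {z : ST n | ‖z.2‖ ≤ R} :=
    measurableSet_le (measurable_snd.norm) measurable_const
  have hT : MeasurableSet {z : ST n | z.1 ∈ Ioo 0 T} := measurable_fst measurableSet_Ioo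
  rw [← integrable_indicator_iff hS]
  have h1 : Integrable (({z : ST n | ‖z.2‖ ≤ R} ∩ {z : ST n | z.1 ∈ Ioo 0 T}).indicator F) := by
    rw [integrable_indicator_iff (hS.inter hT)]
    have hfin : volume ({z : ST n | ‖z.2‖ ≤ R} ∩ {z : ST n | z.1 ∈ Ioo 0 T}) < ⊤ := by
      have hsub : ({z : ST n | ‖z.2‖ ≤ R} ∩ {z : ST n | z.1 ∈ Ioo 0 T}) ⊆
          Ioo 0 T ×ˢ Metric.closedBall 0 R := by
        intro z hz
        exact ⟨hz.2, by simpa using hz.1⟩
      refine (measure_mono hsub).trans_lt ?_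
      rw [Measure.volume_eq_prod, Measure.prod_prod]
      exact ENNReal.mul_lt_top (by simp) measure_closedBall_lt_top
    have : IsFiniteMeasure (volume.restrict
        ({z : ST n | ‖z.2‖ ≤ R} ∩ {z : ST n | z.1 ∈ Ioo 0 T})) :=
      ⟨by rwa [Measure.restrict_apply_univ]⟩
    exact (hF.restrict _).integrable (by norm_num)
  refine h1.congr ?_
  filter_upwards [h0] with z hz
  by_cases h2 : z ∈ {z : ST n | ‖z.2‖ ≤ R}
  · rw [indicator_of_mem h2]
    by_cases h3 : z ∈ {z : ST n | z.1 ∈ Ioo 0 T}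
    · rw [indicator_of_mem (mem_inter h2 h3)]
    · rw [indicator_of_notMem (fun hc => h3 hc.2), hz h3]
  · rw [indicator_of_notMem h2, indicator_of_notMem (fun hc => h2 hc.1)]

end Pool.Agent.Helper50.JT
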