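import Pool.Agent.Helper50.JefThetaB

/-! # Renormalisation of the defect and the limits -/

open MeasureTheory Set Filter Topology
open scoped ENNReal NNReal ContDiff

namespace Pool.Agent.Helper50.JT

open Pool.Agent.Helper42.Jef Pool.Agent.Helper22.Jef

variable {n : ℕ}

/-- the renormalisation property for pairs (instance of `renorm_loc`) -/
def Ren (T : ℝ) (v : ST n → Eu n) : Prop :=
  ∀ (u F : ST n → Mt n × ℝ), MemLp u 2 volume →
    (∀ R : ℝ, IntegrableOn F {z : ST n | ‖z.2‖ ≤ R} volume) → TE T v u F →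
    ∀ K : Set (Mt n × ℝ), Convex ℝ K → IsClosed K → (0 : Mt n × ℝ) ∈ K → (∀ᵐ z, u z ∈ K) →
    ∀ β : Mt n × ℝ → ℝ, ContDiff ℝ 1 β → ∀ L : ℝ, (∀ x ∈ K, ‖fderiv ℝ β x‖ ≤ L) →
    TE T v (fun z => β (u z)) (fun z => fderiv ℝ β (u z) (F z))

theorem TE_congr {E : Type*} [NormedAddCommGroup E] [NormedSpace ℝ E] {T : ℝ} {v : ST n → Eu n}
    {u F u' F' : ST n → E} (h : TE T v u F) (hu : u =ᵐ[volume] u') (hF : F =ᵐ[volume] F') :
    TE T v u' F' := by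
  intro η ψ hη hψ
  rw [← h η ψ hη hψ]
  refine integral_congr_ae ?_
  filter_upwards [hu, hF] with z h1 h2
  rw [h1, h2]

theorem bk_memLp {κ : ℝ} {τ0 : Eu n → Mt n} (hτ0 : MemLp τ0 2 volume) :
    MemLp (fun x => bk κ (τ0 x)) 2 volume := by
  have hc : Continuous (bk κ : Mt n → Mt n) := (bk_contDiff κ).continuous
  exact hτ0.mono (hc.comp_aestronglyMeasurable hτ0.1) (Eventually.of_forall fun x => bk_norm_le _ _)

theorem bk_sq_memLp {κ : ℝ} (hκ : 0 < κ) {τ0 : Eu n → Mt n} (hτ0 : MemLp τ0 2 volume) :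
    MemLp (fun x => ‖bk κ (τ0 x)‖ ^ 2) 2 volume := by
  have hc : Continuous (bk κ : Mt n → Mt n) := (bk_contDiff κ).continuous
  refine (hτ0.const_smul κ).mono ((hc.comp_aestronglyMeasurable hτ0.1).norm.pow 2)
    (Eventually.of_forall fun x => ?_)
  rw [Pi.smul_apply, norm_smul, norm_pow, norm_norm, Real.norm_of_nonneg hκ.le]
  have h1 := bk_norm_le κ (τ0 x)
  have h2 := bk_norm_le_k hκ (τ0 x)
  have h3 := norm_nonneg (bk κ (τ0 x))
  nlinarith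

/-- renormalised equation for the defect -/
theorem ren_step {T : ℝ} {v : ST n → Eu n} (hv : MemLp v 2 volume) (hren : Ren T v) {κ : ℝ}
    (hκ : 0 < κ) {τ0 : Eu n → Mt n} (hτ0 : MemLp τ0 2 volume) {t : ST n → Mt n} {a : ST n → ℝ}
    (hb : ∀ᵐ z, ‖t z‖ ^ 2 ≤ a z ∧ ‖t z‖ ≤ κ ∧ a z ≤ κ ^ 2) (htm : MemLp t 2 volume)
    (ham : MemLp a 2 volume) (ht0 : ∀ᵐ z : ST n, z.1 ∉ Ioo 0 T → t z = 0)
    (ha0 : ∀ᵐ z : ST n, z.1 ∉ Ioo 0 T → a z = 0) {H : ST n → Mt n} {Q : ST n → ℝ}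
    (hH : MemLp H 2 volume) (hQ : MemLp Q 2 volume)
    (hH0 : ∀ᵐ z : ST n, z.1 ∉ Ioo 0 T → H z = 0) (hQ0 : ∀ᵐ z : ST n, z.1 ∉ Ioo 0 T → Q z = 0)
    (hTE1 : TE T v (ext0 (fun x => bk κ (τ0 x)) t) H)
    (hTE2 : TE T v (ext0 (fun x => ‖bk κ (τ0 x)‖ ^ 2) a) Q) {ε : ℝ} (hε : 0 < ε) :
    TE T v (fun z => Bf ε (a z - ‖t z‖ ^ 2))
      (fun z => Bd ε (a z - ‖t z‖ ^ 2) * (Q z - 2 * inner ℝ (t z) (H z))) := by
  have hu1 : MemLp (ext0 (fun x => bk κ (τ0 x)) t) 2 volume := ext0_memLp (bk_memLp hτ0) htm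
  have hu2 : MemLp (ext0 (fun x => ‖bk κ (τ0 x)‖ ^ 2) a) 2 volume :=
    ext0_memLp (bk_sq_memLp hκ hτ0) ham
  have hpair := TE_pair hv hu1 hH hu2 hQ hTE1 hTE2
  set K : Set (Mt n × ℝ) := Metric.closedBall 0 κ ×ˢ Metric.closedBall 0 (κ ^ 2) with hK
  have hKc : IsCompact K := (isCompact_closedBall _ _).prod (isCompact_closedBall _ _)
  have hcf : Continuous (fderiv ℝ (bet ε : Mt n × ℝ → ℝ)) :=
    (bet_contDiff hε).continuous_fderiv (by norm_num)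
  obtain ⟨L, hL⟩ := hKc.exists_bound_of_continuousOn hcf.continuousOn
  have h0K : (0 : Mt n × ℝ) ∈ K :=
    ⟨Metric.mem_closedBall_self hκ.le, Metric.mem_closedBall_self (by positivity)⟩
  have hKu : ∀ᵐ z, (ext0 (fun x => bk κ (τ0 x)) t z, ext0 (fun x => ‖bk κ (τ0 x)‖ ^ 2) a z) ∈ K := by
    filter_upwards [hb] with z hz
    refine ⟨?_, ?_⟩
    · rw [mem_closedBall_zero_iff]
      by_cases h : z.1 ∈ Ioo (-1 : ℝ) 0
      · rw [ext0_of_mem h]; exact bk_norm_le_k hκ _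
      · rw [ext0_of_notMem h]; exact hz.2.1
    · rw [mem_closedBall_zero_iff]
      change ‖ext0 (fun x => ‖bk κ (τ0 x)‖ ^ 2) a z‖ ≤ κ ^ 2
      by_cases h : z.1 ∈ Ioo (-1 : ℝ) 0
      · rw [ext0_of_mem h, norm_pow, norm_norm]
        exact pow_le_pow_left₀ (norm_nonneg _) (bk_norm_le_k hκ _) 2
      · rw [ext0_of_notMem h, Real.norm_of_nonneg ((by positivity : (0:ℝ) ≤ ‖t z‖ ^ 2).trans hz.1)]
        exact hz.2.2
  have hmain := hren _ _ (memLp_pair hu1 hu2) (fun R => by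
      have h1 := integrableOn_slab (memLp_pair hH hQ) (T := T) (by
        filter_upwards [hH0, hQ0] with z h1 h2 hz
        rw [h1 hz, h2 hz]; rfl) R
      exact h1) hpair K ((convex_closedBall _ _).prod (convex_closedBall _ _))
      (Metric.isClosed_closedBall.prod Metric.isClosed_closedBall) h0K hKu (bet ε)
      (bet_contDiff hε) L hL
  refine TE_congr hmain ?_ ?_
  · filter_upwards [ht0, ha0] with z h1 h2
    by_cases h : z.1 ∈ Ioo (-1 : ℝ) 0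
    · have h3 : z.1 ∉ Ioo 0 T := fun hc => by linarith [hc.1, h.2]
      rw [ext0_of_mem h, ext0_of_mem h, h1 h3, h2 h3]
      simp [bet]
    · rw [ext0_of_notMem h, ext0_of_notMem h]
      rfl
  · filter_upwards [ht0, ha0, hH0, hQ0] with z h1 h2 h3 h4
    rw [bet_fderiv hε]
    by_cases h : z.1 ∈ Ioo (-1 : ℝ) 0
    · have h5 : z.1 ∉ Ioo 0 T := fun hc => by linarith [hc.1, h.2]
      rw [h1 h5, h2 h5, h3 h5, h4 h5]
      simp
    · rw [ext0_of_notMem h, ext0_of_notMem h]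

/-! ### weights -/

/-- the space-time weight on the left side -/
noncomputable def wt (T1 : ℝ) (ψ : Eu n → ℝ) (z : ST n) : ℝ :=
  (Ioi (0 : ℝ)).indicator (fun t => - deriv (et T1) t) z.1 * ψ z.2

/-- the space-time weight on the right side -/
noncomputable def gt (T1 : ℝ) (ψ : Eu n → ℝ) (z : ST n) : ℝ := et T1 z.1 * ψ z.2

theorem wt_nonneg {T1 : ℝ} {ψ : Eu n → ℝ} (hψ : ∀ x, 0 ≤ ψ x) (z : ST n) : 0 ≤ wt T1 ψ z := by
  refine mul_nonneg ?_ (hψ _)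
  refine indicator_nonneg (fun t ht => ?_) _
  have := et_deriv_nonpos (T1 := T1) (mem_Ioi.1 ht)
  linarith

theorem wt_pos {T1 : ℝ} {ψ : Eu n → ℝ} {z : ST n} (h1 : z.1 ∈ Ioo 0 T1) (h2 : 0 < ψ z.2) :
    0 < wt T1 ψ z := by
  refine mul_pos ?_ h2
  rw [indicator_of_mem (mem_Ioi.2 h1.1)]
  have := et_deriv_neg h1.1 h1.2
  linarith

theorem wt_integrable {T T1 : ℝ} (h : T1 < T) {ψ : Eu n → ℝ} (hψ : IsTest ψ) :
    Integrable (wt T1 ψ) := by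
  have h1 : Integrable ((Ioi (0 : ℝ)).indicator fun t => - deriv (et T1) t) :=
    ((memLp_one_iff_integrable.1 (isTime_deriv_memLp (et_time h) 1)).neg).indicator measurableSet_Ioi
  exact h1.mul_prod (memLp_one_iff_integrable.1 (isTest_memLp hψ 1))

theorem gt_nonneg {T1 : ℝ} {ψ : Eu n → ℝ} (hψ : ∀ x, 0 ≤ ψ x) (z : ST n) : 0 ≤ gt T1 ψ z :=
  mul_nonneg (et_nonneg _ _) (hψ _)

theorem gt_le_one {T1 : ℝ} {ψ : Eu n → ℝ} (hψ : ∀ x, 0 ≤ ψ x) (hψ1 : ∀ x, ψ x ≤ 1) (z : ST n) :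
    gt T1 ψ z ≤ 1 :=
  mul_le_one₀ (et_le_one _ _) (hψ _) (hψ1 _)

theorem gt_integrable {T T1 : ℝ} (h : T1 < T) {ψ : Eu n → ℝ} (hψ : IsTest ψ) :
    Integrable (gt T1 ψ) :=
  (memLp_one_iff_integrable.1 (isTime_memLp (et_time h) 1)).mul_prod (memLp_one_iff_integrable.1 (isTest_memLp hψ 1))

theorem gt_continuous (T1 : ℝ) {ψ : Eu n → ℝ} (hψ : IsTest ψ) : Continuous (gt T1 ψ) :=
  ((et_contDiff T1).continuous.comp continuous_fst).mul (hψ.smooth.continuous.comp continuous_snd)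

/-- the tested equation -/
theorem tested {Ω : Set (Eu n)} {T T1 : ℝ} (h : T1 < T) {v : ST n → Eu n}
    (hv0 : ∀ᵐ z : ST n, z.2 ∉ Ω → v z = 0) {ψ : Eu n → ℝ} (hψ : IsTest ψ)
    (hψΩ : ∀ x ∈ Ω, fderiv ℝ ψ x = 0) {θk P : ST n → ℝ} {ε κ : ℝ} (hε : 0 < ε)
    (hm : AEStronglyMeasurable θk volume)
    (hθ : ∀ᵐ z, 0 ≤ θk z ∧ θk z ≤ κ) (hθ0 : ∀ᵐ z : ST n, z.1 ∉ Ioo 0 T → θk z = 0)
    (hP : Integrable (fun z => gt T1 ψ z * (Bd ε (θk z) * P z)))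
    (hTE : TE T v (fun z => Bf ε (θk z)) (fun z => Bd ε (θk z) * P z)) :
    Integrable (fun z => wt T1 ψ z * Bf ε (θk z)) ∧
    ∫ z, wt T1 ψ z * Bf ε (θk z) = ∫ z, gt T1 ψ z * (Bd ε (θk z) * P z) := by
  obtain ⟨D, hD⟩ := (isCompact_Icc (a := (0 : ℝ)) (b := κ)).exists_bound_of_continuousOn
    (Bf_continuous hε).continuousOn
  have hBm : AEStronglyMeasurable (fun z => Bf ε (θk z)) volume :=
    (Bf_continuous hε).comp_aestronglyMeasurable hm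
  have hBb : ∀ᵐ z, ‖Bf ε (θk z)‖ ≤ D := by
    filter_upwards [hθ] with z hz
    exact hD _ hz
  have hw : Integrable (fun z => wt T1 ψ z * Bf ε (θk z)) :=
    (wt_integrable h hψ).mul_bdd hBm hBb
  refine ⟨hw, ?_⟩
  have h1 := hTE _ _ (et_time h) hψ
  have h2 : (fun z : ST n => (deriv (et T1) z.1 * ψ z.2 + et T1 z.1 * fderiv ℝ ψ z.2 (v z)) •
      Bf ε (θk z) + (et T1 z.1 * ψ z.2) • (Bd ε (θk z) * P z)) =ᵐ[volume]
      fun z => - (wt T1 ψ z * Bf ε (θk z)) + gt T1 ψ z * (Bd ε (θk z) * P z) := by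
    filter_upwards [hv0, hθ0] with z h3 h4
    have h5 : fderiv ℝ ψ z.2 (v z) = 0 := by
      by_cases hz : z.2 ∈ Ω
      · rw [hψΩ _ hz]; rfl
      · rw [h3 hz, map_zero]
    rw [h5, mul_zero, add_zero, smul_eq_mul, smul_eq_mul]
    unfold gt wt
    by_cases hz : 0 < z.1
    · rw [indicator_of_mem (mem_Ioi.2 hz)]
      ring
    · have h6 : θk z = 0 := h4 fun hc => hz hc.1
      rw [h6, Bf_zero]
      ring
  have hw' : Integrable (fun z => - (wt T1 ψ z * Bf ε (θk z))) := hw.neg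
  rw [integral_congr_ae h2, integral_add hw' hP, integral_neg] at h1
  linarith

end Pool.Agent.Helper50.JT
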