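import Pool.Agent.Helper50.JefThetaC

/-! # Passage to the limit -/

open MeasureTheory Set Filter Topology
open scoped ENNReal NNReal ContDiff

namespace Pool.Agent.Helper50.JT

open Pool.Agent.Helper42.Jef Pool.Agent.Helper22.Jef

variable {n : ℕ}

/-- if `∫ w B_ε(θ)` is bounded uniformly in `ε` then `θ = 0` where `w > 0` -/
theorem fatou_log {α : Type*} [MeasurableSpace α] {μ : Measure α} {w θ : α → ℝ}
    (hw : AEMeasurable w μ) (hθ : AEMeasurable θ μ) {C0 : ℝ}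
    (h : ∀ ε : ℝ, 0 < ε → ∫⁻ z, ENNReal.ofReal (w z * Bf ε (θ z)) ∂μ ≤ ENNReal.ofReal C0) :
    ∀ᵐ z ∂μ, 0 < w z → θ z = 0 := by
  have hpos : ∀ j : ℕ, (0 : ℝ) < 1 / ((j : ℝ) + 1) := fun j => by positivity
  have hm : ∀ j : ℕ, AEMeasurable (fun z => ENNReal.ofReal (w z * Bf (1 / ((j : ℝ) + 1)) (θ z))) μ :=
    fun j => (hw.mul ((Bf_continuous (hpos j)).measurable.comp_aemeasurable hθ)).ennreal_ofReal
  have h1 : ∫⁻ z, liminf (fun j : ℕ => ENNReal.ofReal (w z * Bf (1 / ((j : ℝ) + 1)) (θ z))) atTop ∂μ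
      ≤ ENNReal.ofReal C0 := by
    refine (lintegral_liminf_le' hm).trans ?_
    exact liminf_le_of_le (by isBoundedDefault) fun b hb => by
      obtain ⟨j, hj⟩ := hb.exists
      exact hj.trans (h _ (hpos j))
  have h2 : ∀ᵐ z ∂μ, liminf (fun j : ℕ => ENNReal.ofReal (w z * Bf (1 / ((j : ℝ) + 1)) (θ z))) atTop
      < ⊤ := by
    refine ae_lt_top' ?_ (h1.trans_lt ENNReal.ofReal_lt_top).ne
    refine ⟨fun z => liminf (fun j => (hm j).mk _ z) atTop,
      Measurable.liminf fun j => (hm j).measurable_mk, ?_⟩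
    filter_upwards [ae_all_iff.2 fun j => (hm j).ae_eq_mk] with z hz
    exact congrArg (fun f : ℕ → ℝ≥0∞ => liminf f atTop) (funext hz)
  filter_upwards [h2] with z hz hwz
  by_contra hne
  have h3 : Tendsto (fun j : ℕ => ENNReal.ofReal (w z * Bf (1 / ((j : ℝ) + 1)) (θ z))) atTop
      (𝓝 ⊤) := by
    have h4 := (Bf_tendsto hne).const_mul_atTop hwz
    exact ENNReal.tendsto_ofReal_nhds_top.2 h4
  rw [h3.liminf_eq] at hz
  exact lt_irrefl _ hz

theorem limit_bound {T T1 : ℝ} (h : T1 < T) {ψ : Eu n → ℝ} (hψ : IsTest ψ) (hψ0 : ∀ x, 0 ≤ ψ x)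
    (hψ1 : ∀ x, ψ x ≤ 1) {tk : ℕ → ST n → Mt n} {ta : ℕ → ST n → ℝ} {A θ : ST n → ℝ}
    (hA : Integrable A)
    (hb : ∀ᵐ z, ∀ k : ℕ, ‖tk k z‖ ^ 2 ≤ ta k z ∧ ta k z ≤ A z)
    (hlim : ∀ᵐ z, Tendsto (fun k => ta k z - ‖tk k z‖ ^ 2) atTop (𝓝 (θ z)))
    (hθA : ∀ᵐ z, 0 ≤ θ z ∧ θ z ≤ A z) (hθm : AEStronglyMeasurable θ volume)
    (htm : ∀ k, AEStronglyMeasurable (tk k) volume)
    (ham : ∀ k, AEStronglyMeasurable (ta k) volume)
    {P : ℕ → ST n → ℝ} {B : Set (ST n)} {C' : ℝ} {e : ℕ → ℝ} (he : Tendsto e atTop (𝓝 0))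
    (hP : ∀ (k : ℕ) (ζ : ST n → ℝ) (L : ℝ), Measurable ζ →
        (∀ z, 0 ≤ ζ z ∧ ζ z ≤ L) → (∀ z, z ∉ B → ζ z = 0) →
        ∫ z, ζ z * P k z ≤
          C' * (∫ z, ζ z * ((1 + ‖tk k z‖) ^ 2 * (ta k z - ‖tk k z‖ ^ 2) + θ z)) + L * e k)
    (hB : ∀ z, z ∉ B → gt T1 ψ z = 0) {ε : ℝ} (hε : 0 < ε)
    (hid : ∀ k, Integrable (fun z => wt T1 ψ z * Bf ε (ta k z - ‖tk k z‖ ^ 2)) ∧
      ∫ z, wt T1 ψ z * Bf ε (ta k z - ‖tk k z‖ ^ 2) =
        ∫ z, gt T1 ψ z * (Bd ε (ta k z - ‖tk k z‖ ^ 2) * P k z)) :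
    ∫⁻ z, ENNReal.ofReal (wt T1 ψ z * Bf ε (θ z)) ≤
      ENNReal.ofReal (|C'| * ∫ z, gt T1 ψ z * (3 + 2 * A z)) := by
  have hg0 := gt_nonneg (T1 := T1) hψ0
  have hg1 := gt_le_one (T1 := T1) hψ0 hψ1
  have hgi := gt_integrable h hψ
  have hgc := gt_continuous T1 hψ
  have hdm : ∀ k, AEStronglyMeasurable (fun z => ta k z - ‖tk k z‖ ^ 2) volume := fun k =>
    (ham k).sub ((htm k).norm.pow 2)
  have hL0 : 0 < 1 / (2 * ε) := by positivity
  have hθi : Integrable θ := by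
    refine hA.mono hθm ?_
    filter_upwards [hθA] with z hz
    rw [Real.norm_of_nonneg hz.1, Real.norm_of_nonneg (hz.1.trans hz.2)]
    exact hz.2
  have hgA : ∀ c : ℝ, Integrable (fun z => gt T1 ψ z * (c + 2 * A z)) := by
    intro c
    have h1 : Integrable (fun z => gt T1 ψ z * c) := hgi.mul_const c
    have h2 : Integrable (fun z => gt T1 ψ z * (2 * A z)) :=
      (hA.const_mul 2).bdd_mul (c := 1) hgc.aestronglyMeasurable
        (Eventually.of_forall fun z => by rw [Real.norm_of_nonneg (hg0 z)]; exact hg1 z)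
    refine (h1.add h2).congr (Eventually.of_forall fun z => ?_)
    simp only [Pi.add_apply]
    ring
  have hBθ : ∀ f : ST n → ℝ, AEStronglyMeasurable f volume → (∀ᵐ z, 0 ≤ f z) →
      Integrable (fun z => gt T1 ψ z * (Bd ε (f z) * θ z)) := by
    intro f hf hf0
    have h1 : Integrable (fun z => Bd ε (f z) * θ z) := by
      refine hθi.bdd_mul (c := 1 / (2 * ε)) ((Bd_continuous hε).comp_aestronglyMeasurable hf) ?_
      filter_upwards [hf0] with z hz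
      rw [Real.norm_of_nonneg (Bd_nonneg ε hz)]
      exact Bd_le hε _
    exact h1.bdd_mul (c := 1) hgc.aestronglyMeasurable
        (Eventually.of_forall fun z => by rw [Real.norm_of_nonneg (hg0 z)]; exact hg1 z)
  have hd0 : ∀ k, ∀ᵐ z, 0 ≤ ta k z - ‖tk k z‖ ^ 2 := by
    intro k
    filter_upwards [hb] with z hz
    linarith [(hz k).1]
  set J : ℕ → ℝ := fun k => ∫ z, gt T1 ψ z * (Bd ε (ta k z - ‖tk k z‖ ^ 2) * θ z) with hJ
  set J' : ℝ := ∫ z, gt T1 ψ z * (Bd ε (θ z) * θ z) with hJ'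
  set I2 : ℝ := ∫ z, gt T1 ψ z * (2 + 2 * A z) with hI2
  -- the bound for fixed `k`
  have hk : ∀ k, ∫ z, wt T1 ψ z * Bf ε (ta k z - ‖tk k z‖ ^ 2) ≤
      |C'| * (I2 + J k) + 1 / (2 * ε) * e k := by
    intro k
    rw [(hid k).2]
    obtain ⟨f, hf, hfe⟩ := hdm k
    set ζ : ST n → ℝ := fun z => gt T1 ψ z * Bd ε (max (f z) 0) with hζ
    have hζm : Measurable ζ :=
      hgc.measurable.mul ((Bd_continuous hε).measurable.comp (hf.measurable.max measurable_const))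
    have hζb : ∀ z, 0 ≤ ζ z ∧ ζ z ≤ 1 / (2 * ε) := by
      intro z
      have h1 : 0 ≤ Bd ε (max (f z) 0) := Bd_nonneg ε (le_max_right _ _)
      refine ⟨mul_nonneg (hg0 z) h1, ?_⟩
      calc gt T1 ψ z * Bd ε (max (f z) 0) ≤ 1 * Bd ε (max (f z) 0) :=
            mul_le_mul_of_nonneg_right (hg1 z) h1
        _ ≤ _ := by rw [one_mul]; exact Bd_le hε _
    have hζB : ∀ z, z ∉ B → ζ z = 0 := fun z hz => by
      simp only [hζ]
      rw [hB z hz, zero_mul]
    have hζe : ∀ᵐ z, ζ z = gt T1 ψ z * Bd ε (ta k z - ‖tk k z‖ ^ 2) := by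
      filter_upwards [hfe, hd0 k] with z h1 h2
      simp only [hζ]
      rw [← h1, max_eq_left h2]
    have h1 := hP k ζ _ hζm hζb hζB
    have h2 : ∫ z, ζ z * P k z = ∫ z, gt T1 ψ z * (Bd ε (ta k z - ‖tk k z‖ ^ 2) * P k z) := by
      refine integral_congr_ae ?_
      filter_upwards [hζe] with z hz
      rw [hz]; ring
    have h3 : 0 ≤ ∫ z, ζ z * ((1 + ‖tk k z‖) ^ 2 * (ta k z - ‖tk k z‖ ^ 2) + θ z) := by
      refine integral_nonneg_of_ae ?_
      filter_upwards [hd0 k, hθA] with z h4 h5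
      have h6 : 0 ≤ (1 + ‖tk k z‖) ^ 2 * (ta k z - ‖tk k z‖ ^ 2) := mul_nonneg (by positivity) h4
      exact mul_nonneg (hζb z).1 (by linarith [h5.1])
    have h4 : ∫ z, ζ z * ((1 + ‖tk k z‖) ^ 2 * (ta k z - ‖tk k z‖ ^ 2) + θ z) ≤ I2 + J k := by
      have h5 := integral_add (hgA 2) (hBθ _ (hdm k) (hd0 k))
      rw [hI2, hJ]
      simp only
      rw [← h5]
      refine integral_mono_of_nonneg ?_ ((hgA 2).add (hBθ _ (hdm k) (hd0 k))) ?_
      · filter_upwards [hd0 k, hθA] with z h4 h5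
        have h6 : 0 ≤ (1 + ‖tk k z‖) ^ 2 * (ta k z - ‖tk k z‖ ^ 2) := mul_nonneg (by positivity) h4
        exact mul_nonneg (hζb z).1 (by linarith [h5.1])
      · filter_upwards [hd0 k, hθA, hζe, hb] with z h4 h5 h6 h7
        rw [h6]
        have h8 : Bd ε (ta k z - ‖tk k z‖ ^ 2) * (ta k z - ‖tk k z‖ ^ 2) ≤ 1 := Bd_mul_le hε _
        have h9 : (1 + ‖tk k z‖) ^ 2 ≤ 2 + 2 * A z := by
          nlinarith [(h7 k).1, (h7 k).2, sq_nonneg (1 - ‖tk k z‖)]
        have h10 : (1 + ‖tk k z‖) ^ 2 *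
            (Bd ε (ta k z - ‖tk k z‖ ^ 2) * (ta k z - ‖tk k z‖ ^ 2)) ≤ 2 + 2 * A z := by
          refine le_trans ?_ h9
          exact mul_le_of_le_one_right (by positivity) h8
        have h11 := mul_le_mul_of_nonneg_left h10 (hg0 z)
        nlinarith
    have h5 : C' * (∫ z, ζ z * ((1 + ‖tk k z‖) ^ 2 * (ta k z - ‖tk k z‖ ^ 2) + θ z)) ≤
        |C'| * (I2 + J k) :=
      (mul_le_mul_of_nonneg_right (le_abs_self _) h3).trans
        (mul_le_mul_of_nonneg_left h4 (abs_nonneg _))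
    rw [← h2]
    linarith
  -- limits
  have hJlim : Tendsto J atTop (𝓝 J') := by
    refine tendsto_integral_of_dominated_convergence (fun z => 1 / (2 * ε) * A z)
      (fun k => (hBθ _ (hdm k) (hd0 k)).1) (hA.const_mul _) (fun k => ?_) ?_
    · filter_upwards [hd0 k, hθA] with z h4 h5
      have h6 : 0 ≤ Bd ε (ta k z - ‖tk k z‖ ^ 2) := Bd_nonneg ε h4
      rw [Real.norm_of_nonneg (mul_nonneg (hg0 z) (mul_nonneg h6 h5.1))]
      calc gt T1 ψ z * (Bd ε (ta k z - ‖tk k z‖ ^ 2) * θ z) ≤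
            1 * (Bd ε (ta k z - ‖tk k z‖ ^ 2) * θ z) :=
            mul_le_mul_of_nonneg_right (hg1 z) (mul_nonneg h6 h5.1)
        _ = Bd ε (ta k z - ‖tk k z‖ ^ 2) * θ z := one_mul _
        _ ≤ 1 / (2 * ε) * A z := mul_le_mul (Bd_le hε _) h5.2 h5.1 hL0.le
    · filter_upwards [hlim] with z hz
      exact ((((Bd_continuous hε).tendsto _).comp hz).mul_const _).const_mul _
  have hrhs : Tendsto (fun k => |C'| * (I2 + J k) + 1 / (2 * ε) * e k) atTop
      (𝓝 (|C'| * (I2 + J'))) := by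
    have := (((tendsto_const_nhds (x := I2)).add hJlim).const_mul |C'|).add (he.const_mul (1 / (2 * ε)))
    simpa using this
  have hJ'le : J' ≤ ∫ z, gt T1 ψ z := by
    refine integral_mono_of_nonneg ?_ hgi ?_
    · filter_upwards [hθA] with z h5
      exact mul_nonneg (hg0 z) (mul_nonneg (Bd_nonneg ε h5.1) h5.1)
    · refine Eventually.of_forall fun z => ?_
      exact mul_le_of_le_one_right (hg0 z) (Bd_mul_le hε _)
  have hI3 : ∫ z, gt T1 ψ z * (3 + 2 * A z) = I2 + ∫ z, gt T1 ψ z := by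
    rw [hI2, ← integral_add (hgA 2) hgi]
    refine integral_congr_ae (Eventually.of_forall fun z => ?_)
    simp only
    ring
  have hwm : AEMeasurable (wt T1 ψ) volume := (wt_integrable h hψ).1.aemeasurable
  have hw0 := wt_nonneg (T1 := T1) hψ0
  have hm : ∀ k, AEMeasurable (fun z => ENNReal.ofReal
      (wt T1 ψ z * Bf ε (ta k z - ‖tk k z‖ ^ 2))) volume := fun k =>
    ((hid k).1.1.aemeasurable).ennreal_ofReal
  calc ∫⁻ z, ENNReal.ofReal (wt T1 ψ z * Bf ε (θ z))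
      = ∫⁻ z, liminf (fun k => ENNReal.ofReal
          (wt T1 ψ z * Bf ε (ta k z - ‖tk k z‖ ^ 2))) atTop := by
        refine lintegral_congr_ae ?_
        filter_upwards [hlim] with z hz
        have h1 : Tendsto (fun k => ENNReal.ofReal
          (wt T1 ψ z * Bf ε (ta k z - ‖tk k z‖ ^ 2))) atTop
            (𝓝 (ENNReal.ofReal (wt T1 ψ z * Bf ε (θ z)))) :=
          ENNReal.tendsto_ofReal ((((Bf_continuous hε).tendsto _).comp hz).const_mul _)
        exact h1.liminf_eq.symm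
    _ ≤ liminf (fun k => ∫⁻ z, ENNReal.ofReal
          (wt T1 ψ z * Bf ε (ta k z - ‖tk k z‖ ^ 2))) atTop := lintegral_liminf_le' hm
    _ ≤ liminf (fun k => ENNReal.ofReal (|C'| * (I2 + J k) + 1 / (2 * ε) * e k)) atTop := by
        refine liminf_le_liminf (Eventually.of_forall fun k => ?_)
        rw [← ofReal_integral_eq_lintegral_ofReal (hid k).1
          (Eventually.of_forall fun z => mul_nonneg (hw0 z) (Bf_nonneg _ _))]
        exact ENNReal.ofReal_le_ofReal (hk k)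
    _ = ENNReal.ofReal (|C'| * (I2 + J')) := (ENNReal.tendsto_ofReal hrhs).liminf_eq
    _ ≤ _ := by
        refine ENNReal.ofReal_le_ofReal (mul_le_mul_of_nonneg_left ?_ (abs_nonneg _))
        rw [hI3]
        linarith

end Pool.Agent.Helper50.JT
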