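import Mathlib

set_option autoImplicit false

open MvPolynomial

namespace Pool.Agent.Helper50.Korn

variable {n : ℕ}

/-- real polynomials in `n` variables -/
abbrev P (n : ℕ) := MvPolynomial (Fin n) ℝ

theorem pd_comm (i j : Fin n) (f : P n) : pderiv i (pderiv j f) = pderiv j (pderiv i f) := by
  have h : ⁅(pderiv i : Derivation ℝ (P n) (P n)), (pderiv j : Derivation ℝ (P n) (P n))⁆ = 0 := by
    apply derivation_ext
    intro k
    rw [Derivation.commutator_apply, pderiv_X, pderiv_X]
    by_cases h1 : k = i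
    · by_cases h2 : k = j
      · subst h1; subst h2; simp
      · subst h1; simp [h2]
    · by_cases h2 : k = j
      · subst h2; simp [h1]
      · simp [h1, h2]
  have h2 := congrArg (fun D : Derivation ℝ (P n) (P n) => D f) h
  simp only [Derivation.commutator_apply] at h2
  exact sub_eq_zero.1 h2

/-- Euler operator -/
noncomputable def eul : P n →ₗ[ℝ] P n :=
  ∑ i, (LinearMap.mulLeft ℝ (X i)) ∘ₗ (pderiv i : Derivation ℝ (P n) (P n)).toLinearMap

theorem eul_apply (f : P n) : eul f = ∑ i, X i * pderiv i f := by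
  simp [eul]

/-- Laplacian -/
noncomputable def lap : P n →ₗ[ℝ] P n :=
  ∑ i, (pderiv i : Derivation ℝ (P n) (P n)).toLinearMap ∘ₗ (pderiv i : Derivation ℝ (P n) (P n)).toLinearMap

theorem lap_apply (f : P n) : lap f = ∑ i, pderiv i (pderiv i f) := by
  simp [lap]

noncomputable def r2 : P n := ∑ i, X i ^ 2

theorem eul_mul (f g : P n) : eul (f * g) = f * eul g + eul f * g := by
  rw [eul_apply, eul_apply, eul_apply, Finset.mul_sum, Finset.sum_mul, ← Finset.sum_add_distrib]
  apply Finset.sum_congr rfl
  intro i _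
  rw [pderiv_mul]
  ring

theorem eul_C (a : ℝ) : eul (C a : P n) = 0 := by
  rw [eul_apply]; simp

theorem eul_C_mul (a : ℝ) (f : P n) : eul (C a * f) = C a * eul f := by
  rw [eul_mul, eul_C]; ring

theorem lap_C_mul (a : ℝ) (f : P n) : lap (C a * f) = C a * lap f := by
  rw [C_mul', map_smul, C_mul']

theorem eul_X (i : Fin n) : eul (X i : P n) = X i := by
  rw [eul_apply, Finset.sum_eq_single i]
  · simp
  · intro j _ hj
    rw [pderiv_X_of_ne hj.symm, mul_zero]
  · simp

theorem eul_X_mul (i : Fin n) (f : P n) : eul (X i * f) = X i * f + X i * eul f := by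
  rw [eul_mul, eul_X]; ring

theorem pd_eul (i : Fin n) (f : P n) : pderiv i (eul f) = eul (pderiv i f) + pderiv i f := by
  rw [eul_apply, eul_apply, map_sum]
  have h1 : ∀ j ∈ Finset.univ, pderiv i (X j * pderiv j f) =
      X j * pderiv j (pderiv i f) + (if j = i then pderiv i f else 0) := by
    intro j _
    rw [pderiv_mul, pderiv_X]
    by_cases h : j = i
    · subst h; simp; ring
    · simp [h, pd_comm i j]
  rw [Finset.sum_congr rfl h1, Finset.sum_add_distrib]
  simp

theorem lap_eul (f : P n) : lap (eul f) = eul (lap f) + 2 * lap f := by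
  rw [lap_apply, lap_apply, map_sum, Finset.mul_sum, ← Finset.sum_add_distrib]
  apply Finset.sum_congr rfl
  intro i _
  rw [pd_eul, map_add, pd_eul]
  ring

theorem lap_pd (i : Fin n) (f : P n) : lap (pderiv i f) = pderiv i (lap f) := by
  rw [lap_apply, lap_apply, map_sum]
  apply Finset.sum_congr rfl
  intro j _
  rw [pd_comm j i f, pd_comm j i]

theorem lap_mul (f g : P n) : lap (f * g) = f * lap g + lap f * g + 2 * ∑ i, pderiv i f * pderiv i g := by
  rw [lap_apply, lap_apply, lap_apply, Finset.mul_sum, Finset.sum_mul, Finset.mul_sum,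
    ← Finset.sum_add_distrib, ← Finset.sum_add_distrib]
  apply Finset.sum_congr rfl
  intro i _
  rw [pderiv_mul, map_add, pderiv_mul, pderiv_mul]
  ring

theorem lap_X_mul (i : Fin n) (f : P n) : lap (X i * f) = X i * lap f + 2 * pderiv i f := by
  have h1 : lap (X i : P n) = 0 := by
    rw [lap_apply]
    apply Finset.sum_eq_zero
    intro j _
    by_cases h : i = j
    · subst h; simp
    · rw [pderiv_X_of_ne h]; simp
  have h2 : ∑ j, pderiv j (X i : P n) * pderiv j f = pderiv i f := by
    rw [Finset.sum_eq_single i]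
    · simp
    · intro j _ hj
      rw [pderiv_X_of_ne hj.symm, zero_mul]
    · simp
  rw [lap_mul, h1, h2]
  ring

theorem pd_r2 (i : Fin n) : pderiv i (r2 : P n) = 2 * X i := by
  rw [r2, map_sum, Finset.sum_eq_single i]
  · rw [pderiv_pow, pderiv_X_self]; simp
  · intro j _ hj
    rw [pderiv_pow, pderiv_X_of_ne hj]; simp
  · simp

theorem lap_r2_mul (f : P n) : lap (r2 * f) = r2 * lap f + C (2 * (n : ℝ)) * f + 4 * eul f := by
  have h1 : lap (r2 : P n) = C (2 * (n : ℝ)) := by
    rw [lap_apply]
    have : ∀ i ∈ Finset.univ, pderiv i (pderiv i (r2 : P n)) = 2 := by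
      intro i _
      rw [pd_r2, show (2 * X i : P n) = C 2 * X i from rfl, pderiv_C_mul, pderiv_X_self, mul_one]
      rfl
    rw [Finset.sum_congr rfl this]
    simp only [Finset.sum_const, Finset.card_univ, Fintype.card_fin, nsmul_eq_mul, map_mul, map_natCast]
    rw [show (C (2 : ℝ) : P n) = 2 from rfl]
    ring
  have h2 : ∑ j, pderiv j (r2 : P n) * pderiv j f = 2 * eul f := by
    rw [eul_apply, Finset.mul_sum]
    apply Finset.sum_congr rfl
    intro j _
    rw [pd_r2]; ring
  rw [lap_mul, h1, h2]
  ring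

theorem eul_r2 : eul (r2 : P n) = 2 * r2 := by
  rw [eul_apply, r2, Finset.mul_sum]
  apply Finset.sum_congr rfl
  intro i _
  rw [← r2, pd_r2]
  ring

theorem coeff_eul (α : Fin n →₀ ℕ) (f : P n) : coeff α (eul f) = (α.degree : ℝ) * coeff α f := by
  induction f using MvPolynomial.induction_on' with
  | add p q hp hq => rw [map_add, coeff_add, coeff_add, hp, hq]; ring
  | monomial s a =>
    have h1 : eul (monomial s a : P n) = C (s.degree : ℝ) * monomial s a := by
      rw [eul_apply]
      have : ∀ i ∈ Finset.univ, X i * pderiv i (monomial s a : P n) = C ((s i : ℕ) : ℝ) * monomial s a := by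
        intro i _
        rw [X_mul_pderiv_monomial, nsmul_eq_mul, map_natCast]
      rw [Finset.sum_congr rfl this, ← Finset.sum_mul, ← map_sum]
      congr 2
      rw [Finsupp.degree_eq_sum]
      push_cast
      rfl
    rw [h1, coeff_C_mul, coeff_monomial]
    split_ifs with h
    · rw [h]
    · simp

/-- diagonal operator -/
noncomputable def diag (φ : ℕ → ℝ) (f : P n) : P n :=
  ∑ α ∈ f.support, monomial α (φ α.degree * coeff α f)

theorem coeff_diag (φ : ℕ → ℝ) (f : P n) (α : Fin n →₀ ℕ) :
    coeff α (diag φ f) = φ α.degree * coeff α f := by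
  rw [diag, coeff_sum]
  simp only [coeff_monomial]
  rw [Finset.sum_eq_single α]
  · simp
  · intro b _ hb
    rw [if_neg hb]
  · intro h
    rw [notMem_support_iff] at h
    rw [if_pos rfl, h, mul_zero]

end Pool.Agent.Helper50.Korn
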