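import Pool.Agent.Helper50.KornDefs

set_option autoImplicit false

namespace Pool.Agent.Helper50.Korn

theorem den_pos (n : ℝ) (hn : 3 ≤ n) (m : ℝ) (hm : 0 ≤ m) : 0 < m ^ 2 + m + n - 2 := by nlinarith

theorem rel_iff (n : ℝ) (hn : 3 ≤ n) (m : ℝ) (hm : 0 ≤ m) (κ : ℝ) :
    (2 * m + 2 - κ) * (2 * n - 4 + 4 * m) - 2 * κ * m * (m - 1) = 0 ↔ κ = Kval n m := by
  have h := den_pos n hn m hm
  rw [Kval, eq_div_iff h.ne']
  constructor
  · intro h1; linarith
  · intro h1; linarith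

theorem Kval_step (n : ℝ) (hn : 3 ≤ n) (m : ℝ) (hm : 0 ≤ m) :
    Kval n (m + 1) - Kval n m =
      2 * ((n - 2) * (n - m * (m - 1))) / (((m + 1) ^ 2 + (m + 1) + n - 2) * (m ^ 2 + m + n - 2)) := by
  have h := den_pos n hn m hm
  have h' := den_pos n hn (m + 1) (by linarith)
  rw [Kval, Kval, div_sub_div _ _ h'.ne' h.ne']
  congr 1
  ring

theorem Kval_up (n : ℝ) (hn : 3 ≤ n) (m : ℝ) (hm : 0 ≤ m) (h : m * (m - 1) ≤ n) :
    Kval n m ≤ Kval n (m + 1) := by
  have h1 := Kval_step n hn m hm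
  have h2 : 0 ≤ Kval n (m + 1) - Kval n m := by
    rw [h1]
    have h := den_pos n hn m hm
    have h' := den_pos n hn (m + 1) (by linarith)
    apply div_nonneg _ (mul_pos h' h).le
    have : 0 ≤ (n - 2) * (n - m * (m - 1)) := mul_nonneg (by linarith) (by linarith)
    linarith
  linarith

theorem Kval_down (n : ℝ) (hn : 3 ≤ n) (m : ℝ) (hm : 0 ≤ m) (h : n ≤ m * (m - 1)) :
    Kval n (m + 1) ≤ Kval n m := by
  have h1 := Kval_step n hn m hm
  have h2 : Kval n (m + 1) - Kval n m ≤ 0 := by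
    rw [h1]
    have h := den_pos n hn m hm
    have h' := den_pos n hn (m + 1) (by linarith)
    apply div_nonpos_of_nonpos_of_nonneg _ (mul_pos h' h).le
    have : 0 ≤ (n - 2) * (m * (m - 1) - n) := mul_nonneg (by linarith) (by linarith)
    linarith
  linarith

theorem mstar_ge (n : ℕ) : (n : ℝ) ≤ (mstar n : ℝ) * (mstar n - 1) := by
  have h1 : (1 + Real.sqrt (1 + 4 * n)) / 2 ≤ (mstar n : ℝ) := Nat.le_ceil _
  have h2 : Real.sqrt (1 + 4 * n) ≤ 2 * (mstar n : ℝ) - 1 := by linarith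
  have h3 : 0 ≤ Real.sqrt (1 + 4 * n) := Real.sqrt_nonneg _
  have h4 : Real.sqrt (1 + 4 * n) ^ 2 = 1 + 4 * n := Real.sq_sqrt (by positivity)
  nlinarith

theorem lt_mstar (n : ℕ) (j : ℕ) (hj : j < mstar n) : (j : ℝ) * (j - 1) ≤ n := by
  have h1 : (j : ℝ) < (1 + Real.sqrt (1 + 4 * n)) / 2 := Nat.lt_ceil.1 hj
  rcases Nat.eq_zero_or_pos j with h | h
  · subst h; simp
  have h2 : (1 : ℝ) ≤ j := by exact_mod_cast h
  have h4 : Real.sqrt (1 + 4 * n) ^ 2 = 1 + 4 * n := Real.sq_sqrt (by positivity)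
  nlinarith

theorem mstar_two (n : ℕ) (hn : 3 ≤ n) : 2 ≤ mstar n := by
  have h1 := mstar_ge n
  have h2 : (3 : ℝ) ≤ n := by exact_mod_cast hn
  by_contra h
  have h3 : mstar n ≤ 1 := by omega
  have h4 : (mstar n : ℝ) ≤ 1 := by exact_mod_cast h3
  have h5 : (0 : ℝ) ≤ mstar n := by positivity
  nlinarith

theorem Kval_le_low (n : ℕ) (hn : 3 ≤ n) (j k : ℕ) (hk : j + k ≤ mstar n) :
    Kval n j ≤ Kval n ((j + k : ℕ) : ℝ) := by
  have h2 : (3 : ℝ) ≤ n := by exact_mod_cast hn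
  induction k with
  | zero => simp
  | succ k ih =>
    have h3 := ih (by omega)
    refine h3.trans ?_
    have h4 := Kval_up n h2 ((j + k : ℕ) : ℝ) (by positivity) (lt_mstar n (j + k) (by omega))
    have h5 : ((j + (k + 1) : ℕ) : ℝ) = ((j + k : ℕ) : ℝ) + 1 := by push_cast; ring
    rw [h5]; exact h4

theorem Kval_le_high (n : ℕ) (hn : 3 ≤ n) (k : ℕ) :
    Kval n ((mstar n + k : ℕ) : ℝ) ≤ Kval n (mstar n) := by
  have h2 : (3 : ℝ) ≤ n := by exact_mod_cast hn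
  induction k with
  | zero => simp
  | succ k ih =>
    refine le_trans ?_ ih
    have h5 : ((mstar n + (k + 1) : ℕ) : ℝ) = ((mstar n + k : ℕ) : ℝ) + 1 := by push_cast; ring
    rw [h5]
    apply Kval_down n h2 _ (by positivity)
    have h6 := mstar_ge n
    have h7 : (2 : ℝ) ≤ mstar n := by exact_mod_cast mstar_two n hn
    push_cast
    have h8 : (0 : ℝ) ≤ k := by positivity
    nlinarith

theorem Kval_le_star (n : ℕ) (hn : 3 ≤ n) (j : ℕ) : Kval n j ≤ Kval n (mstar n) := by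
  rcases le_total j (mstar n) with h | h
  · obtain ⟨k, hk⟩ := Nat.exists_eq_add_of_le h
    have := Kval_le_low n hn j k (by omega)
    rwa [← hk] at this
  · obtain ⟨k, hk⟩ := Nat.exists_eq_add_of_le h
    have := Kval_le_high n hn k
    rwa [← hk] at this

theorem four_le_star (n : ℕ) (hn : 3 ≤ n) : 4 ≤ Kval n (mstar n) := by
  have h1 := Kval_le_star n hn 1
  have h2 : Kval n ((1 : ℕ) : ℝ) = 4 := by
    rw [Kval]
    have h2 : (3 : ℝ) ≤ n := by exact_mod_cast hn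
    have : (((1 : ℕ) : ℝ) ^ 2 + ((1 : ℕ) : ℝ) + n - 2) ≠ 0 := by
      push_cast; intro h; linarith
    rw [div_eq_iff this]
    push_cast
    ring
  linarith

theorem star_ne (n : ℕ) (hn : 3 ≤ n) (κ : ℝ) (hκ : Kval n (mstar n) < κ) (m : ℕ) :
    (2 * (m : ℝ) + 2 - κ) * (2 * n - 4 + 4 * m) - 2 * κ * m * (m - 1) ≠ 0 := by
  intro h
  have h2 : (3 : ℝ) ≤ n := by exact_mod_cast hn
  rw [rel_iff n h2 m (by positivity)] at h
  have := Kval_le_star n hn m
  linarith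

theorem star_rel (n : ℕ) (hn : 3 ≤ n) :
    (2 * (mstar n : ℝ) + 2 - Kval n (mstar n)) * (2 * n - 4 + 4 * mstar n) =
      2 * Kval n (mstar n) * mstar n * (mstar n - 1) := by
  have h2 : (3 : ℝ) ≤ n := by exact_mod_cast hn
  have := (rel_iff n h2 (mstar n) (by positivity) (Kval n (mstar n))).2 rfl
  linarith

end Pool.Agent.Helper50.Korn
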