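import Mathlib

set_option autoImplicit false

open MeasureTheory Metric
open scoped ContDiff

namespace Pool.Agent.Helper50.Korn

/-- the `(i,j)` entry `∂u_i/∂x_j` of the matrix of first partial derivatives -/
noncomputable def jac {n : ℕ} (u : EuclideanSpace ℝ (Fin n) → EuclideanSpace ℝ (Fin n))
    (x : EuclideanSpace ℝ (Fin n)) : Matrix (Fin n) (Fin n) ℝ :=
  fun i j => (fderiv ℝ u x (EuclideanSpace.single j 1)) i

/-- squared Frobenius norm -/
def frob2 {n : ℕ} (M : Matrix (Fin n) (Fin n) ℝ) : ℝ := ∑ i, ∑ j, M i j ^ 2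

/-- Korn's inequality in the second case with constant `K` on the unit ball of `ℝⁿ` -/
def KornHolds (n : ℕ) (K : ℝ) : Prop :=
  ∀ u : EuclideanSpace ℝ (Fin n) → EuclideanSpace ℝ (Fin n),
    ContDiffOn ℝ ∞ u (closedBall 0 1) →
    (∀ i j, ∫ x in ball (0 : EuclideanSpace ℝ (Fin n)) 1, (jac u x - (jac u x).transpose) i j = 0) →
    ∫ x in ball (0 : EuclideanSpace ℝ (Fin n)) 1, frob2 (jac u x) ≤
      K * ∫ x in ball (0 : EuclideanSpace ℝ (Fin n)) 1, frob2 ((1 / 2 : ℝ) • (jac u x + (jac u x).transpose))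

/-- the optimal index `m = ⌈(1 + √(1 + 4n)) / 2⌉`, i.e. the least natural number `m` with
`m (m - 1) ≥ n` -/
noncomputable def mstar (n : ℕ) : ℕ := ⌈(1 + Real.sqrt (1 + 4 * n)) / 2⌉₊

/-- the value `2 (m + 1) (2 m + n - 2) / (m² + m + n - 2)` -/
noncomputable def Kval (n : ℝ) (m : ℝ) : ℝ := 2 * (m + 1) * (2 * m + n - 2) / (m ^ 2 + m + n - 2)

end Pool.Agent.Helper50.Korn
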