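import Pool.Agent.Helper50.KornInt

set_option autoImplicit false

open MvPolynomial MeasureTheory Metric Filter Topology

namespace Pool.Agent.Helper50.Korn

variable {n : ℕ}

/-- a finite-rank continuous family of polynomials -/
def Nice (q : E n → P n) : Prop :=
  ∃ (ι : Type) (_ : Fintype ι) (c : ι → E n → ℝ) (m : ι → P n), (∀ i, Continuous (c i)) ∧
    ∀ y, q y = ∑ i, c i y • m i

theorem nice_const (p : P n) : Nice (fun _ : E n => p) :=
  ⟨Unit, inferInstance, fun _ _ => 1, fun _ => p, fun _ => continuous_const, fun y => by simp⟩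

theorem nice_C (c : E n → ℝ) (hc : Continuous c) : Nice (fun y : E n => (C (c y) : P n)) :=
  ⟨Unit, inferInstance, fun _ => c, fun _ => 1, fun _ => hc, fun y => by
    simp [smul_eq_C_mul]⟩

theorem Nice.add {q r : E n → P n} (hq : Nice q) (hr : Nice r) : Nice (fun y => q y + r y) := by
  obtain ⟨ι, _, c, m, hc, h⟩ := hq
  obtain ⟨κ, _, d, l, hd, h'⟩ := hr
  refine ⟨ι ⊕ κ, inferInstance, Sum.elim c d, Sum.elim m l, ?_, ?_⟩
  · rintro (i | i)
    · exact hc i
    · exact hd i
  · intro y
    show q y + r y = _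
    rw [Fintype.sum_sum_type, h, h']
    simp

theorem Nice.mul {q r : E n → P n} (hq : Nice q) (hr : Nice r) : Nice (fun y => q y * r y) := by
  obtain ⟨ι, _, c, m, hc, h⟩ := hq
  obtain ⟨κ, _, d, l, hd, h'⟩ := hr
  refine ⟨ι × κ, inferInstance, fun p y => c p.1 y * d p.2 y, fun p => m p.1 * l p.2, ?_, ?_⟩
  · rintro ⟨i, j⟩
    exact (hc i).mul (hd j)
  · intro y
    show q y * r y = _
    rw [Fintype.sum_prod_type, h, h', Finset.sum_mul_sum]
    apply Finset.sum_congr rfl
    intro i _
    apply Finset.sum_congr rfl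
    intro j _
    rw [smul_mul_smul_comm]

theorem Nice.pow {q : E n → P n} (hq : Nice q) (N : ℕ) : Nice (fun y => q y ^ N) := by
  induction N with
  | zero => simpa using nice_const (n := n) 1
  | succ N ih => simpa [pow_succ] using ih.mul hq

theorem nice_sum {ι : Type*} (s : Finset ι) (q : ι → E n → P n) (h : ∀ i ∈ s, Nice (q i)) :
    Nice (fun y => ∑ i ∈ s, q i y) := by
  classical
  induction s using Finset.induction_on with
  | empty => simpa using nice_const (n := n) 0
  | insert a s ha ih =>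
    have h1 := (h a (by simp)).add (ih (fun i hi => h i (by simp [hi])))
    simpa [Finset.sum_insert ha] using h1

theorem exists_intg (q : E n → P n) (hq : Nice q) (g : E n → ℝ) (hg : Continuous g)
    (hgc : HasCompactSupport g) : ∃ Q : P n, ∀ ℓ : P n →ₗ[ℝ] ℝ, ℓ Q = ∫ y, g y * ℓ (q y) := by
  obtain ⟨ι, _, c, m, hc, h⟩ := hq
  refine ⟨∑ i, (∫ y, g y * c i y) • m i, ?_⟩
  intro ℓ
  rw [map_sum]
  have h1 : ∀ y, g y * ℓ (q y) = ∑ i, (g y * c i y) * ℓ (m i) := by
    intro y
    rw [h, map_sum, Finset.mul_sum]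
    apply Finset.sum_congr rfl
    intro i _
    rw [map_smul, smul_eq_mul]; ring
  simp only [h1]
  rw [integral_finsetSum]
  · apply Finset.sum_congr rfl
    intro i _
    rw [map_smul, smul_eq_mul, integral_mul_const]
  · intro i _
    apply Integrable.mul_const
    exact (hg.mul (hc i)).integrable_of_hasCompactSupport hgc.mul_right

/-- the Landau kernel as a family of polynomials -/
noncomputable def lk (N : ℕ) (y : E n) : P n :=
  (1 - C (1 / 9) * ∑ i, (X i - C (y i)) ^ 2) ^ N

theorem lk_nice (N : ℕ) : Nice (lk N : E n → P n) := by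
  apply Nice.pow
  have h1 : ∀ i : Fin n, Nice (fun y : E n => ((X i - C (y i)) ^ 2 : P n)) := by
    intro i
    apply Nice.pow
    have h2 := (nice_const (n := n) (X i)).add (nice_C (fun y : E n => - (y i)) (by fun_prop))
    simpa [sub_eq_add_neg] using h2
  have h3 := nice_sum Finset.univ _ (fun i _ => h1 i)
  have h4 := (nice_const (n := n) 1).add ((nice_const (n := n) (C (-(1 / 9)))).mul h3)
  have h5 : (fun y : E n => (1 - C (1 / 9) * ∑ i, (X i - C (y i)) ^ 2 : P n)) =
      fun y : E n => (1 : P n) + C (-(1 / 9)) * ∑ i, (X i - C (y i)) ^ 2 := by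
    funext y
    rw [map_neg]; ring
  rw [h5]; exact h4

/-- the kernel profile -/
noncomputable def hker (N : ℕ) (z : E n) : ℝ := (1 - ‖z‖ ^ 2 / 9) ^ N

theorem ev_lk (N : ℕ) (x y : E n) : ev (lk N y) x = hker N (x - y) := by
  have h1 : ev (lk N y) x = (1 - (1 / 9) * ∑ i, (x i - y i) ^ 2) ^ N := by simp [ev, lk]
  rw [h1, hker, EuclideanSpace.real_norm_sq_eq]
  congr 2
  simp only [PiLp.sub_apply]
  ring

theorem hker_eq (N : ℕ) : (hker N : E n → ℝ) = ev (lk N 0) := by
  funext z
  rw [ev_lk, sub_zero]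

theorem hker_contDiff (N : ℕ) {k : WithTop ℕ∞} : ContDiff ℝ k (hker N : E n → ℝ) := by
  rw [hker_eq]; exact ev_contDiff _

theorem ev_pd_lk (N : ℕ) (x y : E n) (j : Fin n) :
    ev (pderiv j (lk N y)) x = - fderiv ℝ (fun y => hker N (x - y)) y (EuclideanSpace.single j 1) := by
  rw [← ev_fderiv]
  have h1 : (ev (lk N y) : E n → ℝ) = fun x => hker N (x - y) := by
    funext x; exact ev_lk N x y
  rw [h1]
  have hd : HasFDerivAt (hker N : E n → ℝ) (fderiv ℝ (hker N) (x - y)) (x - y) :=
    ((hker_contDiff N (k := 1)).differentiable (by simp) _).hasFDerivAt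
  have h2 : HasFDerivAt (fun x : E n => hker N (x - y)) (fderiv ℝ (hker N) (x - y)) x := by
    exact hd.comp x ((hasFDerivAt_id x).sub_const y)
  have h3 : HasFDerivAt (fun y : E n => hker N (x - y)) (-(fderiv ℝ (hker N) (x - y))) y := by
    have h4 : -(fderiv ℝ (hker N) (x - y)) = (fderiv ℝ (hker N) (x - y)).comp (-ContinuousLinearMap.id ℝ (E n)) := by
      ext v; simp
    rw [h4]
    exact hd.comp y ((hasFDerivAt_id y).const_sub x)
  rw [h2.fderiv, h3.fderiv]
  simp

/-- normalization constant -/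
noncomputable def cN (n N : ℕ) : ℝ := ∫ y in closedBall (0 : E n) 3, hker N y

theorem cN_eq (N : ℕ) (x : E n) : ∫ y in closedBall x 3, (1 - ‖x - y‖ ^ 2 / 9) ^ N = cN n N := by
  rw [cN, ← integral_indicator measurableSet_closedBall, ← integral_indicator measurableSet_closedBall,
    ← integral_sub_left_eq_self _ _ x]
  congr 1
  funext y
  have h0 : x - y ∈ closedBall x 3 ↔ y ∈ closedBall (0 : E n) 3 := by
    rw [mem_closedBall, dist_eq_norm, mem_closedBall_zero_iff, show x - y - x = -y by abel, norm_neg]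
  by_cases h : y ∈ closedBall (0 : E n) 3
  · rw [Set.indicator_of_mem h, Set.indicator_of_mem (h0.2 h), sub_sub_cancel]
    rfl
  · rw [Set.indicator_of_notMem h, Set.indicator_of_notMem (fun h' => h (h0.1 h'))]

theorem ker_nonneg (N : ℕ) (x y : E n) (h : y ∈ closedBall x 3) : 0 ≤ (1 - ‖x - y‖ ^ 2 / 9) ^ N := by
  apply pow_nonneg
  rw [mem_closedBall, dist_eq_norm, norm_sub_rev] at h
  have := norm_nonneg (x - y)
  nlinarith

theorem cN_pos (n N : ℕ) : 0 < cN n N := by
  rw [cN, setIntegral_pos_iff_support_of_nonneg_ae]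
  · have : IsOpen (Function.support (hker N : E n → ℝ)) := (hker_contDiff N (k := 1)).continuous.isOpen_support
    apply lt_of_lt_of_le ((this.inter isOpen_ball).measure_pos volume ⟨0, ?_, mem_ball_self (by norm_num : (0:ℝ) < 3)⟩)
    · apply measure_mono
      exact Set.inter_subset_inter_right _ ball_subset_closedBall
    · simp [hker]
  · rw [Filter.EventuallyLE, ae_restrict_iff' measurableSet_closedBall]
    filter_upwards with x hx
    have := ker_nonneg N x 0 (by rw [mem_closedBall, dist_comm]; exact hx)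
    simpa [hker] using this
  · exact (hker_contDiff N (k := 1)).continuous.continuousOn.integrableOn_compact (isCompact_closedBall _ _)

/-- convergence of the Landau means -/
theorem landau_tendsto (g : E n → ℝ) (hg : Continuous g) (x : E n) :
    Tendsto (fun N : ℕ => (cN n N)⁻¹ * ∫ y in closedBall x 3, (1 - ‖x - y‖ ^ 2 / 9) ^ N * g y) atTop (𝓝 (g x)) := by
  have h := tendsto_setIntegral_pow_smul_of_unique_maximum_of_isCompact_of_continuousOn
    (μ := (volume : Measure (E n))) (s := closedBall x 3) (c := fun y => 1 - ‖x - y‖ ^ 2 / 9) (x₀ := x) (g := g)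
    (isCompact_closedBall _ _) (by fun_prop) ?_ ?_ ?_ ?_ hg.continuousOn
  · simp only [smul_eq_mul, cN_eq] at h
    exact h
  · intro y _ hy
    have : 0 < ‖x - y‖ := by
      rw [norm_pos_iff, sub_ne_zero]; exact hy.symm
    simp only [sub_self, norm_zero]
    nlinarith
  · intro y hy
    have := ker_nonneg 1 x y hy
    simpa using this
  · simp
  · rw [interior_closedBall x (by norm_num : (3 : ℝ) ≠ 0)]
    exact subset_closure (mem_ball_self (by norm_num))

theorem landau_bound (g : E n → ℝ) (hg : Continuous g) (M : ℝ) (hM : ∀ y, |g y| ≤ M) (N : ℕ) (x : E n) :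
    |(cN n N)⁻¹ * ∫ y in closedBall x 3, (1 - ‖x - y‖ ^ 2 / 9) ^ N * g y| ≤ M := by
  have hc := cN_pos n N
  rw [abs_mul, abs_of_pos (inv_pos.2 hc), inv_mul_le_iff₀ hc]
  have h1 : |∫ y in closedBall x 3, (1 - ‖x - y‖ ^ 2 / 9) ^ N * g y| ≤
      ∫ y in closedBall x 3, (1 - ‖x - y‖ ^ 2 / 9) ^ N * M := by
    refine (abs_integral_le_integral_abs).trans ?_
    apply setIntegral_mono_on
    · apply ContinuousOn.integrableOn_compact (isCompact_closedBall _ _)
      apply Continuous.continuousOn; fun_prop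
    · apply ContinuousOn.integrableOn_compact (isCompact_closedBall _ _)
      apply Continuous.continuousOn; fun_prop
    · exact measurableSet_closedBall
    · intro y hy
      have := ker_nonneg N x y hy
      rw [abs_mul, abs_of_nonneg this]
      exact mul_le_mul_of_nonneg_left (hM y) this
  refine h1.trans ?_
  rw [integral_mul_const, cN_eq]

end Pool.Agent.Helper50.Korn
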