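import Pool.Agent.Helper50.KornMain

set_option autoImplicit false

open MvPolynomial

namespace Pool.Agent.Helper50.Korn

/-- maximiser of a generalized Rayleigh quotient -/
theorem exists_max {V : Type*} [AddCommGroup V] [Module ℝ V] [Module.Finite ℝ V]
    (A B : V →ₗ[ℝ] V →ₗ[ℝ] ℝ) (hA : ∀ v w, A v w = A w v) (hB : ∀ v w, B v w = B w v)
    (hpos : ∀ v, v ≠ 0 → 0 < B v v) (v0 : V) (hv0 : v0 ≠ 0) :
    ∃ κ : ℝ, ∃ u : V, u ≠ 0 ∧ (∀ w, A w w ≤ κ * B w w) ∧ (∀ w, A u w = κ * B u w) := by
  classical
  set k := Module.finrank ℝ V with hk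
  let e : V ≃ₗ[ℝ] (Fin k → ℝ) := (Module.finBasis ℝ V).equivFun
  have hcont : ∀ D : V →ₗ[ℝ] V →ₗ[ℝ] ℝ, Continuous (fun x : Fin k → ℝ => D (e.symm x) (e.symm x)) := by
    intro D
    let D1 : (Fin k → ℝ) →ₗ[ℝ] (Fin k → ℝ) →ₗ[ℝ] ℝ := D.compl₁₂ e.symm.toLinearMap e.symm.toLinearMap
    let D2 : (Fin k → ℝ) →ₗ[ℝ] ((Fin k → ℝ) →L[ℝ] ℝ) :=
      (LinearMap.toContinuousLinearMap : ((Fin k → ℝ) →ₗ[ℝ] ℝ) ≃ₗ[ℝ] ((Fin k → ℝ) →L[ℝ] ℝ)).toLinearMap ∘ₗ D1
    have h1 : Continuous D2 := LinearMap.continuous_of_finiteDimensional D2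
    have h2 : Continuous (fun x : Fin k → ℝ => D2 x x) := h1.clm_apply continuous_id
    exact h2
  set s := Metric.sphere (0 : Fin k → ℝ) 1 with hs
  have hscomp : IsCompact s := isCompact_sphere 0 1
  have hne : s.Nonempty := by
    refine ⟨(‖e v0‖)⁻¹ • e v0, ?_⟩
    have h0 : e v0 ≠ 0 := by
      intro h
      exact hv0 ((LinearEquiv.map_eq_zero_iff e).1 h)
    rw [hs, mem_sphere_zero_iff_norm, norm_smul, norm_inv, norm_norm, inv_mul_cancel₀ (norm_ne_zero_iff.2 h0)]
  have hposs : ∀ x ∈ s, 0 < B (e.symm x) (e.symm x) := by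
    intro x hx
    apply hpos
    intro h
    rw [LinearEquiv.map_eq_zero_iff] at h
    rw [h, hs, mem_sphere_zero_iff_norm, norm_zero] at hx
    norm_num at hx
  have hq : ContinuousOn (fun x : Fin k → ℝ => A (e.symm x) (e.symm x) / B (e.symm x) (e.symm x)) s := by
    apply ContinuousOn.div (hcont A).continuousOn (hcont B).continuousOn
    intro x hx
    exact (hposs x hx).ne'
  obtain ⟨x, hx, hmax⟩ := hscomp.exists_isMaxOn hne hq
  set κ := A (e.symm x) (e.symm x) / B (e.symm x) (e.symm x) with hκ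
  set u := e.symm x with hu
  have hu0 : u ≠ 0 := by
    intro h
    have := hposs x hx
    rw [← hu, h] at this
    simp at this
  have hall : ∀ w, A w w ≤ κ * B w w := by
    intro w
    by_cases hw : w = 0
    · subst hw; simp
    · have h0 : e w ≠ 0 := by
        intro h
        exact hw ((LinearEquiv.map_eq_zero_iff e).1 h)
      have hnorm : 0 < ‖e w‖ := norm_pos_iff.2 h0
      have hy : (‖e w‖)⁻¹ • e w ∈ s := by
        rw [hs, mem_sphere_zero_iff_norm, norm_smul, norm_inv, norm_norm, inv_mul_cancel₀ hnorm.ne']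
      have h1 := hmax hy
      simp only [Set.mem_ofPred_eq] at h1
      have h2 : e.symm ((‖e w‖)⁻¹ • e w) = (‖e w‖)⁻¹ • w := by
        rw [map_smul, LinearEquiv.symm_apply_apply]
      rw [h2] at h1
      simp only [map_smul, LinearMap.smul_apply, smul_eq_mul] at h1
      have h3 : 0 < B w w := hpos w hw
      have h4 : (‖e w‖)⁻¹ * ((‖e w‖)⁻¹ * A w w) / ((‖e w‖)⁻¹ * ((‖e w‖)⁻¹ * B w w)) = A w w / B w w := by
        have : (‖e w‖)⁻¹ ≠ 0 := inv_ne_zero hnorm.ne'
        field_simp
      rw [h4] at h1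
      rw [← hu, ← hκ] at h1
      rwa [div_le_iff₀ h3] at h1
  have heq : A u u = κ * B u u := by
    have : B u u ≠ 0 := (hposs x hx).ne'
    rw [hκ]
    field_simp
  refine ⟨κ, u, hu0, hall, ?_⟩
  intro w
  -- first order condition
  by_contra hne'
  set c := κ * B u w - A u w with hc
  have hc0 : c ≠ 0 := by
    intro h; apply hne'; linarith
  set q := κ * B w w - A w w with hqd
  have hq0 : 0 ≤ q := by have := hall w; linarith
  have hall2 : ∀ t : ℝ, 0 ≤ 2 * t * c + t ^ 2 * q := by
    intro t
    have h1 := hall (u + t • w)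
    simp only [map_add, LinearMap.add_apply, map_smul, LinearMap.smul_apply, smul_eq_mul] at h1
    rw [hA w u, hB w u] at h1
    have h2 : 2 * t * c + t ^ 2 * q = κ * (B u u + t * B u w + t * (B u w + t * B w w)) - (A u u + t * A u w + t * (A u w + t * A w w)) := by
      rw [hc, hqd, heq]; ring
    rw [h2]
    linarith
  have h5 := hall2 (-c / (q + 1))
  have hq1 : 0 < q + 1 := by linarith
  have h6 : 2 * (-c / (q + 1)) * c + (-c / (q + 1)) ^ 2 * q = - (c ^ 2 * (q + 2) / (q + 1) ^ 2) := by
    field_simp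
    ring
  rw [h6] at h5
  have h7 : 0 < c ^ 2 * (q + 2) / (q + 1) ^ 2 := by positivity
  linarith

variable {n : ℕ}

/-! ### degree bounds -/

theorem sum_eq_degree (s : Fin n →₀ ℕ) : (s.sum fun _ e => e) = s.degree := by
  rw [Finsupp.sum_fintype _ _ (fun _ => rfl), Finsupp.degree_eq_sum]

theorem tdeg_le_iff (f : P n) (N : ℕ) : f.totalDegree ≤ N ↔ ∀ s : Fin n →₀ ℕ, N < s.degree → coeff s f = 0 := by
  constructor
  · intro h s hs
    by_contra hne
    have h1 := le_totalDegree (mem_support_iff.2 hne)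
    rw [sum_eq_degree] at h1
    omega
  · intro h
    rw [totalDegree]
    apply Finset.sup_le
    intro s hs
    rw [sum_eq_degree]
    by_contra hlt
    push Not at hlt
    exact (mem_support_iff.1 hs) (h s hlt)

theorem tdeg_pd (i : Fin n) (f : P n) (N : ℕ) (h : f.totalDegree ≤ N + 1) :
    (pderiv i f).totalDegree ≤ N := by
  rw [tdeg_le_iff] at *
  intro s hs
  rw [coeff_pderiv, h, zero_mul]
  rw [map_add, Finsupp.degree_single]
  omega

theorem tdeg_pd' (i : Fin n) (f : P n) (N : ℕ) (h : f.totalDegree ≤ N) :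
    (pderiv i f).totalDegree ≤ N := tdeg_pd i f N (by omega)

theorem tdeg_eul (f : P n) (N : ℕ) (h : f.totalDegree ≤ N) : (eul f).totalDegree ≤ N := by
  rw [tdeg_le_iff] at *
  intro s hs
  rw [coeff_eul, h s hs, mul_zero]

theorem tdeg_C_mul (a : ℝ) (f : P n) (N : ℕ) (h : f.totalDegree ≤ N) : (C a * f).totalDegree ≤ N := by
  rw [tdeg_le_iff] at *
  intro s hs
  rw [coeff_C_mul, h s hs, mul_zero]

theorem tdeg_add (f g : P n) (N : ℕ) (hf : f.totalDegree ≤ N) (hg : g.totalDegree ≤ N) :
    (f + g).totalDegree ≤ N := by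
  rw [tdeg_le_iff] at *
  intro s hs
  rw [coeff_add, hf s hs, hg s hs, add_zero]

theorem tdeg_sub (f g : P n) (N : ℕ) (hf : f.totalDegree ≤ N) (hg : g.totalDegree ≤ N) :
    (f - g).totalDegree ≤ N := by
  rw [tdeg_le_iff] at *
  intro s hs
  rw [coeff_sub, hf s hs, hg s hs, sub_zero]

theorem tdeg_sum {ι : Type*} (s : Finset ι) (f : ι → P n) (N : ℕ) (hf : ∀ i ∈ s, (f i).totalDegree ≤ N) :
    (∑ i ∈ s, f i).totalDegree ≤ N := by
  rw [tdeg_le_iff]
  intro t ht
  rw [coeff_sum]
  apply Finset.sum_eq_zero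
  intro i hi
  exact (tdeg_le_iff _ _).1 (hf i hi) t ht

theorem tdeg_mul (f g : P n) (N M : ℕ) (hf : f.totalDegree ≤ N) (hg : g.totalDegree ≤ M) :
    (f * g).totalDegree ≤ N + M := (totalDegree_mul f g).trans (by omega)

theorem tdeg_X (i : Fin n) : (X i : P n).totalDegree ≤ 1 := by
  rw [totalDegree_X]

theorem tdeg_one_sub_r2 : (1 - r2 : P n).totalDegree ≤ 2 := by
  apply tdeg_sub
  · rw [totalDegree_one]; omega
  · rw [r2]
    apply tdeg_sum
    intro i _
    exact (totalDegree_X_pow i 2).le

theorem tdeg_lap (f : P n) (N : ℕ) (h : f.totalDegree ≤ N + 2) : (lap f).totalDegree ≤ N := by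
  rw [lap_apply]
  apply tdeg_sum
  intro i _
  exact tdeg_pd i _ N (tdeg_pd i f (N + 1) h)

theorem tdeg_fk (κ : ℝ) (u : Fin n → P n) (N : ℕ) (h : ∀ i, (u i).totalDegree ≤ N + 2) (i : Fin n) :
    (fk κ u i).totalDegree ≤ N := by
  rw [fk]
  apply tdeg_sub
  · exact tdeg_C_mul _ _ _ (tdeg_lap _ _ (h i))
  · apply tdeg_C_mul
    apply tdeg_pd
    rw [dv]
    apply tdeg_sum
    intro j _
    exact tdeg_pd j _ (N + 1) (h j)

theorem tdeg_bk (κ : ℝ) (u : Fin n → P n) (N : ℕ) (h : ∀ i, (u i).totalDegree ≤ N) (i : Fin n) :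
    (bk κ u i).totalDegree ≤ N := by
  rw [bk]
  apply tdeg_sub
  · exact tdeg_C_mul _ _ _ (tdeg_eul _ _ (h i))
  · apply tdeg_C_mul
    apply tdeg_sub _ _ _ _ (h i)
    apply tdeg_pd
    rw [px]
    apply tdeg_sum
    intro j _
    have := tdeg_mul (X j) (u j) 1 N (tdeg_X j) (h j)
    omega

/-! ### the two quadratic forms -/

/-- Dirichlet form -/
noncomputable def Ab (F : Fnl n) : (Fin n → P n) →ₗ[ℝ] (Fin n → P n) →ₗ[ℝ] ℝ :=
  LinearMap.mk₂ ℝ (fun u v => ∑ i, ∑ j, F.I (pderiv j (u i) * pderiv j (v i)))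
    (by
      intro u v w
      simp only [Pi.add_apply, map_add, add_mul, Finset.sum_add_distrib])
    (by
      intro c u v
      simp only [Pi.smul_apply, Derivation.map_smul, smul_mul_assoc, map_smul, smul_eq_mul,
        Finset.mul_sum])
    (by
      intro u v w
      simp only [Pi.add_apply, map_add, mul_add, Finset.sum_add_distrib])
    (by
      intro c u v
      simp only [Pi.smul_apply, Derivation.map_smul, mul_smul_comm, map_smul, smul_eq_mul,
        Finset.mul_sum])

/-- symmetric gradient -/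
noncomputable def ee (u : Fin n → P n) (i j : Fin n) : P n := C (1 / 2) * (pderiv j (u i) + pderiv i (u j))

/-- strain form -/
noncomputable def Eb (F : Fnl n) : (Fin n → P n) →ₗ[ℝ] (Fin n → P n) →ₗ[ℝ] ℝ :=
  LinearMap.mk₂ ℝ (fun u v => ∑ i, ∑ j, F.I (ee u i j * ee v i j))
    (by
      intro u v w
      simp only [ee, Pi.add_apply, map_add, add_mul, mul_add, Finset.sum_add_distrib]
      ring)
    (by
      intro c u v
      simp only [ee, Pi.smul_apply, Derivation.map_smul, ← smul_add, mul_smul_comm, smul_mul_assoc, map_smul, smul_eq_mul,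
        Finset.mul_sum])
    (by
      intro u v w
      simp only [ee, Pi.add_apply, map_add, mul_add, add_mul, Finset.sum_add_distrib]
      ring)
    (by
      intro c u v
      simp only [ee, Pi.smul_apply, Derivation.map_smul, ← smul_add, mul_smul_comm, map_smul, smul_eq_mul,
        Finset.mul_sum])

theorem Ab_apply (F : Fnl n) (u v : Fin n → P n) :
    Ab F u v = ∑ i, ∑ j, F.I (pderiv j (u i) * pderiv j (v i)) := rfl

theorem Eb_apply (F : Fnl n) (u v : Fin n → P n) :
    Eb F u v = ∑ i, ∑ j, F.I (ee u i j * ee v i j) := rfl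

theorem Ab_symm (F : Fnl n) (u v : Fin n → P n) : Ab F u v = Ab F v u := by
  rw [Ab_apply, Ab_apply]
  apply Finset.sum_congr rfl; intro i _
  apply Finset.sum_congr rfl; intro j _
  rw [mul_comm]

theorem Eb_symm (F : Fnl n) (u v : Fin n → P n) : Eb F u v = Eb F v u := by
  rw [Eb_apply, Eb_apply]
  apply Finset.sum_congr rfl; intro i _
  apply Finset.sum_congr rfl; intro j _
  rw [mul_comm]

theorem Mk_form (F : Fnl n) (κ : ℝ) (u v : Fin n → P n) :
    ∑ i, ∑ j, F.I (Mk κ u i j * pderiv j (v i)) = 2 * (Ab F u v - κ * Eb F u v) := by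
  have h1 : ∑ i, ∑ j, F.I (ee u i j * ee v i j) = ∑ i, ∑ j, F.I (ee u i j * pderiv j (v i)) := by
    have h2 : ∀ i j, F.I (ee u i j * ee v i j) = (1 / 2) * F.I (ee u i j * pderiv j (v i))
        + (1 / 2) * F.I (ee u j i * pderiv i (v j)) := by
      intro i j
      have h3 : ee u i j = ee u j i := by rw [ee, ee, add_comm]
      rw [← F.I_C_mul, ← F.I_C_mul, ← map_add, ← h3]
      congr 1
      rw [ee, ee]
      ring
    simp only [h2, Finset.sum_add_distrib]
    rw [Finset.sum_comm (f := fun i j => (1 / 2 : ℝ) * F.I (ee u j i * pderiv i (v j)))]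
    rw [← Finset.sum_add_distrib]
    apply Finset.sum_congr rfl; intro i _
    rw [← Finset.sum_add_distrib]
    apply Finset.sum_congr rfl; intro j _
    ring
  rw [Ab_apply, Eb_apply, h1, mul_sub, ← mul_assoc, Finset.mul_sum, Finset.mul_sum, ← Finset.sum_sub_distrib]
  apply Finset.sum_congr rfl; intro i _
  rw [Finset.mul_sum, Finset.mul_sum, ← Finset.sum_sub_distrib]
  apply Finset.sum_congr rfl; intro j _
  rw [← F.I_C_mul, ← F.I_C_mul, ← map_sub]
  congr 1
  rw [Mk, ee]
  simp only [map_mul, map_sub, C2]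
  have : (C (1 / 2) : P n) * 2 = 1 := by
    rw [← C2, ← C_mul]; norm_num
  linear_combination ((C κ) * (pderiv j (u i) + pderiv i (u j)) * pderiv j (v i)) * this

/-- symmetric gradient zero implies affine -/
theorem second_zero (u : Fin n → P n) (h : ∀ i j, ee u i j = 0) (i j k : Fin n) :
    pderiv k (pderiv j (u i)) = 0 := by
  have h1 : ∀ i j, pderiv j (u i) = - pderiv i (u j) := by
    intro i j
    have := h i j
    rw [ee] at this
    rcases mul_eq_zero.1 this with h2 | h2
    · rw [C_eq_zero] at h2; norm_num at h2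
    · exact eq_neg_of_add_eq_zero_left h2
  have e1 : pderiv k (pderiv j (u i)) = - pderiv k (pderiv i (u j)) := by rw [h1 i j, map_neg]
  have e2 : pderiv k (pderiv i (u j)) = pderiv i (pderiv k (u j)) := pd_comm _ _ _
  have e3 : pderiv i (pderiv k (u j)) = - pderiv i (pderiv j (u k)) := by rw [h1 j k, map_neg]
  have e4 : pderiv i (pderiv j (u k)) = pderiv j (pderiv i (u k)) := pd_comm _ _ _
  have e5 : pderiv j (pderiv i (u k)) = - pderiv j (pderiv k (u i)) := by rw [h1 k i, map_neg]
  have e6 : pderiv j (pderiv k (u i)) = pderiv k (pderiv j (u i)) := pd_comm _ _ _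
  have e7 : (2 : P n) * pderiv k (pderiv j (u i)) = 0 := by
    linear_combination e1 - e2 - e3 + e4 + e5 - e6
  rcases mul_eq_zero.1 e7 with h2 | h2
  · exact absurd h2 two_ne_zero
  · exact h2

theorem I_one_pos (F : Fnl n) : 0 < F.I (1 : P n) := by
  have := F.pos 1 one_ne_zero
  simpa using this

theorem I_C (F : Fnl n) (a : ℝ) : F.I (C a) = a * F.I 1 := by
  rw [← mul_one (C a), F.I_C_mul]

/-- admissible fields of bounded degree with zero means -/
def Wsub (F : Fnl n) (N : ℕ) : Submodule ℝ (Fin n → restrictTotalDegree (Fin n) ℝ N) where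
  carrier := {u | (∀ i j, F.I (pderiv j (u i : P n) - pderiv i (u j : P n)) = 0) ∧ ∀ i, F.I (u i : P n) = 0}
  add_mem' := by
    intro u v hu hv
    constructor
    · intro i j
      have h1 := hu.1 i j
      have h2 := hv.1 i j
      simp only [map_sub] at h1 h2
      simp only [Pi.add_apply, Submodule.coe_add, map_add, map_sub]
      linarith
    · intro i
      have h1 := hu.2 i
      have h2 := hv.2 i
      simp only [Pi.add_apply, Submodule.coe_add, map_add]
      linarith
  zero_mem' := by
    constructor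
    · intro i j; simp
    · intro i; simp
  smul_mem' := by
    intro c u hu
    constructor
    · intro i j
      have h1 := hu.1 i j
      simp only [map_sub] at h1
      simp only [Pi.smul_apply, Submodule.coe_smul, Derivation.map_smul, map_smul, map_sub, smul_eq_mul]
      rw [← mul_sub, h1, mul_zero]
    · intro i
      have h1 := hu.2 i
      simp only [Pi.smul_apply, Submodule.coe_smul, map_smul, smul_eq_mul]
      rw [h1, mul_zero]

/-- inclusion -/
def inc (F : Fnl n) (N : ℕ) : Wsub F N →ₗ[ℝ] (Fin n → P n) where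
  toFun u := fun i => ((u : Fin n → restrictTotalDegree (Fin n) ℝ N) i : P n)
  map_add' := by intro u v; rfl
  map_smul' := by intro c u; rfl

theorem Eb_pos (F : Fnl n) (u : Fin n → P n) (hskew : ∀ i j, F.I (pderiv j (u i) - pderiv i (u j)) = 0)
    (hmean : ∀ i, F.I (u i) = 0) (hu : u ≠ 0) : 0 < Eb F u u := by
  have hnn : 0 ≤ Eb F u u := by
    rw [Eb_apply]
    apply Finset.sum_nonneg; intro i _
    apply Finset.sum_nonneg; intro j _
    by_cases h : ee u i j = 0
    · rw [h]; simp
    · exact (F.pos _ h).le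
  refine lt_of_le_of_ne hnn (fun h0 => hu ?_)
  have hzero : ∀ i j, ee u i j = 0 := by
    intro i j
    rw [Eb_apply] at h0
    have hnn2 : ∀ i j, 0 ≤ F.I (ee u i j * ee u i j) := by
      intro i j
      by_cases h : ee u i j = 0
      · rw [h]; simp
      · exact (F.pos _ h).le
    have h1 := (Finset.sum_eq_zero_iff_of_nonneg (fun i _ => Finset.sum_nonneg (fun j _ => hnn2 i j))).1 h0.symm i (Finset.mem_univ _)
    have h2 := (Finset.sum_eq_zero_iff_of_nonneg (fun j _ => hnn2 i j)).1 h1 j (Finset.mem_univ _)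
    exact F.eq_zero_of_I _ h2
  have hgrad : ∀ i j, pderiv j (u i) = 0 := by
    intro i j
    have h1 := Fnl.eq_const (pderiv j (u i)) (fun k => second_zero u hzero i j k)
    have h2 : pderiv i (u j) = - pderiv j (u i) := by
      have := hzero i j
      rw [ee] at this
      rcases mul_eq_zero.1 this with h2 | h2
      · rw [C_eq_zero] at h2; norm_num at h2
      · exact eq_neg_of_add_eq_zero_right h2
    have h3 := hskew i j
    rw [h2, h1, sub_neg_eq_add, ← map_add, I_C] at h3
    have h4 := I_one_pos F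
    have h5 : coeff 0 (pderiv j (u i)) = 0 := by
      rcases mul_eq_zero.1 h3 with h | h
      · linarith
      · exact absurd h h4.ne'
    rw [h1, h5, map_zero]
  funext i
  have h1 := Fnl.eq_const (u i) (hgrad i)
  have h2 := hmean i
  rw [h1, I_C] at h2
  have h4 := I_one_pos F
  have h5 : coeff 0 (u i) = 0 := by
    rcases mul_eq_zero.1 h2 with h | h
    · exact h
    · exact absurd h h4.ne'
  rw [h1, h5, map_zero]; rfl

/-- rotation fields -/
noncomputable def rot (m : Fin n → Fin n → ℝ) (i : Fin n) : P n := ∑ j, C (m i j) * X j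

theorem pd_rot (m : Fin n → Fin n → ℝ) (i j : Fin n) : pderiv j (rot m i) = C (m i j) := by
  rw [rot, map_sum, Finset.sum_eq_single j]
  · rw [pderiv_C_mul, pderiv_X_self, mul_one]
  · intro k _ hk
    rw [pderiv_C_mul, pderiv_X_of_ne hk, mul_zero]
  · simp

/-- the inequality on polynomial fields -/
theorem poly_korn (F : Fnl n) (hn : 3 ≤ n) (K : ℝ) (hK4 : 4 ≤ K)
    (hK : ∀ κ : ℝ, K < κ → ∀ m : ℕ, (2 * (m : ℝ) + 2 - κ) * (2 * n - 4 + 4 * m) - 2 * κ * m * (m - 1) ≠ 0)
    (u : Fin n → P n) (hskew : ∀ i j, F.I (pderiv j (u i) - pderiv i (u j)) = 0) :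
    Ab F u u ≤ K * Eb F u u := by
  classical
  -- subtract the mean
  set c : Fin n → P n := fun i => C (F.I (u i) / F.I 1) with hc
  set u' : Fin n → P n := fun i => u i - c i with hu'
  have hpd : ∀ i j, pderiv j (u' i) = pderiv j (u i) := by
    intro i j
    simp only [hu', hc]
    rw [pd_sub, pderiv_C, sub_zero]
  have hA : Ab F u u = Ab F u' u' := by
    rw [Ab_apply, Ab_apply]; simp only [hpd]
  have hE : Eb F u u = Eb F u' u' := by
    rw [Eb_apply, Eb_apply]; simp only [ee, hpd]
  rw [hA, hE]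
  have hI1 := I_one_pos F
  have hskew' : ∀ i j, F.I (pderiv j (u' i) - pderiv i (u' j)) = 0 := by
    intro i j; rw [hpd, hpd]; exact hskew i j
  have hmean' : ∀ i, F.I (u' i) = 0 := by
    intro i
    simp only [hu', hc]
    rw [map_sub, I_C]
    field_simp
    ring
  by_cases hu0 : u' = 0
  · rw [hu0]; simp
  -- degree bound
  set N := (∑ i, (u' i).totalDegree) with hN
  have hdeg : ∀ i, (u' i).totalDegree ≤ N + 2 := by
    intro i
    have := Finset.single_le_sum (f := fun i => (u' i).totalDegree) (fun _ _ => Nat.zero_le _) (Finset.mem_univ i)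
    omega
  let w0 : Wsub F (N + 2) := ⟨fun i => ⟨u' i, (mem_restrictTotalDegree _ _ _).2 (hdeg i)⟩, ⟨hskew', hmean'⟩⟩
  have hw0 : inc F (N + 2) w0 = u' := rfl
  have hincinj : ∀ w, inc F (N + 2) w = 0 → w = 0 := by
    intro w hw
    apply Subtype.ext
    funext i
    apply Subtype.ext
    exact congrFun hw i
  have hw0ne : w0 ≠ 0 := by
    intro h
    apply hu0
    rw [← hw0, h, map_zero]
  obtain ⟨κ, w, hwne, hall, hEL⟩ := exists_max ((Ab F).compl₁₂ (inc F (N + 2)) (inc F (N + 2)))
    ((Eb F).compl₁₂ (inc F (N + 2)) (inc F (N + 2)))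
    (by intro v w; simp only [LinearMap.compl₁₂_apply]; exact Ab_symm F _ _)
    (by intro v w; simp only [LinearMap.compl₁₂_apply]; exact Eb_symm F _ _)
    (by
      intro v hv
      simp only [LinearMap.compl₁₂_apply]
      exact Eb_pos F _ v.2.1 v.2.2 (fun h => hv (hincinj v h)))
    w0 hw0ne
  simp only [LinearMap.compl₁₂_apply] at hall hEL
  have hEpos : 0 < Eb F u' u' := Eb_pos F u' hskew' hmean' hu0
  by_cases hκ : κ ≤ K
  · have h1 := hall w0
    rw [hw0] at h1
    exact h1.trans (mul_le_mul_of_nonneg_right hκ hEpos.le)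
  · push Not at hκ
    exfalso
    set z := inc F (N + 2) w with hz
    have hzdeg : ∀ i, (z i).totalDegree ≤ N + 2 := fun i =>
      (mem_restrictTotalDegree _ _ _).1 ((w : Fin n → restrictTotalDegree (Fin n) ℝ (N + 2)) i).2
    have hzskew : ∀ i j, F.I (pderiv j (z i) - pderiv i (z j)) = 0 := w.2.1
    have hzmean : ∀ i, F.I (z i) = 0 := w.2.2
    -- Euler-Lagrange for all fields of degree at most N + 2
    have hfull : ∀ v : Fin n → P n, (∀ i, (v i).totalDegree ≤ N + 2) → Ab F z v = κ * Eb F z v := by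
      intro v hv
      set m : Fin n → Fin n → ℝ := fun i j => F.I (pderiv j (v i) - pderiv i (v j)) / (2 * F.I 1) with hm
      have hmskew : ∀ i j, m i j = - m j i := by
        intro i j
        simp only [hm, map_sub]
        ring
      set v1 : Fin n → P n := fun i => v i - rot m i with hv1
      set cc : Fin n → P n := fun i => C (F.I (v1 i) / F.I 1) with hcc
      set v2 : Fin n → P n := fun i => v1 i - cc i with hv2
      have hpd1 : ∀ i j, pderiv j (v1 i) = pderiv j (v i) - C (m i j) := by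
        intro i j; simp only [hv1]; rw [pd_sub, pd_rot]
      have hpd2 : ∀ i j, pderiv j (v2 i) = pderiv j (v i) - C (m i j) := by
        intro i j; simp only [hv2, hcc]; rw [pd_sub, hpd1, pderiv_C, sub_zero]
      have hv2skew : ∀ i j, F.I (pderiv j (v2 i) - pderiv i (v2 j)) = 0 := by
        intro i j
        rw [hpd2, hpd2]
        have e1 : pderiv j (v i) - C (m i j) - (pderiv i (v j) - C (m j i))
          = (pderiv j (v i) - pderiv i (v j)) - C (m i j - m j i) := by
          rw [C_sub]; ring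
        rw [e1, map_sub, I_C]
        have e2 : m i j - m j i = 2 * m i j := by rw [hmskew j i]; ring
        rw [e2]
        simp only [hm]
        field_simp
        ring
      have hv2mean : ∀ i, F.I (v2 i) = 0 := by
        intro i
        simp only [hv2, hcc]
        rw [map_sub, I_C]
        field_simp
        ring
      have hrotdeg : ∀ i, (rot m i).totalDegree ≤ N + 2 := by
        intro i
        rw [rot]
        apply tdeg_sum
        intro j _
        apply tdeg_C_mul
        have := tdeg_X j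
        omega
      have hv2deg : ∀ i, (v2 i).totalDegree ≤ N + 2 := by
        intro i
        simp only [hv2, hv1, hcc]
        apply tdeg_sub
        · exact tdeg_sub _ _ _ (hv i) (hrotdeg i)
        · rw [totalDegree_C]; omega
      let w2 : Wsub F (N + 2) := ⟨fun i => ⟨v2 i, (mem_restrictTotalDegree _ _ _).2 (hv2deg i)⟩, ⟨hv2skew, hv2mean⟩⟩
      have h1 := hEL w2
      have hw2 : inc F (N + 2) w2 = v2 := rfl
      rw [hw2] at h1
      have hA2 : Ab F z v2 = Ab F z v := by
        rw [Ab_apply, Ab_apply]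
        have e1 : ∑ i, ∑ j, F.I (pderiv j (z i) * pderiv j (v2 i))
            = ∑ i, ∑ j, F.I (pderiv j (z i) * pderiv j (v i)) - ∑ i, ∑ j, m i j * F.I (pderiv j (z i)) := by
          rw [← Finset.sum_sub_distrib]
          apply Finset.sum_congr rfl; intro i _
          rw [← Finset.sum_sub_distrib]
          apply Finset.sum_congr rfl; intro j _
          rw [hpd2, mul_sub, map_sub, mul_comm (pderiv j (z i)) (C (m i j)), F.I_C_mul]
        have e2 : ∑ i, ∑ j, m i j * F.I (pderiv j (z i)) = 0 := by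
          have e3 : ∑ i, ∑ j, m i j * F.I (pderiv j (z i)) = - ∑ i, ∑ j, m i j * F.I (pderiv j (z i)) := by
            conv_lhs => rw [Finset.sum_comm]
            rw [← Finset.sum_neg_distrib]
            apply Finset.sum_congr rfl; intro i _
            rw [← Finset.sum_neg_distrib]
            apply Finset.sum_congr rfl; intro j _
            have e4 := hzskew i j
            rw [map_sub] at e4
            rw [hmskew j i]
            have : F.I (pderiv i (z j)) = F.I (pderiv j (z i)) := by linarith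
            rw [this]
            ring
          linarith
        rw [e1, e2, sub_zero]
      have hE2 : Eb F z v2 = Eb F z v := by
        rw [Eb_apply, Eb_apply]
        have : ∀ i j, ee v2 i j = ee v i j := by
          intro i j
          rw [ee, ee, hpd2, hpd2, hmskew j i, C_neg]
          ring
        simp only [this]
      rw [hA2, hE2] at h1
      exact h1
    have hgreen : ∀ v : Fin n → P n, (∀ i, (v i).totalDegree ≤ N + 2) →
        ∑ i, F.S (bk κ z i * v i) - ∑ i, F.I (fk κ z i * v i) = 0 := by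
      intro v hv
      rw [← green, Mk_form, hfull v hv]
      ring
    have hfdeg := tdeg_fk κ z N hzdeg
    have hf0 : ∀ i, fk κ z i = 0 := by
      have h1 := hgreen (fun i => (1 - r2) * fk κ z i) (by
        intro i
        have := tdeg_mul (1 - r2) (fk κ z i) 2 N tdeg_one_sub_r2 (hfdeg i)
        omega)
      have e1 : ∀ i ∈ Finset.univ, F.S (bk κ z i * ((1 - r2) * fk κ z i)) = 0 := by
        intro i _
        rw [show bk κ z i * ((1 - r2) * fk κ z i) = (1 - r2) * (bk κ z i * fk κ z i) by ring, F.S_one_sub_r2]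
      rw [Finset.sum_eq_zero e1, zero_sub, neg_eq_zero] at h1
      have hnn : ∀ i ∈ Finset.univ, 0 ≤ F.I (fk κ z i * ((1 - r2) * fk κ z i)) := by
        intro i _
        rw [show fk κ z i * ((1 - r2) * fk κ z i) = (1 - r2) * (fk κ z i * fk κ z i) by ring]
        by_cases h : fk κ z i = 0
        · rw [h]; simp
        · exact (F.posw _ h).le
      intro i
      have h2 := (Finset.sum_eq_zero_iff_of_nonneg hnn).1 h1 i (Finset.mem_univ _)
      by_contra hne
      have h3 := F.posw _ hne
      rw [show fk κ z i * ((1 - r2) * fk κ z i) = (1 - r2) * (fk κ z i * fk κ z i) by ring] at h2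
      linarith
    have hb0 : ∀ i g, F.S (bk κ z i * g) = 0 := by
      have h1 := hgreen (bk κ z) (tdeg_bk κ z (N + 2) hzdeg)
      have e1 : ∀ i ∈ Finset.univ, F.I (fk κ z i * bk κ z i) = 0 := by
        intro i _
        rw [hf0 i, zero_mul, map_zero]
      rw [Finset.sum_eq_zero e1, sub_zero] at h1
      intro i g
      apply F.S_cs
      exact (Finset.sum_eq_zero_iff_of_nonneg (fun i _ => F.S_nonneg (bk κ z i))).1 h1 i (Finset.mem_univ _)
    have hconst := key F hn κ (by linarith) (hK κ hκ) z hf0 hb0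
    apply hwne
    apply hincinj
    funext i
    have h1 := hconst i
    have h2 := hzmean i
    rw [h1, I_C] at h2
    have h5 : coeff 0 (z i) = 0 := by
      rcases mul_eq_zero.1 h2 with h | h
      · exact h
      · exact absurd h hI1.ne'
    rw [← hz, h1, h5, map_zero]; rfl

end Pool.Agent.Helper50.Korn
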