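import Pool.Agent.Helper50.KornDens
import Pool.Agent.Helper50.KornFD

set_option autoImplicit false

open MvPolynomial MeasureTheory Metric Filter Topology

namespace Pool.Agent.Helper50.Korn

variable {n : ℕ}

theorem fderiv_out (g : E n → ℝ) (hsup : ∀ x, x ∉ closedBall (0 : E n) 2 → g x = 0) (y : E n)
    (hy : y ∉ closedBall (0 : E n) 2) : fderiv ℝ g y = 0 := by
  have h1 : g =ᶠ[𝓝 y] fun _ => 0 := by
    filter_upwards [isClosed_closedBall.isOpen_compl.mem_nhds hy] with z hz
    exact hsup z hz
  rw [h1.fderiv_eq]; simp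

/-- polynomial approximants of a `C¹` function with support in the ball of radius two -/
theorem exists_approx (g : E n → ℝ) (hg : ContDiff ℝ 1 g) (hsup : ∀ x, x ∉ closedBall (0 : E n) 2 → g x = 0)
    (N : ℕ) : ∃ Q : P n, ∀ x ∈ ball (0 : E n) 1, ∀ j, ev (pderiv j Q) x =
      (cN n N)⁻¹ * ∫ y in closedBall x 3, (1 - ‖x - y‖ ^ 2 / 9) ^ N * fderiv ℝ g y (EuclideanSpace.single j 1) := by
  have hgc : HasCompactSupport g := by
    apply HasCompactSupport.of_support_subset_isCompact (isCompact_closedBall (0 : E n) 2)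
    intro x hx
    by_contra hx'
    exact hx (hsup x hx')
  obtain ⟨Q, hQ⟩ := exists_intg (lk N) (lk_nice N) g hg.continuous hgc
  refine ⟨C (cN n N)⁻¹ * Q, ?_⟩
  intro x hx j
  rw [pderiv_C_mul, ev_mul, ev_C]
  congr 1
  have h1 : ev (pderiv j Q) x = ∫ y, g y * ev (pderiv j (lk N y)) x := by
    let ℓ : P n →ₗ[ℝ] ℝ :=
      { toFun := fun f => ev (pderiv j f) x
        map_add' := by intro a b; rw [map_add, ev_add]
        map_smul' := by intro a b; rw [← C_mul', pderiv_C_mul, ev_mul, ev_C]; rfl }
    exact hQ ℓ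
  rw [h1]
  have h2 : ∀ y, g y * ev (pderiv j (lk N y)) x =
      - (g y * fderiv ℝ (fun y => hker N (x - y)) y (EuclideanSpace.single j 1)) := by
    intro y; rw [ev_pd_lk]; ring
  simp only [h2]
  rw [integral_neg]
  have hk : ContDiff ℝ 1 (fun y : E n => hker N (x - y)) :=
    (hker_contDiff N).comp (contDiff_const.sub contDiff_id)
  have h3 := integral_mul_fderiv_eq_neg_fderiv_mul_of_integrable (μ := (volume : Measure (E n)))
    (f := g) (g := fun y => hker N (x - y)) (v := EuclideanSpace.single j 1) ?_ ?_ ?_ ?_ ?_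
  · rw [h3, neg_neg]
    symm
    have h4 : ∀ y : E n, (1 - ‖x - y‖ ^ 2 / 9) ^ N * fderiv ℝ g y (EuclideanSpace.single j 1) =
        fderiv ℝ g y (EuclideanSpace.single j 1) * hker N (x - y) := by
      intro y; rw [hker]; ring
    simp only [h4]
    apply setIntegral_eq_integral_of_forall_compl_eq_zero
    intro y hy
    rw [fderiv_out g hsup y]
    · simp
    · intro hy2
      apply hy
      rw [mem_closedBall_zero_iff] at hy2
      rw [mem_ball_zero_iff] at hx
      rw [mem_closedBall, dist_eq_norm]
      have := norm_sub_le y x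
      linarith
  · apply Continuous.integrable_of_hasCompactSupport
    · exact ((hg.continuous_fderiv (by simp)).clm_apply continuous_const).mul hk.continuous
    · exact (hgc.fderiv_apply (𝕜 := ℝ) _).mul_right
  · apply Continuous.integrable_of_hasCompactSupport
    · exact hg.continuous.mul ((hk.continuous_fderiv (by simp)).clm_apply continuous_const)
    · exact hgc.mul_right
  · apply Continuous.integrable_of_hasCompactSupport
    · exact hg.continuous.mul hk.continuous
    · exact hgc.mul_right
  · intro y _; exact hg.differentiable (by simp) y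
  · intro y _; exact hk.differentiable (by simp) y

/-- the volume of the unit ball -/
noncomputable def vol (n : ℕ) : ℝ := ∫ _ in ball (0 : E n) 1, (1 : ℝ)

theorem vol_eq (n : ℕ) : vol n = (ballFnl n).I 1 := by
  rw [ballFnl_I, vol]
  simp only [ev_one]

theorem vol_pos (n : ℕ) : 0 < vol n := by
  rw [vol_eq]; exact I_one_pos _

/-- Korn defect of a matrix field -/
noncomputable def GG (K : ℝ) (M : E n → Fin n → Fin n → ℝ) : ℝ :=
  K * (∫ x in ball (0 : E n) 1, ∑ i, ∑ j, ((M x i j + M x j i) / 2) ^ 2)
  + 1 / (4 * vol n) * (∑ i, ∑ j, (∫ x in ball (0 : E n) 1, (M x i j - M x j i)) ^ 2)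
  - (∫ x in ball (0 : E n) 1, ∑ i, ∑ j, (M x i j) ^ 2)

theorem ball_finite : volume (ball (0 : E n) 1) < ⊤ := measure_ball_lt_top

theorem GG_tendsto (K : ℝ) (Mk : ℕ → E n → Fin n → Fin n → ℝ) (M : E n → Fin n → Fin n → ℝ) (B : ℝ)
    (hmeas : ∀ k i j, AEStronglyMeasurable (fun x => Mk k x i j) (volume.restrict (ball (0 : E n) 1)))
    (hB : ∀ k, ∀ x ∈ ball (0 : E n) 1, ∀ i j, |Mk k x i j| ≤ B)
    (hlim : ∀ x ∈ ball (0 : E n) 1, ∀ i j, Tendsto (fun k => Mk k x i j) atTop (𝓝 (M x i j))) :
    Tendsto (fun k => GG K (Mk k)) atTop (𝓝 (GG K M)) := by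
  have hconst : ∀ c : ℝ, Integrable (fun _ : E n => c) (volume.restrict (ball (0 : E n) 1)) := by
    intro c
    exact integrableOn_const (ball_finite.ne)
  have hsq : ∀ a b : ℝ, |a| ≤ B → |b| ≤ B → ((a + b) / 2) ^ 2 ≤ B ^ 2 := by
    intro a b ha hb
    apply sq_le_sq'
    · have := abs_le.1 ha; have := abs_le.1 hb; linarith
    · have := abs_le.1 ha; have := abs_le.1 hb; linarith
  unfold GG
  apply Tendsto.sub
  · apply Tendsto.add
    · apply Tendsto.const_mul
      apply tendsto_integral_of_dominated_convergence (fun _ => ∑ i : Fin n, ∑ j : Fin n, B ^ 2)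
      · intro k
        apply Finset.aestronglyMeasurable_fun_sum
        intro i _
        apply Finset.aestronglyMeasurable_fun_sum
        intro j _
        have hcc : Continuous fun p : ℝ × ℝ => ((p.1 + p.2) / 2) ^ 2 := by fun_prop
        exact hcc.comp_aestronglyMeasurable ((hmeas k i j).prodMk (hmeas k j i))
      · exact hconst _
      · intro k
        rw [ae_restrict_iff' measurableSet_ball]
        filter_upwards with x hx
        rw [Real.norm_eq_abs, abs_of_nonneg (Finset.sum_nonneg fun i _ => Finset.sum_nonneg fun j _ => sq_nonneg _)]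
        apply Finset.sum_le_sum
        intro i _
        apply Finset.sum_le_sum
        intro j _
        exact hsq _ _ (hB k x hx i j) (hB k x hx j i)
      · rw [ae_restrict_iff' measurableSet_ball]
        filter_upwards with x hx
        apply tendsto_finsetSum
        intro i _
        apply tendsto_finsetSum
        intro j _
        exact (((hlim x hx i j).add (hlim x hx j i)).div_const 2).pow 2
    · apply Tendsto.const_mul
      apply tendsto_finsetSum
      intro i _
      apply tendsto_finsetSum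
      intro j _
      apply Tendsto.pow
      apply tendsto_integral_of_dominated_convergence (fun _ => B + B)
      · intro k
        exact (hmeas k i j).sub (hmeas k j i)
      · exact hconst _
      · intro k
        rw [ae_restrict_iff' measurableSet_ball]
        filter_upwards with x hx
        rw [Real.norm_eq_abs]
        exact (abs_sub _ _).trans (add_le_add (hB k x hx i j) (hB k x hx j i))
      · rw [ae_restrict_iff' measurableSet_ball]
        filter_upwards with x hx
        exact (hlim x hx i j).sub (hlim x hx j i)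
  · apply tendsto_integral_of_dominated_convergence (fun _ => ∑ i : Fin n, ∑ j : Fin n, B ^ 2)
    · intro k
      apply Finset.aestronglyMeasurable_fun_sum
      intro i _
      apply Finset.aestronglyMeasurable_fun_sum
      intro j _
      exact (hmeas k i j).pow 2
    · exact hconst _
    · intro k
      rw [ae_restrict_iff' measurableSet_ball]
      filter_upwards with x hx
      rw [Real.norm_eq_abs, abs_of_nonneg (Finset.sum_nonneg fun i _ => Finset.sum_nonneg fun j _ => sq_nonneg _)]
      apply Finset.sum_le_sum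
      intro i _
      apply Finset.sum_le_sum
      intro j _
      have := abs_le.1 (hB k x hx i j)
      exact sq_le_sq' this.1 this.2
    · rw [ae_restrict_iff' measurableSet_ball]
      filter_upwards with x hx
      apply tendsto_finsetSum
      intro i _
      apply tendsto_finsetSum
      intro j _
      exact (hlim x hx i j).pow 2


theorem Ab_int (u : Fin n → P n) : Ab (ballFnl n) u u =
    ∫ x in ball (0 : E n) 1, ∑ i, ∑ j, (ev (pderiv j (u i)) x) ^ 2 := by
  rw [Ab_apply]
  simp only [← map_sum]
  rw [ballFnl_I]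
  congr 1
  funext x
  rw [ev_sum]
  apply Finset.sum_congr rfl
  intro i _
  rw [ev_sum]
  apply Finset.sum_congr rfl
  intro j _
  rw [ev_mul]; ring

theorem Eb_int (u : Fin n → P n) : Eb (ballFnl n) u u =
    ∫ x in ball (0 : E n) 1, ∑ i, ∑ j, ((ev (pderiv j (u i)) x + ev (pderiv i (u j)) x) / 2) ^ 2 := by
  rw [Eb_apply]
  simp only [← map_sum]
  rw [ballFnl_I]
  congr 1
  funext x
  rw [ev_sum]
  apply Finset.sum_congr rfl
  intro i _
  rw [ev_sum]
  apply Finset.sum_congr rfl
  intro j _
  rw [ev_mul, ee, ev_mul, ev_C, ev_add]; ring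

theorem sq_expand (q : P n) (a : ℝ) : (q - C a) * (q - C a) = q * q - C (2 * a) * q + C (a ^ 2) := by
  rw [map_mul, map_pow, show (C (2 : ℝ) : P n) = 2 from rfl]; ring

/-- the Korn inequality for polynomial fields without side condition -/
theorem GG_poly (hn : 3 ≤ n) (K : ℝ) (hK4 : 4 ≤ K)
    (hK : ∀ κ : ℝ, K < κ → ∀ m : ℕ, (2 * (m : ℝ) + 2 - κ) * (2 * n - 4 + 4 * m) - 2 * κ * m * (m - 1) ≠ 0)
    (p : Fin n → P n) : 0 ≤ GG K (fun x i j => ev (pderiv j (p i)) x) := by
  set F := ballFnl n with hF
  have hv : 0 < vol n := vol_pos n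
  have hI1 : F.I 1 = vol n := (vol_eq n).symm
  set d : Fin n → Fin n → ℝ := fun i j => F.I (pderiv j (p i)) with hd
  set w : Fin n → Fin n → ℝ := fun i j => (1 / (2 * vol n)) * (d i j - d j i) with hw
  have hIC : ∀ a : ℝ, F.I (C a) = a * vol n := by intro a; rw [I_C, hI1]
  set u : Fin n → P n := fun i => p i - rot w i with hu
  have hpu : ∀ i j, pderiv j (u i) = pderiv j (p i) - C (w i j) := by
    intro i j; rw [hu]; simp only; rw [map_sub, pd_rot]
  have hskew : ∀ i j, F.I (pderiv j (u i) - pderiv i (u j)) = 0 := by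
    intro i j
    rw [hpu, hpu, map_sub, map_sub, map_sub, hIC, hIC]
    simp only [hw]
    have e1 : F.I (pderiv j (p i)) = d i j := rfl
    have e2 : F.I (pderiv i (p j)) = d j i := rfl
    rw [e1, e2]
    field_simp
    ring
  have hmain := poly_korn F hn K hK4 hK u hskew
  have hA : Ab F u u = Ab F p p - (1 / (4 * vol n)) * ∑ i, ∑ j, (d i j - d j i) ^ 2 := by
    have h1 : ∀ i j, F.I (pderiv j (u i) * pderiv j (u i)) =
        F.I (pderiv j (p i) * pderiv j (p i)) - 2 * w i j * d i j + vol n * (w i j) ^ 2 := by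
      intro i j
      rw [hpu]
      have e : (pderiv j (p i) - C (w i j)) * (pderiv j (p i) - C (w i j)) =
          pderiv j (p i) * pderiv j (p i) - C (2 * w i j) * pderiv j (p i) + C ((w i j) ^ 2) :=
        sq_expand _ _
      rw [e, map_add, map_sub, F.I_C_mul, hIC]
      simp only [hd]
      ring
    rw [Ab_apply, Ab_apply]
    simp only [h1]
    have h2 : ∑ i, ∑ j, (F.I (pderiv j (p i) * pderiv j (p i)) - 2 * w i j * d i j + vol n * (w i j) ^ 2) =
        (∑ i, ∑ j, F.I (pderiv j (p i) * pderiv j (p i))) - 2 * (∑ i, ∑ j, w i j * d i j) +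
        vol n * ∑ i, ∑ j, (w i j) ^ 2 := by
      simp only [Finset.sum_add_distrib, Finset.sum_sub_distrib, Finset.mul_sum, mul_assoc]
    rw [h2]
    have h3 : ∑ i, ∑ j, w i j * d i j = (1 / 2) * ∑ i, ∑ j, w i j * (d i j - d j i) := by
      have h4 : ∑ i, ∑ j, w i j * d j i = - ∑ i, ∑ j, w i j * d i j := by
        rw [Finset.sum_comm, ← Finset.sum_neg_distrib]
        apply Finset.sum_congr rfl
        intro i _
        rw [← Finset.sum_neg_distrib]
        apply Finset.sum_congr rfl
        intro j _
        simp only [hw]; ring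
      have h5 : ∑ i, ∑ j, w i j * (d i j - d j i) = ∑ i, ∑ j, w i j * d i j - ∑ i, ∑ j, w i j * d j i := by
        simp only [mul_sub, Finset.sum_sub_distrib]
      rw [h5, h4]; ring
    have h6 : ∑ i, ∑ j, w i j * (d i j - d j i) = (1 / (2 * vol n)) * ∑ i, ∑ j, (d i j - d j i) ^ 2 := by
      rw [Finset.mul_sum]
      apply Finset.sum_congr rfl
      intro i _
      rw [Finset.mul_sum]
      apply Finset.sum_congr rfl
      intro j _
      simp only [hw]; ring
    have h7 : ∑ i, ∑ j, (w i j) ^ 2 = (1 / (2 * vol n)) ^ 2 * ∑ i, ∑ j, (d i j - d j i) ^ 2 := by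
      rw [Finset.mul_sum]
      apply Finset.sum_congr rfl
      intro i _
      rw [Finset.mul_sum]
      apply Finset.sum_congr rfl
      intro j _
      simp only [hw]; ring
    rw [h3, h6, h7]
    field_simp
    ring
  have hE : Eb F u u = Eb F p p := by
    rw [Eb_apply, Eb_apply]
    have : ∀ i j, ee u i j = ee p i j := by
      intro i j
      rw [ee, ee, hpu, hpu]
      have : C (w i j) + C (w j i) = (0 : P n) := by
        rw [← map_add]
        simp only [hw]
        rw [show 1 / (2 * vol n) * (d i j - d j i) + 1 / (2 * vol n) * (d j i - d i j) = 0 by ring, map_zero]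
      have e : pderiv j (p i) - C (w i j) + (pderiv i (p j) - C (w j i)) =
        pderiv j (p i) + pderiv i (p j) - (C (w i j) + C (w j i)) := by ring
      rw [e, this, sub_zero]
    simp only [this]
  rw [hA, hE] at hmain
  unfold GG
  rw [← Ab_int, ← Eb_int]
  have h8 : ∑ i, ∑ j, (∫ x in ball (0 : E n) 1, (ev (pderiv j (p i)) x - ev (pderiv i (p j)) x)) ^ 2 =
      ∑ i, ∑ j, (d i j - d j i) ^ 2 := by
    apply Finset.sum_congr rfl
    intro i _
    apply Finset.sum_congr rfl
    intro j _
    rw [integral_sub (ev_intOn _) (ev_intOn _)]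
    rfl
  rw [h8]
  rw [← hF]
  linarith

/-- the Korn inequality for compactly supported `C¹` fields -/
theorem GG_cc (hn : 3 ≤ n) (K : ℝ) (hK4 : 4 ≤ K)
    (hK : ∀ κ : ℝ, K < κ → ∀ m : ℕ, (2 * (m : ℝ) + 2 - κ) * (2 * n - 4 + 4 * m) - 2 * κ * m * (m - 1) ≠ 0)
    (g : Fin n → E n → ℝ) (hg : ∀ i, ContDiff ℝ 1 (g i)) (hsup : ∀ i, ∀ x, x ∉ closedBall (0 : E n) 2 → g i x = 0) :
    0 ≤ GG K (fun x i j => fderiv ℝ (g i) x (EuclideanSpace.single j 1)) := by
  choose Q hQ using fun (i : Fin n) (N : ℕ) => exists_approx (g i) (hg i) (hsup i) N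
  have hcont : ∀ i j, Continuous fun x : E n => fderiv ℝ (g i) x (EuclideanSpace.single j 1) := by
    intro i j
    exact ((hg i).continuous_fderiv (by simp)).clm_apply continuous_const
  have hbd : ∀ i j, ∃ B : ℝ, ∀ x : E n, |fderiv ℝ (g i) x (EuclideanSpace.single j 1)| ≤ B := by
    intro i j
    obtain ⟨B, hB⟩ := (isCompact_closedBall (0 : E n) 2).exists_bound_of_continuousOn (hcont i j).continuousOn
    refine ⟨max B 0, fun x => ?_⟩
    by_cases hx : x ∈ closedBall (0 : E n) 2
    · exact (hB x hx).trans (le_max_left _ _)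
    · rw [fderiv_out (g i) (hsup i) x hx]; simp
  choose B hB using hbd
  set B0 : ℝ := ∑ i, ∑ j, |B i j| with hB0
  have hBle : ∀ i j, B i j ≤ B0 := by
    intro i j
    refine (le_abs_self _).trans ?_
    have h1 : |B i j| ≤ ∑ j, |B i j| := Finset.single_le_sum (f := fun j => |B i j|) (fun _ _ => abs_nonneg _) (Finset.mem_univ j)
    refine h1.trans ?_
    exact Finset.single_le_sum (f := fun i => ∑ j, |B i j|) (fun _ _ => Finset.sum_nonneg fun _ _ => abs_nonneg _) (Finset.mem_univ i)
  have ht := GG_tendsto K (fun N x i j => ev (pderiv j (Q i N)) x)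
    (fun x i j => fderiv ℝ (g i) x (EuclideanSpace.single j 1)) B0 ?_ ?_ ?_
  · exact ge_of_tendsto' ht (fun N => GG_poly hn K hK4 hK (fun i => Q i N))
  · intro k i j
    exact (ev_cont _).aestronglyMeasurable
  · intro N x hx i j
    rw [hQ i N x hx j]
    exact (landau_bound _ (hcont i j) _ (hB i j) N x).trans (hBle i j)
  · intro x hx i j
    simp only [hQ i _ x hx j]
    exact landau_tendsto _ (hcont i j) x

end Pool.Agent.Helper50.Korn
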