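import Pool.Agent.Helper50.KornFD

set_option autoImplicit false

open MvPolynomial

namespace Pool.Agent.Helper50.Korn

variable {n : ℕ}

/-- real and imaginary part of `(x_a + i x_b)^k` -/
noncomputable def cpair (a b : Fin n) : ℕ → P n × P n
  | 0 => (1, 0)
  | (k + 1) => (X a * (cpair a b k).1 - X b * (cpair a b k).2, X a * (cpair a b k).2 + X b * (cpair a b k).1)

theorem cpair_pd (a b : Fin n) (hab : a ≠ b) (k : ℕ) :
    pderiv a (cpair a b (k + 1)).1 = C ((k : ℝ) + 1) * (cpair a b k).1 ∧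
    pderiv b (cpair a b (k + 1)).1 = - (C ((k : ℝ) + 1) * (cpair a b k).2) ∧
    pderiv a (cpair a b (k + 1)).2 = C ((k : ℝ) + 1) * (cpair a b k).2 ∧
    pderiv b (cpair a b (k + 1)).2 = C ((k : ℝ) + 1) * (cpair a b k).1 := by
  have hba : b ≠ a := hab.symm
  induction k with
  | zero =>
    simp [cpair, pderiv_X_of_ne hab, pderiv_X_of_ne hba]
  | succ k ih =>
    obtain ⟨i1, i2, i3, i4⟩ := ih
    have e1 : (cpair a b (k + 1)).1 = X a * (cpair a b k).1 - X b * (cpair a b k).2 := rfl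
    have e2 : (cpair a b (k + 1)).2 = X a * (cpair a b k).2 + X b * (cpair a b k).1 := rfl
    have f1 : (cpair a b (k + 1 + 1)).1 = X a * (cpair a b (k + 1)).1 - X b * (cpair a b (k + 1)).2 := rfl
    have f2 : (cpair a b (k + 1 + 1)).2 = X a * (cpair a b (k + 1)).2 + X b * (cpair a b (k + 1)).1 := rfl
    rw [f1, f2, pd_sub, pd_sub, pd_add, pd_add, pderiv_mul, pderiv_mul, pderiv_mul, pderiv_mul,
      pderiv_mul, pderiv_mul, pderiv_mul, pderiv_mul, i1, i2, i3, i4, pderiv_X_self, pderiv_X_self,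
      pderiv_X_of_ne hba, pderiv_X_of_ne hab]
    push_cast
    simp only [map_add, map_one]
    refine ⟨?_, ?_, ?_, ?_⟩
    · rw [e1]; ring
    · rw [e2]; ring
    · rw [e2]; ring
    · rw [e1]; ring

theorem cpair_pd_other (a b c : Fin n) (hca : a ≠ c) (hcb : b ≠ c) (k : ℕ) :
    pderiv c (cpair a b k).1 = 0 ∧ pderiv c (cpair a b k).2 = 0 := by
  induction k with
  | zero => simp [cpair]
  | succ k ih =>
    obtain ⟨i1, i2⟩ := ih
    have f1 : (cpair a b (k + 1)).1 = X a * (cpair a b k).1 - X b * (cpair a b k).2 := rfl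
    have f2 : (cpair a b (k + 1)).2 = X a * (cpair a b k).2 + X b * (cpair a b k).1 := rfl
    rw [f1, f2, pd_sub, pd_add, pderiv_mul, pderiv_mul, pderiv_mul, pderiv_mul, i1, i2,
      pderiv_X_of_ne hca, pderiv_X_of_ne hcb]
    simp

theorem sum_two {M : Type*} [AddCommMonoid M] (a b : Fin n) (hab : a ≠ b) (f : Fin n → M)
    (h : ∀ c, c ≠ a → c ≠ b → f c = 0) : ∑ c, f c = f a + f b := by
  rw [← Finset.add_sum_erase _ _ (Finset.mem_univ a),
    ← Finset.add_sum_erase _ _ (Finset.mem_erase.2 ⟨hab.symm, Finset.mem_univ b⟩)]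
  rw [Finset.sum_eq_zero, add_zero]
  intro c hc
  simp only [Finset.mem_erase, Finset.mem_univ, and_true] at hc
  exact h c hc.2 hc.1

theorem cpair_harm (a b : Fin n) (hab : a ≠ b) (k : ℕ) : lap (cpair a b k).1 = 0 := by
  rw [lap_apply, sum_two a b hab]
  · cases k with
    | zero => simp [cpair]
    | succ k =>
      obtain ⟨i1, i2, -, -⟩ := cpair_pd a b hab k
      rw [i1, i2, pderiv_C_mul, map_neg, pderiv_C_mul]
      cases k with
      | zero => simp [cpair]
      | succ k =>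
        obtain ⟨j1, j2, j3, j4⟩ := cpair_pd a b hab k
        rw [j1, j4]
        ring
  · intro c hca hcb
    rw [(cpair_pd_other a b c hca.symm hcb.symm k).1, map_zero]

theorem cpair_eul (a b : Fin n) (k : ℕ) :
    eul (cpair a b k).1 = C (k : ℝ) * (cpair a b k).1 ∧ eul (cpair a b k).2 = C (k : ℝ) * (cpair a b k).2 := by
  induction k with
  | zero =>
    have : eul (1 : P n) = 0 := by rw [← C_1]; exact eul_C 1
    simp [cpair, this]
  | succ k ih =>
    obtain ⟨i1, i2⟩ := ih
    have f1 : (cpair a b (k + 1)).1 = X a * (cpair a b k).1 - X b * (cpair a b k).2 := rfl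
    have f2 : (cpair a b (k + 1)).2 = X a * (cpair a b k).2 + X b * (cpair a b k).1 := rfl
    rw [f1, f2, map_sub, map_add, eul_X_mul, eul_X_mul, eul_X_mul, eul_X_mul, i1, i2]
    push_cast
    simp only [map_add, map_one]
    constructor <;> ring

theorem cpair_ne (a b : Fin n) (hab : a ≠ b) (k : ℕ) : (cpair a b k).1 ≠ 0 := by
  have h : ∀ k, eval (fun i => if i = a then (1 : ℝ) else 0) (cpair a b k).1 = 1 ∧
      eval (fun i => if i = a then (1 : ℝ) else 0) (cpair a b k).2 = 0 := by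
    intro k
    induction k with
    | zero => simp [cpair]
    | succ k ih =>
      have f1 : (cpair a b (k + 1)).1 = X a * (cpair a b k).1 - X b * (cpair a b k).2 := rfl
      have f2 : (cpair a b (k + 1)).2 = X a * (cpair a b k).2 + X b * (cpair a b k).1 := rfl
      rw [f1, f2]
      simp [ih.1, ih.2, hab.symm]
  intro h0
  have := (h k).1
  rw [h0] at this
  simp at this

/-- existence of a nonzero solid harmonic of each degree -/
theorem exists_harm (hn : 2 ≤ n) (m : ℕ) : ∃ h : P n, h ≠ 0 ∧ lap h = 0 ∧ eul h = C (m : ℝ) * h := by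
  have hab : (⟨0, by omega⟩ : Fin n) ≠ ⟨1, by omega⟩ := by simp
  exact ⟨(cpair ⟨0, by omega⟩ ⟨1, by omega⟩ m).1, cpair_ne _ _ hab m, cpair_harm _ _ hab m, (cpair_eul _ _ m).1⟩

/-- the extremal field -/
noncomputable def ext (α β γ : ℝ) (h : P n) (i : Fin n) : P n :=
  C α * (r2 * pderiv i h) + C β * (X i * h) + C γ * pderiv i h

theorem sum_X_pd (h : P n) : ∑ i, X i * pderiv i h = eul h := (eul_apply h).symm

theorem dv_ext (α β γ : ℝ) (h : P n) (m : ℕ) (hl : lap h = 0) (he : eul h = C (m : ℝ) * h) :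
    dv (ext α β γ h) = C (2 * α * m + β * (n + m)) * h := by
  have h1 : ∀ i ∈ Finset.univ, pderiv i (ext α β γ h i) =
      C α * (2 * (X i * pderiv i h) + r2 * pderiv i (pderiv i h)) + C β * (h + X i * pderiv i h)
      + C γ * pderiv i (pderiv i h) := by
    intro i _
    rw [ext, pd_add, pd_add, pderiv_C_mul, pderiv_C_mul, pderiv_C_mul, pderiv_mul, pderiv_mul, pd_r2,
      pderiv_X_self]
    ring
  rw [dv, Finset.sum_congr rfl h1, Finset.sum_add_distrib, Finset.sum_add_distrib, ← Finset.mul_sum,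
    ← Finset.mul_sum, ← Finset.mul_sum, Finset.sum_add_distrib, Finset.sum_add_distrib, ← Finset.mul_sum,
    ← Finset.mul_sum, sum_X_pd, ← lap_apply, hl, he]
  simp only [Finset.sum_const, Finset.card_univ, Fintype.card_fin, nsmul_eq_mul, map_add, map_mul,
    map_natCast, C2]
  ring

theorem lap_ext (α β γ : ℝ) (h : P n) (m : ℕ) (hl : lap h = 0) (he : eul h = C (m : ℝ) * h) (i : Fin n) :
    lap (ext α β γ h i) = C (α * (2 * n + 4 * m - 4) + 2 * β) * pderiv i h := by
  have e1 : eul (pderiv i h) = C ((m : ℝ) - 1) * pderiv i h := by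
    have := pd_eul i h
    rw [he, pderiv_C_mul] at this
    rw [C_sub, C_1, sub_mul, one_mul, this]
    ring
  rw [ext, map_add lap, map_add lap, lap_C_mul, lap_C_mul, lap_C_mul, lap_r2_mul, lap_X_mul, lap_pd, hl, e1, map_zero]
  simp only [map_add, map_mul, map_sub, map_one, C2]
  rw [show (C (4 : ℝ) : P n) = 4 from rfl]
  ring

theorem px_ext (α β γ : ℝ) (h : P n) (m : ℕ) (he : eul h = C (m : ℝ) * h) :
    px (ext α β γ h) = C (α * m + β) * (r2 * h) + C (γ * m) * h := by
  have h1 : ∀ i ∈ Finset.univ, X i * ext α β γ h i =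
      C α * (r2 * (X i * pderiv i h)) + C β * (X i ^ 2 * h) + C γ * (X i * pderiv i h) := by
    intro i _
    rw [ext]; ring
  rw [px, Finset.sum_congr rfl h1, Finset.sum_add_distrib, Finset.sum_add_distrib, ← Finset.mul_sum,
    ← Finset.mul_sum, ← Finset.mul_sum, ← Finset.mul_sum, ← Finset.sum_mul, sum_X_pd, he, ← r2]
  simp only [map_add, map_mul]
  ring

theorem bk_ext (κ α β γ : ℝ) (h : P n) (m : ℕ) (he : eul h = C (m : ℝ) * h)
    (h1 : β * (2 * (m + 1) - κ * (m + 2)) = 2 * κ * m * α)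
    (h2 : 2 * (1 - κ) * (m - 1) * γ = -(α * (2 * (m + 1) - 2 * κ * m) - κ * β)) (i : Fin n) :
    bk κ (ext α β γ h) i = (1 - r2) * (C (-(α * (2 * (m + 1) - 2 * κ * m) - κ * β)) * pderiv i h) := by
  have e1 : eul (pderiv i h) = C ((m : ℝ) - 1) * pderiv i h := by
    have := pd_eul i h
    rw [he, pderiv_C_mul] at this
    rw [C_sub, C_1, sub_mul, one_mul, this]
    ring
  have e2 : eul (ext α β γ h i) = C (α * (m + 1)) * (r2 * pderiv i h) + C (β * (m + 1)) * (X i * h)
      + C (γ * (m - 1)) * pderiv i h := by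
    rw [ext, map_add eul, map_add eul, eul_C_mul, eul_C_mul, eul_C_mul, eul_mul, eul_X_mul, eul_r2, e1, he]
    simp only [map_add, map_mul, map_sub, map_one]
    ring
  rw [bk, px_ext α β γ h m he, e2, pd_add, pderiv_C_mul, pderiv_C_mul, pderiv_mul, pd_r2, ext]
  have h1' := congrArg (C : ℝ → P n) h1
  have h2' := congrArg (C : ℝ → P n) h2
  simp only [map_add, map_mul, map_sub, map_one, map_neg, C2] at h1' h2' ⊢
  linear_combination (X i * h) * h1' + (pderiv i h) * h2'

theorem fk_ext (κ α β γ : ℝ) (h : P n) (m : ℕ) (hl : lap h = 0) (he : eul h = C (m : ℝ) * h)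
    (h3 : (2 - κ) * (α * (2 * n + 4 * m - 4) + 2 * β) = κ * (2 * α * m + β * (n + m))) (i : Fin n) :
    fk κ (ext α β γ h) i = 0 := by
  rw [fk, lap_ext α β γ h m hl he, dv_ext α β γ h m hl he, pderiv_C_mul, ← mul_assoc, ← mul_assoc,
    ← C_mul, ← C_mul, h3, sub_self]

theorem skew_ext (F : Fnl n) (α β γ : ℝ) (h : P n) (i j : Fin n) :
    F.I (pderiv j (ext α β γ h i) - pderiv i (ext α β γ h j)) = 0 := by
  have e1 : pderiv j (ext α β γ h i) - pderiv i (ext α β γ h j)
      = C (2 * α - β) * (X j * pderiv i h - X i * pderiv j h) := by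
    rw [ext, ext, pd_add, pd_add, pd_add, pd_add, pderiv_C_mul, pderiv_C_mul, pderiv_C_mul, pderiv_C_mul,
      pderiv_C_mul, pderiv_C_mul, pderiv_mul, pderiv_mul, pderiv_mul, pderiv_mul, pd_r2, pd_r2,
      pd_comm i j h, map_sub, map_mul, C2]
    by_cases hij : i = j
    · subst hij; ring
    · rw [pderiv_X_of_ne hij, pderiv_X_of_ne (Ne.symm hij)]
      ring
  rw [e1, F.I_C_mul]
  have e2 : F.I (X j * pderiv i h - X i * pderiv j h) = 0 := by
    have f1 : pderiv i (X j * h) - pderiv j (X i * h) = X j * pderiv i h - X i * pderiv j h := by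
      rw [pderiv_mul, pderiv_mul]
      by_cases hij : i = j
      · subst hij; ring
      · rw [pderiv_X_of_ne hij, pderiv_X_of_ne (Ne.symm hij)]
        ring
    rw [← f1, map_sub, F.I_pd, F.I_pd, show X i * (X j * h) = X j * (X i * h) by ring, sub_self]
  rw [e2, mul_zero]

/-- the extremal field attains the value -/
theorem ext_attains (F : Fnl n) (hn : 3 ≤ n) (m : ℕ) (hm : 2 ≤ m) (κ : ℝ) (hκ : 1 < κ)
    (hrel : (2 * (m : ℝ) + 2 - κ) * (2 * n - 4 + 4 * m) = 2 * κ * m * (m - 1)) :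
    ∃ u : Fin n → P n, (∀ i j, F.I (pderiv j (u i) - pderiv i (u j)) = 0) ∧ Ab F u u = κ * Eb F u u ∧
      0 < Eb F u u := by
  obtain ⟨h, hh0, hl, he⟩ := exists_harm (n := n) (by omega) m
  have hm' : (2 : ℝ) ≤ m := by exact_mod_cast hm
  have hn' : (3 : ℝ) ≤ n := by exact_mod_cast hn
  set α : ℝ := 2 * (m + 1) - κ * (m + 2) with hα
  set β : ℝ := 2 * κ * m with hβ
  set γ : ℝ := -(α * (2 * (m + 1) - 2 * κ * m) - κ * β) / (2 * (1 - κ) * (m - 1)) with hγ
  have h1 : β * (2 * (m + 1) - κ * (m + 2)) = 2 * κ * m * α := by rw [hα, hβ]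
  have h2 : 2 * (1 - κ) * (m - 1) * γ = -(α * (2 * (m + 1) - 2 * κ * m) - κ * β) := by
    rw [hγ]
    have : (1 - κ) ≠ 0 := by linarith
    have : ((m : ℝ) - 1) ≠ 0 := by linarith
    field_simp
  have h3 : (2 - κ) * (α * (2 * n + 4 * m - 4) + 2 * β) = κ * (2 * α * m + β * (n + m)) := by
    rw [hα, hβ]
    linear_combination (2 - 2 * κ) * hrel
  refine ⟨ext α β γ h, skew_ext F α β γ h, ?_, ?_⟩
  · have hg := green F κ (ext α β γ h) (ext α β γ h)
    rw [Mk_form] at hg
    have e1 : ∀ i ∈ Finset.univ, F.S (bk κ (ext α β γ h) i * ext α β γ h i) = 0 := by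
      intro i _
      rw [bk_ext κ α β γ h m he h1 h2, mul_assoc, F.S_one_sub_r2]
    have e2 : ∀ i ∈ Finset.univ, F.I (fk κ (ext α β γ h) i * ext α β γ h i) = 0 := by
      intro i _
      rw [fk_ext κ α β γ h m hl he h3, zero_mul, map_zero]
    rw [Finset.sum_eq_zero e1, Finset.sum_eq_zero e2] at hg
    linarith
  · have hnn2 : ∀ i j, 0 ≤ F.I (ee (ext α β γ h) i j * ee (ext α β γ h) i j) := by
      intro i j
      by_cases hz : ee (ext α β γ h) i j = 0
      · rw [hz]; simp
      · exact (F.pos _ hz).le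
    have hnn : 0 ≤ Eb F (ext α β γ h) (ext α β γ h) := by
      rw [Eb_apply]
      exact Finset.sum_nonneg (fun i _ => Finset.sum_nonneg (fun j _ => hnn2 i j))
    refine lt_of_le_of_ne hnn (fun h0 => ?_)
    rw [Eb_apply] at h0
    have hzero : ∀ i j, ee (ext α β γ h) i j = 0 := by
      intro i j
      have g1 := (Finset.sum_eq_zero_iff_of_nonneg (fun i _ => Finset.sum_nonneg (fun j _ => hnn2 i j))).1 h0.symm i (Finset.mem_univ _)
      have g2 := (Finset.sum_eq_zero_iff_of_nonneg (fun j _ => hnn2 i j)).1 g1 j (Finset.mem_univ _)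
      exact F.eq_zero_of_I _ g2
    have hdv : dv (ext α β γ h) = 0 := by
      rw [dv]
      apply Finset.sum_eq_zero
      intro i _
      have := hzero i i
      rw [ee] at this
      rcases mul_eq_zero.1 this with g | g
      · rw [C_eq_zero] at g; norm_num at g
      · have g2 : (2 : P n) * pderiv i (ext α β γ h i) = 0 := by rw [← g]; ring
        rcases mul_eq_zero.1 g2 with g3 | g3
        · exact absurd g3 two_ne_zero
        · exact g3
    rw [dv_ext α β γ h m hl he] at hdv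
    rcases mul_eq_zero.1 hdv with g | g
    · rw [C_eq_zero] at g
      have : 2 * α * m + β * (n + m) = 2 * m * (2 * (m + 1) + κ * (n - 2)) := by
        rw [hα, hβ]; ring
      rw [this] at g
      have : 0 < 2 * (m : ℝ) * (2 * (m + 1) + κ * (n - 2)) := by
        have : 0 < κ * ((n : ℝ) - 2) := mul_pos (by linarith) (by linarith)
        positivity
      linarith
    · exact hh0 g

end Pool.Agent.Helper50.Korn
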