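import Pool.Agent.Helper50.KornDens2
import Pool.Agent.Helper50.KornArith
import Pool.Agent.Helper50.KornLow

set_option autoImplicit false

open MvPolynomial MeasureTheory Metric Filter Topology
open scoped ContDiff

namespace Pool.Agent.Helper50.Korn

variable {n : ℕ}

theorem uniqueDiff_cb : UniqueDiffOn ℝ (closedBall (0 : E n) 1) := by
  apply uniqueDiffOn_convex (convex_closedBall _ _)
  rw [interior_closedBall (0 : E n) (by norm_num : (1 : ℝ) ≠ 0)]
  exact ⟨0, mem_ball_self (by norm_num)⟩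

theorem contDiffAt_of_ball (u : E n → E n) (hu : ContDiffOn ℝ 1 u (closedBall 0 1)) (x : E n)
    (hx : x ∈ ball (0 : E n) 1) : ContDiffAt ℝ 1 u x :=
  hu.contDiffAt (mem_of_superset (isOpen_ball.mem_nhds hx) ball_subset_closedBall)

/-- the general inequality -/
theorem GG_gen (hn : 3 ≤ n) (K : ℝ) (hK4 : 4 ≤ K)
    (hK : ∀ κ : ℝ, K < κ → ∀ m : ℕ, (2 * (m : ℝ) + 2 - κ) * (2 * n - 4 + 4 * m) - 2 * κ * m * (m - 1) ≠ 0)
    (u : E n → E n) (hu : ContDiffOn ℝ 1 u (closedBall 0 1)) :
    0 ≤ GG K (fun x i j => (fderiv ℝ u x (EuclideanSpace.single j 1)) i) := by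
  -- bound for the gradient
  have hcw : ContinuousOn (fderivWithin ℝ u (closedBall (0 : E n) 1)) (closedBall (0 : E n) 1) :=
    hu.continuousOn_fderivWithin uniqueDiff_cb (by simp)
  obtain ⟨B, hB⟩ := (isCompact_closedBall (0 : E n) 1).exists_bound_of_continuousOn hcw
  have hBf : ∀ x ∈ ball (0 : E n) 1, ‖fderiv ℝ u x‖ ≤ B := by
    intro x hx
    have h1 := hB x (ball_subset_closedBall hx)
    rwa [fderivWithin_of_mem_nhds (mem_of_superset (isOpen_ball.mem_nhds hx) ball_subset_closedBall)] at h1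
  have hB0 : 0 ≤ B := (norm_nonneg _).trans (hB 0 (by simp))
  have hBij : ∀ x ∈ ball (0 : E n) 1, ∀ i j, |(fderiv ℝ u x (EuclideanSpace.single j 1)) i| ≤ B := by
    intro x hx i j
    have h1 : ‖(fderiv ℝ u x (EuclideanSpace.single j 1)) i‖ ≤ ‖fderiv ℝ u x (EuclideanSpace.single j 1)‖ :=
      PiLp.norm_apply_le _ i
    have h2 := (fderiv ℝ u x).le_opNorm (EuclideanSpace.single j (1 : ℝ))
    have h3 : ‖(EuclideanSpace.single j (1 : ℝ) : E n)‖ = 1 := by simp
    rw [h3, mul_one] at h2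
    rw [Real.norm_eq_abs] at h1
    exact (h1.trans h2).trans (hBf x hx)
  -- radii
  let r : ℕ → ℝ := fun k => 1 + 1 / ((k : ℝ) + 1)
  have hr1 : ∀ k, 1 < r k := by
    intro k
    have : (0 : ℝ) < 1 / ((k : ℝ) + 1) := by positivity
    show 1 < 1 + 1 / ((k : ℝ) + 1)
    linarith
  have hr2 : ∀ k, r k ≤ 2 := by
    intro k
    have : 1 / ((k : ℝ) + 1) ≤ 1 := by
      rw [div_le_one (by positivity)]
      have : (0 : ℝ) ≤ k := by positivity
      linarith
    show 1 + 1 / ((k : ℝ) + 1) ≤ 2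
    linarith
  have hrt : Tendsto r atTop (𝓝 1) := by
    have h1 := tendsto_one_div_add_atTop_nhds_zero_nat (𝕜 := ℝ)
    have h2 := h1.const_add 1
    rw [add_zero] at h2
    exact h2
  let ρ : ℕ → ℝ := fun k => (r k ^ 2)⁻¹
  have hρ0 : ∀ k, 0 < ρ k := by
    intro k
    have := hr1 k
    show 0 < (r k ^ 2)⁻¹
    positivity
  have hρ1 : ∀ k, ρ k < 1 := by
    intro k
    have := hr1 k
    show (r k ^ 2)⁻¹ < 1
    apply inv_lt_one_of_one_lt₀
    nlinarith
  have hρr : ∀ k, ρ k * r k < 1 := by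
    intro k
    have := hr1 k
    show (r k ^ 2)⁻¹ * r k < 1
    rw [inv_mul_lt_iff₀ (by positivity)]
    nlinarith
  have hρt : Tendsto ρ atTop (𝓝 1) := by
    have h1 := (hrt.pow 2).inv₀ (by norm_num)
    simpa using h1
  -- bump functions
  let φ : (k : ℕ) → ContDiffBump (0 : E n) := fun k => ⟨1, r k, by norm_num, hr1 k⟩
  let g : ℕ → Fin n → E n → ℝ := fun k i x => φ k x * (u (ρ k • x)) i
  have hsc : ∀ k (x : E n), ‖x‖ ≤ r k → ρ k • x ∈ ball (0 : E n) 1 := by
    intro k x hx
    rw [mem_ball_zero_iff, norm_smul, Real.norm_eq_abs, abs_of_pos (hρ0 k)]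
    calc ρ k * ‖x‖ ≤ ρ k * r k := mul_le_mul_of_nonneg_left hx (hρ0 k).le
      _ < 1 := hρr k
  have hcomp : ∀ k i (x : E n), ‖x‖ ≤ r k → ContDiffAt ℝ 1 (fun x => (u (ρ k • x)) i) x := by
    intro k i x hx
    have h1 := contDiffAt_of_ball u hu _ (hsc k x hx)
    have h2 : ContDiffAt ℝ 1 (fun x : E n => ρ k • x) x := (contDiff_const_smul (ρ k)).contDiffAt
    have h3 : ContDiffAt ℝ 1 (fun x => u (ρ k • x)) x := ContDiffAt.comp x h1 h2
    have h4 : ContDiff ℝ 1 (fun v : E n => v i) := (EuclideanSpace.proj i : E n →L[ℝ] ℝ).contDiff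
    exact h4.contDiffAt.comp x h3
  have hg : ∀ k i, ContDiff ℝ 1 (g k i) := by
    intro k i
    rw [contDiff_iff_contDiffAt]
    intro x
    by_cases hx : ‖x‖ ≤ r k
    · exact ((φ k).contDiff.contDiffAt).mul (hcomp k i x hx)
    · push Not at hx
      have h1 : g k i =ᶠ[𝓝 x] fun _ => 0 := by
        have h2 : ∀ᶠ y in 𝓝 x, r k < ‖y‖ := (continuous_norm.tendsto x).eventually (lt_mem_nhds hx)
        filter_upwards [h2] with y hy
        show φ k y * (u (ρ k • y)) i = 0
        rw [(φ k).zero_of_le_dist, zero_mul]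
        rw [dist_zero_right]; exact hy.le
      exact contDiffAt_const.congr_of_eventuallyEq h1
  have hsup : ∀ k i (x : E n), x ∉ closedBall (0 : E n) 2 → g k i x = 0 := by
    intro k i x hx
    rw [mem_closedBall_zero_iff, not_le] at hx
    show φ k x * (u (ρ k • x)) i = 0
    rw [(φ k).zero_of_le_dist, zero_mul]
    rw [dist_zero_right]
    exact (hr2 k).trans hx.le
  have hder : ∀ k i j, ∀ x ∈ ball (0 : E n) 1, fderiv ℝ (g k i) x (EuclideanSpace.single j 1) =
      ρ k * (fderiv ℝ u (ρ k • x) (EuclideanSpace.single j 1)) i := by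
    intro k i j x hx
    have h1 : g k i =ᶠ[𝓝 x] fun y => (u (ρ k • y)) i := by
      filter_upwards [isOpen_ball.mem_nhds hx] with y hy
      show φ k y * (u (ρ k • y)) i = (u (ρ k • y)) i
      rw [(φ k).one_of_mem_closedBall (ball_subset_closedBall hy), one_mul]
    rw [h1.fderiv_eq]
    have hxr : ‖x‖ ≤ r k := by
      rw [mem_ball_zero_iff] at hx
      exact hx.le.trans (hr1 k).le
    have h2 : HasFDerivAt u (fderiv ℝ u (ρ k • x)) (ρ k • x) :=
      ((contDiffAt_of_ball u hu _ (hsc k x hxr)).differentiableAt (by simp)).hasFDerivAt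
    have h3 : HasFDerivAt (fun y : E n => ρ k • y) (ρ k • ContinuousLinearMap.id ℝ (E n)) x :=
      (hasFDerivAt_id x).const_smul (ρ k)
    have h4 := (EuclideanSpace.proj i : E n →L[ℝ] ℝ).hasFDerivAt.comp x (h2.comp x h3)
    have h5 : fderiv ℝ (fun y => (u (ρ k • y)) i) x = _ := h4.fderiv
    rw [h5]
    simp
  have hρball : ∀ k, ∀ x ∈ ball (0 : E n) 1, ρ k • x ∈ ball (0 : E n) 1 := by
    intro k x hx
    rw [mem_ball_zero_iff] at hx
    exact hsc k x (hx.le.trans (hr1 k).le)
  have ht := GG_tendsto K (fun k x i j => fderiv ℝ (g k i) x (EuclideanSpace.single j 1))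
    (fun x i j => (fderiv ℝ u x (EuclideanSpace.single j 1)) i) B ?_ ?_ ?_
  · exact ge_of_tendsto' ht (fun k => GG_cc hn K hK4 hK (g k) (hg k) (hsup k))
  · intro k i j
    exact (((hg k i).continuous_fderiv (by simp)).clm_apply continuous_const).aestronglyMeasurable
  · intro k x hx i j
    rw [hder k i j x hx, abs_mul, abs_of_pos (hρ0 k)]
    have h1 := hBij _ (hρball k x hx) i j
    have h2 := (hρ1 k).le
    have h3 := abs_nonneg ((fderiv ℝ u (ρ k • x) (EuclideanSpace.single j 1)) i)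
    nlinarith [hρ0 k]
  · intro x hx i j
    simp only [hder _ i j x hx]
    have hc : ContinuousAt (fderiv ℝ u) x := by
      have h1 : ContDiffOn ℝ 1 u (ball (0 : E n) 1) := hu.mono ball_subset_closedBall
      exact (h1.continuousOn_fderiv_of_isOpen isOpen_ball (by simp)).continuousAt (isOpen_ball.mem_nhds hx)
    have h2 : Tendsto (fun k => ρ k • x) atTop (𝓝 x) := by
      have := hρt.smul_const x
      rwa [one_smul] at this
    have h3 : Tendsto (fun k => fderiv ℝ u (ρ k • x)) atTop (𝓝 (fderiv ℝ u x)) := hc.tendsto.comp h2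
    have h4 : Continuous fun L : E n →L[ℝ] E n => (L (EuclideanSpace.single j 1)) i := by fun_prop
    have h5 := (h4.tendsto _).comp h3
    have h6 := hρt.mul h5
    rw [one_mul] at h6
    exact h6


theorem frob_sym (u : E n → E n) (x : E n) :
    frob2 ((1 / 2 : ℝ) • (jac u x + (jac u x).transpose)) = ∑ i, ∑ j, ((jac u x i j + jac u x j i) / 2) ^ 2 := by
  unfold frob2
  apply Finset.sum_congr rfl
  intro i _
  apply Finset.sum_congr rfl
  intro j _
  simp only [Matrix.smul_apply, Matrix.add_apply, Matrix.transpose_apply, smul_eq_mul]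
  ring

theorem korn_upper (hn : 3 ≤ n) : KornHolds n (Kval n (mstar n)) := by
  intro u hu hskew
  have h := GG_gen hn (Kval n (mstar n)) (four_le_star n hn) (fun κ hκ m => star_ne n hn κ hκ m) u
    (hu.of_le (by simp))
  unfold GG at h
  have h1 : ∑ i, ∑ j, (∫ x in ball (0 : E n) 1, ((fderiv ℝ u x (EuclideanSpace.single j 1)) i -
      (fderiv ℝ u x (EuclideanSpace.single i 1)) j)) ^ 2 = 0 := by
    apply Finset.sum_eq_zero
    intro i _
    apply Finset.sum_eq_zero
    intro j _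
    have h2 : ∫ x in ball (0 : E n) 1, ((fderiv ℝ u x (EuclideanSpace.single j 1)) i -
      (fderiv ℝ u x (EuclideanSpace.single i 1)) j) = 0 := hskew i j
    rw [h2]; ring
  rw [h1, mul_zero, add_zero] at h
  simp only [frob_sym]
  exact sub_nonneg.1 h

/-- the polynomial field as a map -/
noncomputable def pmap (u : Fin n → P n) (x : E n) : E n := WithLp.toLp 2 (fun i => ev (u i) x)

theorem pmap_contDiff (u : Fin n → P n) {k : WithTop ℕ∞} : ContDiff ℝ k (pmap u) := by
  rw [contDiff_euclidean]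
  intro i
  exact ev_contDiff (u i)

theorem jac_pmap (u : Fin n → P n) (x : E n) (i j : Fin n) : jac (pmap u) x i j = ev (pderiv j (u i)) x := by
  unfold jac
  rw [← ev_fderiv]
  have h1 : HasFDerivAt (pmap u) (fderiv ℝ (pmap u) x) x :=
    ((pmap_contDiff u (k := 1)).differentiable (by simp) x).hasFDerivAt
  have h2 := (EuclideanSpace.proj i : E n →L[ℝ] ℝ).hasFDerivAt.comp x h1
  have h3 : fderiv ℝ (ev (u i)) x = _ := h2.fderiv
  rw [h3]
  rfl

theorem korn_lower (hn : 3 ≤ n) (K : ℝ) (hK : KornHolds n K) : Kval n (mstar n) ≤ K := by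
  have h4 := four_le_star n hn
  obtain ⟨u, hs, hA, hE⟩ := ext_attains (ballFnl n) hn (mstar n) (mstar_two n hn) (Kval n (mstar n))
    (by linarith) (star_rel n hn)
  have h1 := hK (pmap u) (pmap_contDiff u).contDiffOn ?_
  · have h2 : ∫ x in ball (0 : E n) 1, frob2 (jac (pmap u) x) = Ab (ballFnl n) u u := by
      rw [Ab_int]
      simp only [frob2, jac_pmap]
    have h3 : ∫ x in ball (0 : E n) 1, frob2 ((1 / 2 : ℝ) • (jac (pmap u) x + (jac (pmap u) x).transpose)) =
        Eb (ballFnl n) u u := by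
      rw [Eb_int]
      simp only [frob_sym, jac_pmap]
    rw [h2, h3, hA] at h1
    exact le_of_mul_le_mul_right h1 hE
  · intro i j
    have h2 := hs i j
    rw [ballFnl_I] at h2
    simp only [ev_sub] at h2
    simp only [Matrix.sub_apply, Matrix.transpose_apply, jac_pmap]
    exact h2

/-- **The Korn constant of the ball.** -/
theorem korn_ball (n : ℕ) (hn : 3 ≤ n) : IsLeast {K : ℝ | KornHolds n K} (Kval n (mstar n)) :=
  ⟨korn_upper hn, fun K hK => korn_lower hn K hK⟩

end Pool.Agent.Helper50.Korn
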