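import Pool.Agent.Helper50.KornKey

set_option autoImplicit false

open MvPolynomial MeasureTheory Metric Filter Topology

namespace Pool.Agent.Helper50.Korn

variable {n : ℕ}

abbrev E (n : ℕ) := EuclideanSpace ℝ (Fin n)

/-- evaluation of a polynomial at a point -/
noncomputable def ev (f : P n) (x : E n) : ℝ := MvPolynomial.eval (fun i => x i) f

theorem ev_add (f g : P n) (x : E n) : ev (f + g) x = ev f x + ev g x := by simp [ev]
theorem ev_sub (f g : P n) (x : E n) : ev (f - g) x = ev f x - ev g x := by simp [ev]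
theorem ev_mul (f g : P n) (x : E n) : ev (f * g) x = ev f x * ev g x := by simp [ev]
theorem ev_C (a : ℝ) (x : E n) : ev (C a) x = a := by simp [ev]
theorem ev_X (i : Fin n) (x : E n) : ev (X i) x = x i := by simp [ev]
theorem ev_one (x : E n) : ev (1 : P n) x = 1 := by simp [ev]
theorem ev_zero (x : E n) : ev (0 : P n) x = 0 := by simp [ev]
theorem ev_sum {ι : Type*} (s : Finset ι) (f : ι → P n) (x : E n) :
    ev (∑ i ∈ s, f i) x = ∑ i ∈ s, ev (f i) x := by simp [ev]

theorem ev_r2 (x : E n) : ev r2 x = ‖x‖ ^ 2 := by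
  rw [r2, ev_sum, EuclideanSpace.real_norm_sq_eq]
  apply Finset.sum_congr rfl
  intro i _
  simp [ev]

theorem ev_cont (f : P n) : Continuous (ev f) := by
  have : Continuous fun x : Fin n → ℝ => MvPolynomial.eval x f := MvPolynomial.continuous_eval f
  exact this.comp (by fun_prop)

theorem ev_hasFDerivAt (f : P n) (x : E n) :
    HasFDerivAt (ev f) (∑ i, ev (pderiv i f) x • (EuclideanSpace.proj i : E n →L[ℝ] ℝ)) x := by
  induction f using MvPolynomial.induction_on with
  | C a =>
    have h1 : (ev (C a) : E n → ℝ) = fun _ => a := by funext y; exact ev_C a y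
    have h2 : (∑ i, ev (pderiv i (C a)) x • (EuclideanSpace.proj i : E n →L[ℝ] ℝ)) = 0 := by
      apply Finset.sum_eq_zero
      intro i _
      rw [pderiv_C, ev_zero, zero_smul]
    rw [h1, h2]
    exact hasFDerivAt_const a x
  | add p q hp hq =>
    have h1 : (ev (p + q) : E n → ℝ) = fun y => ev p y + ev q y := by funext y; exact ev_add p q y
    rw [h1]
    have h3 := hp.add hq
    have h2 : (∑ i, ev (pderiv i (p + q)) x • (EuclideanSpace.proj i : E n →L[ℝ] ℝ)) =
      (∑ i, ev (pderiv i p) x • (EuclideanSpace.proj i : E n →L[ℝ] ℝ)) +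
      (∑ i, ev (pderiv i q) x • (EuclideanSpace.proj i : E n →L[ℝ] ℝ)) := by
      rw [← Finset.sum_add_distrib]
      apply Finset.sum_congr rfl
      intro i _
      rw [map_add, ev_add, add_smul]
    rw [h2]
    exact h3
  | mul_X p j hp =>
    have h1 : (ev (p * X j) : E n → ℝ) = fun y => ev p y * (EuclideanSpace.proj j : E n →L[ℝ] ℝ) y := by
      funext y; rw [ev_mul, ev_X]; rfl
    rw [h1]
    have h3 := hp.mul (EuclideanSpace.proj j : E n →L[ℝ] ℝ).hasFDerivAt
    have h2 : (∑ i, ev (pderiv i (p * X j)) x • (EuclideanSpace.proj i : E n →L[ℝ] ℝ)) =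
      ev p x • (EuclideanSpace.proj j : E n →L[ℝ] ℝ) + (EuclideanSpace.proj j : E n →L[ℝ] ℝ) x •
      (∑ i, ev (pderiv i p) x • (EuclideanSpace.proj i : E n →L[ℝ] ℝ)) := by
      have h4 : ∀ i ∈ Finset.univ, ev (pderiv i (p * X j)) x • (EuclideanSpace.proj i : E n →L[ℝ] ℝ) =
          (if i = j then ev p x • (EuclideanSpace.proj i : E n →L[ℝ] ℝ) else 0) +
          x j • (ev (pderiv i p) x • (EuclideanSpace.proj i : E n →L[ℝ] ℝ)) := by
        intro i _
        rw [pderiv_mul, pderiv_X, ev_add, ev_mul, ev_mul, ev_X, add_smul, smul_smul, mul_comm (x j), add_comm]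
        congr 1
        by_cases h : j = i
        · subst h; simp [ev_one]
        · have h' : i ≠ j := fun h' => h h'.symm
          simp [h', h, ev_zero]
      rw [Finset.sum_congr rfl h4, Finset.sum_add_distrib, ← Finset.smul_sum]
      simp
    rw [h2]
    exact h3

theorem ev_fderiv (f : P n) (x : E n) (j : Fin n) :
    fderiv ℝ (ev f) x (EuclideanSpace.single j 1) = ev (pderiv j f) x := by
  rw [(ev_hasFDerivAt f x).fderiv]
  have h1 : (∑ i, ev (pderiv i f) x • (EuclideanSpace.proj i : E n →L[ℝ] ℝ)) (EuclideanSpace.single j 1) =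
      ∑ i, ev (pderiv i f) x * (EuclideanSpace.single j (1 : ℝ) : E n) i := by
    simp
  rw [h1, Finset.sum_eq_single j]
  · simp
  · intro i _ hij
    simp [hij]
  · simp

theorem ev_contDiff (f : P n) {k : WithTop ℕ∞} : ContDiff ℝ k (ev f) := by
  induction f using MvPolynomial.induction_on with
  | C a =>
    have h1 : (ev (C a) : E n → ℝ) = fun _ => a := by funext y; exact ev_C a y
    rw [h1]; exact contDiff_const
  | add p q hp hq =>
    have h1 : (ev (p + q) : E n → ℝ) = fun y => ev p y + ev q y := by funext y; exact ev_add p q y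
    rw [h1]; exact hp.add hq
  | mul_X p j hp =>
    have h1 : (ev (p * X j) : E n → ℝ) = fun y => ev p y * (EuclideanSpace.proj j : E n →L[ℝ] ℝ) y := by
      funext y; rw [ev_mul, ev_X]; rfl
    rw [h1]; exact hp.mul (EuclideanSpace.proj j : E n →L[ℝ] ℝ).contDiff


/-! ### the cutoff -/

/-- cutoff profile -/
noncomputable abbrev Hh : ℝ → ℝ := Real.smoothTransition

theorem Hh_diff : Differentiable ℝ Hh := (Real.smoothTransition.contDiff (n := 1)).differentiable (by simp)

theorem dH_cont : Continuous (deriv Hh) := (Real.smoothTransition.contDiff (n := 1)).continuous_deriv (by simp)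

theorem dH_nonneg (t : ℝ) : 0 ≤ deriv Hh t := Real.smoothTransition.monotone.deriv_nonneg

theorem dH_zero (t : ℝ) (ht : t ≤ 0) : deriv Hh t = 0 := by
  apply IsLocalMin.deriv_eq_zero
  apply Filter.Eventually.of_forall
  intro s
  show Real.smoothTransition t ≤ Real.smoothTransition s
  rw [Real.smoothTransition.zero_of_nonpos ht]
  exact Real.smoothTransition.nonneg s

theorem dH_one (t : ℝ) (ht : 1 ≤ t) : deriv Hh t = 0 := by
  apply IsLocalMax.deriv_eq_zero
  apply Filter.Eventually.of_forall
  intro s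
  show Real.smoothTransition s ≤ Real.smoothTransition t
  rw [Real.smoothTransition.one_of_one_le ht]
  exact Real.smoothTransition.le_one s

theorem dH_bound : ∃ M : ℝ, 0 ≤ M ∧ ∀ t, |t * deriv Hh t| ≤ M := by
  obtain ⟨M, hM⟩ := (isCompact_Icc (a := (0 : ℝ)) (b := 1)).exists_bound_of_continuousOn
    (f := fun t => t * deriv Hh t) (by have := dH_cont; fun_prop)
  have hM0 : 0 ≤ M := (norm_nonneg _).trans (hM 0 (by simp))
  refine ⟨M, hM0, ?_⟩
  intro t
  by_cases h0 : t ≤ 0
  · rw [dH_zero t h0]; simpa using hM0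
  by_cases h1 : 1 ≤ t
  · rw [dH_one t h1]; simpa using hM0
  · push Not at h0 h1
    exact hM t ⟨h0.le, h1.le⟩

/-- the defining polynomial of the cutoff -/
noncomputable def cp (k : ℝ) : P n := C k * (1 - r2)

theorem ev_cp (k : ℝ) (x : E n) : ev (cp k) x = k * (1 - ‖x‖ ^ 2) := by
  rw [cp, ev_mul, ev_C, ev_sub, ev_one, ev_r2]

/-- cutoff function -/
noncomputable def cut (k : ℝ) (x : E n) : ℝ := Hh (ev (cp k) x)

theorem cut_contDiff (k : ℝ) : ContDiff ℝ 1 (cut k : E n → ℝ) :=
  (Real.smoothTransition.contDiff (n := 1)).comp (ev_contDiff (cp k))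

theorem cut_out (k : ℝ) (hk : 0 < k) (x : E n) (hx : x ∉ ball (0 : E n) 1) : cut k x = 0 := by
  rw [cut, ev_cp]
  apply Real.smoothTransition.zero_of_nonpos
  rw [mem_ball_zero_iff, not_lt] at hx
  have : 1 ≤ ‖x‖ ^ 2 := by nlinarith
  nlinarith

theorem dcut_out (k : ℝ) (hk : 0 < k) (x : E n) (hx : x ∉ ball (0 : E n) 1) :
    deriv Hh (ev (cp k) x) = 0 := by
  rw [ev_cp]
  apply dH_zero
  rw [mem_ball_zero_iff, not_lt] at hx
  have : 1 ≤ ‖x‖ ^ 2 := by nlinarith
  nlinarith

theorem cut_nonneg (k : ℝ) (x : E n) : 0 ≤ cut k x := Real.smoothTransition.nonneg _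
theorem cut_le_one (k : ℝ) (x : E n) : cut k x ≤ 1 := Real.smoothTransition.le_one _

theorem cut_fderiv (k : ℝ) (x : E n) (j : Fin n) :
    fderiv ℝ (cut k) x (EuclideanSpace.single j 1) = deriv Hh (ev (cp k) x) * (-2 * k * x j) := by
  have h1 : HasFDerivAt (cut k : E n → ℝ) (deriv Hh (ev (cp k) x) • fderiv ℝ (ev (cp k)) x) x := by
    have h2 : HasDerivAt Hh (deriv Hh (ev (cp k) x)) (ev (cp k) x) := (Hh_diff _).hasDerivAt
    exact h2.comp_hasFDerivAt x ((ev_contDiff (cp k) (k := 1)).differentiable (by simp) x).hasFDerivAt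
  rw [h1.fderiv]
  have h3 : (deriv Hh (ev (cp k) x) • fderiv ℝ (ev (cp k)) x) (EuclideanSpace.single j 1) =
      deriv Hh (ev (cp k) x) * (fderiv ℝ (ev (cp k)) x (EuclideanSpace.single j 1)) := rfl
  rw [h3, ev_fderiv]
  congr 1
  rw [cp, pderiv_C_mul, map_sub, pderiv_one, zero_sub, r2, map_sum]
  have h4 : ∑ i, pderiv j (X i ^ 2 : P n) = C 2 * X j := by
    rw [Finset.sum_eq_single j]
    · rw [pderiv_pow, pderiv_X_self]
      simp
      rfl
    · intro i _ hij
      rw [pderiv_pow, pderiv_X_of_ne hij]
      simp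
    · simp
  rw [h4, ev_mul, ev_C]
  have h5 : ev (-(C 2 * X j)) x = -(2 * x j) := by simp [ev]
  rw [h5]; ring

/-- integral of a derivative of a compactly supported function -/
theorem int_fderiv_zero (g : E n → ℝ) (hg : ContDiff ℝ 1 g) (hc : HasCompactSupport g) (v : E n) :
    ∫ x, fderiv ℝ g x v = 0 := by
  have h := integral_mul_fderiv_eq_neg_fderiv_mul_of_integrable (μ := (volume : Measure (E n)))
    (f := fun _ : E n => (1 : ℝ)) (g := g) (v := v) ?_ ?_ ?_ ?_ ?_
  · simpa using h
  · simp
  · simp only [one_mul]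
    apply Continuous.integrable_of_hasCompactSupport
    · exact (hg.continuous_fderiv (by simp)).clm_apply continuous_const
    · exact hc.fderiv_apply (𝕜 := ℝ) v
  · simp only [one_mul]
    exact hg.continuous.integrable_of_hasCompactSupport hc
  · intro x _; exact differentiableAt_const _
  · intro x _; exact hg.differentiable (by simp) x


theorem hcs_of (g : E n → ℝ) (h : ∀ x, x ∉ ball (0 : E n) 1 → g x = 0) : HasCompactSupport g := by
  apply HasCompactSupport.of_support_subset_isCompact (isCompact_closedBall (0 : E n) 1)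
  intro x hx
  by_contra hx'
  exact hx (h x (fun h' => hx' (ball_subset_closedBall h')))

/-- the cutoff divergence identity -/
theorem cut_dvg (F : Fin n → P n) (k : ℝ) (hk : 0 < k) :
    ∫ x in ball (0 : E n) 1, cut k x * ev (dv F) x =
      ∫ x in ball (0 : E n) 1, 2 * k * deriv Hh (ev (cp k) x) * ev (px F) x := by
  have hcd := dH_cont
  have hj : ∀ j, ∫ x : E n, (cut k x * ev (pderiv j (F j)) x +
      deriv Hh (ev (cp k) x) * (-2 * k * x j) * ev (F j) x) = 0 := by
    intro j
    have h1 := int_fderiv_zero (fun x : E n => cut k x * ev (F j) x)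
      ((cut_contDiff k).mul (ev_contDiff (F j)))
      (hcs_of _ (fun x hx => by simp [cut_out k hk x hx])) (EuclideanSpace.single j 1)
    rw [← h1]
    apply integral_congr_ae
    filter_upwards with x
    have h2 : HasFDerivAt (fun x : E n => cut k x * ev (F j) x)
        (cut k x • fderiv ℝ (ev (F j)) x + ev (F j) x • fderiv ℝ (cut k) x) x :=
      ((cut_contDiff k).differentiable (by simp) x).hasFDerivAt.mul
        ((ev_contDiff (F j) (k := 1)).differentiable (by simp) x).hasFDerivAt
    rw [h2.fderiv]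
    have h3 : (cut k x • fderiv ℝ (ev (F j)) x + ev (F j) x • fderiv ℝ (cut k) x) (EuclideanSpace.single j 1) =
      cut k x * (fderiv ℝ (ev (F j)) x (EuclideanSpace.single j 1)) +
      ev (F j) x * (fderiv ℝ (cut k) x (EuclideanSpace.single j 1)) := rfl
    rw [h3, ev_fderiv, cut_fderiv]
    ring
  have hsup : ∀ j, ∀ x : E n, x ∉ ball (0 : E n) 1 → (cut k x * ev (pderiv j (F j)) x +
      deriv Hh (ev (cp k) x) * (-2 * k * x j) * ev (F j) x) = 0 := by
    intro j x hx
    rw [cut_out k hk x hx, dcut_out k hk x hx]; ring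
  have hcut := (cut_contDiff (n := n) k).continuous
  have hint1 : IntegrableOn (fun x : E n => cut k x * ev (dv F) x) (ball 0 1) := by
    have : ContinuousOn (fun x : E n => cut k x * ev (dv F) x) (closedBall 0 1) :=
      (hcut.mul (ev_cont _)).continuousOn
    exact (this.integrableOn_compact (isCompact_closedBall _ _)).mono_set ball_subset_closedBall
  have hint2 : IntegrableOn (fun x : E n => 2 * k * deriv Hh (ev (cp k) x) * ev (px F) x) (ball 0 1) := by
    have : ContinuousOn (fun x : E n => 2 * k * deriv Hh (ev (cp k) x) * ev (px F) x) (closedBall 0 1) := by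
      apply Continuous.continuousOn
      exact ((continuous_const.mul (hcd.comp (ev_cont _))).mul (ev_cont _))
    exact (this.integrableOn_compact (isCompact_closedBall _ _)).mono_set ball_subset_closedBall
  have hintj : ∀ j ∈ Finset.univ, Integrable (fun x : E n => cut k x * ev (pderiv j (F j)) x +
      deriv Hh (ev (cp k) x) * (-2 * k * x j) * ev (F j) x) := by
    intro j _
    apply Continuous.integrable_of_hasCompactSupport
    · have h1 := ev_cont (pderiv j (F j))
      have h2 := ev_cont (F j)
      have h3 : Continuous fun x : E n => deriv Hh (ev (cp k) x) := hcd.comp (ev_cont _)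
      have h4 : Continuous fun x : E n => x j := by fun_prop
      exact (hcut.mul h1).add ((h3.mul (continuous_const.mul h4)).mul h2)
    · exact hcs_of _ (hsup j)
  have hs : ∑ j, ∫ x : E n, (cut k x * ev (pderiv j (F j)) x +
      deriv Hh (ev (cp k) x) * (-2 * k * x j) * ev (F j) x) = 0 := Finset.sum_eq_zero fun j _ => hj j
  rw [← integral_finsetSum _ hintj] at hs
  have h5 : ∀ x : E n, ∑ j, (cut k x * ev (pderiv j (F j)) x +
      deriv Hh (ev (cp k) x) * (-2 * k * x j) * ev (F j) x) =
      cut k x * ev (dv F) x - 2 * k * deriv Hh (ev (cp k) x) * ev (px F) x := by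
    intro x
    rw [dv, px, ev_sum, ev_sum, Finset.mul_sum, Finset.mul_sum, ← Finset.sum_sub_distrib]
    apply Finset.sum_congr rfl
    intro j _
    rw [ev_mul, ev_X]; ring
  have h6 : ∫ x : E n, (cut k x * ev (dv F) x - 2 * k * deriv Hh (ev (cp k) x) * ev (px F) x) = 0 := by
    rw [← hs]
    apply integral_congr_ae
    filter_upwards with x
    exact (h5 x).symm
  have h7 : ∫ x in ball (0 : E n) 1, (cut k x * ev (dv F) x - 2 * k * deriv Hh (ev (cp k) x) * ev (px F) x) = 0 := by
    rw [← h6]
    apply setIntegral_eq_integral_of_forall_compl_eq_zero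
    intro x hx
    rw [cut_out k hk x hx, dcut_out k hk x hx]; ring
  rw [integral_sub hint1 hint2] at h7
  linarith

theorem ev_intOn (f : P n) : IntegrableOn (ev f) (ball (0 : E n) 1) :=
  ((ev_cont f).continuousOn.integrableOn_compact (isCompact_closedBall _ _)).mono_set ball_subset_closedBall

theorem cut_tendsto (g : P n) :
    Tendsto (fun k : ℕ => ∫ x in ball (0 : E n) 1, cut (k : ℝ) x * ev g x) atTop
      (𝓝 (∫ x in ball (0 : E n) 1, ev g x)) := by
  apply tendsto_integral_of_dominated_convergence (fun x => |ev g x|)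
  · intro k
    exact ((cut_contDiff (k : ℝ)).continuous.mul (ev_cont g)).aestronglyMeasurable
  · exact (ev_intOn g).abs
  · intro k
    filter_upwards with x
    rw [Real.norm_eq_abs, abs_mul, abs_of_nonneg (cut_nonneg _ _)]
    have := cut_le_one (k : ℝ) x
    have h2 := abs_nonneg (ev g x)
    nlinarith
  · rw [ae_restrict_iff' measurableSet_ball]
    filter_upwards with x hx
    apply tendsto_const_nhds.congr'
    rw [mem_ball_zero_iff] at hx
    have h1 : 0 < 1 - ‖x‖ ^ 2 := by
      have := norm_nonneg x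
      nlinarith
    obtain ⟨k0, hk0⟩ := exists_nat_ge (1 / (1 - ‖x‖ ^ 2))
    filter_upwards [eventually_ge_atTop k0] with k hk
    rw [cut, ev_cp]
    have h2 : 1 ≤ (k : ℝ) * (1 - ‖x‖ ^ 2) := by
      rw [div_le_iff₀ h1] at hk0
      have : (k0 : ℝ) ≤ k := by exact_mod_cast hk
      nlinarith
    have h3 : Hh ((k : ℝ) * (1 - ‖x‖ ^ 2)) = 1 := Real.smoothTransition.one_of_one_le h2
    rw [h3, one_mul]

theorem dcut_tendsto (g : P n) :
    Tendsto (fun k : ℕ => ∫ x in ball (0 : E n) 1, 2 * (k : ℝ) * deriv Hh (ev (cp (k : ℝ)) x) * ev ((1 - r2) * g) x) atTop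
      (𝓝 0) := by
  obtain ⟨M, hM0, hM⟩ := dH_bound
  have h0 : (0 : ℝ) = ∫ x in ball (0 : E n) 1, (0 : ℝ) := by simp
  rw [h0]
  apply tendsto_integral_of_dominated_convergence (fun x => 2 * M * |ev g x|)
  · intro k
    have h3 : Continuous fun x : E n => deriv Hh (ev (cp (k : ℝ)) x) := dH_cont.comp (ev_cont _)
    exact ((continuous_const.mul h3).mul (ev_cont _)).aestronglyMeasurable
  · exact (ev_intOn g).abs.const_mul _
  · intro k
    filter_upwards with x
    have h1 : 2 * (k : ℝ) * deriv Hh (ev (cp (k : ℝ)) x) * ev ((1 - r2) * g) x =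
        2 * (ev (cp (k : ℝ)) x * deriv Hh (ev (cp (k : ℝ)) x)) * ev g x := by
      rw [ev_mul, ev_cp, ev_sub, ev_one, ev_r2]; ring
    rw [h1, Real.norm_eq_abs, abs_mul, abs_mul, abs_two]
    apply mul_le_mul_of_nonneg_right _ (abs_nonneg _)
    have := hM (ev (cp (k : ℝ)) x)
    linarith
  · rw [ae_restrict_iff' measurableSet_ball]
    filter_upwards with x hx
    apply tendsto_const_nhds.congr'
    rw [mem_ball_zero_iff] at hx
    have h1 : 0 < 1 - ‖x‖ ^ 2 := by
      have := norm_nonneg x
      nlinarith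
    obtain ⟨k0, hk0⟩ := exists_nat_ge (1 / (1 - ‖x‖ ^ 2))
    filter_upwards [eventually_ge_atTop k0] with k hk
    have h2 : 1 ≤ (k : ℝ) * (1 - ‖x‖ ^ 2) := by
      rw [div_le_iff₀ h1] at hk0
      have : (k0 : ℝ) ≤ k := by exact_mod_cast hk
      nlinarith
    rw [ev_cp, dH_one _ h2]
    ring


/-! ### the functional -/

theorem exists_ne (f : P n) (hf : f ≠ 0) : ∃ x ∈ ball (0 : E n) 1, ev f x ≠ 0 := by
  by_contra hcon
  push Not at hcon
  apply hf
  set δ : ℝ := 1 / ((n : ℝ) + 1) with hδ
  have hδ0 : 0 < δ := by positivity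
  apply MvPolynomial.funext_set (fun _ : Fin n => Set.Ioo (-δ) δ)
  · intro i
    exact Set.Ioo_infinite (by linarith)
  · intro y hy
    have h1 : (WithLp.toLp 2 y : E n) ∈ ball (0 : E n) 1 := by
      rw [mem_ball_zero_iff]
      have h2 : ‖(WithLp.toLp 2 y : E n)‖ ^ 2 < 1 := by
        rw [EuclideanSpace.real_norm_sq_eq]
        have h3 : ∀ i ∈ Finset.univ, ((WithLp.toLp 2 y : E n) i) ^ 2 ≤ δ ^ 2 := by
          intro i _
          have h4 := hy i (Set.mem_univ _)
          simp only [Set.mem_Ioo] at h4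
          have h5 : (WithLp.toLp 2 y : E n) i = y i := rfl
          rw [h5]
          nlinarith
        refine (Finset.sum_le_sum h3).trans_lt ?_
        rw [Finset.sum_const, Finset.card_univ, Fintype.card_fin, nsmul_eq_mul, hδ]
        rw [div_pow, one_pow, mul_one_div, div_lt_one (by positivity)]
        have : (0 : ℝ) ≤ n := by positivity
        nlinarith
      have h3 := norm_nonneg (WithLp.toLp 2 y : E n)
      nlinarith
    have h2 := hcon _ h1
    rw [map_zero]
    exact h2

theorem int_pos (g : P n) (hg : ∀ x ∈ ball (0 : E n) 1, 0 ≤ ev g x) (x0 : E n) (hx0 : x0 ∈ ball (0 : E n) 1)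
    (h : ev g x0 ≠ 0) : 0 < ∫ x in ball (0 : E n) 1, ev g x := by
  rw [setIntegral_pos_iff_support_of_nonneg_ae]
  · apply IsOpen.measure_pos
    · exact (ev_cont g).isOpen_support.inter isOpen_ball
    · exact ⟨x0, h, hx0⟩
  · rw [Filter.EventuallyLE, ae_restrict_iff' measurableSet_ball]
    filter_upwards with x hx
    exact hg x hx
  · exact ev_intOn g

/-- the ball integral functional -/
noncomputable def ballFnl (n : ℕ) : Fnl n where
  I :=
    { toFun := fun f => ∫ x in ball (0 : E n) 1, ev f x
      map_add' := by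
        intro f g
        rw [← integral_add (ev_intOn f) (ev_intOn g)]
        simp only [ev_add]
      map_smul' := by
        intro a f
        rw [RingHom.id_apply, smul_eq_mul, ← integral_const_mul]
        congr 1
        funext x
        rw [← C_mul', ev_mul, ev_C] }
  pos := by
    intro f hf
    obtain ⟨x0, hx0, h0⟩ := exists_ne f hf
    apply int_pos _ _ x0 hx0
    · rw [ev_mul]; exact mul_ne_zero h0 h0
    · intro x _
      rw [ev_mul]; exact mul_self_nonneg _
  posw := by
    intro f hf
    obtain ⟨x0, hx0, h0⟩ := exists_ne f hf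
    have hp : ∀ x ∈ ball (0 : E n) 1, 0 < 1 - ‖x‖ ^ 2 := by
      intro x hx
      rw [mem_ball_zero_iff] at hx
      have := norm_nonneg x
      nlinarith
    apply int_pos _ _ x0 hx0
    · rw [ev_mul, ev_mul, ev_sub, ev_one, ev_r2]
      exact mul_ne_zero (hp x0 hx0).ne' (mul_ne_zero h0 h0)
    · intro x hx
      rw [ev_mul, ev_mul, ev_sub, ev_one, ev_r2]
      exact mul_nonneg (hp x hx).le (mul_self_nonneg _)
  dvg := by
    intro i f
    set G : Fin n → P n := fun j => (if j = i then f else 0) - X j * (X i * f) with hG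
    have hdv : dv G = pderiv i f - (C (n : ℝ) * (X i * f) + eul (X i * f)) := by
      rw [dv, eul_apply]
      have h1 : ∀ j ∈ Finset.univ, pderiv j (G j) =
          (if j = i then pderiv i f else 0) - (X i * f) - X j * pderiv j (X i * f) := by
        intro j _
        rw [hG]
        simp only
        rw [map_sub, pderiv_mul, pderiv_X_self, one_mul]
        by_cases hji : j = i
        · subst hji; simp; ring
        · simp [hji]; ring
      rw [Finset.sum_congr rfl h1, Finset.sum_sub_distrib, Finset.sum_sub_distrib]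
      simp
      ring
    have hpx : px G = (1 - r2) * (X i * f) := by
      rw [px]
      have h1 : ∀ j ∈ Finset.univ, X j * G j = (if j = i then X i * f else 0) - X j ^ 2 * (X i * f) := by
        intro j _
        rw [hG]
        simp only
        by_cases hji : j = i
        · subst hji; simp; ring
        · simp [hji]; ring
      rw [Finset.sum_congr rfl h1, Finset.sum_sub_distrib, ← Finset.sum_mul, ← r2]
      simp
      ring
    have h1 := cut_tendsto (dv G)
    have h2 := dcut_tendsto (X i * f)
    rw [← hpx] at h2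
    have h3 : Tendsto (fun k : ℕ => ∫ x in ball (0 : E n) 1, cut (k : ℝ) x * ev (dv G) x) atTop (𝓝 0) := by
      apply h2.congr'
      filter_upwards [eventually_gt_atTop 0] with k hk
      exact (cut_dvg G k (by exact_mod_cast hk)).symm
    have h4 := tendsto_nhds_unique h1 h3
    rw [hdv] at h4
    have h5 : ∫ x in ball (0 : E n) 1, ev (pderiv i f - (C (n : ℝ) * (X i * f) + eul (X i * f))) x =
        (∫ x in ball (0 : E n) 1, ev (pderiv i f) x) -
        ∫ x in ball (0 : E n) 1, ev (C (n : ℝ) * (X i * f) + eul (X i * f)) x := by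
      rw [← integral_sub (ev_intOn _) (ev_intOn _)]
      simp only [ev_sub]
    rw [h5] at h4
    exact sub_eq_zero.1 h4
  bd := by
    intro f
    set G : Fin n → P n := fun j => X j * (f * f) with hG
    have hdv : dv G = C (n : ℝ) * (f * f) + eul (f * f) := by
      rw [dv, eul_apply]
      have h1 : ∀ j ∈ Finset.univ, pderiv j (G j) = f * f + X j * pderiv j (f * f) := by
        intro j _
        rw [hG]
        simp only
        rw [pderiv_mul, pderiv_X_self, one_mul]
      rw [Finset.sum_congr rfl h1, Finset.sum_add_distrib]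
      simp
    have hpx : px G = r2 * (f * f) := by
      rw [px, r2, Finset.sum_mul]
      apply Finset.sum_congr rfl
      intro j _
      rw [hG]; ring
    rw [← hdv]
    apply ge_of_tendsto (cut_tendsto (dv G))
    filter_upwards [eventually_gt_atTop 0] with k hk
    rw [cut_dvg G k (by exact_mod_cast hk)]
    apply setIntegral_nonneg measurableSet_ball
    intro x _
    rw [hpx, ev_mul, ev_mul, ev_r2]
    have h1 := dH_nonneg (ev (cp (k : ℝ)) x)
    have h2 : (0 : ℝ) ≤ k := by positivity
    have h3 := mul_self_nonneg (ev f x)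
    positivity

theorem ballFnl_I (f : P n) : (ballFnl n).I f = ∫ x in ball (0 : E n) 1, ev f x := rfl

end Pool.Agent.Helper50.Korn
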