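import Pool.Agent.Helper50.KornAlg

set_option autoImplicit false

open MvPolynomial

namespace Pool.Agent.Helper50.Korn

variable {n : ℕ}

/-- integral-like functional on polynomials -/
structure Fnl (n : ℕ) where
  I : P n →ₗ[ℝ] ℝ
  pos : ∀ f, f ≠ 0 → 0 < I (f * f)
  posw : ∀ f, f ≠ 0 → 0 < I ((1 - r2) * (f * f))
  dvg : ∀ i f, I (pderiv i f) = I (C (n : ℝ) * (X i * f) + eul (X i * f))
  bd : ∀ f, 0 ≤ I (C (n : ℝ) * (f * f) + eul (f * f))

namespace Fnl

variable (F : Fnl n)

/-- boundary functional -/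
noncomputable def S : P n →ₗ[ℝ] ℝ := F.I ∘ₗ (LinearMap.mulLeft ℝ (C (n : ℝ)) + eul)

theorem S_apply (f : P n) : F.S f = F.I (C (n : ℝ) * f + eul f) := by
  simp [S]

theorem I_pd (i : Fin n) (f : P n) : F.I (pderiv i f) = F.S (X i * f) := by
  rw [F.dvg, S_apply]

theorem S_nonneg (f : P n) : 0 ≤ F.S (f * f) := by
  rw [S_apply]; exact F.bd f

theorem I_C_mul (a : ℝ) (f : P n) : F.I (C a * f) = a * F.I f := by
  rw [C_mul', map_smul, smul_eq_mul]

theorem S_C_mul (a : ℝ) (f : P n) : F.S (C a * f) = a * F.S f := by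
  rw [C_mul', map_smul, smul_eq_mul]

theorem S_r2 (f : P n) : F.S (r2 * f) = F.S f := by
  have h1 : (r2 * f : P n) = ∑ i, X i * (X i * f) := by
    rw [r2, Finset.sum_mul]
    apply Finset.sum_congr rfl
    intro i _
    ring
  rw [h1, map_sum]
  simp only [← F.I_pd]
  rw [← map_sum, S_apply]
  congr 1
  have : ∀ i ∈ Finset.univ, pderiv i (X i * f : P n) = f + X i * pderiv i f := by
    intro i _
    rw [pderiv_mul, pderiv_X_self, one_mul]
  rw [Finset.sum_congr rfl this, Finset.sum_add_distrib, eul_apply]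
  simp

theorem S_one_sub_r2 (f : P n) : F.S ((1 - r2) * f) = 0 := by
  rw [sub_mul, one_mul, map_sub, S_r2, sub_self]

theorem S_cs (f : P n) (hf : F.S (f * f) = 0) (g : P n) : F.S (f * g) = 0 := by
  by_contra hne
  set t : ℝ := -(F.S (g * g) + 1) / (2 * F.S (f * g)) with ht
  have h1 := F.S_nonneg (g + C t * f)
  have h2 : (g + C t * f) * (g + C t * f) = g * g + C (2 * t) * (f * g) + C (t ^ 2) * (f * f) := by
    simp only [map_mul, map_pow]
    rw [show (C (2 : ℝ) : P n) = 2 from rfl]
    ring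
  rw [h2, map_add, map_add, S_C_mul, S_C_mul, hf, mul_zero, add_zero] at h1
  have h3 : 2 * t * F.S (f * g) = -(F.S (g * g) + 1) := by
    rw [ht]; field_simp
  linarith

theorem eq_zero_of_I (f : P n) (h : F.I (f * f) = 0) : f = 0 := by
  by_contra hne
  exact (F.pos f hne).ne' h

theorem eq_const (c : P n) (h : ∀ j, pderiv j c = 0) : c = C (coeff 0 c) := by
  have h1 : eul c = 0 := by
    rw [eul_apply]
    apply Finset.sum_eq_zero
    intro j _
    rw [h j, mul_zero]
  ext α
  by_cases hα : α = 0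
  · subst hα; simp
  · rw [coeff_C, if_neg (Ne.symm hα)]
    have h2 := coeff_eul α c
    rw [h1, coeff_zero] at h2
    have h3 : (α.degree : ℝ) ≠ 0 := by
      rw [Nat.cast_ne_zero, ne_eq, Finsupp.degree_eq_zero_iff]
      exact hα
    rcases mul_eq_zero.1 h2.symm with h4 | h4
    · exact absurd h4 h3
    · exact h4

/-- uniqueness for the Dirichlet problem -/
theorem dirichlet (hn : 0 < n) (c : P n) (hl : lap c = 0) (hS : ∀ g, F.S (c * g) = 0) : c = 0 := by
  have h1 : ∑ j, F.I (pderiv j c * pderiv j c) = 0 := by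
    have h2 : ∀ j ∈ Finset.univ, F.I (pderiv j c * pderiv j c) =
        F.S (c * (X j * pderiv j c)) - F.I (c * pderiv j (pderiv j c)) := by
      intro j _
      have h3 : pderiv j (c * pderiv j c) = pderiv j c * pderiv j c + c * pderiv j (pderiv j c) := by
        rw [pderiv_mul]
      have h4 := F.I_pd j (c * pderiv j c)
      rw [h3, map_add] at h4
      rw [show c * (X j * pderiv j c) = X j * (c * pderiv j c) by ring]
      linarith
    rw [Finset.sum_congr rfl h2, Finset.sum_sub_distrib, ← map_sum, ← map_sum, ← Finset.mul_sum,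
      ← Finset.mul_sum, ← lap_apply, hl, mul_zero, map_zero, sub_zero, hS]
  have h2 : ∀ j, pderiv j c = 0 := by
    intro j
    apply F.eq_zero_of_I
    have hnn : ∀ j ∈ Finset.univ, 0 ≤ F.I (pderiv j c * pderiv j c) := by
      intro j _
      by_cases h : pderiv j c = 0
      · rw [h]; simp
      · exact (F.pos _ h).le
    exact (Finset.sum_eq_zero_iff_of_nonneg hnn).1 h1 j (Finset.mem_univ _)
  have h3 := eq_const c h2
  set a := coeff 0 c
  have h4 := hS c
  rw [h3, ← map_mul, ← mul_one (C (a * a)), F.S_C_mul, S_apply] at h4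
  have h5 : eul (1 : P n) = 0 := by rw [← C_1]; exact eul_C 1
  rw [h5, add_zero, F.I_C_mul] at h4
  have h6 : 0 < F.I (1 : P n) := by
    have := F.pos 1 one_ne_zero
    simpa using this
  have h7 : (0 : ℝ) < n := by exact_mod_cast hn
  have h8 : a * a = 0 := by
    rcases mul_eq_zero.1 h4 with h | h
    · exact h
    · exact absurd h (by positivity)
  have h9 : a = 0 := by simpa using h8
  rw [h3, h9, map_zero]

end Fnl

/-- divergence -/
noncomputable def dv (u : Fin n → P n) : P n := ∑ i, pderiv i (u i)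
/-- `x · u` -/
noncomputable def px (u : Fin n → P n) : P n := ∑ i, X i * u i
/-- the matrix `(2-κ)∇u - κ ∇uᵀ` -/
noncomputable def Mk (κ : ℝ) (u : Fin n → P n) (i j : Fin n) : P n :=
  C (2 - κ) * pderiv j (u i) - C κ * pderiv i (u j)
/-- boundary operator -/
noncomputable def bk (κ : ℝ) (u : Fin n → P n) (i : Fin n) : P n :=
  C (2 - κ) * eul (u i) - C κ * (pderiv i (px u) - u i)
/-- interior operator -/
noncomputable def fk (κ : ℝ) (u : Fin n → P n) (i : Fin n) : P n :=
  C (2 - κ) * lap (u i) - C κ * pderiv i (dv u)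

theorem sum_Mk_X (κ : ℝ) (u : Fin n → P n) (i : Fin n) : ∑ j, X j * Mk κ u i j = bk κ u i := by
  have h1 : pderiv i (px u) = u i + ∑ j, X j * pderiv i (u j) := by
    rw [px, map_sum]
    have : ∀ j ∈ Finset.univ, pderiv i (X j * u j) = (if j = i then u j else 0) + X j * pderiv i (u j) := by
      intro j _
      rw [pderiv_mul, pderiv_X]
      by_cases h : j = i
      · subst h; simp
      · simp [h]
    rw [Finset.sum_congr rfl this, Finset.sum_add_distrib]
    simp
  rw [bk, h1, eul_apply]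
  have : u i + ∑ j, X j * pderiv i (u j) - u i = ∑ j, X j * pderiv i (u j) := by ring
  rw [this, Finset.mul_sum, Finset.mul_sum, ← Finset.sum_sub_distrib]
  apply Finset.sum_congr rfl
  intro j _
  rw [Mk]
  ring

theorem sum_pd_Mk (κ : ℝ) (u : Fin n → P n) (i : Fin n) : ∑ j, pderiv j (Mk κ u i j) = fk κ u i := by
  rw [fk, lap_apply, dv, map_sum, Finset.mul_sum, Finset.mul_sum, ← Finset.sum_sub_distrib]
  apply Finset.sum_congr rfl
  intro j _
  rw [Mk, map_sub, pderiv_C_mul, pderiv_C_mul, pd_comm j i]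

theorem green (F : Fnl n) (κ : ℝ) (u v : Fin n → P n) :
    ∑ i, ∑ j, F.I (Mk κ u i j * pderiv j (v i)) = ∑ i, F.S (bk κ u i * v i) - ∑ i, F.I (fk κ u i * v i) := by
  rw [← Finset.sum_sub_distrib]
  apply Finset.sum_congr rfl
  intro i _
  have h1 : ∀ j ∈ Finset.univ, F.I (Mk κ u i j * pderiv j (v i)) =
      F.S (X j * Mk κ u i j * v i) - F.I (pderiv j (Mk κ u i j) * v i) := by
    intro j _
    have h4 := F.I_pd j (Mk κ u i j * v i)
    rw [pderiv_mul, map_add] at h4
    rw [show X j * Mk κ u i j * v i = X j * (Mk κ u i j * v i) by ring]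
    linarith
  rw [Finset.sum_congr rfl h1, Finset.sum_sub_distrib, ← map_sum, ← map_sum, ← Finset.sum_mul,
    ← Finset.sum_mul, sum_Mk_X, sum_pd_Mk]

end Pool.Agent.Helper50.Korn
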