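import Pool.Agent.Helper50.KornKey

set_option autoImplicit false

open MvPolynomial

namespace Pool.Agent.Helper50.Korn

variable {n : ℕ}

theorem C2 : (C (2 : ℝ) : P n) = 2 := rfl

theorem pd_add (i : Fin n) (f g : P n) : pderiv i (f + g) = pderiv i f + pderiv i g := map_add _ _ _

theorem pd_sub (i : Fin n) (f g : P n) : pderiv i (f - g) = pderiv i f - pderiv i g := map_sub _ _ _

theorem dv_eul (u : Fin n → P n) : ∑ i, pderiv i (eul (u i)) = eul (dv u) + dv u := by
  rw [dv, map_sum, ← Finset.sum_add_distrib]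
  apply Finset.sum_congr rfl
  intro i _
  rw [pd_eul]

theorem lap_px (u : Fin n → P n) : lap (px u) = ∑ i, X i * lap (u i) + 2 * dv u := by
  rw [px, map_sum, dv, Finset.mul_sum, ← Finset.sum_add_distrib]
  apply Finset.sum_congr rfl
  intro i _
  rw [lap_X_mul]

theorem key (F : Fnl n) (hn : 3 ≤ n) (κ : ℝ) (hκ : 4 < κ)
    (hK : ∀ m : ℕ, (2 * (m : ℝ) + 2 - κ) * (2 * n - 4 + 4 * m) - 2 * κ * m * (m - 1) ≠ 0)
    (u : Fin n → P n) (hf : ∀ i, fk κ u i = 0) (hb : ∀ i g, F.S (bk κ u i * g) = 0) :
    ∀ i, u i = C (coeff 0 (u i)) := by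
  have hn' : (3 : ℝ) ≤ n := by exact_mod_cast hn
  have hκ1 : (1 - κ) ≠ 0 := by linarith
  have hκ2 : (2 - κ) ≠ 0 := by linarith
  have hC1 : (C (1 - κ) : P n) ≠ 0 := by rw [ne_eq, C_eq_zero]; exact hκ1
  have hC2 : (C (2 - κ) : P n) ≠ 0 := by rw [ne_eq, C_eq_zero]; exact hκ2
  set θ := dv u with hθ
  -- interior equation
  have hlap : ∀ i, C (2 - κ) * lap (u i) = C κ * pderiv i θ := by
    intro i
    have := hf i
    rw [fk, sub_eq_zero] at this
    exact this
  -- theta is harmonic
  have hθh : lap θ = 0 := by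
    have h1 : ∑ i, pderiv i (C (2 - κ) * lap (u i)) = ∑ i, pderiv i (C κ * pderiv i θ) := by
      apply Finset.sum_congr rfl
      intro i _
      rw [hlap i]
    simp only [pderiv_C_mul] at h1
    rw [← Finset.mul_sum, ← Finset.mul_sum, ← lap_apply] at h1
    have h2 : ∑ i, pderiv i (lap (u i)) = lap θ := by
      rw [hθ, dv, map_sum]
      apply Finset.sum_congr rfl
      intro i _
      rw [lap_pd]
    rw [h2] at h1
    have h3 : C (1 - κ) * lap θ = 0 := by
      have h4 : C 2 * (C (1 - κ) * lap θ) = 0 := by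
        have : C 2 * (C (1 - κ) * lap θ) = C (2 - κ) * lap θ - C κ * lap θ := by
          rw [← mul_assoc, ← C_mul, ← sub_mul, ← C_sub]
          congr 2
          ring
        rw [this, h1, sub_self]
      rcases mul_eq_zero.1 h4 with h | h
      · rw [C_eq_zero] at h; norm_num at h
      · exact h
    rcases mul_eq_zero.1 h3 with h | h
    · exact absurd h hC1
    · exact h
  -- the potential psi
  set φ : ℕ → ℝ := fun m => ((m : ℝ) - 1) / (2 * n - 4 + 4 * m) with hφ
  have hden : ∀ m : ℕ, (2 * (n : ℝ) - 4 + 4 * m) ≠ 0 := by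
    intro m
    have : (0 : ℝ) ≤ m := by positivity
    have : 0 < (2 * (n : ℝ) - 4 + 4 * m) := by linarith
    exact this.ne'
  set ψ := diag φ θ with hψ
  have hψ1 : C (2 * (n : ℝ) - 4) * ψ + C 4 * eul ψ = eul θ - θ := by
    ext α
    rw [coeff_add, coeff_sub, coeff_C_mul, coeff_C_mul, coeff_eul, coeff_eul, hψ, coeff_diag]
    have h1 := hden α.degree
    simp only [hφ]
    field_simp
  have hψh : lap ψ = 0 := by
    have h1 := congrArg lap hψ1
    rw [map_add lap, lap_C_mul, lap_C_mul, map_sub lap, lap_eul, lap_eul, hθh, map_zero, mul_zero, add_zero,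
      sub_zero] at h1
    ext α
    have h2 := congrArg (coeff α) h1
    rw [coeff_add, coeff_C_mul, coeff_C_mul, coeff_add, coeff_eul, ← C2, coeff_C_mul, coeff_zero] at h2
    rw [coeff_zero]
    have h3 : (2 * (n : ℝ) + 4 + 4 * α.degree) * coeff α (lap ψ) = 0 := by linarith
    rcases mul_eq_zero.1 h3 with h | h
    · have : (0 : ℝ) ≤ α.degree := by positivity
      linarith
    · exact h
  -- identification of the boundary field
  have hc : ∀ i, C (2 - κ) * bk κ u i = C (2 * κ * (1 - κ)) * ((r2 - 1) * pderiv i ψ) := by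
    intro i
    rw [← sub_eq_zero]
    apply F.dirichlet (by omega)
    · rw [map_sub lap, lap_C_mul, lap_C_mul]
      have e1 : C (2 - κ) * lap (bk κ u i) = C (2 * κ * (1 - κ)) * pderiv i (eul θ - θ) := by
        have h1 : lap (bk κ u i) = C (2 - κ) * (eul (lap (u i)) + 2 * lap (u i))
            - C κ * (pderiv i (∑ j, X j * lap (u j) + 2 * θ) - lap (u i)) := by
          rw [bk, map_sub lap, lap_C_mul, lap_C_mul, lap_eul, map_sub lap, lap_pd, lap_px]
        have h2 : C (2 - κ) * ∑ j, X j * lap (u j) = C κ * eul θ := by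
          rw [Finset.mul_sum, eul_apply, Finset.mul_sum]
          apply Finset.sum_congr rfl
          intro j _
          have := hlap j
          linear_combination (X j) * this
        have h3 : C (2 - κ) * pderiv i (∑ j, X j * lap (u j)) = C κ * pderiv i (eul θ) := by
          rw [← pderiv_C_mul, h2, pderiv_C_mul]
        have h4 : C (2 - κ) * eul (lap (u i)) = C κ * eul (pderiv i θ) := by
          rw [← eul_C_mul, hlap, eul_C_mul]
        have h5 : pderiv i (2 * θ) = 2 * pderiv i θ := by
          rw [← C2, pderiv_C_mul]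
        rw [h1, pd_add, pd_sub, h5, pd_eul]
        rw [pd_eul] at h3
        have h6 := hlap i
        have h7 : (C (2 * κ * (1 - κ)) : P n) = 2 * C κ * (1 - C κ) := by
          simp only [map_mul, map_sub, map_one, C2]
        have h8 : (C (2 - κ) : P n) = 2 - C κ := by
          rw [map_sub, C2]
        rw [h7]
        rw [h8] at h3 h4 h6 ⊢
        linear_combination (2 - C κ) * h4 + (2 * (2 - C κ) + C κ) * h6 - C κ * h3
      have e2 : lap ((r2 - 1) * pderiv i ψ) = pderiv i (eul θ - θ) := by
        rw [sub_mul, one_mul, map_sub lap, lap_r2_mul, lap_pd, hψh, map_zero, mul_zero, sub_zero, zero_add,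
          ← hψ1, pd_add, pderiv_C_mul, pderiv_C_mul, pd_eul]
        have : (C (2 * (n : ℝ)) : P n) = C (2 * (n : ℝ) - 4) + C 4 := by
          rw [← map_add]; congr 1; ring
        rw [this, show (4 : P n) = C 4 from rfl]
        ring
      rw [e1, e2, sub_self]
    · intro g
      rw [sub_mul, map_sub]
      have e1 : F.S (C (2 - κ) * bk κ u i * g) = 0 := by
        rw [mul_assoc, F.S_C_mul, hb, mul_zero]
      have e2 : F.S (C (2 * κ * (1 - κ)) * ((r2 - 1) * pderiv i ψ) * g) = 0 := by
        have : C (2 * κ * (1 - κ)) * ((r2 - 1) * pderiv i ψ) * g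
          = (1 - r2) * (-(C (2 * κ * (1 - κ)) * pderiv i ψ * g)) := by ring
        rw [this, F.S_one_sub_r2]
      rw [e1, e2, sub_zero]
  -- divergence of the identity
  have hrel : C 2 * eul θ + C (2 - κ) * θ = C (2 * κ) * eul ψ := by
    have h1 : ∑ i, pderiv i (C (2 - κ) * bk κ u i) = ∑ i, pderiv i (C (2 * κ * (1 - κ)) * ((r2 - 1) * pderiv i ψ)) := by
      apply Finset.sum_congr rfl
      intro i _
      rw [hc i]
    simp only [pderiv_C_mul] at h1
    rw [← Finset.mul_sum, ← Finset.mul_sum] at h1
    have e1 : ∑ i, pderiv i ((r2 - 1) * pderiv i ψ) = 2 * eul ψ := by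
      have : ∀ i ∈ Finset.univ, pderiv i ((r2 - 1) * pderiv i ψ) = 2 * (X i * pderiv i ψ) + (r2 - 1) * pderiv i (pderiv i ψ) := by
        intro i _
        rw [pderiv_mul, map_sub, pd_r2, pderiv_one]
        ring
      rw [Finset.sum_congr rfl this, Finset.sum_add_distrib, ← Finset.mul_sum, ← Finset.mul_sum, ← eul_apply,
        ← lap_apply, hψh, mul_zero, add_zero]
    have e2 : ∑ i, pderiv i (bk κ u i) = C (2 - κ) * (eul θ + θ) - C κ * (lap (px u) - θ) := by
      have : ∀ i ∈ Finset.univ, pderiv i (bk κ u i) = C (2 - κ) * pderiv i (eul (u i))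
          - C κ * (pderiv i (pderiv i (px u)) - pderiv i (u i)) := by
        intro i _
        rw [bk, pd_sub, pderiv_C_mul, pderiv_C_mul, pd_sub]
      rw [Finset.sum_congr rfl this, Finset.sum_sub_distrib, ← Finset.mul_sum, ← Finset.mul_sum,
        Finset.sum_sub_distrib, dv_eul, ← lap_apply, ← dv]
    have e3 : C (2 - κ) * lap (px u) = C κ * eul θ + C (2 - κ) * (2 * θ) := by
      rw [lap_px, mul_add, Finset.mul_sum]
      congr 1
      rw [eul_apply, Finset.mul_sum]
      apply Finset.sum_congr rfl
      intro j _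
      have := hlap j
      linear_combination (X j) * this
    rw [e1, e2] at h1
    have h2 : C (2 * (1 - κ)) * (C 2 * eul θ + C (2 - κ) * θ - C (2 * κ) * eul ψ) = 0 := by
      have h7 : (C (2 * κ * (1 - κ)) : P n) = 2 * C κ * (1 - C κ) := by
        simp only [map_mul, map_sub, map_one, C2]
      have h8 : (C (2 - κ) : P n) = 2 - C κ := by
        rw [map_sub, C2]
      have h9 : (C (2 * (1 - κ)) : P n) = 2 * (1 - C κ) := by
        simp only [map_mul, map_sub, map_one, C2]
      have h10 : (C (2 * κ) : P n) = 2 * C κ := by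
        rw [map_mul, C2]
      rw [h7, h8] at h1
      rw [h8] at e3
      rw [h8, h9, h10, C2]
      linear_combination h1 + C κ * e3
    rcases mul_eq_zero.1 h2 with h | h
    · rw [C_eq_zero] at h
      exact absurd h (mul_ne_zero two_ne_zero hκ1)
    · exact sub_eq_zero.1 h
  -- theta vanishes
  have hθ0 : θ = 0 := by
    ext α
    rw [coeff_zero]
    have h1 := congrArg (coeff α) hrel
    rw [coeff_add, coeff_C_mul, coeff_C_mul, coeff_C_mul, coeff_eul, coeff_eul, hψ, coeff_diag] at h1
    have h2 := hden α.degree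
    have h3 := hK α.degree
    simp only [hφ] at h1
    have h4 : ((2 * (α.degree : ℝ) + 2 - κ) * (2 * n - 4 + 4 * α.degree) - 2 * κ * α.degree * (α.degree - 1)) * coeff α θ = 0 := by
      have h5 : (((α.degree : ℝ) - 1) / (2 * n - 4 + 4 * α.degree)) * (2 * n - 4 + 4 * α.degree) = (α.degree : ℝ) - 1 :=
        div_mul_cancel₀ _ h2
      linear_combination (2 * (n : ℝ) - 4 + 4 * α.degree) * h1 + (2 * κ * α.degree * coeff α θ) * h5
    rcases mul_eq_zero.1 h4 with h | h
    · exact absurd h h3
    · exact h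
  have hψ0 : ψ = 0 := by
    ext α
    rw [hψ, coeff_diag, hθ0]
    simp
  have hb0 : ∀ i, bk κ u i = 0 := by
    intro i
    have := hc i
    rw [hψ0, map_zero, mul_zero, mul_zero] at this
    rcases mul_eq_zero.1 this with h | h
    · exact absurd h hC2
    · exact h
  set p := px u with hp
  have hp1 : eul p = p := by
    have h1 : ∑ i, X i * bk κ u i = 0 := by
      apply Finset.sum_eq_zero
      intro i _
      rw [hb0 i, mul_zero]
    have h2 : ∑ i, X i * bk κ u i = C (2 - κ) * (eul p - p) - C κ * (eul p - p) := by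
      have h3 : eul p - p = ∑ i, X i * eul (u i) := by
        rw [hp, px, map_sum, ← Finset.sum_sub_distrib]
        apply Finset.sum_congr rfl
        intro i _
        rw [eul_X_mul]; ring
      have h4 : ∑ i, X i * (pderiv i p - u i) = eul p - p := by
        have : ∀ i ∈ Finset.univ, X i * (pderiv i p - u i) = X i * pderiv i p - X i * u i := by
          intro i _; ring
        rw [Finset.sum_congr rfl this, Finset.sum_sub_distrib, ← eul_apply]
        rfl
      have h5 : ∑ i, X i * bk κ u i = C (2 - κ) * ∑ i, X i * eul (u i) - C κ * ∑ i, X i * (pderiv i p - u i) := by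
        rw [Finset.mul_sum, Finset.mul_sum, ← Finset.sum_sub_distrib]
        apply Finset.sum_congr rfl
        intro i _
        rw [bk]; ring
      rw [h5, ← h3, h4]
    rw [h2, ← sub_mul, ← C_sub] at h1
    rcases mul_eq_zero.1 h1 with h | h
    · rw [C_eq_zero] at h
      exfalso
      linarith
    · exact sub_eq_zero.1 h
  intro i
  have hpi : eul (pderiv i p) = 0 := by
    have h1 := pd_eul i p
    rw [hp1] at h1
    have h2 : pderiv i p = eul (pderiv i p) + pderiv i p := h1
    have h3 : eul (pderiv i p) + pderiv i p = 0 + pderiv i p := by rw [← h2, zero_add]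
    exact add_right_cancel h3
  ext α
  rw [coeff_C]
  split_ifs with hα
  · rw [← hα]
  · have h1 := congrArg (coeff α) (hb0 i)
    rw [bk, coeff_sub, coeff_C_mul, coeff_C_mul, coeff_sub, coeff_eul, coeff_zero] at h1
    have h2 := congrArg (coeff α) hpi
    rw [coeff_eul, coeff_zero] at h2
    have hdeg : α.degree ≠ 0 := by
      rw [ne_eq, Finsupp.degree_eq_zero_iff]
      exact fun h => hα h.symm
    have hdeg' : (α.degree : ℝ) ≠ 0 := by exact_mod_cast hdeg
    have h3 : coeff α (pderiv i p) = 0 := by
      rcases mul_eq_zero.1 h2 with h | h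
      · exact absurd h hdeg'
      · exact h
    rw [← hp, h3] at h1
    have h4 : ((2 - κ) * α.degree + κ) * coeff α (u i) = 0 := by linarith
    rcases mul_eq_zero.1 h4 with h | h
    · exfalso
      have hd1 : 1 ≤ α.degree := Nat.one_le_iff_ne_zero.2 hdeg
      rcases Nat.lt_or_ge α.degree 2 with h5 | h5
      · have : α.degree = 1 := by omega
        rw [this] at h
        push_cast at h
        linarith
      · have h6 : (2 : ℝ) ≤ α.degree := by exact_mod_cast h5
        nlinarith
    · exact h

end Pool.Agent.Helper50.Korn
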